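import Pool.Agent.MEQ.Defs

set_option autoImplicit false

/-! Small common lemmas for the project MEQ (quasi-invariant measures). -/

namespace Pool.Agent.MEQ

open MeasureTheory Set Filter
open scoped ENNReal
open Pool.Agent.MEC
open Pool.Agent.MEP
open Pool.Agent.MEO

universe u

section qi

variable {V : Type u} [MeasurableSpace V] {G K : SimpleGraph V} {l m : ℕ} {ν : Measure V}
  {C : ℝ≥0∞}

/-- the bound for the preimage of an arbitrary set -/
lemma qi_inv (hq : QInv G ν C) {S : V → V} (hm : Measurable S) (hi : ∀ x, S (S x) = x)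
    (ha : ∀ x, S x ≠ x → G.Adj x (S x)) (B : Set V) : ν (S ⁻¹' B) ≤ C * ν B := by
  calc ν (S ⁻¹' B) ≤ ν (S ⁻¹' toMeasurable ν B) :=
        measure_mono (preimage_mono (subset_toMeasurable ν B))
    _ ≤ C * ν (toMeasurable ν B) := hq S hm hi ha _ (measurableSet_toMeasurable ν B)
    _ = C * ν B := by rw [measure_toMeasurable]

lemma qi_S (hq : QInv G ν C) (e : PCol K l) (h : K ≤ G) (k : Fin l) (B : Set V) :
    ν (e.S k ⁻¹' B) ≤ C * ν B :=
  qi_inv hq (e.meas k) (e.invol k) (fun x hx => h (e.adj k x hx)) B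

/-- preimages under words -/
lemma qi_wd (hq : QInv G ν C) (e : PCol G m) (w : List (Fin m)) (B : Set V) :
    ν (wd e w ⁻¹' B) ≤ C ^ w.length * ν B := by
  induction w generalizing B with
  | nil =>
    have h1 : wd e [] ⁻¹' B = B := rfl
    rw [h1, List.length_nil, pow_zero, one_mul]
  | cons k w ih =>
    have h1 : wd e (k :: w) ⁻¹' B = e.S k ⁻¹' (wd e w ⁻¹' B) := rfl
    rw [h1]
    calc ν (e.S k ⁻¹' (wd e w ⁻¹' B)) ≤ C * ν (wd e w ⁻¹' B) := qi_S hq e le_rfl k _
      _ ≤ C * (C ^ w.length * ν B) := by gcongr; exact ih B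
      _ = C ^ (k :: w).length * ν B := by
        rw [List.length_cons, pow_succ]
        ring

lemma wd_image (e : PCol G m) (w : List (Fin m)) (B : Set V) :
    wd e w '' B = wd e w.reverse ⁻¹' B := by
  ext x
  constructor
  · rintro ⟨y, hy, rfl⟩
    rw [mem_preimage, wd_reverse]
    exact hy
  · intro hx
    refine ⟨wd e w.reverse x, hx, ?_⟩
    have := wd_reverse e w.reverse x
    rwa [List.reverse_reverse] at this

/-- images under words -/
lemma qi_img (hq : QInv G ν C) (e : PCol G m) (w : List (Fin m)) (B : Set V) :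
    ν (wd e w '' B) ≤ C ^ w.length * ν B := by
  rw [wd_image]
  have := qi_wd hq e w.reverse B
  rwa [List.length_reverse] at this

lemma wd_null (hq : QInv G ν C) (e : PCol G m) (w : List (Fin m)) {B : Set V} (h : ν B = 0) :
    ν (wd e w ⁻¹' B) = 0 := by
  have := qi_wd hq e w B
  rw [h, mul_zero] at this
  exact nonpos_iff_eq_zero.1 this

/-- almost everywhere on whole components -/
lemma ae_Cq (hq : QInv G ν C) (e : PCol G m) {p : V → Prop} (h : ∀ᵐ x ∂ν, p x) :
    ∀ᵐ b ∂ν, ∀ x ∈ Cm e b, p x := by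
  have h0 : ν {x | ¬ p x} = 0 := h
  have h1 : ∀ w : List (Fin m), ∀ᵐ b ∂ν, p (wd e w b) := fun w => wd_null hq e w h0
  filter_upwards [ae_all_iff.2 h1] with b hb
  rintro x ⟨w, rfl⟩
  exact hb w

/-- a null set meets almost no component -/
lemma ae_Cq_not (hq : QInv G ν C) (e : PCol G m) {A : Set V} (h : ν A = 0) :
    ∀ᵐ b ∂ν, ∀ x ∈ Cm e b, x ∉ A :=
  ae_Cq hq e (measure_eq_zero_iff_ae_notMem.1 h)

/-- the walk of two involutions -/
lemma qi_al (hq : QInv G ν C) {s t : V → V} (hs : Measurable s) (hs2 : ∀ x, s (s x) = x)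
    (hsa : ∀ x, s x ≠ x → G.Adj x (s x)) (ht : Measurable t) (ht2 : ∀ x, t (t x) = x)
    (hta : ∀ x, t x ≠ x → G.Adj x (t x)) (n : ℕ) (B : Set V) :
    ν (al s t n ⁻¹' B) ≤ C ^ n * ν B := by
  induction n generalizing s t B with
  | zero =>
    have h1 : al s t 0 ⁻¹' B = B := rfl
    rw [h1, pow_zero, one_mul]
  | succ n ih =>
    have h1 : al s t (n + 1) ⁻¹' B = s ⁻¹' (al t s n ⁻¹' B) := rfl
    rw [h1]
    calc ν (s ⁻¹' (al t s n ⁻¹' B)) ≤ C * ν (al t s n ⁻¹' B) := qi_inv hq hs hs2 hsa _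
      _ ≤ C * (C ^ n * ν B) := by gcongr; exact ih ht ht2 hta hs hs2 hsa B
      _ = C ^ (n + 1) * ν B := by rw [pow_succ]; ring

lemma measurable_al' {s t : V → V} (hs : Measurable s) (ht : Measurable t) (n : ℕ) :
    Measurable (al s t n) := by
  induction n generalizing s t with
  | zero => exact measurable_id
  | succ n ih => exact (ih ht hs).comp hs

lemma real_le_of [IsFiniteMeasure ν] {K' : ℝ≥0∞} (hK : K' ≠ ⊤) {A B : Set V}
    (h : ν A ≤ K' * ν B) : ν.real A ≤ K'.toReal * ν.real B := by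
  have h1 := ENNReal.toReal_mono (ENNReal.mul_ne_top hK (measure_ne_top ν B)) h
  rwa [ENNReal.toReal_mul] at h1

/-- the region of a set of places -/
lemma real_Rgn_le [IsFiniteMeasure ν] (hq : QInv G ν C) (hC : C ≠ ⊤) (e : PCol G m)
    (W : Finset (List (Fin m))) (J : Set V) :
    ν.real (Rgn e W J) ≤ (∑ w ∈ W, (C ^ w.length).toReal) * ν.real J := by
  have h1 : Rgn e W J ⊆ ⋃ w ∈ W, wd e w '' J := by
    rintro x ⟨b, hb, w, hw, rfl⟩
    simp only [mem_iUnion]
    exact ⟨w, hw, b, hb, rfl⟩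
  refine (measureReal_mono h1 (measure_ne_top _ _)).trans ?_
  refine (measureReal_biUnion_finset_le W _).trans ?_
  rw [Finset.sum_mul]
  exact Finset.sum_le_sum fun w _ => real_le_of (ENNReal.pow_ne_top hC) (qi_img hq e w J)

lemma measurableSet_Rgn (e : PCol G m) (W : Finset (List (Fin m))) {J : Set V}
    (hJ : MeasurableSet J) : MeasurableSet (Rgn e W J) := by
  have h1 : Rgn e W J = ⋃ w ∈ W, wd e w '' J := by
    ext x
    simp only [mem_iUnion]
    constructor
    · rintro ⟨b, hb, w, hw, rfl⟩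
      exact ⟨w, hw, b, hb, rfl⟩
    · rintro ⟨w, hw, b, hb, rfl⟩
      exact ⟨b, hb, w, hw, rfl⟩
  rw [h1]
  exact Finset.measurableSet_biUnion W fun w _ => (wd e w).measurableSet_image.2 hJ

/-- the distance of two colourings which agree off a set -/
lemma dst_le_off [IsFiniteMeasure ν] {c c' : PCol K l} {A : Set V}
    (h : ∀ x, x ∉ A → ∀ k, c'.S k x = c.S k x) : PCol.dst ν c c' ≤ l * ν.real A := by
  unfold PCol.dst
  have h1 : ∀ k : Fin l, ν.real {x | c.S k x ≠ c'.S k x} ≤ ν.real A := by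
    intro k
    refine measureReal_mono ?_
    intro x hx
    by_contra hxA
    exact hx (h x hxA k).symm
  refine (Finset.sum_le_sum fun k _ => h1 k).trans ?_
  rw [Finset.sum_const, Finset.card_univ, Fintype.card_fin, nsmul_eq_mul]

/-- the set of changed points is controlled by the distance -/
lemma real_changed_le [IsFiniteMeasure ν] {c c' : PCol K l} :
    ν.real {x | ∃ k, c.S k x ≠ c'.S k x} ≤ PCol.dst ν c c' := by
  have h1 : {x | ∃ k, c.S k x ≠ c'.S k x} = ⋃ k : Fin l, {x | c.S k x ≠ c'.S k x} := by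
    ext x
    simp
  rw [h1]
  exact measureReal_iUnion_fintype_le _

end qi

section plain

variable {V : Type u} {G : SimpleGraph V} {l : ℕ}

lemma SA.symm {R R' : SimpleGraph V} {x : V} (h : SA R R' x) : SA R' R x :=
  fun y => (h y).symm

lemma SA.trans {R R' R'' : SimpleGraph V} {x : V} (h : SA R R' x) (h' : SA R' R'' x) :
    SA R R'' x := fun y => (h y).trans (h' y)

lemma SA.dg {R R' : SimpleGraph V} {x : V} (h : SA R R' x) : dg R x = dg R' x :=
  dg_congr fun y => h y

lemma apL_nil (R : SimpleGraph V) : apL R [] = R := rfl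

lemma apL_cons (R : SimpleGraph V) (x : Ex V) (σ : List (Ex V)) :
    apL R (x :: σ) = apL (ap R x) σ := rfl

lemma apL_append (R : SimpleGraph V) (σ τ : List (Ex V)) :
    apL R (σ ++ τ) = apL (apL R σ) τ := List.foldl_append

lemma Cld.reach {R : SimpleGraph V} {X : Set V} (h : Cld R X) {x y : V} (hx : x ∈ X)
    (hxy : R.Reachable x y) : y ∈ X := by
  obtain ⟨p⟩ := hxy
  induction p with
  | nil => exact hx
  | cons hadj _ ih => exact ih (h _ hx _ hadj)

lemma Leg.mono {r : ℕ} {X P : Set V} {R : SimpleGraph V} {x : Ex V}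
    (h : Leg G l r X P R x) : Leg G l r ∅ ∅ R x :=
  ⟨h.1, h.2.1, h.2.2.1, fun _ h' => absurd h' (notMem_empty _)⟩

lemma LegL.mono {r : ℕ} {X P : Set V} {R : SimpleGraph V} {σ : List (Ex V)}
    (h : LegL G l r X P R σ) : LegL G l r ∅ ∅ R σ := by
  induction σ generalizing R with
  | nil => exact trivial
  | cons x σ ih => exact ⟨h.1.mono, ih h.2⟩

/-- a step only changes the stars of its three points -/
lemma ap_off {R : SimpleGraph V} {x : Ex V} {y : V} (ha : y ≠ x.a) (hv : y ≠ x.v)
    (hb : y ≠ x.b) : SA (ap R x) R y := by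
  intro z
  unfold ap
  split_ifs <;> simp only [ins_adj, del_adj] <;> tauto

/-- the star after the step only depends on the star before the step -/
lemma ap_congr {R R' : SimpleGraph V} {x : Ex V} {y : V} (h : SA R R' y) :
    SA (ap R x) (ap R' x) y := by
  intro z
  have h1 := h z
  unfold ap
  split_ifs <;> simp only [ins_adj, del_adj] <;> tauto

lemma apL_congr {R R' : SimpleGraph V} {σ : List (Ex V)} {y : V} (h : SA R R' y) :
    SA (apL R σ) (apL R' σ) y := by
  induction σ generalizing R R' with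
  | nil => exact h
  | cons x σ ih => exact ih (ap_congr h)

/-- edges inside `X` off `P` survive every legal sequence of steps -/
lemma LegL.keep {r : ℕ} {X P : Set V} {R : SimpleGraph V} {σ : List (Ex V)}
    (h : LegL G l r X P R σ) {y z : V} (hy : y ∈ X) (hz : z ∈ X) (hyP : y ∉ P) (hzP : z ∉ P)
    (hyz : R.Adj y z) : (apL R σ).Adj y z := by
  induction σ generalizing R with
  | nil => exact hyz
  | cons x σ ih =>
    refine ih h.2 ?_
    have h4 := h.1.2.2.2
    unfold ap
    have key : x.kd ≠ 2 → ¬ ((y = x.a ∧ z = x.b) ∨ (y = x.b ∧ z = x.a)) := by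
      rintro hk (⟨rfl, rfl⟩ | ⟨rfl, rfl⟩)
      · exact (h4 hk hy hz).elim hyP hzP
      · exact (h4 hk hz hy).elim hzP hyP
    split_ifs with h0 h1
    · rw [ins_adj, del_adj]
      exact Or.inl ⟨hyz, key (by rw [h0]; decide)⟩
    · rw [del_adj]
      exact ⟨hyz, key (by rw [h1]; decide)⟩
    · rw [ins_adj]
      exact Or.inl hyz

lemma LegL.take {r : ℕ} {X P : Set V} {R : SimpleGraph V} {σ : List (Ex V)}
    (h : LegL G l r X P R σ) (n : ℕ) : LegL G l r X P R (σ.take n) := by
  induction σ generalizing R n with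
  | nil => simp [LegL]
  | cons x σ ih =>
    cases n with
    | zero => simp [LegL]
    | succ n => exact ⟨h.1, ih h.2 n⟩

end plain

end Pool.Agent.MEQ
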