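import Pool.Agent.MEQ.Targets
import Pool.Agent.MEQ.Base
import Pool.Agent.MEO.ORB

set_option autoImplicit false

/-! MP_fff3e1_lc, target tBDN: at a continuity point the bi-infinite strands without
transversal are null. -/

namespace Pool.Agent.MEQ

open MeasureTheory Set Filter
open scoped ENNReal
open Pool.Agent.MEC
open Pool.Agent.MEP
open Pool.Agent.MEO

universe u

namespace BDN_

/-! ### Strands -/

section strands

variable {V : Type u}

lemma flp_flp (p : V × Bool) : flp (flp p) = p := by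
  unfold flp
  simp

lemma flp_snd (p : V × Bool) : (flp p).2 = !p.2 := rfl

lemma flp_ne (p : V × Bool) : flp p ≠ p := by
  intro h
  have := congrArg Prod.snd h
  rw [flp_snd] at this
  simp at this

lemma measurable_flp [MeasurableSpace V] : Measurable (flp : V × Bool → V × Bool) := by
  unfold flp
  exact measurable_fst.prodMk ((measurable_of_countable (fun i : Bool => !i)).comp
    measurable_snd)

variable {s s' : V × Bool → V × Bool} {X J : Set (V × Bool)}

/-- one step backwards along the strand -/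
def bk (s : V × Bool → V × Bool) (hs : ∀ x, s (s x) = x) : Equiv.Perm (V × Bool) where
  toFun x := s (flp x)
  invFun x := flp (s x)
  left_inv x := by
    change flp (s (s (flp x))) = x
    rw [hs, flp_flp]
  right_inv x := by
    change s (flp (flp (s x))) = x
    rw [flp_flp, hs]

lemma bk_apply (hs : ∀ x, s (s x) = x) (x : V × Bool) : bk s hs x = s (flp x) := rfl

lemma bk_inv (hs : ∀ x, s (s x) = x) (x : V × Bool) : (bk s hs)⁻¹ x = flp (s x) := rfl

lemma bk_succ (hs : ∀ x, s (s x) = x) (k : ℤ) (x : V × Bool) :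
    (bk s hs ^ (k + 1)) x = s (flp ((bk s hs ^ k) x)) := by
  rw [add_comm, zpow_add, zpow_one, Equiv.Perm.mul_apply, bk_apply]

lemma bk_pred (hs : ∀ x, s (s x) = x) (k : ℤ) (x : V × Bool) :
    (bk s hs ^ (k - 1)) x = flp (s ((bk s hs ^ k) x)) := by
  rw [sub_eq_add_neg, add_comm, zpow_add, zpow_neg_one, Equiv.Perm.mul_apply, bk_inv]

/-- the strand of `x` -/
lemma reach (hs : ∀ x, s (s x) = x) {x y : V × Bool} (h : (SG s flp).Reachable x y) :
    ∃ k : ℤ, y = (bk s hs ^ k) x ∨ y = flp ((bk s hs ^ k) x) := by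
  obtain ⟨w⟩ := h
  have key : ∀ a b, (SG s flp).Walk a b →
      (∃ k : ℤ, a = (bk s hs ^ k) x ∨ a = flp ((bk s hs ^ k) x)) →
      ∃ k : ℤ, b = (bk s hs ^ k) x ∨ b = flp ((bk s hs ^ k) x) := by
    intro a b w
    induction w with
    | nil => exact fun h => h
    | @cons a b d hab w ih =>
      rintro ⟨k, hk⟩
      apply ih
      rcases hab.2 with ⟨h1, -⟩ | ⟨h1, -⟩
      · rcases hk with hk | hk
        · refine ⟨k - 1, Or.inr ?_⟩
          rw [bk_pred, flp_flp, h1, hk]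
        · refine ⟨k + 1, Or.inl ?_⟩
          rw [bk_succ, h1, hk]
      · rcases hk with hk | hk
        · exact ⟨k, Or.inr (by rw [h1, hk])⟩
        · exact ⟨k, Or.inl (by rw [h1, hk, flp_flp])⟩
  exact key x y w ⟨0, Or.inl rfl⟩

/-- left points of `X` stay left points of `X` -/
lemma left (hs : ∀ x, s (s x) = x) (hXs : ∀ x ∈ X, s x ∈ X) (hXf : ∀ x ∈ X, flp x ∈ X)
    (h2 : ∀ x ∈ X, (s x).2 = !x.2) {x : V × Bool} (hx : x ∈ X) (hx2 : x.2 = false) (k : ℤ) :
    (bk s hs ^ k) x ∈ X ∧ ((bk s hs ^ k) x).2 = false := by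
  induction k with
  | zero => exact ⟨hx, hx2⟩
  | succ k ih =>
    rw [bk_succ]
    refine ⟨hXs _ (hXf _ ih.1), ?_⟩
    rw [h2 _ (hXf _ ih.1), flp_snd, ih.2]
    rfl
  | pred k ih =>
    rw [bk_pred]
    refine ⟨hXf _ (hXs _ ih.1), ?_⟩
    rw [flp_snd, h2 _ ih.1, ih.2]
    rfl

/-- a strand with a changed point behind `x` is not bad at `x` -/
lemma not_bad (hs : ∀ x, s (s x) = x) (hs' : ∀ x, s' (s' x) = x)
    (hXs : ∀ x ∈ X, s x ∈ X) (hXf : ∀ x ∈ X, flp x ∈ X) (h2 : ∀ x ∈ X, (s x).2 = !x.2)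
    (hJ : ∀ z ∈ J, s' (s z) = s z) (hX : ∀ y ∈ X, y.2 = false → y ∉ J → s' y = s y)
    (k : ℕ) {x : V × Bool} (hx : x ∈ X) (hx2 : x.2 = false)
    (hk : (bk s hs)^[k + 1] x ∈ J) : x ∉ Bad s' flp := by
  induction k generalizing x with
  | zero =>
    intro hb
    have h3 : s (flp x) ∈ J := hk
    have h4 := hJ _ h3
    rw [hs] at h4
    exact ORB_.bad_ne (ORB_.bad_t hs' flp_flp hb) h4
  | succ k ih =>
    intro hb
    have hy : s (flp x) ∈ X := hXs _ (hXf _ hx)
    have hy2 : (s (flp x)).2 = false := by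
      rw [h2 _ (hXf _ hx), flp_snd, hx2]
      rfl
    by_cases h3 : s (flp x) ∈ J
    · have h4 := hJ _ h3
      rw [hs] at h4
      exact ORB_.bad_ne (ORB_.bad_t hs' flp_flp hb) h4
    · have h4 := hX _ hy hy2 h3
      rw [hs] at h4
      have h5 : s' (flp x) = s (flp x) := by
        rw [← h4, hs']
        exact h4.symm ▸ rfl
      refine ih hy hy2 ?_ ?_
      · rw [Function.iterate_succ_apply] at hk
        exact hk
      · rw [← h5]
        exact ORB_.bad_s hs' flp_flp (ORB_.bad_t hs' flp_flp hb)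

/-- points without a point of `J` behind them are in the strand of a first point of `J` -/
lemma first (hs : ∀ x, s (s x) = x) (hXs : ∀ x ∈ X, s x ∈ X) (hXf : ∀ x ∈ X, flp x ∈ X)
    (h2 : ∀ x ∈ X, (s x).2 = !x.2) (hJ2 : ∀ x ∈ J, x.2 = false)
    {x y : V × Bool} (hx : x ∈ X) (hx2 : x.2 = false) (hy : y ∈ J)
    (hxy : (SG s flp).Reachable x y) (hk : ∀ k : ℕ, (bk s hs)^[k + 1] x ∉ J) :
    ∃ i : ℤ, (bk s hs ^ i) x ∈ J ∧ ∀ k : ℕ, (bk s hs)^[k + 1] ((bk s hs ^ i) x) ∉ J := by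
  obtain ⟨j, hj⟩ := reach hs hxy
  have hl := left hs hXs hXf h2 hx hx2
  have hj' : (bk s hs ^ j) x ∈ J := by
    rcases hj with hj | hj
    · rw [← hj]
      exact hy
    · have h3 := hJ2 y hy
      rw [hj, flp_snd, (hl j).2] at h3
      exact absurd h3 (by decide)
  have hbd : ∀ z : ℤ, (bk s hs ^ z) x ∈ J → z ≤ 0 := by
    intro z hz
    by_contra hlt
    push Not at hlt
    obtain ⟨k, hk'⟩ : ∃ k : ℕ, z = ((k + 1 : ℕ) : ℤ) := ⟨(z - 1).toNat, by omega⟩
    apply hk k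
    rw [hk', zpow_natCast, ← Equiv.Perm.iterate_eq_pow] at hz
    exact hz
  obtain ⟨i, hi, hmax⟩ := Int.exists_greatest_of_bdd (P := fun z => (bk s hs ^ z) x ∈ J)
    ⟨0, hbd⟩ ⟨j, hj'⟩
  refine ⟨i, hi, fun k hk' => ?_⟩
  rw [Equiv.Perm.iterate_eq_pow, ← zpow_natCast, ← Equiv.Perm.mul_apply, ← zpow_add] at hk'
  have := hmax _ hk'
  omega

/-- the first points form a transversal of their strands -/
lemma first_pt (hs : ∀ x, s (s x) = x) (hXs : ∀ x ∈ X, s x ∈ X) (hXf : ∀ x ∈ X, flp x ∈ X)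
    (h2 : ∀ x ∈ X, (s x).2 = !x.2) (hJX : J ⊆ X) (hJ2 : ∀ x ∈ J, x.2 = false) :
    PT (SG s flp) {x | x ∈ J ∧ ∀ k : ℕ, (bk s hs)^[k + 1] x ∉ J} := by
  rintro x ⟨hx, hx1⟩ y ⟨hy, hy1⟩ hxy
  obtain ⟨j, hj⟩ := reach hs hxy
  have hl := left hs hXs hXf h2 (hJX hx) (hJ2 x hx)
  have hj' : y = (bk s hs ^ j) x := by
    rcases hj with hj | hj
    · exact hj
    · have h3 := hJ2 y hy
      rw [hj, flp_snd, (hl j).2] at h3
      exact absurd h3 (by decide)
  rcases lt_trichotomy j 0 with h | h | h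
  · obtain ⟨k, hk⟩ : ∃ k : ℕ, -j = ((k + 1 : ℕ) : ℤ) := ⟨(-j - 1).toNat, by omega⟩
    exfalso
    apply hy1 k
    rw [Equiv.Perm.iterate_eq_pow, ← zpow_natCast, ← hk, hj', ← Equiv.Perm.mul_apply,
      ← zpow_add, neg_add_cancel, zpow_zero]
    exact hx
  · rw [hj', h, zpow_zero]
    rfl
  · obtain ⟨k, hk⟩ : ∃ k : ℕ, j = ((k + 1 : ℕ) : ℤ) := ⟨(j - 1).toNat, by omega⟩
    exfalso
    apply hx1 k
    rw [Equiv.Perm.iterate_eq_pow, ← zpow_natCast, ← hk, ← hj']
    exact hy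

end strands

/-! ### Codes -/

/-- a list of pairs of words: the point with the first word gets the point with the second
word as new partner -/
abbrev Code (n : ℕ) : Type := List (List (Fin n) × List (Fin n))

section codes

variable {U : Type u} [MeasurableSpace U] {P K : SimpleGraph U} {n : ℕ}

/-- the code describes a modification of `s` at `b` -/
structure Gd (K : SimpleGraph U) (e : PCol P n) (s : U → U) (L X : Set U) (σ : Code n)
    (b : U) : Prop where
  mX : b ∈ X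
  mL : b ∈ L
  wdf : ∀ q ∈ σ, ∀ q' ∈ σ, wd e q.1 b = wd e q'.1 b → wd e q.2 b = wd e q'.2 b
  inv : ∀ q ∈ σ, ∃ q' ∈ σ, wd e q'.1 b = wd e q.2 b ∧ wd e q'.2 b = wd e q.1 b
  adj : ∀ q ∈ σ, wd e q.2 b ≠ wd e q.1 b → K.Adj (wd e q.1 b) (wd e q.2 b)
  cls : ∀ q ∈ σ, ∃ q' ∈ σ, wd e q'.1 b = s (wd e q.1 b)
  fre : ∃ q ∈ σ, wd e q.1 b = s b ∧ wd e q.2 b = s b
  off : ∀ q ∈ σ, wd e q.1 b ∈ X → wd e q.1 b ≠ b → wd e q.1 b ≠ s b →
    wd e q.2 b = s (wd e q.1 b)
  cov : ∀ q ∈ σ, wd e q.1 b ∈ L → s (wd e q.1 b) ≠ wd e q.1 b → wd e q.2 b ≠ wd e q.1 b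

/-- every finite modification in the component has a code -/
lemma exists_code {e : PCol P n} {s s' : U → U} {L X : Set U} {b : U} (hbX : b ∈ X)
    (hbL : b ∈ L) (hs : ∀ x, s (s x) = x) (hs' : ∀ x, s' (s' x) = x)
    (hfin : {x | s' x ≠ s x}.Finite) (hC : ∀ x, s' x ≠ s x → x ∈ Cm e b)
    (hadj : ∀ x, s' x ≠ x → K.Adj x (s' x)) (hsb : s b ≠ b) (hfre : s' (s b) = s b)
    (hoff : ∀ y ∈ Cm e b, y ∈ X → y ≠ b → y ≠ s b → s' y = s y)
    (hcov : ∀ x ∈ L, s x ≠ x → s' x ≠ x) : ∃ σ : Code n, Gd K e s L X σ b := by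
  classical
  have hw : ∀ x, ∃ w, x ∈ Cm e b → wd e w b = x := by
    intro x
    by_cases h : x ∈ Cm e b
    · obtain ⟨w, hw⟩ := h
      exact ⟨w, fun _ => hw⟩
    · exact ⟨[], fun h' => absurd h' h⟩
  choose ω hω using hw
  have hD1 : ∀ x, s' x ≠ s x → s' (s' x) ≠ s (s' x) := by
    intro x hx h
    rw [hs'] at h
    have := congrArg s h
    rw [hs] at this
    exact hx this.symm
  have hD2 : ∀ x, s' x ≠ s x → s' (s x) ≠ s (s x) := by
    intro x hx h
    rw [hs] at h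
    have := congrArg s' h
    rw [hs'] at this
    exact hx this.symm
  let σ : Code n := hfin.toFinset.toList.map fun x => (ω x, ω (s' x))
  have hσ : ∀ q ∈ σ, ∃ x, s' x ≠ s x ∧ wd e q.1 b = x ∧ wd e q.2 b = s' x := by
    intro q hq
    obtain ⟨x, hx, rfl⟩ := List.mem_map.1 hq
    have hx' : s' x ≠ s x := by
      have := Finset.mem_toList.1 hx
      exact (Set.Finite.mem_toFinset hfin).1 this
    exact ⟨x, hx', hω x (hC x hx'), hω _ (hC _ (hD1 x hx'))⟩
  have hσ' : ∀ x, s' x ≠ s x → ∃ q ∈ σ, wd e q.1 b = x ∧ wd e q.2 b = s' x := by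
    intro x hx
    refine ⟨(ω x, ω (s' x)), List.mem_map.2 ⟨x, ?_, rfl⟩, hω x (hC x hx),
      hω _ (hC _ (hD1 x hx))⟩
    exact Finset.mem_toList.2 ((Set.Finite.mem_toFinset hfin).2 hx)
  refine ⟨σ, hbX, hbL, ?_, ?_, ?_, ?_, ?_, ?_, ?_⟩
  · intro q hq q' hq' h
    obtain ⟨x, -, h1, h2⟩ := hσ q hq
    obtain ⟨x', -, h1', h2'⟩ := hσ q' hq'
    rw [h2, h2', ← h1, ← h1', h]
  · intro q hq
    obtain ⟨x, hx, h1, h2⟩ := hσ q hq
    obtain ⟨q', hq', h1', h2'⟩ := hσ' _ (hD1 x hx)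
    exact ⟨q', hq', by rw [h1', h2], by rw [h2', h1, hs']⟩
  · intro q hq h
    obtain ⟨x, hx, h1, h2⟩ := hσ q hq
    rw [h1, h2] at h ⊢
    exact hadj x h
  · intro q hq
    obtain ⟨x, hx, h1, h2⟩ := hσ q hq
    obtain ⟨q', hq', h1', -⟩ := hσ' _ (hD2 x hx)
    exact ⟨q', hq', by rw [h1', h1]⟩
  · have hx : s' (s b) ≠ s (s b) := by
      rw [hfre, hs]
      exact hsb
    obtain ⟨q, hq, h1, h2⟩ := hσ' _ hx
    exact ⟨q, hq, h1, by rw [h2, hfre]⟩
  · intro q hq h3 h4 h5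
    obtain ⟨x, hx, h1, h2⟩ := hσ q hq
    rw [h1] at h3 h4 h5 ⊢
    rw [h2]
    exact hoff x (hC x hx) h3 h4 h5
  · intro q hq h3 h4
    obtain ⟨x, hx, h1, h2⟩ := hσ q hq
    rw [h1] at h3 h4 ⊢
    rw [h2]
    exact hcov x h3 h4

/-- the set of the points at which a code is good is measurable -/
lemma measurable_Gd [StandardBorelSpace U] (e : PCol P n) {s : U → U} {L X : Set U}
    (hK : MeasurableSet {p : U × U | K.Adj p.1 p.2}) (hsm : Measurable s)
    (hL : MeasurableSet L) (hX : MeasurableSet X) (σ : Code n) :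
    MeasurableSet {b | Gd K e s L X σ b} := by
  have hw : ∀ w : List (Fin n), Measurable (wd e w) := fun w => (wd e w).measurable
  have heq : ∀ f g : U → U, Measurable f → Measurable g →
      Measurable fun b => f b = g b := fun f g hf hg =>
    measurableSet_setOfPred.1 (measurableSet_eq_fun hf hg)
  have hmem : ∀ (f : U → U) (A : Set U), Measurable f → MeasurableSet A →
      Measurable fun b => f b ∈ A := fun f A hf hA =>
    measurableSet_setOfPred.1 (hf hA)
  have hadj : ∀ f g : U → U, Measurable f → Measurable g →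
      Measurable fun b => K.Adj (f b) (g b) := fun f g hf hg =>
    measurableSet_setOfPred.1 ((hf.prodMk hg) hK)
  have h1 : {b | Gd K e s L X σ b} = {b | b ∈ X ∧ b ∈ L ∧
      (∀ q, q ∈ σ → ∀ q', q' ∈ σ → wd e q.1 b = wd e q'.1 b → wd e q.2 b = wd e q'.2 b) ∧
      (∀ q, q ∈ σ → ∃ q', q' ∈ σ ∧ wd e q'.1 b = wd e q.2 b ∧ wd e q'.2 b = wd e q.1 b) ∧
      (∀ q, q ∈ σ → ¬ (wd e q.2 b = wd e q.1 b) → K.Adj (wd e q.1 b) (wd e q.2 b)) ∧
      (∀ q, q ∈ σ → ∃ q', q' ∈ σ ∧ wd e q'.1 b = s (wd e q.1 b)) ∧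
      (∃ q, q ∈ σ ∧ wd e q.1 b = s b ∧ wd e q.2 b = s b) ∧
      (∀ q, q ∈ σ → wd e q.1 b ∈ X → ¬ (wd e q.1 b = b) → ¬ (wd e q.1 b = s b) →
        wd e q.2 b = s (wd e q.1 b)) ∧
      (∀ q, q ∈ σ → wd e q.1 b ∈ L → ¬ (s (wd e q.1 b) = wd e q.1 b) →
        ¬ (wd e q.2 b = wd e q.1 b))} := by
    ext b
    constructor
    · intro h
      exact ⟨h.mX, h.mL, h.wdf, h.inv, h.adj, h.cls, h.fre, h.off, h.cov⟩
    · rintro ⟨h1, h2, h3, h4, h5, h6, h7, h8, h9⟩
      exact ⟨h1, h2, h3, h4, h5, h6, h7, h8, h9⟩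
  rw [h1, measurableSet_setOfPred]
  refine (hmem _ _ measurable_id hX).and ((hmem _ _ measurable_id hL).and (Measurable.and ?_
    (Measurable.and ?_ (Measurable.and ?_ (Measurable.and ?_ (Measurable.and ?_
      (Measurable.and ?_ ?_)))))))
  · exact Measurable.forall fun q => measurable_const.imp (Measurable.forall fun q' =>
      measurable_const.imp ((heq _ _ (hw _) (hw _)).imp (heq _ _ (hw _) (hw _))))
  · exact Measurable.forall fun q => measurable_const.imp (Measurable.exists fun q' =>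
      measurable_const.and ((heq _ _ (hw _) (hw _)).and (heq _ _ (hw _) (hw _))))
  · exact Measurable.forall fun q => measurable_const.imp ((heq _ _ (hw _) (hw _)).not.imp
      (hadj _ _ (hw _) (hw _)))
  · exact Measurable.forall fun q => measurable_const.imp (Measurable.exists fun q' =>
      measurable_const.and (heq _ _ (hw _) (hsm.comp (hw _))))
  · exact Measurable.exists fun q => measurable_const.and ((heq _ _ (hw _) hsm).and
      (heq _ _ (hw _) hsm))
  · exact Measurable.forall fun q => measurable_const.imp ((hmem _ _ (hw _) hX).imp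
      ((heq _ _ (hw _) measurable_id).not.imp ((heq _ _ (hw _) hsm).not.imp
        (heq _ _ (hw _) (hsm.comp (hw _))))))
  · exact Measurable.forall fun q => measurable_const.imp ((hmem _ _ (hw _) hL).imp
      ((heq _ _ (hsm.comp (hw _)) (hw _)).not.imp (heq _ _ (hw _) (hw _)).not))

/-- the words of a code -/
def wds {n : ℕ} (σ : Code n) : Finset (List (Fin n)) := (σ.map Prod.fst).toFinset

lemma mem_wds {σ : Code n} {q : List (Fin n) × List (Fin n)} (hq : q ∈ σ) : q.1 ∈ wds σ := by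
  unfold wds
  rw [List.mem_toFinset]
  exact List.mem_map.2 ⟨q, hq, rfl⟩

lemma of_mem_wds {σ : Code n} {w : List (Fin n)} (hw : w ∈ wds σ) : ∃ q ∈ σ, q.1 = w := by
  unfold wds at hw
  rw [List.mem_toFinset] at hw
  exact List.mem_map.1 hw

/-- the modification with code `σ` at all points of `J` -/
lemma modify (e : PCol P n) (M : PCol K 1) {L X J : Set U} (σ : Code n)
    (hJm : MeasurableSet J) (hJ : ∀ b ∈ J, Gd K e (M.S 0) L X σ b) (hS : Spr e (wds σ) J) :
    ∃ M' : PCol K 1, (∀ b ∈ J, ∀ q ∈ σ, M'.S 0 (wd e q.1 b) = wd e q.2 b) ∧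
      ∀ x, x ∉ Rgn e (wds σ) J → M'.S 0 x = M.S 0 x := by
  classical
  set s := M.S 0 with hs0
  have hs : ∀ x, s (s x) = x := M.invol 0
  let S : U → U := fun x =>
    if h : ∃ y, ∃ b ∈ J, ∃ q ∈ σ, wd e q.1 b = x ∧ wd e q.2 b = y then h.choose else s x
  have hin : ∀ b ∈ J, ∀ q ∈ σ, S (wd e q.1 b) = wd e q.2 b := by
    intro b hb q hq
    have h : ∃ y, ∃ b' ∈ J, ∃ q' ∈ σ, wd e q'.1 b' = wd e q.1 b ∧ wd e q'.2 b' = y :=
      ⟨_, b, hb, q, hq, rfl, rfl⟩
    have h1 : S (wd e q.1 b) = h.choose := dif_pos h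
    obtain ⟨b', hb', q', hq', h2, h3⟩ := h.choose_spec
    have hbb : b' = b := hS b' hb' b hb q'.1 (mem_wds hq') q.1 (mem_wds hq) h2
    subst hbb
    rw [h1, ← h3]
    exact (hJ b' hb').wdf q' hq' q hq h2
  have hmemR : ∀ b ∈ J, ∀ q ∈ σ, wd e q.1 b ∈ Rgn e (wds σ) J := fun b hb q hq =>
    ⟨b, hb, q.1, mem_wds hq, rfl⟩
  have hof : ∀ x ∈ Rgn e (wds σ) J, ∃ b ∈ J, ∃ q ∈ σ, wd e q.1 b = x := by
    rintro x ⟨b, hb, w, hw, h⟩
    obtain ⟨q, hq, rfl⟩ := of_mem_wds hw
    exact ⟨b, hb, q, hq, h⟩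
  have hout : ∀ x, x ∉ Rgn e (wds σ) J → S x = s x := by
    intro x hx
    refine dif_neg ?_
    rintro ⟨y, b, hb, q, hq, h1, -⟩
    apply hx
    rw [← h1]
    exact hmemR b hb q hq
  have hsR : ∀ x ∈ Rgn e (wds σ) J, s x ∈ Rgn e (wds σ) J := by
    intro x hx
    obtain ⟨b, hb, q, hq, rfl⟩ := hof x hx
    obtain ⟨q', hq', h1⟩ := (hJ b hb).cls q hq
    rw [← h1]
    exact hmemR b hb q' hq'
  have hinv : ∀ x, S (S x) = x := by
    intro x
    by_cases hx : x ∈ Rgn e (wds σ) J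
    · obtain ⟨b, hb, q, hq, rfl⟩ := hof x hx
      obtain ⟨q', hq', h1, h2⟩ := (hJ b hb).inv q hq
      rw [hin b hb q hq, ← h1, hin b hb q' hq', h2]
    · have h1 : s x ∉ Rgn e (wds σ) J := by
        intro h
        apply hx
        have := hsR _ h
        rwa [hs] at this
      rw [hout x hx, hout _ h1, hs]
  have hadj : ∀ x, S x ≠ x → K.Adj x (S x) := by
    intro x
    by_cases hx : x ∈ Rgn e (wds σ) J
    · obtain ⟨b, hb, q, hq, rfl⟩ := hof x hx
      rw [hin b hb q hq]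
      exact (hJ b hb).adj q hq
    · rw [hout x hx]
      exact M.adj 0 x
  have hmeas : Measurable S := by
    intro B hB
    have h1 : S ⁻¹' B = (⋃ q ∈ {q | q ∈ σ}, wd e q.1 '' (J ∩ wd e q.2 ⁻¹' B)) ∪
        ((Rgn e (wds σ) J)ᶜ ∩ s ⁻¹' B) := by
      ext x
      simp only [mem_preimage, mem_union, mem_iUnion, mem_inter_iff, mem_compl_iff]
      constructor
      · intro hx
        by_cases hR : x ∈ Rgn e (wds σ) J
        · left
          obtain ⟨b, hb, q, hq, rfl⟩ := hof x hR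
          rw [hin b hb q hq] at hx
          exact ⟨q, hq, b, ⟨hb, hx⟩, rfl⟩
        · right
          rw [hout x hR] at hx
          exact ⟨hR, hx⟩
      · rintro (⟨q, hq, b, ⟨hb, hx⟩, rfl⟩ | ⟨hR, hx⟩)
        · rw [hin b hb q hq]
          exact hx
        · rw [hout x hR]
          exact hx
    rw [h1]
    refine MeasurableSet.union (MeasurableSet.biUnion (Set.to_countable _) fun q _ => ?_)
      ((measurableSet_Rgn e _ hJm).compl.inter (M.meas 0 hB))
    exact (wd e q.1).measurableSet_image.2 (hJm.inter ((wd e q.2).measurable hB))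
  exact ⟨{ S := fun _ => S
           meas := fun _ => hmeas
           invol := fun _ => hinv
           adj := fun _ => hadj
           disj := fun _ _ _ _ _ => Subsingleton.elim _ _ }, hin, hout⟩

end codes

/-! ### Existence of codes -/

/-- the pointwise part: a modification with a free point on a strand in `X` -/
lemma point (h_AUG : tAUG.{u}) {V : Type u} [MeasurableSpace V] {R : SimpleGraph V}
    {r n : ℕ} (e : PCol (DP R {x | dg R x = r}) n) (he : Lab e)
    {s : V × Bool → V × Bool} (hs : ∀ x, s (s x) = x)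
    (hsa : ∀ x, s x ≠ x → (DK R {x | dg R x = r}).Adj x (s x)) {X : Set (V × Bool)}
    (hbip : ∀ x y, (DK R {x | dg R x = r}).Adj x y →
      (x ∈ {p : V × Bool | p.2 = false ∧ dg R p.1 = r} ↔
        y ∉ {p : V × Bool | p.2 = false ∧ dg R p.1 = r}))
    (hXs : ∀ x ∈ X, s x ∈ X) (hXf : ∀ x ∈ X, flp x ∈ X) (hne : ∀ x ∈ X, s x ≠ x)
    {b : V × Bool} (hb : b ∈ X)
    (hNF : ∀ x ∈ Cm e b, x ∉ NF (DK R {x | dg R x = r}) {p | p.2 = false ∧ dg R p.1 = r} s) :
    ∃ x ∈ Cm e b, ∃ σ : Code n, Gd (DK R {x | dg R x = r}) e s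
      {p | p.2 = false ∧ dg R p.1 = r} X σ x := by
  classical
  set K := DK R {x | dg R x = r} with hK
  set L := {p : V × Bool | p.2 = false ∧ dg R p.1 = r} with hLdef
  have hcl : ∀ x ∈ Cm e b, ∀ y, (DP R {x | dg R x = r}).Adj x y → y ∈ Cm e b :=
    fun x hx y hy => ORB_.mem_adj he hx hy
  have hflC : ∀ x ∈ Cm e b, flp x ∈ Cm e b := fun x hx => hcl x hx _ (Or.inr ⟨rfl, by
    unfold flp
    cases x.2 <;> simp⟩)
  have hsC : ∀ x ∈ Cm e b, s x ∈ Cm e b := by
    intro x hx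
    by_cases h : s x = x
    · rw [h]; exact hx
    · exact hcl x hx _ (Or.inl (hsa x h))
  -- a left point
  have hleft : ∃ p, p ∈ Cm e b ∧ p ∈ X ∧ p ∈ L := by
    have key : ∀ p, p ∈ X → p.2 = false → p ∈ L := fun p hp h2 =>
      ⟨h2, (hsa p (hne p hp)).2.2.1 h2⟩
    cases hb2 : b.2 with
    | false => exact ⟨b, ORB_.self_mem e b, hb, key b hb hb2⟩
    | true =>
      refine ⟨flp b, hflC b (ORB_.self_mem e b), hXf b hb, key _ (hXf b hb) ?_⟩
      unfold flp
      simp [hb2]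
  have hex : ∃ n, ∃ p, p ∈ Cm e b ∧ p ∈ X ∧ p ∈ L ∧ ∃ y, K.Adj p y ∧ y ∈ EL K L s n := by
    obtain ⟨p, h1, h2, h3⟩ := hleft
    have h4 := hsa p (hne p h2)
    have h5 : s p ∉ L := (hbip _ _ h4).1 h3
    have h6 := hNF (s p) (hsC p h1)
    by_contra hcon
    push Not at hcon
    exact h6 ⟨h5, fun j => hcon j p h1 h2 h3 _ h4⟩
  obtain ⟨x0, hx0C, hx0X, hx0L, hx0y⟩ := Nat.find_spec hex
  set N := Nat.find hex with hn
  have hmin : ∀ j < N, ∀ p, p ∈ Cm e b → p ∈ X → p ∈ L → ∀ y, K.Adj p y →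
      y ∉ EL K L s j := by
    intro j hj p h1 h2 h3 y h4 h5
    exact Nat.find_min hex hj ⟨p, h1, h2, h3, y, h4, h5⟩
  obtain ⟨s', hs', hsa', hfin, hreach, -, hcov, -, hz, -, hch⟩ := h_AUG (V × Bool) K L s
    hbip hs hsa x0 hx0L N hx0y (fun y hy j hj => hmin j hj x0 hx0C hx0X hx0L y hy)
  have hne0 : s x0 ≠ x0 := hne x0 hx0X
  have hCC : ∀ x ∈ Cm e x0, x ∈ Cm e b := by
    rintro x ⟨w, rfl⟩
    obtain ⟨w', hw'⟩ := hx0C
    refine ⟨w' ++ w, ?_⟩
    rw [ORB_.wd_append, hw']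
  have hreachC : ∀ x, K.Reachable x0 x → x ∈ Cm e x0 := by
    rintro x ⟨w⟩
    have key : ∀ a c, K.Walk a c → a ∈ Cm e x0 → c ∈ Cm e x0 := by
      intro a c w
      induction w with
      | nil => exact fun h => h
      | cons hab w ih => exact fun h => ih (ORB_.mem_adj he h (Or.inl hab))
    exact key _ _ w (ORB_.self_mem e x0)
  refine ⟨x0, hx0C, exists_code hx0X hx0L hs hs' hfin
    (fun x hx => hreachC x (hreach x hx)) hsa' hne0 (hz hne0) ?_ hcov⟩
  intro y hyC hyX h1 h2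
  have hyC' := hCC y hyC
  by_contra h3
  obtain ⟨h4, h5⟩ := hch y h3 h1 h2
  by_cases hyL : y ∈ L
  · obtain ⟨j, hj, y', h6, h7⟩ := h5 hyL
    exact hmin j hj y hyC' hyX hyL y' h6 h7
  · obtain ⟨j, hj, h6⟩ := h4 hyL
    have hyne : s y ≠ y := hne y hyX
    cases j with
    | zero => exact hyne h6.2
    | succ j =>
      rcases h6.2 with h7 | ⟨y', h7, h8⟩
      · exact hyne h7
      · have hsyL : s y ∈ L := by
          by_contra h9
          exact hyL ((hbip _ _ (hsa y hyne)).2 h9)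
        exact hmin j (by omega) (s y) (hsC y hyC') (hXs y hyX) hsyL y' h7 h8

end BDN_

open BDN_

theorem allBDN (h_AUG : tAUG.{u}) (h_MES : tMES.{u}) (h_SPR : tSPR.{u}) (h_VAQ : tVAQ.{u})
    (h_QDB : tQDB.{u}) : tBDN.{u} := by
  intro V _ _ G m e ν _ C r n R hLab hQ hC hr hRG hRm hdeg
  classical
  have hfinD := ORB_.fin_dbl ν
  set F : Set V := {x | dg R x = r} with hF
  set K := DK R F with hK
  set P := DP R F with hP
  set L := {p : V × Bool | p.2 = false ∧ dg R p.1 = r} with hLdef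
  set μ := dbl ν with hμ
  intro eP M hLabP hQL hStb hNF X hXB hXm hXc hXN
  set s := M.S 0 with hs0
  have hs : ∀ x, s (s x) = x := M.invol 0
  have hsa : ∀ x, s x ≠ x → K.Adj x (s x) := M.adj 0
  have hsm : Measurable s := M.meas 0
  -- quasi-invariance of the doubled measure
  obtain ⟨C', hC', hQ'⟩ := h_QDB V G m e ν C hLab hQ hC
  have hQP : QInv P μ C' := by
    refine hQ' P ?_
    rintro p q (h | h)
    · exact Or.inr (hRG h.1)
    · exact Or.inl h.1
  -- measurability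
  have hFm : MeasurableSet F := ((h_MES V G m m e e hLab).2.1 R hRG hRm).1 r
  have hLm : MeasurableSet L := by
    have h1 : L = {p : V × Bool | p.2 = false} ∩ Prod.fst ⁻¹' F := rfl
    rw [h1]
    exact (measurableSet_eq_fun measurable_snd measurable_const).inter (measurable_fst hFm)
  have hKm : MeasurableSet {p : (V × Bool) × (V × Bool) | K.Adj p.1 p.2} := by
    have h2 : MeasurableSet {p : (V × Bool) × (V × Bool) | R.Adj p.1.1 p.2.1} :=
      ((measurable_fst.comp measurable_fst).prodMk (measurable_fst.comp measurable_snd)) hRm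
    have h3 : MeasurableSet {p : (V × Bool) × (V × Bool) | p.1.2 = p.2.2} :=
      measurableSet_eq_fun (measurable_snd.comp measurable_fst)
        (measurable_snd.comp measurable_snd)
    have h4 : MeasurableSet {p : (V × Bool) × (V × Bool) | p.1.2 = false} :=
      measurableSet_eq_fun (measurable_snd.comp measurable_fst) measurable_const
    have h5 : MeasurableSet {p : (V × Bool) × (V × Bool) | p.1.1 ∈ F} :=
      (measurable_fst.comp measurable_fst) hFm
    have h6 : MeasurableSet {p : (V × Bool) × (V × Bool) | p.2.2 = false} :=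
      measurableSet_eq_fun (measurable_snd.comp measurable_snd) measurable_const
    have h7 : MeasurableSet {p : (V × Bool) × (V × Bool) | p.2.1 ∈ F} :=
      (measurable_fst.comp measurable_snd) hFm
    have h8 : {p : (V × Bool) × (V × Bool) | K.Adj p.1 p.2} =
        {p | R.Adj p.1.1 p.2.1} ∩ ({p | p.1.2 = p.2.2}ᶜ ∩
          (({p | p.1.2 = false}ᶜ ∪ {p | p.1.1 ∈ F}) ∩
            ({p | p.2.2 = false}ᶜ ∪ {p | p.2.1 ∈ F}))) := by
      ext p
      have h9 : K.Adj p.1 p.2 ↔ R.Adj p.1.1 p.2.1 ∧ p.1.2 ≠ p.2.2 ∧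
        (p.1.2 = false → p.1.1 ∈ F) ∧ (p.2.2 = false → p.2.1 ∈ F) := Iff.rfl
      simp only [mem_inter_iff, mem_union, mem_compl_iff, mem_ofPred_eq, h9]
      tauto
    rw [h8]
    exact h2.inter (h3.compl.inter ((h4.compl.union h5).inter (h6.compl.union h7)))
  have hbip : ∀ x y, K.Adj x y → (x ∈ L ↔ y ∉ L) := by
    intro x y h
    obtain ⟨-, h1, h2, h3⟩ := h
    constructor
    · intro h4 h5
      exact h1 (h4.1.trans h5.1.symm)
    · intro h4
      have h5 : x.2 = false := by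
        by_contra h6
        have h7 : y.2 = false := by
          revert h1 h6
          cases x.2 <;> cases y.2 <;> simp
        exact h4 ⟨h7, h3 h7⟩
      exact ⟨h5, h2 h5⟩
  -- the set X
  have hne : ∀ x ∈ X, s x ≠ x := fun x hx => ORB_.bad_ne (hXB hx)
  have hXs : ∀ x ∈ X, s x ∈ X := fun x hx => hXc x hx (s x)
    ⟨(hne x hx).symm, Or.inl ⟨rfl, (hs x).symm⟩⟩
  have hXf : ∀ x ∈ X, flp x ∈ X := fun x hx => hXc x hx (flp x)
    ⟨(flp_ne x).symm, Or.inr ⟨rfl, (flp_flp x).symm⟩⟩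
  have h2X : ∀ x ∈ X, (s x).2 = !x.2 := by
    intro x hx
    have := (hsa x (hne x hx)).2.1
    revert this
    cases x.2 <;> cases (s x).2 <;> simp
  by_contra hX0
  -- a code which is good on a set of positive measure
  have hcode : ∃ σ : Code n, μ {b | Gd K eP s L X σ b} ≠ 0 := by
    by_contra hcon
    push Not at hcon
    have h1 : μ (⋃ σ : Code n, {b | Gd K eP s L X σ b}) = 0 := measure_iUnion_null hcon
    have h2 := ae_Cq_not hQP eP h1
    have h3 := ae_Cq_not hQP eP hNF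
    have h4 : ∃ b ∈ X, (∀ x ∈ Cm eP b, x ∉ ⋃ σ : Code n, {b | Gd K eP s L X σ b}) ∧
        ∀ x ∈ Cm eP b, x ∉ NF K L s := by
      by_contra h5
      push Not at h5
      apply hX0
      have h6 : ∀ᵐ b ∂μ, b ∉ X := by
        filter_upwards [h2, h3] with b hb1 hb2 hbX
        obtain ⟨x, hx, hx'⟩ := h5 b hbX hb1
        exact hb2 x hx hx'
      exact measure_eq_zero_iff_ae_notMem.2 h6
    obtain ⟨b, hbX, hb1, hb2⟩ := h4
    obtain ⟨x, hx, σ, hσ⟩ := point h_AUG eP hLabP hs hsa hbip hXs hXf hne hbX hb2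
    exact hb1 x hx (mem_iUnion.2 ⟨σ, hσ⟩)
  obtain ⟨σ, hσ⟩ := hcode
  obtain ⟨J0, hJ0, hJ0m, hJ0p, hSpr⟩ := h_SPR (V × Bool) P n eP μ (wds σ) _
    (measurable_Gd eP hKm hsm hLm hXm σ) hσ
  have hGd : ∀ b ∈ J0, Gd K eP s L X σ b := fun b hb => hJ0 hb
  have hJ0X : J0 ⊆ X := fun b hb => (hGd b hb).mX
  have hpos : 0 < μ.real J0 := ENNReal.toReal_pos hJ0p (measure_ne_top _ _)
  obtain ⟨δ, hδ, hδ'⟩ := hStb (μ.real J0) hpos
  -- the vanishing set of places
  set A : ℝ := ∑ w ∈ wds σ, (C' ^ w.length).toReal with hA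
  have hA0 : 0 ≤ A := Finset.sum_nonneg fun _ _ => ENNReal.toReal_nonneg
  have hSGP : SG s flp ≤ P := by
    intro x y h
    rcases h.2 with ⟨h1, -⟩ | ⟨h1, -⟩
    · rw [h1]
      refine Or.inl (hsa x fun h2 => h.1 ?_)
      rw [h1, h2]
    · rw [h1]
      exact Or.inr ⟨rfl, by unfold flp; cases x.2 <;> simp⟩
  have hSGm : MeasurableSet {p : (V × Bool) × (V × Bool) | (SG s flp).Adj p.1 p.2} := by
    have h1 : MeasurableSet {p : (V × Bool) × (V × Bool) | p.1 = p.2} :=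
      measurableSet_eq_fun measurable_fst measurable_snd
    have h2 : ∀ f : V × Bool → V × Bool, Measurable f →
        MeasurableSet {p : (V × Bool) × (V × Bool) | p.2 = f p.1} := fun f hf =>
      measurableSet_eq_fun measurable_snd (hf.comp measurable_fst)
    have h3 : ∀ f : V × Bool → V × Bool, Measurable f →
        MeasurableSet {p : (V × Bool) × (V × Bool) | p.1 = f p.2} := fun f hf =>
      measurableSet_eq_fun measurable_fst (hf.comp measurable_snd)
    have h8 : {p : (V × Bool) × (V × Bool) | (SG s flp).Adj p.1 p.2} =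
        {p | p.1 = p.2}ᶜ ∩ (({p | p.2 = s p.1} ∩ {p | p.1 = s p.2}) ∪
          ({p | p.2 = flp p.1} ∩ {p | p.1 = flp p.2})) := by
      ext p
      have h9 : (SG s flp).Adj p.1 p.2 ↔ p.1 ≠ p.2 ∧
        ((p.2 = s p.1 ∧ p.1 = s p.2) ∨ (p.2 = flp p.1 ∧ p.1 = flp p.2)) := Iff.rfl
      simp only [mem_inter_iff, mem_union, mem_compl_iff, mem_ofPred_eq, h9, ne_eq]
    rw [h8]
    exact h1.compl.inter (((h2 s hsm).inter (h3 s hsm)).union
      ((h2 flp measurable_flp).inter (h3 flp measurable_flp)))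
  obtain ⟨J, hJJ, hJm, hJs, hJr⟩ := h_VAQ (V × Bool) P n eP μ hLabP (SG s flp) hSGP hSGm X hXN
    J0 hJ0X hJ0m (δ / (A + 1)) (by positivity)
  have hJX : J ⊆ X := hJJ.trans hJ0X
  have hJ2 : ∀ x ∈ J, x.2 = false := fun x hx => (hGd x (hJJ hx)).mL.1
  have hSprJ : Spr eP (wds σ) J := fun p hp q hq => hSpr p (hJJ hp) q (hJJ hq)
  obtain ⟨M', hin, hout⟩ := modify eP M σ hJm (fun b hb => hGd b (hJJ hb)) hSprJ
  have hof : ∀ x ∈ Rgn eP (wds σ) J, ∃ b ∈ J, ∃ q ∈ σ, wd eP q.1 b = x := by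
    rintro x ⟨b, hb, w, hw, h⟩
    obtain ⟨q, hq, rfl⟩ := of_mem_wds hw
    exact ⟨b, hb, q, hq, h⟩
  have hs' : ∀ x, M'.S 0 (M'.S 0 x) = x := M'.invol 0
  -- the new matching is admissible and close
  have hQL' : ∀ᵐ x ∂μ, QL L x fun k => M'.S k x := by
    filter_upwards [hQL] with x hx hxL
    have h1 : s x ≠ x := hx hxL
    by_cases hR : x ∈ Rgn eP (wds σ) J
    · obtain ⟨b, hb, q, hq, rfl⟩ := hof x hR
      change M'.S 0 (wd eP q.1 b) ≠ wd eP q.1 b
      rw [hin b hb q hq]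
      exact (hGd b (hJJ hb)).cov q hq hxL h1
    · change M'.S 0 x ≠ x
      rw [hout x hR]
      exact h1
  have hd : PCol.dst μ M M' < δ := by
    have h1 : PCol.dst μ M M' ≤ (1 : ℕ) * μ.real (Rgn eP (wds σ) J) := by
      refine dst_le_off fun x hx k => ?_
      rw [Subsingleton.elim k 0]
      exact hout x hx
    have h2 := real_Rgn_le hQP hC' eP (wds σ) J
    rw [← hA] at h2
    rw [Nat.cast_one, one_mul] at h1
    calc PCol.dst μ M M' ≤ A * μ.real J := h1.trans h2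
      _ ≤ (A + 1) * μ.real J := by
        refine mul_le_mul_of_nonneg_right (by linarith) measureReal_nonneg
      _ < (A + 1) * (δ / (A + 1)) := by
        refine mul_lt_mul_of_pos_left hJs (by linarith)
      _ = δ := by field_simp
  have hlt := hδ' M' hQL' hd
  -- the first points
  set T : Set (V × Bool) := {x | x ∈ J ∧ ∀ k : ℕ, (bk s hs)^[k + 1] x ∉ J} with hT
  have hbm : Measurable (bk s hs) := hsm.comp measurable_flp
  have hTm : MeasurableSet T := by
    have h1 : T = J ∩ ⋂ k : ℕ, ((bk s hs)^[k + 1]) ⁻¹' Jᶜ := by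
      ext x
      simp only [hT, mem_ofPred_eq, mem_inter_iff, mem_iInter, mem_preimage, mem_compl_iff]
    rw [h1]
    exact hJm.inter (MeasurableSet.iInter fun k => (hbm.iterate (k + 1)) hJm.compl)
  have hT0 : μ T = 0 := hXN T (fun x hx => hJX hx.1) hTm
    (first_pt hs hXs hXf h2X hJX hJ2)
  have hae : ∀ᵐ x ∂μ, x ∈ J0 → x ∈ Bad s flp \ Bad (M'.S 0) flp := by
    filter_upwards [ae_Cq_not hQP eP hT0] with x hx hxJ
    refine ⟨hXB (hJ0X hxJ), ?_⟩
    have hx2 : x.2 = false := (hGd x hxJ).mL.1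
    have hxX := hJ0X hxJ
    have hex : ∃ k : ℕ, (bk s hs)^[k + 1] x ∈ J := by
      by_contra hcon
      push Not at hcon
      obtain ⟨y, hy, hxy⟩ := hJr x hxJ
      obtain ⟨i, hi1, hi2⟩ := first hs hXs hXf h2X hJ2 hxX hx2 hy hxy hcon
      have hcl : ∀ z ∈ Cm eP x, ∀ y, P.Adj z y → y ∈ Cm eP x := fun z hz y hy =>
        ORB_.mem_adj hLabP hz hy
      have hsC : ∀ z ∈ Cm eP x, s z ∈ Cm eP x := by
        intro z hz
        by_cases h : s z = z
        · rw [h]; exact hz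
        · exact hcl z hz _ (Or.inl (hsa z h))
      have hfC : ∀ z ∈ Cm eP x, flp z ∈ Cm eP x := fun z hz => hcl z hz _ (Or.inr ⟨rfl, by
        unfold flp
        cases z.2 <;> simp⟩)
      have hmem : ∀ i : ℤ, (bk s hs ^ i) x ∈ Cm eP x := by
        intro i
        induction i with
        | zero => exact ORB_.self_mem eP x
        | succ i ih =>
          rw [bk_succ]
          exact hsC _ (hfC _ ih)
        | pred i ih =>
          rw [bk_pred]
          exact hfC _ (hsC _ ih)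
      exact hx ((bk s hs ^ i) x) (hmem i) ⟨hi1, hi2⟩
    obtain ⟨k, hk⟩ := hex
    refine not_bad hs hs' hXs hXf h2X ?_ ?_ k hxX hx2 hk
    · intro z hz
      obtain ⟨q, hq, h1, h2⟩ := (hGd z (hJJ hz)).fre
      rw [← h1, hin z hz q hq, h2, h1]
    · intro y hyX hy2 hyJ
      by_cases hR : y ∈ Rgn eP (wds σ) J
      · obtain ⟨b, hb, q, hq, rfl⟩ := hof y hR
        rw [hin b hb q hq]
        refine (hGd b (hJJ hb)).off q hq hyX ?_ ?_
        · intro h
          rw [h] at hyJ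
          exact hyJ hb
        · intro h
          rw [h, h2X b (hJX hb), hJ2 b hb] at hy2
          exact absurd hy2 (by decide)
      · exact hout y hR
  have hle : μ J0 ≤ μ (Bad s flp \ Bad (M'.S 0) flp) := measure_mono_ae hae
  have hle' : μ.real J0 ≤ μ.real (Bad s flp \ Bad (M'.S 0) flp) :=
    ENNReal.toReal_mono (measure_ne_top _ _) hle
  exact absurd hlt (not_lt.2 hle')

end Pool.Agent.MEQ
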