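import Pool.Agent.MEQ.Targets
import Pool.Agent.MEQ.Base
import Pool.Agent.MEO.BDY

set_option autoImplicit false

/-! MP_fff3e1_lc, B6': a vertex of degree less than `r` gives one in the double cover.
Proof of `tBDQ`. -/

namespace Pool.Agent.MEQ

open MeasureTheory Set Filter
open scoped ENNReal
open Pool.Agent.MEC
open Pool.Agent.MEP
open Pool.Agent.MEO

universe u

theorem allBDQ : tBDQ.{u} := by
  intro V R r hf hr x hx hd hy
  obtain ⟨y, ⟨p⟩, hy⟩ := hy
  exact BDY_.along hr hf p hd hx hy.ne false

end Pool.Agent.MEQ
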