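import Pool.Agent.MEQ.Targets
import Pool.Agent.MEQ.Base

set_option autoImplicit false

/-! MP_fff3e1_lc, B2: one round of bids of the auction. -/

namespace Pool.Agent.MEQ

open MeasureTheory Set Filter
open scoped ENNReal
open Pool.Agent.MEC
open Pool.Agent.MEP
open Pool.Agent.MEO

universe u

namespace BID_

section defs

variable {U : Type u} [MeasurableSpace U] {K : SimpleGraph U} {m : ℕ}

/-- the label `κ` is admissible and has the least price -/
def Op (e : PCol K m) (δ : Fin m → U → ℝ≥0∞) (k : U → ℕ) (κ : Fin m) (x : U) : Prop :=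
  e.S κ x ≠ x ∧ ∀ κ', e.S κ' x ≠ x →
    (k (e.S κ x) : ℝ≥0∞) * δ κ x ≤ (k (e.S κ' x) : ℝ≥0∞) * δ κ' x

/-- the bidders for their neighbour with label `κ` -/
def A (e : PCol K m) (δ : Fin m → U → ℝ≥0∞) (c : ℝ≥0∞) (B O : Set U) (s : U → U) (k : U → ℕ)
    (κ : Fin m) : Set U :=
  {x | x ∈ B ∧ s x = x ∧ Op e δ k κ x ∧ (∀ κ', κ' < κ → ¬ Op e δ k κ' x) ∧
    (x ∈ O → (k (e.S κ x) : ℝ≥0∞) * δ κ x ≤ c)}

/-- the bidders for their neighbour with label `κ` and these neighbours -/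
def E (e : PCol K m) (δ : Fin m → U → ℝ≥0∞) (c : ℝ≥0∞) (B O : Set U) (s : U → U) (k : U → ℕ)
    (κ : Fin m) : Set U :=
  {z | z ∈ A e δ c B O s k κ ∨ e.S κ z ∈ A e δ c B O s k κ}

/-- the vertices which receive a bid -/
def T (e : PCol K m) (δ : Fin m → U → ℝ≥0∞) (c : ℝ≥0∞) (B O : Set U) (s : U → U)
    (k : U → ℕ) : Set U :=
  {z | ∃ κ, e.S κ z ∈ A e δ c B O s k κ}

open Classical in
/-- the new matching -/
noncomputable def s' (e : PCol K m) (δ : Fin m → U → ℝ≥0∞) (c : ℝ≥0∞) (B O : Set U)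
    (s : U → U) (k : U → ℕ) (z : U) : U :=
  if h : ∃ κ, z ∈ E e δ c B O s k κ then e.S h.choose z else
    if s z ∈ T e δ c B O s k then z else s z

open Classical in
/-- the new prices -/
noncomputable def k' (e : PCol K m) (δ : Fin m → U → ℝ≥0∞) (c : ℝ≥0∞) (B O : Set U)
    (s : U → U) (k : U → ℕ) (z : U) : ℕ :=
  if z ∈ T e δ c B O s k then k z + 1 else k z

end defs

section main

variable {U : Type u} [MeasurableSpace U] {K : SimpleGraph U} {m : ℕ}
  {e : PCol K m} {c : ℝ≥0∞} {L O B : Set U} {δ : Fin m → U → ℝ≥0∞}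
  {s : U → U} {k : U → ℕ}

lemma A_uniq {κ κ' : Fin m} {x : U} (h : x ∈ A e δ c B O s k κ) (h' : x ∈ A e δ c B O s k κ') :
    κ = κ' := by
  rcases lt_trichotomy κ κ' with h1 | h1 | h1
  · exact absurd h.2.2.1 (h'.2.2.2.1 κ h1)
  · exact h1
  · exact absurd h'.2.2.1 (h.2.2.2.1 κ' h1)

variable (hbip : ∀ x y, K.Adj x y → (x ∈ L ↔ y ∉ L)) (hB : B ⊆ L)
  (hsp : ∀ x ∈ B, ∀ x' ∈ B, ∀ y, K.Adj x y → K.Adj x' y → x = x')

include hB in
lemma A_L {κ : Fin m} {x : U} (h : x ∈ A e δ c B O s k κ) : x ∈ L := hB h.1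

lemma A_ne {κ : Fin m} {x : U} (h : x ∈ A e δ c B O s k κ) : e.S κ x ≠ x := h.2.2.1.1

lemma T_ne {κ : Fin m} {z : U} (h : e.S κ z ∈ A e δ c B O s k κ) : e.S κ z ≠ z := by
  intro h1
  have h2 := A_ne h
  rw [e.invol] at h2
  exact h2 h1.symm

include hbip hB in
lemma T_L {z : U} (h : z ∈ T e δ c B O s k) : z ∉ L := by
  obtain ⟨κ, h⟩ := h
  have h1 := e.adj κ z (T_ne h)
  intro hz
  exact (hbip _ _ h1).1 hz (A_L hB h)

include hbip hB hsp in
lemma E_uniq {κ κ' : Fin m} {z : U} (h : z ∈ E e δ c B O s k κ) (h' : z ∈ E e δ c B O s k κ') :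
    κ = κ' := by
  rcases h with h | h <;> rcases h' with h' | h'
  · exact A_uniq h h'
  · exact absurd (A_L hB h) (T_L hbip hB ⟨κ', h'⟩)
  · exact absurd (A_L hB h') (T_L hbip hB ⟨κ, h⟩)
  · have h1 := (e.adj κ z (T_ne h)).symm
    have h2 := (e.adj κ' z (T_ne h')).symm
    have h3 := hsp _ h.1 _ h'.1 z h1 h2
    rw [h3] at h
    exact A_uniq h h'

include hbip hB hsp in
lemma s'_E {κ : Fin m} {z : U} (h : z ∈ E e δ c B O s k κ) :
    s' e δ c B O s k z = e.S κ z := by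
  have h0 : ∃ κ, z ∈ E e δ c B O s k κ := ⟨κ, h⟩
  unfold s'
  rw [dif_pos h0, E_uniq hbip hB hsp h0.choose_spec h]

lemma s'_T {z : U} (h : ¬ ∃ κ, z ∈ E e δ c B O s k κ) (h1 : s z ∈ T e δ c B O s k) :
    s' e δ c B O s k z = z := by
  unfold s'
  rw [dif_neg h, if_pos h1]

lemma s'_n {z : U} (h : ¬ ∃ κ, z ∈ E e δ c B O s k κ) (h1 : s z ∉ T e δ c B O s k) :
    s' e δ c B O s k z = s z := by
  unfold s'
  rw [dif_neg h, if_neg h1]

lemma E_S {κ : Fin m} {z : U} (h : z ∈ E e δ c B O s k κ) :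
    e.S κ z ∈ E e δ c B O s k κ := by
  rcases h with h | h
  · right
    rw [e.invol]
    exact h
  · left
    exact h

lemma T_E {z : U} (h : z ∈ T e δ c B O s k) : ∃ κ, z ∈ E e δ c B O s k κ := by
  obtain ⟨κ, h⟩ := h
  exact ⟨κ, Or.inr h⟩

include hbip hB in
lemma E_L {κ : Fin m} {z : U} (h : z ∈ E e δ c B O s k κ) (hz : z ∈ L) :
    z ∈ A e δ c B O s k κ := by
  rcases h with h | h
  · exact h
  · exact absurd hz (T_L hbip hB ⟨κ, h⟩)

include hB in
lemma E_nL {κ : Fin m} {z : U} (h : z ∈ E e δ c B O s k κ) (hz : z ∉ L) :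
    z ∈ T e δ c B O s k := by
  rcases h with h | h
  · exact absurd (A_L hB h) hz
  · exact ⟨κ, h⟩

include hbip hB hsp in
lemma s'_inv (hs : ∀ x, s (s x) = x) (z : U) :
    s' e δ c B O s k (s' e δ c B O s k z) = z := by
  by_cases h : ∃ κ, z ∈ E e δ c B O s k κ
  · obtain ⟨κ, h⟩ := h
    rw [s'_E hbip hB hsp h, s'_E hbip hB hsp (E_S h), e.invol]
  · by_cases h1 : s z ∈ T e δ c B O s k
    · rw [s'_T h h1, s'_T h h1]
    · have h2 : ¬ ∃ κ, s z ∈ E e δ c B O s k κ := by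
        rintro ⟨κ, h2 | h2⟩
        · have h3 := h2.2.1
          rw [hs] at h3
          exact h ⟨κ, Or.inl (h3 ▸ h2)⟩
        · exact h1 ⟨κ, h2⟩
      have h3 : s (s z) ∉ T e δ c B O s k := by
        rw [hs]
        exact fun h3 => h (T_E h3)
      rw [s'_n h h1, s'_n h2 h3, hs]

include hbip hB in
lemma sT_nL {z : U} (hz : z ∉ L) (hadj : ∀ x, s x ≠ x → K.Adj x (s x))
    (h : z ∉ T e δ c B O s k) : s z ∉ T e δ c B O s k := by
  intro h1
  by_cases h2 : s z = z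
  · rw [h2] at h1
    exact h h1
  · have h3 := hbip _ _ (hadj z h2)
    have h4 := T_L hbip hB h1
    exact hz (h3.2 h4)

/-- an admissible label of least price with the least index -/
lemma ex_Op {x : U} (h : ∃ κ, e.S κ x ≠ x) :
    ∃ κ, Op e δ k κ x ∧ ∀ κ', κ' < κ → ¬ Op e δ k κ' x := by
  classical
  obtain ⟨κ0, h0⟩ := h
  obtain ⟨κ1, h1, h2⟩ := Finset.exists_min_image (Finset.univ.filter fun κ => e.S κ x ≠ x)
    (fun κ => (k (e.S κ x) : ℝ≥0∞) * δ κ x) ⟨κ0, by simp [h0]⟩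
  have h3 : Op e δ k κ1 x :=
    ⟨(Finset.mem_filter.1 h1).2, fun κ' hκ' => h2 κ' (by simp [hκ'])⟩
  obtain ⟨κ, hκ, hmin⟩ := WellFounded.has_min (wellFounded_lt (α := Fin m))
    {κ | Op e δ k κ x} ⟨κ1, h3⟩
  exact ⟨κ, hκ, fun κ' hlt hop => hmin κ' hop hlt⟩

end main

section meas

variable {U : Type u} [MeasurableSpace U] [StandardBorelSpace U] {K : SimpleGraph U} {m : ℕ}
  {e : PCol K m} {ν : Measure U} {C c : ℝ≥0∞} {L O B : Set U} {δ : Fin m → U → ℝ≥0∞}
  {s : U → U} {k : U → ℕ}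

lemma mset_eq {f g : U → U} (hf : Measurable f) (hg : Measurable g) :
    MeasurableSet {x | f x = g x} := measurableSet_eq_fun hf hg

omit [StandardBorelSpace U] in
lemma meas_pr (hk : Measurable k) (hd : ∀ κ, Measurable (δ κ)) (κ : Fin m) :
    Measurable fun x => (k (e.S κ x) : ℝ≥0∞) * δ κ x := by
  have h1 : Measurable fun n : ℕ => (n : ℝ≥0∞) := measurable_from_nat
  exact (h1.comp (hk.comp (e.meas κ))).mul (hd κ)

lemma mset_Op (hk : Measurable k) (hd : ∀ κ, Measurable (δ κ)) (κ : Fin m) :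
    MeasurableSet {x | Op e δ k κ x} := by
  have h1 : {x | Op e δ k κ x} = {x | e.S κ x = x}ᶜ ∩ ⋂ κ', ({x | e.S κ' x = x} ∪
      {x | (k (e.S κ x) : ℝ≥0∞) * δ κ x ≤ (k (e.S κ' x) : ℝ≥0∞) * δ κ' x}) := by
    ext x
    simp only [Op, mem_ofPred_eq, mem_inter_iff, mem_compl_iff, mem_iInter, mem_union]
    constructor
    · rintro ⟨h1, h2⟩
      refine ⟨h1, fun κ' => ?_⟩
      by_cases h3 : e.S κ' x = x
      · exact Or.inl h3
      · exact Or.inr (h2 κ' h3)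
    · rintro ⟨h1, h2⟩
      refine ⟨h1, fun κ' h3 => ?_⟩
      rcases h2 κ' with h4 | h4
      · exact absurd h4 h3
      · exact h4
  rw [h1]
  exact (mset_eq (e.meas κ) measurable_id).compl.inter (MeasurableSet.iInter fun κ' =>
    (mset_eq (e.meas κ') measurable_id).union
      (measurableSet_le (meas_pr hk hd κ) (meas_pr hk hd κ')))

lemma mset_A (hB : MeasurableSet B) (hO : MeasurableSet O) (hs : Measurable s)
    (hk : Measurable k) (hd : ∀ κ, Measurable (δ κ)) (κ : Fin m) :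
    MeasurableSet (A e δ c B O s k κ) := by
  have h1 : A e δ c B O s k κ = B ∩ {x | s x = x} ∩ {x | Op e δ k κ x} ∩
      (⋂ κ' : {κ' : Fin m // κ' < κ}, {x | Op e δ k κ' x}ᶜ) ∩
      (Oᶜ ∪ {x | (k (e.S κ x) : ℝ≥0∞) * δ κ x ≤ c}) := by
    ext x
    simp only [A, mem_ofPred_eq, mem_inter_iff, mem_compl_iff, mem_iInter, mem_union,
      Subtype.forall]
    constructor
    · rintro ⟨h1, h2, h3, h4, h5⟩
      refine ⟨⟨⟨⟨h1, h2⟩, h3⟩, h4⟩, ?_⟩
      by_cases h6 : x ∈ O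
      · exact Or.inr (h5 h6)
      · exact Or.inl h6
    · rintro ⟨⟨⟨⟨h1, h2⟩, h3⟩, h4⟩, h5⟩
      refine ⟨h1, h2, h3, h4, fun h6 => ?_⟩
      rcases h5 with h5 | h5
      · exact absurd h6 h5
      · exact h5
  rw [h1]
  exact (((hB.inter (mset_eq hs measurable_id)).inter (mset_Op hk hd κ)).inter
    (MeasurableSet.iInter fun κ' : {κ' : Fin m // κ' < κ} => (mset_Op hk hd κ'.1).compl)).inter
    (hO.compl.union (measurableSet_le (meas_pr hk hd κ) measurable_const))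

lemma mset_E (hB : MeasurableSet B) (hO : MeasurableSet O) (hs : Measurable s)
    (hk : Measurable k) (hd : ∀ κ, Measurable (δ κ)) (κ : Fin m) :
    MeasurableSet (E e δ c B O s k κ) := by
  have h1 : E e δ c B O s k κ = A e δ c B O s k κ ∪ e.S κ ⁻¹' A e δ c B O s k κ := rfl
  rw [h1]
  exact (mset_A hB hO hs hk hd κ).union (e.meas κ (mset_A hB hO hs hk hd κ))

lemma mset_T (hB : MeasurableSet B) (hO : MeasurableSet O) (hs : Measurable s)
    (hk : Measurable k) (hd : ∀ κ, Measurable (δ κ)) :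
    MeasurableSet (T e δ c B O s k) := by
  have h1 : T e δ c B O s k = ⋃ κ, e.S κ ⁻¹' A e δ c B O s k κ := by
    ext x
    simp [T]
  rw [h1]
  exact MeasurableSet.iUnion fun κ => e.meas κ (mset_A hB hO hs hk hd κ)

lemma meas_k' (hB : MeasurableSet B) (hO : MeasurableSet O) (hs : Measurable s)
    (hk : Measurable k) (hd : ∀ κ, Measurable (δ κ)) : Measurable (k' e δ c B O s k) := by
  classical
  unfold k'
  exact Measurable.ite (mset_T hB hO hs hk hd) (hk.add_const 1) hk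

lemma meas_s' (hbip : ∀ x y, K.Adj x y → (x ∈ L ↔ y ∉ L)) (hBL : B ⊆ L)
    (hsp : ∀ x ∈ B, ∀ x' ∈ B, ∀ y, K.Adj x y → K.Adj x' y → x = x')
    (hB : MeasurableSet B) (hO : MeasurableSet O) (hs : Measurable s)
    (hk : Measurable k) (hd : ∀ κ, Measurable (δ κ)) : Measurable (s' e δ c B O s k) := by
  intro S hS
  have h1 : s' e δ c B O s k ⁻¹' S = (⋃ κ, E e δ c B O s k κ ∩ e.S κ ⁻¹' S) ∪
      ((⋃ κ, E e δ c B O s k κ)ᶜ ∩ ((s ⁻¹' T e δ c B O s k ∩ S) ∪
        ((s ⁻¹' T e δ c B O s k)ᶜ ∩ s ⁻¹' S))) := by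
    ext z
    simp only [mem_preimage, mem_union, mem_iUnion, mem_inter_iff, mem_compl_iff]
    by_cases h : ∃ κ, z ∈ E e δ c B O s k κ
    · obtain ⟨κ, h⟩ := h
      rw [s'_E hbip hBL hsp h]
      constructor
      · intro h2
        exact Or.inl ⟨κ, h, h2⟩
      · rintro (⟨κ', h2, h3⟩ | ⟨h2, _⟩)
        · rw [E_uniq hbip hBL hsp h h2]
          exact h3
        · exact absurd ⟨κ, h⟩ h2
    · by_cases h1 : s z ∈ T e δ c B O s k
      · rw [s'_T h h1]
        constructor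
        · intro h2
          exact Or.inr ⟨h, Or.inl ⟨h1, h2⟩⟩
        · rintro (⟨κ', h2, h3⟩ | ⟨_, h2 | h2⟩)
          · exact absurd ⟨κ', h2⟩ h
          · exact h2.2
          · exact absurd h1 h2.1
      · rw [s'_n h h1]
        constructor
        · intro h2
          exact Or.inr ⟨h, Or.inr ⟨h1, h2⟩⟩
        · rintro (⟨κ', h2, h3⟩ | ⟨_, h2 | h2⟩)
          · exact absurd ⟨κ', h2⟩ h
          · exact absurd h2.1 h1
          · exact h2.2
  rw [h1]
  have hE := fun κ => mset_E (e := e) (c := c) hB hO hs hk hd κ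
  have hT := mset_T (e := e) (c := c) hB hO hs hk hd
  exact (MeasurableSet.iUnion fun κ => (hE κ).inter (e.meas κ hS)).union
    ((MeasurableSet.iUnion hE).compl.inter (((hs hT).inter hS).union
      ((hs hT).compl.inter (hs hS))))

end meas

end BID_

open BID_ in
theorem allBID : tBID.{u} := by
  intro U _ _ K m e ν _ C L O δ c hL hDen hLm hOm hOL hbip B hBm hBL hsp s k hA
  have hkle : ∀ y, k y ≤ k' e δ c B O s k y ∧ k' e δ c B O s k y ≤ k y + 1 := by
    intro y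
    unfold k'
    split_ifs
    · exact ⟨Nat.le_succ _, le_rfl⟩
    · exact ⟨le_rfl, Nat.le_succ _⟩
  have hkT : ∀ {y}, y ∈ T e δ c B O s k → k' e δ c B O s k y = k y + 1 := by
    intro y hy
    unfold k'
    rw [if_pos hy]
  have hkn : ∀ {y}, y ∉ T e δ c B O s k → k' e δ c B O s k y = k y := by
    intro y hy
    unfold k'
    rw [if_neg hy]
  have hpr : ∀ (κ : Fin m) (x : U), (k (e.S κ x) : ℝ≥0∞) * δ κ x ≤
      (k' e δ c B O s k (e.S κ x) : ℝ≥0∞) * δ κ x := by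
    intro κ x
    have := (hkle (e.S κ x)).1
    gcongr
  -- a matched left vertex in the new state
  have hcase : ∀ x ∈ L, ∀ κ, e.S κ x = s' e δ c B O s k x → s' e δ c B O s k x ≠ x →
      (x ∈ A e δ c B O s k κ ∧ k' e δ c B O s k (e.S κ x) = k (e.S κ x) + 1) ∨
      (s' e δ c B O s k x = s x ∧ k' e δ c B O s k (e.S κ x) = k (e.S κ x)) := by
    intro x hx κ h1 h2
    by_cases h : ∃ κ, x ∈ E e δ c B O s k κ
    · obtain ⟨κ0, h⟩ := h
      have h3 := s'_E hbip hBL hsp h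
      have h4 : κ = κ0 := e.disj κ κ0 x (h1.trans h3) (by rw [h1]; exact h2)
      subst h4
      have h5 := E_L hbip hBL h hx
      refine Or.inl ⟨h5, hkT ⟨κ, ?_⟩⟩
      rw [e.invol]
      exact h5
    · by_cases h3 : s x ∈ T e δ c B O s k
      · exact absurd (s'_T h h3) h2
      · refine Or.inr ⟨s'_n h h3, ?_⟩
        rw [h1, s'_n h h3]
        exact hkn h3
  refine ⟨s' e δ c B O s k, k' e δ c B O s k, ?_, hkle, ?_, ?_⟩
  · refine ⟨meas_s' hbip hBL hsp hBm hOm hA.ms hA.mk' hDen.meas,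
      meas_k' hBm hOm hA.ms hA.mk' hDen.meas, s'_inv hbip hBL hsp hA.inv, ?_, ?_, ?_, ?_⟩
    · intro x hx
      by_cases h : ∃ κ, x ∈ E e δ c B O s k κ
      · obtain ⟨κ, h⟩ := h
        rw [s'_E hbip hBL hsp h] at hx ⊢
        exact e.adj κ x hx
      · by_cases h1 : s x ∈ T e δ c B O s k
        · exact absurd (s'_T h h1) hx
        · rw [s'_n h h1] at hx ⊢
          exact hA.adj x hx
    · intro y hy h1
      have h2 : y ∉ T e δ c B O s k := by
        rintro ⟨κ, h2⟩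
        rw [s'_E hbip hBL hsp (κ := κ) (Or.inr h2)] at h1
        exact T_ne h2 h1
      have h3 : ¬ ∃ κ, y ∈ E e δ c B O s k κ := by
        rintro ⟨κ, h3⟩
        exact h2 (E_nL hBL h3 hy)
      rw [s'_n h3 (sT_nL hbip hBL hy hA.adj h2)] at h1
      rw [hkn h2]
      exact hA.zero y hy h1
    · filter_upwards [hA.cs] with x hx hxL κ κ' h1 h2 h3
      rcases hcase x hxL κ h1 h2 with ⟨h4, h5⟩ | ⟨h4, h5⟩
      · rw [h5, Nat.cast_add, Nat.cast_one, add_mul, one_mul]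
        have h6 := h4.2.2.1.2 κ' h3
        exact add_le_add (h6.trans (hpr κ' x)) le_rfl
      · rw [h5]
        rw [h4] at h1 h2
        exact (hx hxL κ κ' h1 h2 h3).trans (add_le_add (hpr κ' x) le_rfl)
    · filter_upwards [hA.cap] with x hx hxO κ h1 h2
      rcases hcase x (hOL hxO) κ h1 h2 with ⟨h4, h5⟩ | ⟨h4, h5⟩
      · rw [h5, Nat.cast_add, Nat.cast_one, add_mul, one_mul]
        exact add_le_add (h4.2.2.2.2 hxO) le_rfl
      · rw [h5]
        rw [h4] at h1 h2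
        exact hx hxO κ h1 h2
  · intro y hy h1
    by_cases h2 : y ∈ T e δ c B O s k
    · exact hkT h2
    · have h3 : ¬ ∃ κ, y ∈ E e δ c B O s k κ := by
        rintro ⟨κ, h3⟩
        exact h2 (E_nL hBL h3 hy)
      exact absurd (s'_n h3 (sT_nL hbip hBL hy hA.adj h2)) h1
  · intro x hxB hsx hex hO
    obtain ⟨y, hy⟩ := hex
    obtain ⟨κ1, hκ1⟩ := hL x y hy
    have h1 : ∃ κ, e.S κ x ≠ x := ⟨κ1, by rw [hκ1]; exact hy.ne'⟩
    obtain ⟨κ, h2, h3⟩ := ex_Op (e := e) (δ := δ) (k := k) h1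
    have h4 : x ∈ A e δ c B O s k κ := by
      refine ⟨hxB, hsx, h2, h3, fun h4 => ?_⟩
      obtain ⟨κ', h5, h6⟩ := hO h4
      exact (h2.2 κ' h5).trans h6
    refine ⟨e.S κ x, e.adj κ x h2.1, hkT ⟨κ, ?_⟩⟩
    rw [e.invol]
    exact h4

end Pool.Agent.MEQ
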