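import Pool.Agent.MEQ.Targets
import Pool.Agent.MEQ.Base

set_option autoImplicit false

/-! MP_fff3e1_lc, B3: bounds for the auction which do not depend on the number of rounds. -/

namespace Pool.Agent.MEQ

open MeasureTheory Set Filter
open scoped ENNReal
open Pool.Agent.MEC
open Pool.Agent.MEP
open Pool.Agent.MEO

universe u

namespace BND_

section alg

variable {U : Type u} [MeasurableSpace U] {K : SimpleGraph U} {m : ℕ}

open Classical in
/-- the value of `g` at the label of the matched edge -/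
noncomputable def MP (e : PCol K m) (s : U → U) (g : Fin m → U → ℝ≥0∞) (x : U) : ℝ≥0∞ :=
  ∑ κ : Fin m, if e.S κ x = s x ∧ s x ≠ x then g κ x else 0

lemma MP_un (e : PCol K m) {s : U → U} (g : Fin m → U → ℝ≥0∞) {x : U} (h : s x = x) :
    MP e s g x = 0 := by
  unfold MP
  refine Finset.sum_eq_zero fun κ _ => if_neg fun h' => h'.2 h

lemma MP_eq (e : PCol K m) {s : U → U} (g : Fin m → U → ℝ≥0∞) {x : U} {κ : Fin m}
    (h : e.S κ x = s x) (h' : s x ≠ x) : MP e s g x = g κ x := by
  unfold MP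
  rw [Finset.sum_eq_single κ]
  · rw [if_pos ⟨h, h'⟩]
  · intro κ' _ hne
    refine if_neg fun h1 => hne ?_
    exact e.disj κ' κ x (h1.1.trans h.symm) (by rw [h1.1]; exact h')
  · intro h1
    exact absurd (Finset.mem_univ κ) h1

end alg

section meas

variable {U : Type u} [MeasurableSpace U] [StandardBorelSpace U] {K : SimpleGraph U} {m : ℕ}
  {e : PCol K m} {ν : Measure U} {C c θ : ℝ≥0∞} {L O : Set U} {δ : Fin m → U → ℝ≥0∞}
  {s : U → U} {k : U → ℕ}

lemma mset_eq {f g : U → U} (hf : Measurable f) (hg : Measurable g) :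
    MeasurableSet {x | f x = g x} := measurableSet_eq_fun hf hg

lemma meas_MP (e : PCol K m) {s : U → U} (hs : Measurable s) {g : Fin m → U → ℝ≥0∞}
    (hg : ∀ κ, Measurable (g κ)) : Measurable (MP e s g) := by
  classical
  unfold MP
  refine Finset.measurable_sum _ fun κ _ => ?_
  refine Measurable.ite ?_ (hg κ) measurable_const
  exact (mset_eq (e.meas κ) hs).inter (mset_eq hs measurable_id).compl

omit [StandardBorelSpace U] in
/-- the change of variables for all labels together -/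
lemma cov_sum (hd : Den e ν C δ) {F : Fin m → U → ℝ≥0∞} (hF : ∀ κ, Measurable (F κ)) :
    ∫⁻ x, ∑ κ, F κ (e.S κ x) * δ κ x ∂ν = ∫⁻ y, ∑ κ, F κ y ∂ν := by
  rw [lintegral_finsetSum, lintegral_finsetSum]
  · exact Finset.sum_congr rfl fun κ _ => hd.cov κ (F κ) (hF κ)
  · exact fun κ _ => hF κ
  · exact fun κ _ => ((hF κ).comp (e.meas κ)).mul (hd.meas κ)

open Classical in
/-- matched edges, seen from the left and from the right -/
lemma cov_MP (hd : Den e ν C δ) (hL : MeasurableSet L)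
    (hb : ∀ x y, K.Adj x y → (x ∈ L ↔ y ∉ L)) (hs : Measurable s) (hi : ∀ x, s (s x) = x)
    {f : U → ℝ≥0∞} (hf : Measurable f) :
    ∫⁻ x in L, MP e s (fun κ x => f (e.S κ x) * δ κ x) x ∂ν =
      ∫⁻ y in Lᶜ, MP e s (fun _ => f) y ∂ν := by
  rw [← lintegral_indicator hL, ← lintegral_indicator hL.compl]
  have h1 := cov_sum hd (F := fun κ y => if y ∉ L ∧ e.S κ y = s y ∧ s y ≠ y then f y else 0)
    (fun κ => Measurable.ite (hL.compl.inter ((mset_eq (e.meas κ) hs).inter
      (mset_eq hs measurable_id).compl)) hf measurable_const)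
  refine Eq.trans (lintegral_congr fun x => ?_) (h1.trans (lintegral_congr fun y => ?_))
  · unfold MP
    by_cases hx : x ∈ L
    · rw [indicator_of_mem hx]
      refine Finset.sum_congr rfl fun κ _ => ?_
      by_cases h2 : e.S κ x = s x ∧ s x ≠ x
      · have h3 : e.S κ x ≠ x := by rw [h2.1]; exact h2.2
        have h4 : e.S κ x ∉ L := (hb x _ (e.adj κ x h3)).1 hx
        have h5 : s (e.S κ x) = x := by rw [h2.1, hi]
        have h6 : e.S κ x ∉ L ∧ e.S κ (e.S κ x) = s (e.S κ x) ∧ s (e.S κ x) ≠ e.S κ x := by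
          refine ⟨h4, ?_, ?_⟩
          · rw [e.invol, h5]
          · rw [h5]; exact h3.symm
        rw [if_pos h2, if_pos h6]
      · have h6 : ¬ (e.S κ x ∉ L ∧ e.S κ (e.S κ x) = s (e.S κ x) ∧
            s (e.S κ x) ≠ e.S κ x) := by
          rintro ⟨_, h7, h8⟩
          rw [e.invol] at h7
          apply h2
          have h9 : s x = e.S κ x := by
            conv_lhs => rw [h7]
            exact hi _
          refine ⟨h9.symm, ?_⟩
          rw [h9]
          intro h10
          exact h8 (by rw [← h7, h10])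
        rw [if_neg h2, if_neg h6, zero_mul]
    · rw [indicator_of_notMem hx]
      symm
      refine Finset.sum_eq_zero fun κ _ => ?_
      have h6 : ¬ (e.S κ x ∉ L ∧ e.S κ (e.S κ x) = s (e.S κ x) ∧
          s (e.S κ x) ≠ e.S κ x) := by
        rintro ⟨h4, h7, h8⟩
        rw [e.invol] at h7
        have h3 : e.S κ x ≠ x := by
          intro h10
          exact h8 (by rw [← h7, h10])
        exact hx ((hb x _ (e.adj κ x h3)).2 h4)
      rw [if_neg h6, zero_mul]
  · unfold MP
    by_cases hy : y ∈ L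
    · rw [indicator_of_notMem (show y ∉ Lᶜ from fun h => h hy)]
      refine Finset.sum_eq_zero fun κ _ => if_neg fun h => h.1 hy
    · rw [indicator_of_mem (show y ∈ Lᶜ from hy)]
      refine Finset.sum_congr rfl fun κ _ => ?_
      by_cases h2 : e.S κ y = s y ∧ s y ≠ y
      · rw [if_pos h2, if_pos ⟨hy, h2⟩]
      · rw [if_neg h2, if_neg fun h => h2 h.2]

open Classical in
/-- all edges, seen from the left and from the right -/
lemma cov_all (hd : Den e ν C δ) (hL : MeasurableSet L)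
    (hb : ∀ x y, K.Adj x y → (x ∈ L ↔ y ∉ L)) {w f : U → ℝ≥0∞} (hw : Measurable w)
    (hf : Measurable f) :
    ∫⁻ x in L, w x * ∑ κ, (if e.S κ x = x then 0 else f (e.S κ x) * δ κ x) ∂ν =
      ∫⁻ y in Lᶜ, (∑ κ, if e.S κ y = y then 0 else w (e.S κ y)) * f y ∂ν := by
  rw [← lintegral_indicator hL, ← lintegral_indicator hL.compl]
  have h1 := cov_sum hd (F := fun κ y => if y ∉ L ∧ e.S κ y ≠ y then w (e.S κ y) * f y else 0)
    (fun κ => Measurable.ite (hL.compl.inter (mset_eq (e.meas κ) measurable_id).compl)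
      ((hw.comp (e.meas κ)).mul hf) measurable_const)
  refine Eq.trans (lintegral_congr fun x => ?_) (h1.trans (lintegral_congr fun y => ?_))
  · by_cases hx : x ∈ L
    · rw [indicator_of_mem hx, Finset.mul_sum]
      refine Finset.sum_congr rfl fun κ _ => ?_
      by_cases h3 : e.S κ x = x
      · have h6 : ¬ (e.S κ x ∉ L ∧ e.S κ (e.S κ x) ≠ e.S κ x) := by
          rintro ⟨_, h7⟩
          rw [e.invol] at h7
          exact h7 h3.symm
        rw [if_pos h3, if_neg h6, mul_zero, zero_mul]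
      · have h4 : e.S κ x ∉ L := (hb x _ (e.adj κ x h3)).1 hx
        have h6 : e.S κ x ∉ L ∧ e.S κ (e.S κ x) ≠ e.S κ x := by
          refine ⟨h4, ?_⟩
          rw [e.invol]
          exact fun h => h3 h.symm
        rw [if_neg h3, if_pos h6, e.invol, mul_assoc]
    · rw [indicator_of_notMem hx]
      symm
      refine Finset.sum_eq_zero fun κ _ => ?_
      have h6 : ¬ (e.S κ x ∉ L ∧ e.S κ (e.S κ x) ≠ e.S κ x) := by
        rintro ⟨h4, h7⟩
        rw [e.invol] at h7
        exact hx ((hb x _ (e.adj κ x fun h => h7 h.symm)).2 h4)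
      rw [if_neg h6, zero_mul]
  · by_cases hy : y ∈ L
    · rw [indicator_of_notMem (show y ∉ Lᶜ from fun h => h hy)]
      refine Finset.sum_eq_zero fun κ _ => if_neg fun h => h.1 hy
    · rw [indicator_of_mem (show y ∈ Lᶜ from hy), Finset.sum_mul]
      refine Finset.sum_congr rfl fun κ _ => ?_
      by_cases h2 : e.S κ y = y
      · rw [if_pos h2, if_neg fun h => h.2 h2, zero_mul]
      · rw [if_neg h2, if_pos ⟨hy, h2⟩]

omit [StandardBorelSpace U] in
open Classical in
/-- the load as a sum over the labels -/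
lemma ld_eq (hl : Lab e) (y : U) : ld K O θ y = ∑ κ, if e.S κ y = y then 0 else
    (if e.S κ y ∈ O then θ else 1) / (dg K (e.S κ y) : ℝ≥0∞) := by
  unfold ld
  let φ : {κ : Fin m // e.S κ y ≠ y} → K.neighborSet y := fun κ => ⟨e.S κ y, e.adj κ y κ.2⟩
  have hφ : Function.Bijective φ := by
    constructor
    · intro κ κ' h
      have h1 : e.S κ y = e.S κ' y := congrArg Subtype.val h
      exact Subtype.ext (e.disj κ κ' y h1 κ.2)
    · rintro ⟨z, hz⟩
      obtain ⟨κ, hκ⟩ := hl y z hz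
      refine ⟨⟨κ, ?_⟩, Subtype.ext hκ⟩
      rw [hκ]
      exact (K.ne_of_adj hz).symm
  rw [← (Equiv.ofBijective φ hφ).tsum_eq, tsum_fintype]
  rw [← Finset.sum_filter_add_sum_filter_not Finset.univ (fun κ => e.S κ y ≠ y)]
  rw [Finset.sum_eq_zero (s := Finset.univ.filter fun κ => ¬ e.S κ y ≠ y), add_zero]
  · rw [← Finset.sum_subtype_eq_sum_filter]
    refine Finset.sum_bij' (fun κ _ => κ) (fun κ _ => κ) ?_ ?_ ?_ ?_ ?_
    · intro κ _; simp
    · intro κ _; simp
    · intro κ _; rfl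
    · intro κ _; rfl
    · intro κ _
      simp only [φ, Equiv.ofBijective_apply]
      rw [if_neg κ.2]
  · intro κ hκ
    rw [Finset.mem_filter, not_not] at hκ
    rw [if_pos hκ.2]

omit [StandardBorelSpace U] in
open Classical in
lemma dg_sum (hl : Lab e) (x : U) :
    (dg K x : ℝ≥0∞) = ∑ κ : Fin m, if e.S κ x = x then 0 else 1 := by
  rw [dg_eq_card hl le_rfl x]
  have h2 : {κ | K.Adj x (e.S κ x)} = ↑(Finset.univ.filter fun κ => ¬ e.S κ x = x) := by
    ext κ
    simp only [mem_ofPred_eq, Finset.coe_filter, Finset.mem_univ, true_and]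
    exact ⟨fun h h' => (K.ne_of_adj h) h'.symm, fun h => e.adj κ x h⟩
  rw [h2, ncard_coe_finset, Finset.card_filter]
  push_cast
  refine Finset.sum_congr rfl fun κ _ => ?_
  by_cases h : e.S κ x = x <;> simp [h]

lemma meas_dg (hl : Lab e) : Measurable fun x => (dg K x : ℝ≥0∞) := by
  classical
  have h1 : (fun x => (dg K x : ℝ≥0∞)) = fun x => ∑ κ : Fin m, if e.S κ x = x then 0 else 1 := by
    funext x
    exact dg_sum hl x
  rw [h1]
  refine Finset.measurable_sum _ fun κ _ => ?_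
  exact Measurable.ite (mset_eq (e.meas κ) measurable_id) measurable_const measurable_const

lemma meas_w (hl : Lab e) (hO : MeasurableSet O) : Measurable fun x =>
    (by classical exact (if x ∈ O then θ else 1) / (dg K x : ℝ≥0∞) : ℝ≥0∞) := by
  classical
  refine Measurable.div ?_ (meas_dg hl)
  exact Measurable.ite hO measurable_const measurable_const

lemma meas_ld (hl : Lab e) (hO : MeasurableSet O) : Measurable (ld K O θ) := by
  classical
  have h1 : ld K O θ = fun y => ∑ κ, if e.S κ y = y then 0 else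
      (if e.S κ y ∈ O then θ else 1) / (dg K (e.S κ y) : ℝ≥0∞) := by
    funext y
    exact ld_eq hl y
  rw [h1]
  refine Finset.measurable_sum _ fun κ _ => ?_
  refine Measurable.ite (mset_eq (e.meas κ) measurable_id) measurable_const ?_
  exact (meas_w hl hO).comp (e.meas κ)

omit [StandardBorelSpace U] in
lemma meas_P (hd : Den e ν C δ) (hk : Measurable k) (κ : Fin m) :
    Measurable fun x => (k (e.S κ x) : ℝ≥0∞) * δ κ x :=
  ((measurable_from_nat (f := fun n : ℕ => (n : ℝ≥0∞))).comp (hk.comp (e.meas κ))).mul (hd.meas κ)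

lemma meas_Av (hl : Lab e) (hd : Den e ν C δ) (hk : Measurable k) : Measurable (Av e δ k) := by
  classical
  unfold Av
  refine Measurable.div ?_ (meas_dg hl)
  refine Finset.measurable_sum _ fun κ _ => ?_
  exact Measurable.ite (mset_eq (e.meas κ) measurable_id) measurable_const (meas_P hd hk κ)

lemma meas_Mn (hd : Den e ν C δ) (hk : Measurable k) : Measurable (Mn e δ k) := by
  classical
  unfold Mn
  refine Measurable.iInf fun κ => ?_
  exact Measurable.ite (mset_eq (e.meas κ) measurable_id) measurable_const (meas_P hd hk κ)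

omit [StandardBorelSpace U] in
/-- complementary slackness: the matched price against the average and the smallest price -/
lemma le_min (hl : Lab e) (ha : ∀ x, s x ≠ x → K.Adj x (s x)) {x : U}
    (h : ∀ κ κ', e.S κ x = s x → s x ≠ x → e.S κ' x ≠ x →
      k (e.S κ x) * δ κ x ≤ k (e.S κ' x) * δ κ' x + δ κ x) :
    MP e s (fun κ x => (k (e.S κ x) : ℝ≥0∞) * δ κ x) x ≤
      min (Mn e δ k x) (Av e δ k x) + MP e s (fun κ x => (1 : ℝ≥0∞) * δ κ x) x := by
  classical
  by_cases hs : s x = x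
  · rw [MP_un e _ hs]
    exact zero_le
  obtain ⟨κ, hκ⟩ := hl x (s x) (ha x hs)
  rw [MP_eq e _ hκ hs, MP_eq e _ hκ hs, one_mul, min_add, le_min_iff]
  constructor
  · unfold Mn
    rw [ENNReal.iInf_add]
    refine le_iInf fun κ' => ?_
    by_cases h1 : e.S κ' x = x
    · rw [if_pos h1, top_add]
      exact le_top
    · rw [if_neg h1]
      exact h κ κ' hκ hs h1
  · have h0 : (dg K x : ℝ≥0∞) ≠ 0 := by
      rw [Ne, Nat.cast_eq_zero]
      exact ((dg_pos_iff (hl.fin x)).2 ⟨s x, ha x hs⟩).ne'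
    have ht : (dg K x : ℝ≥0∞) ≠ ⊤ := ENNReal.natCast_ne_top _
    have h2 : (dg K x : ℝ≥0∞) * (k (e.S κ x) * δ κ x) ≤
        (∑ κ : Fin m, if e.S κ x = x then 0 else k (e.S κ x) * δ κ x) +
          (dg K x : ℝ≥0∞) * δ κ x := by
      rw [dg_sum hl x, Finset.sum_mul, Finset.sum_mul, ← Finset.sum_add_distrib]
      refine Finset.sum_le_sum fun κ' _ => ?_
      by_cases h1 : e.S κ' x = x
      · rw [if_pos h1, if_pos h1, zero_mul]
        exact zero_le
      · rw [if_neg h1, if_neg h1, one_mul, one_mul]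
        exact h κ κ' hκ hs h1
    unfold Av
    calc (k (e.S κ x) : ℝ≥0∞) * δ κ x
        = ((dg K x : ℝ≥0∞) * (k (e.S κ x) * δ κ x)) / dg K x := by
          rw [mul_comm (dg K x : ℝ≥0∞), ENNReal.mul_div_cancel_right h0 ht]
      _ ≤ ((∑ κ : Fin m, if e.S κ x = x then 0 else k (e.S κ x) * δ κ x) +
          (dg K x : ℝ≥0∞) * δ κ x) / dg K x := ENNReal.div_le_div_right h2 _
      _ = (∑ κ : Fin m, if e.S κ x = x then 0 else k (e.S κ x) * δ κ x) / dg K x + δ κ x := by
          rw [ENNReal.add_div, mul_comm (dg K x : ℝ≥0∞), ENNReal.mul_div_cancel_right h0 ht]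

omit [StandardBorelSpace U] in
open Classical in
lemma le_cap (hl : Lab e) (ha : ∀ x, s x ≠ x → K.Adj x (s x)) {x : U}
    (h : ∀ κ, e.S κ x = s x → s x ≠ x → k (e.S κ x) * δ κ x ≤ c + δ κ x) :
    MP e s (fun κ x => (k (e.S κ x) : ℝ≥0∞) * δ κ x) x ≤
      (if s x ≠ x then c else 0) + MP e s (fun κ x => (1 : ℝ≥0∞) * δ κ x) x := by
  by_cases hs : s x = x
  · rw [MP_un e _ hs]
    exact zero_le
  obtain ⟨κ, hκ⟩ := hl x (s x) (ha x hs)
  rw [MP_eq e _ hκ hs, MP_eq e _ hκ hs, one_mul, if_pos hs]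
  exact h κ hκ hs

omit [StandardBorelSpace U] in
lemma Mn_le_or (x : U) : (Av e δ k x - Mn e δ k x) + min (Mn e δ k x) (Av e δ k x)
    = Av e δ k x := by
  rcases le_total (Mn e δ k x) (Av e δ k x) with h | h
  · rw [min_eq_left h, tsub_add_cancel_of_le h]
  · rw [min_eq_right h, tsub_eq_zero_of_le h, zero_add]

end meas

end BND_

open BND_ in
theorem allBND : tBND.{u} := by
  classical
  intro U _ _ K m e ν _ C L O δ c θ hl hd hC hL hO hOL hb hc hθ hld s k ha hkn
  obtain ⟨n, hn⟩ := hkn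
  have hkm : Measurable fun y => (k y : ℝ≥0∞) :=
    (measurable_from_nat (f := fun n : ℕ => (n : ℝ≥0∞))).comp ha.mk'
  -- the main quantities
  set I : ℝ≥0∞ := ∫⁻ y in Lᶜ, (k y : ℝ≥0∞) ∂ν with hI
  have hIt : I ≠ ⊤ := by
    have h1 : I ≤ ∫⁻ _ in Lᶜ, (n : ℝ≥0∞) ∂ν := lintegral_mono fun y =>
      Nat.cast_le.2 (hn y)
    rw [setLIntegral_const] at h1
    exact ne_top_of_le_ne_top (ENNReal.mul_ne_top (ENNReal.natCast_ne_top n)
      (measure_ne_top ν _)) h1
  have hIMP : I = ∫⁻ x in L, MP e s (fun κ x => (k (e.S κ x) : ℝ≥0∞) * δ κ x) x ∂ν := by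
    rw [cov_MP hd hL hb ha.ms ha.inv hkm, hI]
    refine setLIntegral_congr_fun hL.compl fun y hy => ?_
    by_cases hs : s y = y
    · simp only [MP_un e _ hs, ha.zero y hy hs, Nat.cast_zero]
    · obtain ⟨κ, hκ⟩ := hl y (s y) (ha.adj y hs)
      simp only [MP_eq e _ hκ hs]
  have hD : ∫⁻ x in L, MP e s (fun κ x => (1 : ℝ≥0∞) * δ κ x) x ∂ν ≤ ν univ := by
    have h1 := cov_MP hd hL hb ha.ms ha.inv (f := fun _ => (1 : ℝ≥0∞)) measurable_const
    rw [h1]
    calc ∫⁻ y in Lᶜ, MP e s (fun _ _ => (1 : ℝ≥0∞)) y ∂ν ≤ ∫⁻ _ in Lᶜ, 1 ∂ν := by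
          refine lintegral_mono fun y => ?_
          by_cases hs : s y = y
          · rw [MP_un e _ hs]
            exact zero_le
          · obtain ⟨κ, hκ⟩ := hl y (s y) (ha.adj y hs)
            rw [MP_eq e _ hκ hs]
      _ = ν Lᶜ := by rw [setLIntegral_const, one_mul]
      _ ≤ ν univ := measure_mono (subset_univ _)
  set N : ℝ≥0∞ := ν {x | x ∈ O ∧ s x ≠ x} with hN
  set B : ℝ≥0∞ := ∫⁻ x in L \ O, min (Mn e δ k x) (Av e δ k x) ∂ν with hB
  have hLO : L = (L \ O) ∪ O := (sdiff_union_of_subset hOL).symm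
  have hmO : MeasurableSet (L \ O) := hL.diff hO
  have hdis : Disjoint (L \ O) O := disjoint_sdiff_left
  have hmav := meas_Av (e := e) (δ := δ) (k := k) hl hd ha.mk'
  have hmmn := meas_Mn (e := e) (δ := δ) (k := k) hd ha.mk'
  have hmD : Measurable (MP e s (fun κ x => (1 : ℝ≥0∞) * δ κ x)) :=
    meas_MP e ha.ms fun κ => measurable_const.mul (hd.meas κ)
  -- upper bound for `I`
  have hup : I ≤ B + (ν univ + c * N) := by
    have h1 : I = (∫⁻ x in L \ O, MP e s (fun κ x => (k (e.S κ x) : ℝ≥0∞) * δ κ x) x ∂ν) +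
        ∫⁻ x in O, MP e s (fun κ x => (k (e.S κ x) : ℝ≥0∞) * δ κ x) x ∂ν := by
      rw [hIMP]
      conv_lhs => rw [hLO]
      exact lintegral_union hO hdis
    have h2 : (∫⁻ x in L, MP e s (fun κ x => (1 : ℝ≥0∞) * δ κ x) x ∂ν) =
        (∫⁻ x in L \ O, MP e s (fun κ x => (1 : ℝ≥0∞) * δ κ x) x ∂ν) +
        ∫⁻ x in O, MP e s (fun κ x => (1 : ℝ≥0∞) * δ κ x) x ∂ν := by
      conv_lhs => rw [hLO]
      exact lintegral_union hO hdis
    have h3 : (∫⁻ x in L \ O, MP e s (fun κ x => (k (e.S κ x) : ℝ≥0∞) * δ κ x) x ∂ν) ≤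
        B + ∫⁻ x in L \ O, MP e s (fun κ x => (1 : ℝ≥0∞) * δ κ x) x ∂ν := by
      rw [hB, ← lintegral_add_left (hmmn.min hmav)]
      refine setLIntegral_mono_ae' hmO ?_
      filter_upwards [ha.cs] with x hx hxm
      exact le_min hl ha.adj (hx hxm.1)
    have h4 : (∫⁻ x in O, MP e s (fun κ x => (k (e.S κ x) : ℝ≥0∞) * δ κ x) x ∂ν) ≤
        c * N + ∫⁻ x in O, MP e s (fun κ x => (1 : ℝ≥0∞) * δ κ x) x ∂ν := by
      have hms : MeasurableSet {x | s x ≠ x} := (mset_eq ha.ms measurable_id).compl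
      have h5 : c * N = ∫⁻ x in O, (if s x ≠ x then c else 0) ∂ν := by
        have h6 : (fun x => if s x ≠ x then c else 0) =
            {x | s x ≠ x}.indicator fun _ => c := by
          funext x
          by_cases h : s x ≠ x
          · rw [if_pos h, indicator_of_mem (show x ∈ {x | s x ≠ x} from h)]
          · rw [if_neg h, indicator_of_notMem (show x ∉ {x | s x ≠ x} from h)]
        rw [h6, lintegral_indicator hms, setLIntegral_const, Measure.restrict_apply hms, hN]
        congr 2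
        ext x
        exact ⟨fun h => ⟨h.2, h.1⟩, fun h => ⟨h.2, h.1⟩⟩
      rw [h5, ← lintegral_add_left (Measurable.ite hms measurable_const measurable_const)]
      refine setLIntegral_mono_ae' hO ?_
      filter_upwards [ha.cap] with x hx hxm
      exact le_cap hl ha.adj (hx hxm)
    calc I ≤ (B + ∫⁻ x in L \ O, MP e s (fun κ x => (1 : ℝ≥0∞) * δ κ x) x ∂ν) +
          (c * N + ∫⁻ x in O, MP e s (fun κ x => (1 : ℝ≥0∞) * δ κ x) x ∂ν) := by
          rw [h1]
          exact add_le_add h3 h4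
      _ = B + ((∫⁻ x in L, MP e s (fun κ x => (1 : ℝ≥0∞) * δ κ x) x ∂ν) + c * N) := by
          rw [h2]
          ring
      _ ≤ B + (ν univ + c * N) := by gcongr
  -- the load
  set J : ℝ≥0∞ := ∫⁻ y in Lᶜ, ld K O θ y * k y ∂ν with hJ
  set A : ℝ≥0∞ := ∫⁻ x in L \ O, Av e δ k x ∂ν with hA
  have hJA : A + θ * ∫⁻ x in O, Av e δ k x ∂ν = J := by
    have h1 := cov_all hd hL hb (w := fun x => (if x ∈ O then θ else 1) / (dg K x : ℝ≥0∞))
      (meas_w hl hO) hkm
    have h2 : J = ∫⁻ y in Lᶜ, (∑ κ, if e.S κ y = y then 0 else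
        (if e.S κ y ∈ O then θ else 1) / (dg K (e.S κ y) : ℝ≥0∞)) * k y ∂ν := by
      rw [hJ]
      refine setLIntegral_congr_fun hL.compl fun y _ => ?_
      simp only [ld_eq hl y]
    rw [h2, ← h1]
    have h3 : (∫⁻ x in L, (if x ∈ O then θ else 1) / (dg K x : ℝ≥0∞) *
        ∑ κ, (if e.S κ x = x then 0 else (k (e.S κ x) : ℝ≥0∞) * δ κ x) ∂ν) =
        ∫⁻ x in L, (if x ∈ O then θ else 1) * Av e δ k x ∂ν := by
      refine setLIntegral_congr_fun hL fun x _ => ?_
      simp only [Av, div_eq_mul_inv]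
      ring
    rw [h3]
    conv_rhs => rw [hLO]
    rw [lintegral_union hO hdis]
    congr 1
    · rw [hA]
      refine setLIntegral_congr_fun hmO fun x hx => ?_
      simp only [if_neg hx.2, one_mul]
    · rw [← lintegral_const_mul θ hmav]
      refine setLIntegral_congr_fun hO fun x hx => ?_
      simp only [if_pos hx]
  have hmld : Measurable (ld K O θ) := meas_ld hl hO
  have hE : J + ∫⁻ y in Lᶜ, (1 - ld K O θ y) * k y ∂ν = I := by
    rw [hJ, ← lintegral_add_left (f := fun y => ld K O θ y * k y) (hmld.mul hkm), hI]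
    refine setLIntegral_congr_fun_ae hL.compl ?_
    filter_upwards [hld] with y hy hyL
    rw [← add_mul, add_tsub_cancel_of_le (hy hyL), one_mul]
  have hAB : (∫⁻ x in L \ O, (Av e δ k x - Mn e δ k x) ∂ν) + B = A := by
    rw [hB, ← lintegral_add_left (f := fun x => Av e δ k x - Mn e δ k x) (hmav.sub hmmn), hA]
    exact lintegral_congr fun x => Mn_le_or x
  have hJI : J ≤ I := by rw [← hE]; exact le_self_add
  have hAJ : A ≤ J := by rw [← hJA]; exact le_self_add
  have hBA : B ≤ A := by rw [← hAB]; exact le_add_self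
  have hJt : J ≠ ⊤ := ne_top_of_le_ne_top hIt hJI
  have hAt : A ≠ ⊤ := ne_top_of_le_ne_top hJt hAJ
  have hBt : B ≠ ⊤ := ne_top_of_le_ne_top hAt hBA
  have hNu : c * N ≤ c * ν univ := by gcongr; exact measure_mono (subset_univ _)
  refine ⟨?_, ?_, ?_⟩
  · have h1 : J + ∫⁻ y in Lᶜ, (1 - ld K O θ y) * k y ∂ν ≤ J + (ν univ + c * ν univ) := by
      rw [hE]
      calc I ≤ B + (ν univ + c * N) := hup
        _ ≤ J + (ν univ + c * ν univ) := by gcongr; exact hBA.trans hAJ
    exact (ENNReal.add_le_add_iff_left hJt).1 h1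
  · have h1 : B + ∫⁻ x in L \ O, (Av e δ k x - Mn e δ k x) ∂ν ≤
        B + (ν univ + c * ν univ) := by
      rw [add_comm B (lintegral _ _), hAB]
      calc A ≤ I := hAJ.trans hJI
        _ ≤ B + (ν univ + c * N) := hup
        _ ≤ B + (ν univ + c * ν univ) := by gcongr
    exact (ENNReal.add_le_add_iff_left hBt).1 h1
  · have h1 : A + θ * ∫⁻ x in O, Av e δ k x ∂ν ≤ A + (ν univ + c * N) := by
      rw [hJA]
      calc J ≤ I := hJI
        _ ≤ B + (ν univ + c * N) := hup
        _ ≤ A + (ν univ + c * N) := by gcongr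
    exact (ENNReal.add_le_add_iff_left hAt).1 h1

end Pool.Agent.MEQ
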