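import Pool.Agent.MEQ.Targets
import Pool.Agent.MEQ.Base

set_option autoImplicit false

/-! MP_fff3e1_lc, project MEQ: clean states exist (D6). -/

namespace Pool.Agent.MEQ

open MeasureTheory Set Filter
open scoped ENNReal
open Pool.Agent.MEC
open Pool.Agent.MEP
open Pool.Agent.MEO

universe u

namespace CLQ_

section plain

variable {V : Type u} {G : SimpleGraph V} {l : ℕ}

lemma XX_dg {R : SimpleGraph V} {r : ℕ} {x : V} (h : x ∈ XX R r) : dg R x = r :=
  h.2 x SimpleGraph.Reachable.rfl

lemma dg_le (c : PC G l) {x : V} (h : (G.neighborSet x).Finite) :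
    dg G x ≤ dg (RG c) x + l := by
  have h1 := dg_add c h
  have h2 : {k | c.S k x ≠ x}.ncard ≤ l := by
    have := ncard_le_ncard (subset_univ {k : Fin l | c.S k x ≠ x}) (toFinite _)
    rwa [ncard_univ, Nat.card_fin] at this
  omega

/-- a neighbour, if possible the one with the given name -/
lemma exists_f {R : SimpleGraph V} (g : V → V) : ∃ f : V → V, ∀ x, (∃ y, R.Adj x y) →
    R.Adj x (f x) ∧ (R.Adj x (g x) → f x = g x) := by
  classical
  refine ⟨fun x => if R.Adj x (g x) then g x else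
    if h : ∃ y, R.Adj x y then h.choose else x, fun x hx => ?_⟩
  by_cases h1 : R.Adj x (g x)
  · refine ⟨?_, fun _ => if_pos h1⟩
    simp only [if_pos h1]
    exact h1
  · refine ⟨?_, fun h2 => absurd h2 h1⟩
    simp only [if_neg h1, dif_pos hx]
    exact hx.choose_spec

/-- more starting points, more exchanges -/
lemma TS_set_mono {R : SimpleGraph V} {Δ r : ℕ} {X X' : Set V} (h : X ⊆ X') (n : ℕ) :
    ∀ b : Bool, TS G R Δ l r X n b ⊆ TS G R Δ l r X' n b := by
  induction n with
  | zero =>
    intro b x hx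
    cases b with
    | true =>
      rcases hx with hx | ⟨hx, hx'⟩
      · exact Or.inl hx
      · exact Or.inr ⟨h hx, hx'⟩
    | false => exact hx
  | succ n ih =>
    intro b x hx
    cases b with
    | true =>
      rcases hx with hx | ⟨s, hs, hxs⟩
      · exact Or.inl (ih true hx)
      · exact Or.inr ⟨s, ih false hs, hxs⟩
    | false =>
      rcases hx with hx | ⟨t, ht, hxt⟩
      · exact Or.inl (ih false hx)
      · exact Or.inr ⟨t, ih true ht, hxt⟩

/-- the first step of an exchange which starts at a full point -/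
lemma TS_step {R : SimpleGraph V} {Δ r : ℕ} {y : V} (hy : dg R y = r) (n : ℕ) :
    y ∈ TS G R Δ l r ∅ n true → ∃ n', ∃ s ∈ TS G R Δ l r ∅ n' false, R.Adj y s := by
  induction n with
  | zero =>
    rintro (h | ⟨h, -⟩)
    · exact absurd h (by rw [hy]; exact lt_irrefl r)
    · exact absurd h (notMem_empty y)
  | succ n ih =>
    rintro (h | ⟨s, hs, hys⟩)
    · exact ih h
    · exact ⟨n, s, hs, hys⟩

end plain

end CLQ_

open CLQ_ in
/-- D6 clean states exist -/
theorem allCLQ (h_GEQ : tGEQ.{u}) (h_LOC : tLOC.{u}) (h_CLS : tCLS.{u}) (h_SRQ : tSRQ.{u})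
    (h_PRK : tPRK.{u}) : tCLQ.{u} := by
  intro V _ _ G m e ν _ C Δ l r hlab hq hC hPX hlr hl1 hr1 hex
  obtain ⟨hL1, hL2, hL3, hL4⟩ := h_LOC V G m l e hlab
  obtain ⟨c, hsat, hst⟩ := h_GEQ V G G m l e ν C hq hC ((Fin l × Fin l) × Bool ⊕ Bool)
    (fun i => match i with
      | Sum.inl (gh, true) => fun c : PCol G l => Bad (c.S gh.1) (c.S gh.2)
      | Sum.inl (gh, false) => fun c : PCol G l => Inf (c.S gh.1) (c.S gh.2)
      | Sum.inr true => fun c : PCol G l => XX (RG (toPC c)) r
      | Sum.inr false => fun c : PCol G l => X1 G (RG (toPC c)) Δ l r)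
    (by
      rintro (⟨gh, _ | _⟩ | _ | _)
      · exact hL2 gh.1 gh.2
      · exact hL1 gh.1 gh.2
      · exact hL4 Δ r
      · exact hL3 r) (QR G r) hex
  have hgs : GS ν Δ r c :=
    { sat := hsat
      bad := fun g h _ => hst (Sum.inl ((g, h), true))
      inf := fun g h _ => hst (Sum.inl ((g, h), false))
      xx := hst (Sum.inr true)
      x1 := hst (Sum.inr false) }
  refine ⟨c, hsat, ?_⟩
  intro X hXs hXm hXc hXn
  set R : SimpleGraph V := RG (toPC c) with hR
  have hRG : R ≤ G := RG_le _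
  have hfin : ∀ x, (R.neighborSet x).Finite := fun x => fin_of_le hRG (hlab.fin x)
  have hdeg : ∀ x, dg G x ≤ dg R x + l := fun x => dg_le (toPC c) (hlab.fin x)
  have hXr : ∀ x ∈ X, dg R x = r := fun x hx => XX_dg (hXs hx)
  have hCL := h_CLS V G m e ν C Δ l r hlab hq hC hPX hlr hr1 c hgs X hXs hXm hXc hXn
  have hSR := h_SRQ V G m Δ l r e ν C hlab hq hC hPX c hgs X hXs hXm hXc hXn
  have hsat' : ∀ᵐ x ∂ν, dg R x ≤ r := hsat
  have hae : ∀ᵐ b ∂ν, b ∉ X := by
    filter_upwards [ae_Cq_not hq e hCL, ae_Cq hq e hSR, ae_Cq hq e hsat']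
      with b hCb hSb hsb hbX
    have hPC : PX G Δ (Cm e b) := PX.Cm hlab hPX b
    by_cases hcase : ∃ x ∈ X, ∃ y ∈ X, x ∈ Cm e b ∧ R.Adj x y ∧ dg G x < Δ ∧ dg G y < Δ
    · obtain ⟨x, hx, y, hy, hxC, hxy, hdx, hdy⟩ := hcase
      have hyC : y ∈ Cm e b := Cm_adj hlab hxC (hRG hxy)
      refine hSb x hxC hx ⟨y, hy, ?_, fun κ => ?_⟩
      · rw [Cm_eq hxC]; exact hyC
      · rw [Cm_eq hxC]
        have hap : apL R [(⟨1, x, x, y⟩ : Ex V)] = del R x y := by
          rw [apL_cons, apL_nil]
          unfold ap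
          rw [if_neg (by simp), if_pos rfl]
        refine ⟨[⟨1, x, x, y⟩], ?_, ?_, ?_⟩
        · intro z hz
          rw [List.mem_singleton] at hz
          subst hz
          exact ⟨hxC, hxC, hyC⟩
        · refine ⟨⟨fun h => ?_, fun _ => ⟨hxy, ?_, ?_⟩, fun h => ?_, fun _ _ _ => ?_⟩, trivial⟩
          · exact absurd h (by simp)
          · show dg G x < dg R x + l
            rw [hXr x hx]; omega
          · show dg G y < dg R y + l
            rw [hXr y hy]; omega
          · exact absurd h (by simp)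
          · exact Or.inl (Or.inl rfl)
        · have hdx' : dg (del R x y) x < r := by
            have := dg_del_left hxy (hfin x)
            rw [hXr x hx] at this
            omega
          have hdy' : dg (del R x y) y < r := by
            have := dg_del_right hxy (hfin y)
            rw [hXr y hy] at this
            omega
          rw [hap]
          rintro z (rfl | rfl) hz
          · by_cases h1 : e.S κ z = y
            · exact ⟨y, Or.inl h1.symm, hdy'⟩
            · refine ⟨z, Or.inr ?_, hdx'⟩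
              rw [del_adj]
              refine ⟨hz.symm, ?_⟩
              rintro (⟨h2, -⟩ | ⟨h2, -⟩)
              · exact hz.ne h2.symm
              · exact h1 h2
          · by_cases h1 : e.S κ z = x
            · exact ⟨x, Or.inl h1.symm, hdx'⟩
            · refine ⟨z, Or.inr ?_, hdy'⟩
              rw [del_adj]
              refine ⟨hz.symm, ?_⟩
              rintro (⟨h2, -⟩ | ⟨h2, -⟩)
              · exact h1 h2
              · exact hz.ne h2.symm
    · have hW : ∀ x ∈ X, ∀ y ∈ X, x ∈ Cm e b → R.Adj x y → dg G x = Δ ∨ dg G y = Δ := by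
        intro x hx y hy hxC hxy
        by_contra hcon
        push Not at hcon
        exact hcase ⟨x, hx, y, hy, hxC, hxy, lt_of_le_of_ne (hPX.deg x) hcon.1,
          lt_of_le_of_ne (hPX.deg y) hcon.2⟩
      -- a point of small degree from which an exchange can be completed
      have hb1 : b ∉ X1 G R Δ l r := fun h => hCb b (Cm_self e b) ⟨h, hbX⟩
      obtain ⟨y, hby, hyΔ, n, hyT⟩ : ∃ y, R.Reachable b y ∧ dg G y < Δ ∧
          ∃ n, y ∈ TS G R Δ l r ∅ n true := by
        by_contra hcon
        refine hb1 ⟨hXs hbX, fun y h1 h2 n h3 => hcon ⟨y, h1, h2, n, h3⟩⟩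
      have hyX : y ∈ X := hXc.reach hbX hby
      have hyC : y ∈ Cm e b := Cm_of_reachable hlab hRG hby
      obtain ⟨n', s, hs, hys⟩ := TS_step (hXr y hyX) n hyT
      have hsX : s ∈ X := hXc y hyX s hys
      have hsC : s ∈ Cm e b := Cm_adj hlab hyC (hRG hys)
      have hsΔ : dg G s = Δ := (hW y hyX s hsX hyC hys).resolve_left hyΔ.ne
      obtain ⟨p, hpX, q, hqX, hpC, hqC, hf⟩ := h_PRK V G Δ l r (Cm e b) hPC hlr hl1 hr1 R X hRG
        (fun x hx => ⟨hsb x hx, hdeg x⟩) hXr hXc hW s hsX hsC hsΔ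
        ⟨n', TS_set_mono (empty_subset X) n' false hs⟩
      have hnb : ∀ x ∈ X, ∃ y, R.Adj x y := by
        intro x hx
        refine (dg_pos_iff (hfin x)).1 ?_
        rw [hXr x hx]
        exact hr1
      refine hSb p hpC hpX ⟨q, hqX, ?_, fun κ => ?_⟩
      · rw [Cm_eq hpC]; exact hqC
      · rw [Cm_eq hpC]
        obtain ⟨f, hff⟩ := exists_f (R := R) (fun x => e.S κ x)
        have hp := hff p (hnb p hpX)
        have hq' := hff q (hnb q hqX)
        obtain ⟨σ, hσC, hleg, hdp, hdq⟩ := hf f hp.1 hq'.1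
        refine ⟨σ, hσC, hleg, ?_⟩
        rintro z (rfl | rfl) hz
        · refine ⟨e.S κ z, Or.inl rfl, ?_⟩
          rw [← hp.2 hz]
          exact hdp
        · refine ⟨e.S κ z, Or.inl rfl, ?_⟩
          rw [← hq'.2 hz]
          exact hdq
  exact measure_eq_zero_iff_ae_notMem.2 hae

end Pool.Agent.MEQ
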