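import Pool.Agent.MEQ.Targets
import Pool.Agent.MEQ.Base
import Pool.Agent.MEO.Targets

set_option autoImplicit false

/-! C3: at a continuity point exchanges can be completed in finitely many steps. -/

namespace Pool.Agent.MEQ

open MeasureTheory Set Filter
open scoped ENNReal
open Pool.Agent.MEC
open Pool.Agent.MEP
open Pool.Agent.MEO

universe u

namespace CLS_

variable {V : Type u} {G R : SimpleGraph V} {Δ l r : ℕ}

/-- the set `X1` is a union of components -/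
lemma X1_adj {x y : V} (h : x ∈ X1 G R Δ l r) (hxy : R.Adj x y) : y ∈ X1 G R Δ l r := by
  have hxy' : R.Reachable x y := hxy.reachable
  refine ⟨⟨?_, fun z hz => h.1.2 z (hxy'.trans hz)⟩, fun z hz => h.2 z (hxy'.trans hz)⟩
  have h1 : {z | R.Reachable y z} = {z | R.Reachable x z} := by
    ext z
    exact ⟨fun hz => hxy'.trans hz, fun hz => hxy'.symm.trans hz⟩
  rw [h1]
  exact h.1.1

end CLS_

open CLS_ in
/-- C3 -/
theorem allCLS (h_KGW : tKGW.{u}) (h_FLP : tFLP.{u}) (h_VAQ : tVAQ.{u}) (h_LOC : tLOC.{u})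
    (h_MES : tMES.{u}) : tCLS.{u} := by
  intro V _ _ G m e ν _ C Δ l r hl hq hC hPX hlr hr c hGS X hX hXm hCld hNSm
  by_contra hν
  obtain ⟨hGm, hMd, hRm, -, -⟩ := h_MES V G m l e c hl
  have hRG : RG (toPC c) ≤ G := RG_le _
  have dG : Measurable (dg G) := measurable_to_countable' fun j => (hMd G le_rfl hGm).1 j
  have hX1m : MeasurableSet (X1 G (RG (toPC c)) Δ l r) := by
    obtain ⟨BN, hBm, hBi, -⟩ := (h_LOC V G m l e hl).2.2.2 Δ r
    have h1 : X1 G (RG (toPC c)) Δ l r = ⋂ n, BN n c := hBi c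
    rw [h1]
    exact MeasurableSet.iInter fun n => hBm n c
  set D : Set V := (X1 G (RG (toPC c)) Δ l r ∩ X) ∩ {u | dg G u < Δ} with hD
  have hDm : MeasurableSet D := (hX1m.inter hXm).inter (dG measurableSet_Iio)
  -- a positive part of the points has small degree
  have hDν : ν D ≠ 0 := by
    intro h0
    apply hν
    have h1 : X1 G (RG (toPC c)) Δ l r ∩ X ⊆ D ∪ ⋃ k : Fin m, e.S k ⁻¹' D := by
      rintro x ⟨hx1, hx2⟩
      by_cases hd : dg G x < Δ
      · exact Or.inl ⟨⟨hx1, hx2⟩, hd⟩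
      · right
        have h2 : dg (RG (toPC c)) x = r := hx1.1.2 x (SimpleGraph.Reachable.refl x)
        have h3 : ((RG (toPC c)).neighborSet x).Finite := fin_of_le hRG (hl.fin x)
        obtain ⟨y, hy⟩ := (dg_pos_iff h3).1 (by omega)
        have h4 : dg G y < Δ := (hPX.ind x y (hRG hy)).resolve_left hd
        obtain ⟨k, rfl⟩ := hl x y (hRG hy)
        exact mem_iUnion.2 ⟨k, ⟨⟨X1_adj hx1 hy, hCld x hx2 _ hy⟩, h4⟩⟩
    refine measure_mono_null h1 (measure_union_null h0 (measure_iUnion_null fun k => ?_))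
    have h5 := qi_S hq e le_rfl k D
    rw [h0, mul_zero] at h5
    exact nonpos_iff_eq_zero.1 h5
  obtain ⟨g, hg⟩ : ∃ g : Fin l, ν (D ∩ {u | c.S g u = u}) ≠ 0 := by
    by_contra hcon
    push Not at hcon
    refine hDν (measure_mono_null ?_ (measure_iUnion_null hcon))
    intro u hu
    have h2 : dg (RG (toPC c)) u = r := hu.1.1.1.2 u (SimpleGraph.Reachable.refl u)
    have h3 : dg G u < Δ := hu.2
    obtain ⟨k, hk⟩ := (miss_iff (toPC c) (hl.fin u)).2 (by omega)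
    exact mem_iUnion.2 ⟨k, hu, hk⟩
  have hY0 : ∀ u ∈ D ∩ {u | c.S g u = u}, dg G u < Δ ∧ c.S g u = u ∧
      dg (RG (toPC c)) u = r ∧ ∀ n, u ∉ TS G (RG (toPC c)) Δ l r ∅ n true := by
    intro u hu
    have h1 : u ∈ X1 G (RG (toPC c)) Δ l r := hu.1.1.1
    exact ⟨hu.1.2, hu.2, h1.1.2 u (SimpleGraph.Reachable.refl u),
      h1.2 u (SimpleGraph.Reachable.refl u) hu.1.2⟩
  obtain ⟨Y, hYY, hYm, hYν, f, h, hf, hh, hfh, hhf, hwalk⟩ :=
    h_KGW V G m e ν C Δ l r hl hq hC hPX hlr hr c g (D ∩ {u | c.S g u = u}) hGS.sat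
      (hDm.inter (measurableSet_eq_fun (c.meas g) measurable_id)) hY0 hg
  have hYp : 0 < ν.real Y := ENNReal.toReal_pos hYν (measure_ne_top _ _)
  obtain ⟨δ1, hδ1, hst⟩ := hGS.x1 (ν.real Y) hYp
  obtain ⟨δ2, hδ2, hfl⟩ := h_FLP V G m e ν C Δ l r hl hq hC hPX hlr hr c g Y f h hYm hf hh
    (fun u hu => ⟨(hY0 u (hYY hu)).1, (hY0 u (hYY hu)).2.1, (hY0 u (hYY hu)).2.2.1⟩)
    hfh hhf hwalk δ1 hδ1
  obtain ⟨J, hJY, hJm, hJν, hJ⟩ := h_VAQ V G m e ν hl (RG (toPC c)) hRG hRm X hNSm Y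
    (fun u hu => (hYY hu).1.1.2) hYm δ2 hδ2
  obtain ⟨c', hc1, hc2, hc3⟩ := hfl J hJY hJm hJν
  have h1 := hst c' (by
    filter_upwards [hGS.sat] with x hx
    exact (hc1 x).trans hx) hc2
  refine absurd h1 (not_lt.2 (measureReal_mono ?_))
  intro u hu
  obtain ⟨y, hy, huy⟩ := hJ u hu
  exact ⟨(hYY hu).1.1.1, hc3 u ⟨y, hy, huy⟩⟩

end Pool.Agent.MEQ
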