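import Pool.Agent.MEQ.Targets
import Pool.Agent.MEQ.Base
import Pool.Agent.MEO.CLIMB

set_option autoImplicit false

/-! MP_fff3e1_lc, target `tCMQ`: one more colour, for quasi-invariant measures.  On the
components which meet a maximal partial transversal we use `tSMC`, on the other components
`tORQ` and `tMTQ`. -/

namespace Pool.Agent.MEQ

open MeasureTheory Set Filter
open scoped ENNReal
open Pool.Agent.MEC
open Pool.Agent.MEP
open Pool.Agent.MEO

universe u

namespace CMQ_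

section plain

variable {V : Type u} {G R : SimpleGraph V}

lemma sn_closed {T : Set V} {x y : V} (hx : x ∈ sn R T) (hxy : R.Adj x y) : y ∈ sn R T := by
  obtain ⟨z, hz, h⟩ := hx
  exact ⟨z, hz, hxy.symm.reachable.trans h⟩

lemma snc_closed {T : Set V} {x y : V} (hx : x ∉ sn R T) (hxy : R.Adj x y) : y ∉ sn R T :=
  fun hy => hx (sn_closed hy hxy.symm)

lemma snc_reach {T : Set V} {x y : V} (hx : x ∉ sn R T) (hxy : R.Reachable x y) :
    y ∉ sn R T := by
  rintro ⟨z, hz, h⟩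
  exact hx ⟨z, hz, hxy.trans h⟩

/-- the graph `R` on the set `N` -/
def rs (R : SimpleGraph V) (N : Set V) : SimpleGraph V where
  Adj x y := R.Adj x y ∧ x ∈ N ∧ y ∈ N
  symm := ⟨fun _ _ h => ⟨h.1.symm, h.2.2, h.2.1⟩⟩
  loopless := ⟨fun _ h => h.1.ne rfl⟩

lemma rs_le (R : SimpleGraph V) (N : Set V) : rs R N ≤ R := fun _ _ h => h.1

lemma rs_adj {N : Set V} (hN : ∀ x ∈ N, ∀ y, R.Adj x y → y ∈ N) {x y : V} (hx : x ∈ N) :
    (rs R N).Adj x y ↔ R.Adj x y :=
  ⟨fun h => h.1, fun h => ⟨h, hx, hN x hx y h⟩⟩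

lemma rs_dg {N : Set V} (hN : ∀ x ∈ N, ∀ y, R.Adj x y → y ∈ N) {x : V} (hx : x ∈ N) :
    dg (rs R N) x = dg R x := dg_congr fun _ => rs_adj hN hx

lemma rs_dg_zero {N : Set V} {x : V} (hx : x ∉ N) : dg (rs R N) x = 0 := by
  unfold dg
  have h : (rs R N).neighborSet x = ∅ := by
    ext y
    simp only [SimpleGraph.mem_neighborSet, mem_empty_iff_false, iff_false]
    exact fun h => hx h.2.1
  rw [h, ncard_empty]

lemma rs_reach {N : Set V} (hN : ∀ x ∈ N, ∀ y, R.Adj x y → y ∈ N) {x y : V} (hx : x ∈ N)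
    (h : R.Reachable x y) : (rs R N).Reachable x y := by
  obtain ⟨p⟩ := h
  induction p with
  | nil => exact SimpleGraph.Reachable.rfl
  | cons hadj _ ih =>
    exact ((rs_adj hN hx).2 hadj).reachable.trans (ih (hN _ hx _ hadj))

end plain

section measurable

variable {V : Type u} [MeasurableSpace V] [StandardBorelSpace V] {G : SimpleGraph V} {m : ℕ}

/-- the least points of the components inside `N` -/
def LP (e : PCol G m) (R : SimpleGraph V) (N : Set V) : Set V :=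
  {x | x ∈ N ∧ ∀ w : List (Fin m), R.Reachable x (wd e w x) →
    embeddingReal V x ≤ embeddingReal V (wd e w x)}

lemma mLP (e : PCol G m) {R : SimpleGraph V} {N : Set V} (hN : MeasurableSet N)
    (hR : MeasurableSet {p : V × V | R.Reachable p.1 p.2}) : MeasurableSet (LP e R N) := by
  have h1 : LP e R N = N ∩ ⋂ w : List (Fin m), ({x | R.Reachable x (wd e w x)}ᶜ ∪
      {x | embeddingReal V x ≤ embeddingReal V (wd e w x)}) := by
    ext x
    simp only [LP, mem_ofPred_eq, mem_inter_iff, mem_iInter, mem_union, mem_compl_iff]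
    refine and_congr_right fun _ => forall_congr' fun w => ?_
    tauto
  rw [h1]
  have hf : Measurable (embeddingReal V) := (measurableEmbedding_embeddingReal V).measurable
  refine hN.inter (MeasurableSet.iInter fun w => ?_)
  refine MeasurableSet.union ?_ (measurableSet_le hf (hf.comp (wd e w).measurable))
  exact (hR.preimage (measurable_id.prodMk (wd e w).measurable)).compl

lemma LP_PT {e : PCol G m} (he : Lab e) {R : SimpleGraph V} (hR : R ≤ G) (N : Set V) :
    PT R (LP e R N) := by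
  intro x hx y hy hxy
  obtain ⟨w, hw⟩ := Cm_of_reachable he hR hxy
  obtain ⟨w', hw'⟩ := Cm_of_reachable he hR hxy.symm
  have h1 := hx.2 w (by rw [hw]; exact hxy)
  have h2 := hy.2 w' (by rw [hw']; exact hxy.symm)
  rw [hw] at h1
  rw [hw'] at h2
  exact (measurableEmbedding_embeddingReal V).injective (le_antisymm h1 h2)

lemma LP_fin {e : PCol G m} (he : Lab e) {R : SimpleGraph V} (hR : R ≤ G) {N : Set V}
    (hN : ∀ x ∈ N, ∀ y, R.Reachable x y → y ∈ N) {x : V} (hx : x ∈ N)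
    (hf : {y | R.Reachable x y}.Finite) : ∃ w : List (Fin m), wd e w x ∈ LP e R N := by
  obtain ⟨y, hy, hmin⟩ := hf.exists_minimalFor (embeddingReal V) _
    ⟨x, SimpleGraph.Reachable.rfl⟩
  obtain ⟨w, hw⟩ := Cm_of_reachable he hR hy
  refine ⟨w, ?_⟩
  rw [hw]
  refine ⟨hN x hx y hy, fun w' hw' => ?_⟩
  by_contra hlt
  push Not at hlt
  have h3 := hmin (show wd e w' y ∈ {y | R.Reachable x y} from hy.trans hw') hlt.le
  exact absurd hlt (not_lt.2 h3)

end measurable

end CMQ_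

open Classical in
theorem allCMQ (h_SMO : tSMO.{u}) (h_SMC : tSMC.{u}) (h_ORQ : tORQ.{u}) (h_MTQ : tMTQ.{u})
    (h_MES : tMES.{u}) : tCMQ.{u} := by
  intro V _ _ G m e ν _ C Δ l r he hq hC hPX hr c hdg hcln
  obtain ⟨χ, hχ⟩ := hPX.bip
  have hMES := h_MES V G m l e c he
  set R : SimpleGraph V := RG (toPC c) with hRdef
  have hRG : R ≤ G := RG_le (toPC c)
  have hmR : MeasurableSet {p : V × V | R.Adj p.1 p.2} := hMES.2.2.1
  obtain ⟨-, hmre, hmXX⟩ := hMES.2.1 R hRG hmR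
  obtain ⟨T, mT, pT, mS, hns⟩ := h_SMO V G m e ν he R hRG hmR
  obtain ⟨s1, ms1, is1, as1, ss1, cs1⟩ := h_SMC V G m e r χ R T he hr hRG hmR
    (fun x y h => hχ x y (hRG h)) mT pT
  have hNcl : ∀ x ∈ (sn R T)ᶜ, ∀ y, R.Adj x y → y ∈ (sn R T)ᶜ :=
    fun x hx y hxy => CMQ_.snc_closed hx hxy
  have hNre : ∀ x ∈ (sn R T)ᶜ, ∀ y, R.Reachable x y → y ∈ (sn R T)ᶜ :=
    fun x hx y hxy => CMQ_.snc_reach hx hxy
  -- the infinite bad components are null
  have hX0 : ν (XX R r ∩ (sn R T)ᶜ) = 0 := by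
    refine hcln _ inter_subset_left ((hmXX r).inter mS.compl) ?_ ?_
    · rintro x ⟨hx1, hx2⟩ y hxy
      refine ⟨⟨?_, fun z hz => hx1.2 z (hxy.reachable.trans hz)⟩, hNcl x hx2 y hxy⟩
      have h1 : {z | R.Reachable y z} = {z | R.Reachable x z} := by
        ext z
        exact ⟨fun h => hxy.reachable.trans h, fun h => hxy.symm.reachable.trans h⟩
      show ({z | R.Reachable y z} : Set V).Infinite
      rw [h1]
      exact hx1.1
    · exact fun T' hT' mT' pT' => hns T' (hT'.trans inter_subset_right) mT' pT'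
  -- the finite components are null
  have hL0 : ν (CMQ_.LP e R (sn R T)ᶜ) = 0 :=
    hns _ (fun x hx => hx.1) (CMQ_.mLP e mS.compl hmre) (CMQ_.LP_PT he hRG _)
  have hae1 : ∀ᵐ x ∂ν, ∀ y ∈ Cm e x, dg R y ≤ r := ae_Cq hq e hdg
  have hae2 : ∀ᵐ x ∂ν, x ∉ XX R r ∩ (sn R T)ᶜ := measure_eq_zero_iff_ae_notMem.1 hX0
  have hae3 : ∀ᵐ x ∂ν, ∀ y ∈ Cm e x, y ∉ CMQ_.LP e R (sn R T)ᶜ := ae_Cq_not hq e hL0
  -- the other components
  set R' : SimpleGraph V := CMQ_.rs R (sn R T)ᶜ with hR'def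
  have hR'R : R' ≤ R := CMQ_.rs_le R _
  have hmR' : MeasurableSet {p : V × V | R'.Adj p.1 p.2} :=
    hmR.inter ((measurable_fst mS.compl).inter (measurable_snd mS.compl))
  have hdg' : ∀ᵐ x ∂ν, dg R' x ≤ r := by
    filter_upwards [hdg] with x hx
    by_cases hxN : x ∈ (sn R T)ᶜ
    · rw [CMQ_.rs_dg hNcl hxN]
      exact hx
    · rw [CMQ_.rs_dg_zero hxN]
      exact Nat.zero_le r
  have hslack : ∀ᵐ x ∂ν, dg R' x = r → ∃ y, R'.Reachable x y ∧ dg R' y < r := by
    filter_upwards [hae1, hae2, hae3] with x h1 h2 h3 hxr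
    have hxN : x ∈ (sn R T)ᶜ := by
      by_contra hxN
      rw [CMQ_.rs_dg_zero hxN] at hxr
      omega
    by_contra hcon
    push Not at hcon
    have hall : ∀ y, R.Reachable x y → dg R y = r := by
      intro y hy
      have h4 := hcon y (CMQ_.rs_reach hNcl hxN hy)
      rw [CMQ_.rs_dg hNcl (hNre x hxN y hy)] at h4
      exact le_antisymm (h1 y (Cm_of_reachable he hRG hy)) h4
    by_cases hinf : {y | R.Reachable x y}.Infinite
    · exact h2 ⟨⟨hinf, hall⟩, hxN⟩
    · obtain ⟨w, hw⟩ := CMQ_.LP_fin he hRG hNre hxN (not_infinite.1 hinf)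
      exact h3 _ ⟨w, rfl⟩ hw
  obtain ⟨f, g, mf, mg, hf, hg, hcov, T2, mT2, pT2, horb⟩ :=
    h_ORQ V G m e ν C r R' he hq hC hr (hR'R.trans hRG) hmR' hdg' hslack
  obtain ⟨s2, ms2, is2, as2, cs2⟩ := h_MTQ V R' χ f g T2
    (fun x y h => hχ x y (hRG (hR'R h))) mf mg hf hg mT2 pT2
  -- the union of the two matchings
  have hs1 : ∀ x ∈ sn R T, s1 x ∈ sn R T := by
    intro x hx
    by_cases h : s1 x = x
    · rw [h]
      exact hx
    · exact CMQ_.sn_closed hx (as1 x h)
  have hs2 : ∀ x ∉ sn R T, s2 x ∉ sn R T := by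
    intro x hx
    by_cases h : s2 x = x
    · rw [h]
      exact hx
    · exact CMQ_.snc_closed hx (hR'R (as2 x h))
  have mp : MeasurableSet {x | x ∈ sn R T} := mS
  let s : V → V := fun x => if x ∈ sn R T then s1 x else s2 x
  have s_pos : ∀ x ∈ sn R T, s x = s1 x := fun x hx => if_pos hx
  have s_neg : ∀ x ∉ sn R T, s x = s2 x := fun x hx => if_neg hx
  have ms : Measurable s := Measurable.ite mp ms1 ms2
  have is : ∀ x, s (s x) = x := by
    intro x
    by_cases hx : x ∈ sn R T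
    · rw [s_pos x hx, s_pos _ (hs1 x hx), is1]
    · rw [s_neg x hx, s_neg _ (hs2 x hx), is2]
  have as : ∀ x, s x ≠ x → R.Adj x (s x) := by
    intro x hne
    by_cases hx : x ∈ sn R T
    · rw [s_pos x hx] at hne ⊢
      exact as1 x hne
    · rw [s_neg x hx] at hne ⊢
      exact hR'R (as2 x hne)
  refine ⟨CLIMB_.add c s ms is as, ?_⟩
  filter_upwards [hdg, hae1, hcov, horb] with x h1 h2 h3 h4
  refine CLIMB_.dg_add c s ms is as hr x (hPX.fin x) h1 fun hxr => ?_
  by_cases hx : x ∈ sn R T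
  · rw [s_pos x hx]
    exact cs1 x hx (fun y hy => h2 y (Cm_of_reachable he hRG hy)) hxr
  · rw [s_neg x hx]
    refine cs2 x h4 (h3 ?_)
    rw [CMQ_.rs_dg hNcl hx]
    exact hxr

end Pool.Agent.MEQ
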