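import Pool.Agent.MEQ.Targets
import Pool.Agent.MEQ.Base
import Pool.Agent.MEO.UST

set_option autoImplicit false

/-! D3: strands which end near a small set are small, for all states near a generic one. -/

namespace Pool.Agent.MEQ

open MeasureTheory Set Filter
open scoped ENNReal Topology
open Pool.Agent.MEC
open Pool.Agent.MEP
open Pool.Agent.MEO

universe u

namespace CST_

section alg

variable {V : Type u} {s t : V → V}

/-- after a stall the walk returns -/
lemma bounce (hs : ∀ x, s (s x) = x) (ht : ∀ x, t (t x) = x) {n : ℕ} {x : V}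
    (h : al s t (n + 1) x = al s t n x) {j : ℕ} (hj : j ≤ n) :
    al s t (n + 1 + j) x = al s t (n - j) x := by
  rw [al_add, h]
  have h1 := al_back hs ht hj x
  by_cases hn : Even n
  · rw [if_neg (by rw [Nat.even_add_one]; exact not_not.2 hn)]
    rwa [if_pos hn] at h1
  · rw [if_pos (by rw [Nat.even_add_one]; exact hn)]
    rwa [if_neg hn] at h1

lemma bounce2 (hs : ∀ x, s (s x) = x) (ht : ∀ x, t (t x) = x) {n : ℕ} {x : V}
    (h : al s t (n + 1) x = al s t n x) (j : ℕ) :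
    al s t (2 * n + 1 + j) x = al t s j x := by
  rw [al_add_odd s t (by rw [Nat.even_add_one]; exact not_not.2 (even_two_mul n))]
  have h1 := bounce hs ht h le_rfl
  rw [show 2 * n + 1 = n + 1 + n by ring, h1, Nat.sub_self, al_zero]

/-- a walk which reaches a fixed point stalls -/
lemma fix_stall (hs : ∀ x, s (s x) = x) (ht : ∀ x, t (t x) = x) {n : ℕ} {x : V}
    (h : s (al s t n x) = al s t n x ∨ t (al s t n x) = al s t n x) :
    n = 0 ∨ ¬ NS s t (n + 1) x := by
  cases n with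
  | zero => left; rfl
  | succ n =>
    right
    intro hns
    have h1 := hns n (by omega)
    have h2 := hns (n + 1) (by omega)
    by_cases hn : Even n
    · have hn' : ¬ Even (n + 1) := by rw [Nat.even_add_one]; exact not_not.2 hn
      rw [al_last_odd s t hn'] at h2
      rcases h with h | h
      · rw [al_last_even s t hn, hs] at h
        apply h1
        rw [al_last_even s t hn]
        exact h.symm
      · exact h2 h
    · have hn' : Even (n + 1) := by rw [Nat.even_add_one]; exact hn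
      rw [al_last_even s t hn'] at h2
      rcases h with h | h
      · exact h2 h
      · rw [al_last_odd s t hn, ht] at h
        apply h1
        rw [al_last_odd s t hn]
        exact h.symm

lemma per {p : ℕ} {x : V} (h : al s t (2 * p) x = x) (q r : ℕ) :
    al s t (2 * p * q + r) x = al s t r x := by
  induction q with
  | zero => simp
  | succ q ih =>
    rw [show 2 * p * (q + 1) + r = 2 * p + (2 * p * q + r) by ring,
      al_add_even s t (even_two_mul p), h, ih]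

/-- the finite approximations of `Inf` -/
def InfN (s t : V → V) (N : ℕ) : Set V := {x | (NS s t N x ∨ NS t s N x) ∧ x ∈ Long s t N}

lemma InfN_anti (s t : V → V) : Antitone fun N : ℕ => InfN s t N := fun _ _ h _ hx =>
  ⟨hx.1.imp (NS_mono h) (NS_mono h), Long_anti h hx.2⟩

lemma Inf_eq (s t : V → V) : Inf s t = ⋂ N : ℕ, InfN s t N := by
  ext x
  simp [Inf, InfN]

lemma Inf_subset (s t : V → V) (N : ℕ) : Inf s t ⊆ InfN s t N := fun _ hx => hx N

/-- `InfN` depends only on the walks of length less than `2 * N` -/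
lemma infN_sub (s t s' t' : V → V) (N : ℕ) :
    InfN s' t' N \ InfN s t N ⊆ (⋃ j ∈ Finset.range (2 * N),
      al s t j ⁻¹' {x | s' x ≠ s x ∨ t' x ≠ t x}) ∪ ⋃ j ∈ Finset.range (2 * N),
      al t s j ⁻¹' {x | s' x ≠ s x ∨ t' x ≠ t x} := by
  rintro x ⟨hx, hnx⟩
  by_contra hc
  rw [mem_union, not_or] at hc
  obtain ⟨h2, h3⟩ := hc
  have k2 : ∀ j, j < 2 * N → s' (al s t j x) = s (al s t j x) ∧
      t' (al s t j x) = t (al s t j x) := by
    intro j hj
    by_contra hj'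
    apply h2
    rw [mem_iUnion₂]
    refine ⟨j, Finset.mem_range.2 hj, ?_⟩
    rw [not_and_or] at hj'
    exact hj'
  have k3 : ∀ j, j < 2 * N → t' (al t s j x) = t (al t s j x) ∧
      s' (al t s j x) = s (al t s j x) := by
    intro j hj
    by_contra hj'
    apply h3
    rw [mem_iUnion₂]
    refine ⟨j, Finset.mem_range.2 hj, ?_⟩
    rw [not_and_or] at hj'
    exact hj'.symm
  have e2 : ∀ n, n ≤ 2 * N → al s' t' n x = al s t n x := fun n hn =>
    al_congr n x fun j hj => k2 j (by omega)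
  have e3 : ∀ n, n ≤ 2 * N → al t' s' n x = al t s n x := fun n hn =>
    al_congr n x fun j hj => k3 j (by omega)
  apply hnx
  refine ⟨?_, fun p h1 hp => ?_⟩
  · rcases hx.1 with h | h
    · left
      intro n hn
      rw [← e2 (n + 1) (by omega), ← e2 n (by omega)]
      exact h n hn
    · right
      intro n hn
      rw [← e3 (n + 1) (by omega), ← e3 n (by omega)]
      exact h n hn
  · rw [← e2 (2 * p) (by omega)]
    exact hx.2 p h1 hp

/-- ends which can be reached can be reached in a bounded number of steps -/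
lemma short (hs : ∀ x, s (s x) = x) (ht : ∀ x, t (t x) = x) {N n : ℕ} {z : V}
    (hfix : s (al s t n z) = al s t n z ∨ t (al s t n z) = al s t n z)
    (h : z ∈ Bad s t ∨ (z ∉ Clean s t N ∧ (z ∈ Inf s t ∨ z ∉ InfN s t N))) :
    ∃ j ≤ 4 * N, al s t n z = al s t j z := by
  rcases h with h | ⟨hc, h | h⟩
  · rcases fix_stall hs ht hfix with h0 | h0
    · exact ⟨0, by omega, by rw [h0]⟩
    · exact absurd (h (n + 1)).1.1 h0
  · have hL : z ∈ Long s t N := (h N).2
    have hF : z ∉ Far s t N := fun hF => hc ⟨hF, hL⟩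
    by_cases hst : NS s t N z
    · have hts : ¬ NS t s N z := fun h' => hF ⟨hst, h'⟩
      rcases fix_stall hs ht hfix with h0 | h0
      · exact ⟨0, by omega, by rw [h0]⟩
      · exfalso
        apply h0
        rcases (h (max (n + 1) N)).1 with h' | h'
        · exact NS_mono (le_max_left _ _) h'
        · exact absurd (NS_mono (le_max_right _ _) h') hts
    · rcases NS_or_stall s t N z with h' | ⟨n0, hn0, hstall⟩
      · exact absurd h' hst
      · by_cases c1 : n ≤ n0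
        · exact ⟨n, by omega, rfl⟩
        · by_cases c2 : n ≤ 2 * n0 + 1
          · refine ⟨n0 - (n - (n0 + 1)), by omega, ?_⟩
            rw [← bounce hs ht hstall.2 (by omega : n - (n0 + 1) ≤ n0)]
            congr 1
            omega
          · exfalso
            obtain ⟨j, rfl⟩ : ∃ j, n = 2 * n0 + 1 + (j + 1) := ⟨n - (2 * n0 + 1) - 1, by omega⟩
            rw [bounce2 hs ht hstall.2] at hfix
            rcases fix_stall ht hs hfix.symm with h0 | h0
            · omega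
            · apply h0
              rcases (h (max (j + 1 + 1) N)).1 with h' | h'
              · exact absurd (NS_mono (le_max_right _ _) h') hst
              · exact NS_mono (le_max_left _ _) h'
  · obtain ⟨p, hp1, hp2, hp⟩ : ∃ p, 1 ≤ p ∧ p ≤ 2 * N ∧ al s t (2 * p) z = z := by
      by_cases hL : z ∈ Long s t N
      · have h1 : ¬ (NS s t N z ∨ NS t s N z) := fun h' => h ⟨h', hL⟩
        rw [not_or] at h1
        rcases NS_or_stall s t N z with h' | ⟨n1, hn1, hstall1⟩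
        · exact absurd h' h1.1
        rcases NS_or_stall t s N z with h' | ⟨n2, hn2, hstall2⟩
        · exact absurd h' h1.2
        refine ⟨n1 + n2 + 1, by omega, by omega, ?_⟩
        rw [show 2 * (n1 + n2 + 1) = 2 * n1 + 1 + (2 * n2 + 1) by ring, bounce2 hs ht hstall1.2]
        have := bounce2 ht hs hstall2.2 0
        rwa [add_zero, al_zero] at this
      · unfold Long at hL
        simp only [mem_ofPred_eq, not_forall, not_not] at hL
        obtain ⟨p, hp1, hp2, hp⟩ := hL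
        exact ⟨p, hp1, by omega, hp⟩
    have h2 : n % (2 * p) < 2 * p := Nat.mod_lt _ (by omega)
    refine ⟨n % (2 * p), by omega, ?_⟩
    conv_lhs => rw [← Nat.div_add_mod n (2 * p)]
    exact per hp _ _

end alg

section meas

variable {V : Type u} [MeasurableSpace V] {G : SimpleGraph V} {l : ℕ} {ν : Measure V}
  {C : ℝ≥0∞}

lemma exists_inf [StandardBorelSpace V] [IsFiniteMeasure ν] {s t : V → V} (ms : Measurable s)
    (mt : Measurable t) {ε : ℝ} (hε : 0 < ε) :
    ∃ N : ℕ, ν.real (InfN s t N \ Inf s t) < ε := by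
  have hM : ∀ N, MeasurableSet (InfN s t N) := fun N =>
    ((measurableSet_NS ms mt N).union (measurableSet_NS mt ms N)).inter
      (measurableSet_Long ms mt N)
  have hB : MeasurableSet (Inf s t) := by
    rw [Inf_eq]
    exact MeasurableSet.iInter fun N => hM N
  have h1 : Tendsto (fun N : ℕ => ν (InfN s t N)) atTop (nhds (ν (Inf s t))) := by
    rw [Inf_eq]
    exact tendsto_measure_iInter_atTop (fun N => (hM N).nullMeasurableSet)
      (InfN_anti s t) ⟨0, measure_ne_top _ _⟩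
  have h2 : Tendsto (fun N : ℕ => ν.real (InfN s t N)) atTop (nhds (ν.real (Inf s t))) :=
    (ENNReal.tendsto_toReal (measure_ne_top _ _)).comp h1
  have h3 : ∀ᶠ N : ℕ in atTop, ν.real (InfN s t N) < ν.real (Inf s t) + ε :=
    h2.eventually (gt_mem_nhds (by linarith))
  obtain ⟨N, hN⟩ := h3.exists
  refine ⟨N, ?_⟩
  rw [measureReal_sdiff (Inf_subset s t N) hB]
  linarith

/-- preimages under short walks -/
lemma real_walks [IsFiniteMeasure ν] (hq : QInv G ν C) (hC : C ≠ ⊤) (c : PCol G l)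
    (g h : Fin l) (M : ℕ) (A : Set V) :
    ν.real (⋃ j ∈ Finset.range M, al (c.S g) (c.S h) j ⁻¹' A) ≤
      (∑ j ∈ Finset.range M, (C ^ j).toReal) * ν.real A := by
  refine (measureReal_biUnion_finset_le _ _).trans ?_
  rw [Finset.sum_mul]
  exact Finset.sum_le_sum fun j _ => real_le_of (ENNReal.pow_ne_top hC)
    (qi_al hq (c.meas g) (c.invol g) (c.adj g) (c.meas h) (c.invol h) (c.adj h) j A)

/-- points whose `g`-`h`-walk meets an end in `E` -/
def T2 (c : PCol G l) (g h : Fin l) (E : Set V) : Set V :=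
  {z | ∃ n, al (c.S g) (c.S h) n z ∈ E ∧
    (c.S g (al (c.S g) (c.S h) n z) = al (c.S g) (c.S h) n z ∨
      c.S h (al (c.S g) (c.S h) n z) = al (c.S g) (c.S h) n z)}

lemma T2_sub (c c' : PCol G l) (g h : Fin l) (E : Set V) (N : ℕ) :
    T2 c' g h E ⊆ (Bad (c.S g) (c.S h) \ Bad (c'.S g) (c'.S h)) ∪
      ((Inf (c.S g) (c.S h) \ Inf (c'.S g) (c'.S h)) ∪
      ((Clean (c.S g) (c.S h) N \ Bad (c.S g) (c.S h)) ∪
      ((InfN (c.S g) (c.S h) N \ Inf (c.S g) (c.S h)) ∪
      (((⋃ j ∈ Finset.range (2 * N),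
        al (c.S g) (c.S h) j ⁻¹' {x | c'.S g x ≠ c.S g x ∨ c'.S h x ≠ c.S h x}) ∪
        ⋃ j ∈ Finset.range (2 * N),
        al (c.S h) (c.S g) j ⁻¹' {x | c'.S g x ≠ c.S g x ∨ c'.S h x ≠ c.S h x}) ∪
      ⋃ j ∈ Finset.range (4 * N + 1), al (c'.S g) (c'.S h) j ⁻¹' E)))) := by
  rintro z ⟨n, hE, hfix⟩
  by_contra hc
  simp only [mem_union, not_or] at hc
  obtain ⟨h1, h2, h3, h4, h5, h6⟩ := hc
  have hU : z ∉ (⋃ j ∈ Finset.range (2 * N),
        al (c.S g) (c.S h) j ⁻¹' {x | c'.S g x ≠ c.S g x ∨ c'.S h x ≠ c.S h x}) ∪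
        ⋃ j ∈ Finset.range (2 * N),
        al (c.S h) (c.S g) j ⁻¹' {x | c'.S g x ≠ c.S g x ∨ c'.S h x ≠ c.S h x} := by
    rw [mem_union, not_or]
    exact h5
  have key : z ∈ Bad (c'.S g) (c'.S h) ∨ (z ∉ Clean (c'.S g) (c'.S h) N ∧
      (z ∈ Inf (c'.S g) (c'.S h) ∨ z ∉ InfN (c'.S g) (c'.S h) N)) := by
    by_cases hb : z ∈ Bad (c.S g) (c.S h)
    · left
      by_contra hb'
      exact h1 ⟨hb, hb'⟩
    · right
      have hcl : z ∉ Clean (c.S g) (c.S h) N := fun hcl => h3 ⟨hcl, hb⟩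
      refine ⟨fun hcl' => hU (UST_.clean_sub _ _ _ _ N ⟨hcl', hcl⟩), ?_⟩
      by_cases hi : z ∈ Inf (c.S g) (c.S h)
      · left
        by_contra hi'
        exact h2 ⟨hi, hi'⟩
      · right
        have hin : z ∉ InfN (c.S g) (c.S h) N := fun hin => h4 ⟨hin, hi⟩
        exact fun hin' => hU (infN_sub _ _ _ _ N ⟨hin', hin⟩)
  obtain ⟨j, hj, hj'⟩ := short (c'.invol g) (c'.invol h) hfix key
  apply h6
  rw [mem_iUnion₂]
  refine ⟨j, Finset.mem_range.2 (by omega), ?_⟩
  rw [mem_preimage, ← hj']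
  exact hE

lemma pair [StandardBorelSpace V] [IsFiniteMeasure ν] (hq : QInv G ν C) (hC : C ≠ ⊤)
    {Q : V → (Fin l → V) → Prop} (c : PCol G l) (g h : Fin l)
    (hB : Stb ν Q (fun c : PCol G l => Bad (c.S g) (c.S h)) c)
    (hI : Stb ν Q (fun c : PCol G l => Inf (c.S g) (c.S h)) c) {ε : ℝ} (hε : 0 < ε) :
    ∃ δ : ℝ, 0 < δ ∧ ∀ c' : PCol G l, (∀ᵐ x ∂ν, Q x fun k => c'.S k x) →
      PCol.dst ν c c' < δ → ∀ E : Set V, ν.real E < δ → ν.real (T2 c' g h E) < ε := by
  have hε6 : 0 < ε / 6 := by positivity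
  obtain ⟨δ1, hδ1, H1⟩ := hB (ε / 6) hε6
  obtain ⟨δ2, hδ2, H2⟩ := hI (ε / 6) hε6
  obtain ⟨N1, hN1⟩ := UST_.exists_clean (μ := ν) (c.meas g) (c.meas h) hε6
  obtain ⟨N2, hN2⟩ := exists_inf (ν := ν) (c.meas g) (c.meas h) hε6
  set N := max N1 N2 with hN
  set K1 : ℝ := ∑ j ∈ Finset.range (2 * N), (C ^ j).toReal with hK1
  set K2 : ℝ := ∑ j ∈ Finset.range (4 * N + 1), (C ^ j).toReal with hK2
  have hK1' : 0 ≤ K1 := Finset.sum_nonneg fun _ _ => ENNReal.toReal_nonneg
  have hK2' : 0 ≤ K2 := Finset.sum_nonneg fun _ _ => ENNReal.toReal_nonneg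
  refine ⟨min (min δ1 δ2) (ε / (6 * (2 * K1 + K2 + 1))), by positivity, ?_⟩
  intro c' hQ hd E hE
  have d1 : PCol.dst ν c c' < δ1 :=
    hd.trans_le ((min_le_left _ _).trans (min_le_left _ _))
  have d2 : PCol.dst ν c c' < δ2 :=
    hd.trans_le ((min_le_left _ _).trans (min_le_right _ _))
  have d3 : PCol.dst ν c c' < ε / (6 * (2 * K1 + K2 + 1)) := hd.trans_le (min_le_right _ _)
  have d4 : ν.real E < ε / (6 * (2 * K1 + K2 + 1)) := hE.trans_le (min_le_right _ _)
  rw [lt_div_iff₀ (by positivity)] at d3 d4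
  have a1 := H1 c' hQ d1
  have a2 := H2 c' hQ d2
  have a3 : ν.real (Clean (c.S g) (c.S h) N \ Bad (c.S g) (c.S h)) < ε / 6 :=
    (measureReal_mono (sdiff_subset_sdiff_left
      (UST_.Clean_anti _ _ (le_max_left N1 N2)))).trans_lt hN1
  have a4 : ν.real (InfN (c.S g) (c.S h) N \ Inf (c.S g) (c.S h)) < ε / 6 :=
    (measureReal_mono (sdiff_subset_sdiff_left
      (InfN_anti _ _ (le_max_right N1 N2)))).trans_lt hN2
  have hD : ν.real {x | c'.S g x ≠ c.S g x ∨ c'.S h x ≠ c.S h x} ≤ PCol.dst ν c c' := by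
    refine le_trans (measureReal_mono ?_) real_changed_le
    rintro x (hx | hx)
    · exact ⟨g, hx.symm⟩
    · exact ⟨h, hx.symm⟩
  have a5 := real_walks hq hC c g h (2 * N) {x | c'.S g x ≠ c.S g x ∨ c'.S h x ≠ c.S h x}
  have a6 := real_walks hq hC c h g (2 * N) {x | c'.S g x ≠ c.S g x ∨ c'.S h x ≠ c.S h x}
  have a7 := real_walks hq hC c' g h (4 * N + 1) E
  have hd0 : 0 ≤ PCol.dst ν c c' := PCol.dst_nonneg c c'
  have hE0 : 0 ≤ ν.real E := measureReal_nonneg
  have b5 := mul_le_mul_of_nonneg_left hD hK1'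
  refine (measureReal_mono (T2_sub c c' g h E N)).trans_lt ?_
  refine (measureReal_union_le _ _).trans_lt ?_
  have u1 := measureReal_union_le (μ := ν) (Inf (c.S g) (c.S h) \ Inf (c'.S g) (c'.S h))
    ((Clean (c.S g) (c.S h) N \ Bad (c.S g) (c.S h)) ∪
      ((InfN (c.S g) (c.S h) N \ Inf (c.S g) (c.S h)) ∪
      (((⋃ j ∈ Finset.range (2 * N),
        al (c.S g) (c.S h) j ⁻¹' {x | c'.S g x ≠ c.S g x ∨ c'.S h x ≠ c.S h x}) ∪
        ⋃ j ∈ Finset.range (2 * N),
        al (c.S h) (c.S g) j ⁻¹' {x | c'.S g x ≠ c.S g x ∨ c'.S h x ≠ c.S h x}) ∪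
      ⋃ j ∈ Finset.range (4 * N + 1), al (c'.S g) (c'.S h) j ⁻¹' E)))
  have u2 := measureReal_union_le (μ := ν) (Clean (c.S g) (c.S h) N \ Bad (c.S g) (c.S h))
      ((InfN (c.S g) (c.S h) N \ Inf (c.S g) (c.S h)) ∪
      (((⋃ j ∈ Finset.range (2 * N),
        al (c.S g) (c.S h) j ⁻¹' {x | c'.S g x ≠ c.S g x ∨ c'.S h x ≠ c.S h x}) ∪
        ⋃ j ∈ Finset.range (2 * N),
        al (c.S h) (c.S g) j ⁻¹' {x | c'.S g x ≠ c.S g x ∨ c'.S h x ≠ c.S h x}) ∪
      ⋃ j ∈ Finset.range (4 * N + 1), al (c'.S g) (c'.S h) j ⁻¹' E))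
  have u3 := measureReal_union_le (μ := ν) (InfN (c.S g) (c.S h) N \ Inf (c.S g) (c.S h))
      (((⋃ j ∈ Finset.range (2 * N),
        al (c.S g) (c.S h) j ⁻¹' {x | c'.S g x ≠ c.S g x ∨ c'.S h x ≠ c.S h x}) ∪
        ⋃ j ∈ Finset.range (2 * N),
        al (c.S h) (c.S g) j ⁻¹' {x | c'.S g x ≠ c.S g x ∨ c'.S h x ≠ c.S h x}) ∪
      ⋃ j ∈ Finset.range (4 * N + 1), al (c'.S g) (c'.S h) j ⁻¹' E)
  have u4 := measureReal_union_le (μ := ν) ((⋃ j ∈ Finset.range (2 * N),
        al (c.S g) (c.S h) j ⁻¹' {x | c'.S g x ≠ c.S g x ∨ c'.S h x ≠ c.S h x}) ∪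
        ⋃ j ∈ Finset.range (2 * N),
        al (c.S h) (c.S g) j ⁻¹' {x | c'.S g x ≠ c.S g x ∨ c'.S h x ≠ c.S h x})
      (⋃ j ∈ Finset.range (4 * N + 1), al (c'.S g) (c'.S h) j ⁻¹' E)
  have u5 := measureReal_union_le (μ := ν) (⋃ j ∈ Finset.range (2 * N),
        al (c.S g) (c.S h) j ⁻¹' {x | c'.S g x ≠ c.S g x ∨ c'.S h x ≠ c.S h x})
      (⋃ j ∈ Finset.range (2 * N),
        al (c.S h) (c.S g) j ⁻¹' {x | c'.S g x ≠ c.S g x ∨ c'.S h x ≠ c.S h x})
  nlinarith [mul_nonneg hK1' hd0, mul_nonneg hK2' hd0, mul_nonneg hK1' hE0,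
    mul_nonneg hK2' hE0]

end meas

end CST_

open CST_

/-- D3 -/
theorem allCST : tCST.{u} := by
  intro V _ _ G m l e ν _ C Q c _ hq hC hB hI ε hε
  have hcard : (0 : ℝ) < (Fintype.card (Fin l × Fin l) : ℝ) + 1 := by positivity
  have hε' : 0 < ε / ((Fintype.card (Fin l × Fin l) : ℝ) + 1) := by positivity
  have h1 : ∀ i : Fin l × Fin l, ∀ᶠ δ in 𝓝[>] (0 : ℝ), i.1 ≠ i.2 → ∀ c' : PCol G l,
      (∀ᵐ x ∂ν, Q x fun k => c'.S k x) → PCol.dst ν c c' < δ → ∀ E : Set V, ν.real E < δ →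
      ν.real (T2 c' i.1 i.2 E) < ε / ((Fintype.card (Fin l × Fin l) : ℝ) + 1) := by
    rintro ⟨g, h⟩
    by_cases hgh : g = h
    · exact Eventually.of_forall fun δ h' => absurd hgh h'
    · obtain ⟨δ0, hδ0, H⟩ := pair hq hC c g h (hB g h hgh) (hI g h hgh) hε'
      refine mem_of_superset (Ioc_mem_nhdsGT hδ0) ?_
      intro δ hδ _ c' hQ hd E hE
      exact H c' hQ (hd.trans_le hδ.2) E (hE.trans_le hδ.2)
  obtain ⟨δ, hδ, hδ0⟩ := ((eventually_all.2 h1).and self_mem_nhdsWithin).exists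
  refine ⟨δ, hδ0, ?_⟩
  intro c' hQ hd E _ hE
  have h2 : Tch (toPC c') E ⊆ ⋃ i : Fin l × Fin l, {z | i.1 ≠ i.2 ∧ z ∈ T2 c' i.1 i.2 E} := by
    rintro z ⟨g, h, hgh, hz⟩
    rw [mem_iUnion]
    exact ⟨(g, h), hgh, hz⟩
  have h3 : ∀ i : Fin l × Fin l, ν.real {z | i.1 ≠ i.2 ∧ z ∈ T2 c' i.1 i.2 E} ≤
      ε / ((Fintype.card (Fin l × Fin l) : ℝ) + 1) := by
    intro i
    by_cases hi : i.1 = i.2
    · have : {z | i.1 ≠ i.2 ∧ z ∈ T2 c' i.1 i.2 E} = ∅ := by
        ext z
        simp [hi]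
      rw [this, measureReal_empty]
      exact hε'.le
    · refine (measureReal_mono ?_).trans (hδ i hi c' hQ hd E hE).le
      rintro z ⟨-, hz⟩
      exact hz
  refine (measureReal_mono h2).trans_lt ?_
  refine (measureReal_iUnion_fintype_le _).trans_lt ?_
  refine (Finset.sum_le_sum fun i _ => h3 i).trans_lt ?_
  rw [Finset.sum_const, Finset.card_univ, nsmul_eq_mul, mul_div_assoc', div_lt_iff₀ hcard]
  nlinarith

end Pool.Agent.MEQ
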