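import Pool.Agent.MEQ.Targets
import Pool.Agent.MEQ.Base

set_option autoImplicit false

/-! B1: densities. -/

namespace Pool.Agent.MEQ

open MeasureTheory Set Filter
open scoped ENNReal
open Pool.Agent.MEC
open Pool.Agent.MEP
open Pool.Agent.MEO

universe u

namespace DEN_

variable {U : Type u} [MeasurableSpace U] {ν : Measure U} {C : ℝ≥0∞} {s : U → U}

/-- the density of the image measure -/
noncomputable def dens (ν : Measure U) (s : U → U) : U → ℝ≥0∞ := (ν.map s).rnDeriv ν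

lemma map_le (hs : Measurable s) (hq : ∀ B, ν (s ⁻¹' B) ≤ C * ν B) {B : Set U}
    (hB : MeasurableSet B) : ν.map s B ≤ C * ν B := by
  rw [Measure.map_apply hs hB]
  exact hq B

lemma map_ac (hs : Measurable s) (hq : ∀ B, ν (s ⁻¹' B) ≤ C * ν B) : ν.map s ≪ ν := by
  refine Measure.AbsolutelyContinuous.mk fun B hB h0 => ?_
  have := map_le hs hq hB
  rw [h0, mul_zero] at this
  exact nonpos_iff_eq_zero.1 this

variable [IsFiniteMeasure ν]

lemma dens_int (hs : Measurable s) (hq : ∀ B, ν (s ⁻¹' B) ≤ C * ν B) {B : Set U}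
    (hB : MeasurableSet B) : ∫⁻ x in B, dens ν s x ∂ν = ν (s ⁻¹' B) := by
  have h1 : ∫⁻ x in B, dens ν s x ∂ν = ν.map s B :=
    Measure.setLIntegral_rnDeriv' (map_ac hs hq) hB
  rw [h1, Measure.map_apply hs hB]

lemma dens_up (hs : Measurable s) (hq : ∀ B, ν (s ⁻¹' B) ≤ C * ν B) :
    ∀ᵐ x ∂ν, dens ν s x ≤ C := by
  refine ae_le_of_forall_setLIntegral_le_of_sigmaFinite (Measure.measurable_rnDeriv _ _) ?_
  intro B hB _
  rw [dens_int hs hq hB, setLIntegral_const]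
  exact hq B

lemma dens_lo (hs : Measurable s) (hs2 : ∀ x, s (s x) = x)
    (hq : ∀ B, ν (s ⁻¹' B) ≤ C * ν B) : ∀ᵐ x ∂ν, C⁻¹ ≤ dens ν s x := by
  refine ae_le_of_forall_setLIntegral_le_of_sigmaFinite measurable_const ?_
  intro B hB _
  rw [dens_int hs hq hB, setLIntegral_const]
  have h1 : s ⁻¹' (s ⁻¹' B) = B := by
    ext x
    rw [mem_preimage, mem_preimage, hs2]
  have h2 := hq (s ⁻¹' B)
  rw [h1] at h2
  rw [mul_comm, ← div_eq_mul_inv]
  exact ENNReal.div_le_of_le_mul' h2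

lemma dens_cov (hs : Measurable s) (hs2 : ∀ x, s (s x) = x)
    (hq : ∀ B, ν (s ⁻¹' B) ≤ C * ν B) {f : U → ℝ≥0∞} (hf : Measurable f) :
    ∫⁻ x, f (s x) * dens ν s x ∂ν = ∫⁻ x, f x ∂ν := by
  have h1 : ∫⁻ x, dens ν s x * f (s x) ∂ν = ∫⁻ x, f (s x) ∂(ν.map s) :=
    lintegral_rnDeriv_mul (map_ac hs hq) (hf.comp hs).aemeasurable
  have h2 : ∀ x, f (s x) * dens ν s x = dens ν s x * f (s x) := fun x => mul_comm _ _
  have h3 : ∫⁻ x, f (s x) ∂(ν.map s) = ∫⁻ x, f (s (s x)) ∂ν := lintegral_map (hf.comp hs) hs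
  rw [lintegral_congr h2, h1, h3]
  exact lintegral_congr fun x => by rw [hs2]

end DEN_

open DEN_

/-- B1 -/
theorem allDEN : tDEN.{u} := by
  intro U _ _ K m e ν _ C hq _
  refine ⟨fun κ => dens ν (e.S κ), ⟨fun κ => Measure.measurable_rnDeriv _ _,
    fun κ f hf => ?_, fun κ => ?_, fun κ => ?_⟩⟩
  · exact dens_cov (e.meas κ) (e.invol κ) (fun B => qi_S hq e le_rfl κ B) hf
  · exact dens_up (e.meas κ) (fun B => qi_S hq e le_rfl κ B)
  · exact dens_lo (e.meas κ) (e.invol κ) (fun B => qi_S hq e le_rfl κ B)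

end Pool.Agent.MEQ
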