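import Pool.Agent.MEQ.Targets
import Pool.Agent.MEQ.Base

set_option autoImplicit false

/-! MP_fff3e1_lc, tFLP: flipping infinite alternating walks. -/

namespace Pool.Agent.MEQ

open MeasureTheory Set Filter
open scoped ENNReal
open Pool.Agent.MEC
open Pool.Agent.MEP
open Pool.Agent.MEO

universe u

namespace FLP_

section plain

variable {V : Type u} {G : SimpleGraph V} {l : ℕ}

/-- the points `t_n` of the walk from `u` -/
def tt (c : PC G l) (g : Fin l) (f : V → V) (n : ℕ) (u : V) : V := (fun x => c.S g (f x))^[n] u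

/-- the hypotheses on the walks which start in `Y` -/
structure Hy (c : PC G l) (g : Fin l) (Δ r : ℕ) (Y : Set V) (f h : V → V) : Prop where
  fin : ∀ x, (G.neighborSet x).Finite
  miss : ∀ u ∈ Y, c.S g u = u
  deg : ∀ u ∈ Y, dg (RG c) u = r
  fh : ∀ x, f x ≠ x → h (f x) = x
  adj : ∀ u ∈ Y, ∀ n, (RG c).Adj (tt c g f n u) (f (tt c g f n u))
  nt : ∀ u ∈ Y, ∀ n j, tt c g f n u ∉ TS G (RG c) Δ l r ∅ j true
  ns : ∀ u ∈ Y, ∀ n j, f (tt c g f n u) ∉ TS G (RG c) Δ l r ∅ j false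
  mv : ∀ u ∈ Y, ∀ n, c.S g (f (tt c g f n u)) ≠ f (tt c g f n u)

variable {c : PC G l} {g : Fin l} {Δ r : ℕ} {Y J : Set V} {f h : V → V}

lemma tt_zero (u : V) : tt c g f 0 u = u := rfl

lemma tt_succ (n : ℕ) (u : V) : tt c g f (n + 1) u = c.S g (f (tt c g f n u)) :=
  Function.iterate_succ_apply' _ n u

lemma Hy.ne (hy : Hy c g Δ r Y f h) {u : V} (hu : u ∈ Y) (n : ℕ) :
    f (tt c g f n u) ≠ tt c g f n u := fun h' => (hy.adj u hu n).ne h'.symm

/-- going backwards -/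
lemma Hy.lev (hy : Hy c g Δ r Y f h) {u : V} (hu : u ∈ Y) (n : ℕ) :
    tt c g f n u ∈ TS G (RG c) Δ l r ∅ (2 * n) false ∧
      f (tt c g f n u) ∈ TS G (RG c) Δ l r ∅ (2 * n + 1) true := by
  have key : ∀ n, tt c g f n u ∈ TS G (RG c) Δ l r ∅ (2 * n) false →
      f (tt c g f n u) ∈ TS G (RG c) Δ l r ∅ (2 * n + 1) true := by
    intro n hn
    exact Or.inr ⟨_, hn, (hy.adj u hu n).symm⟩
  induction n with
  | zero =>
    have h1 : tt c g f 0 u ∈ TS G (RG c) Δ l r ∅ (2 * 0) false :=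
      (miss_iff c (hy.fin u)).1 ⟨g, hy.miss u hu⟩
    exact ⟨h1, key 0 h1⟩
  | succ n ih =>
    have h1 : tt c g f (n + 1) u ∈ TS G (RG c) Δ l r ∅ (2 * (n + 1)) false := by
      refine Or.inr ⟨_, ih.2, ?_, ?_⟩
      · rw [tt_succ]
        exact (c.adj g _ (hy.mv u hu n)).symm
      · rw [tt_succ]
        intro h2
        exact h2.2 g (c.invol g _)
    exact ⟨h1, key _ h1⟩

lemma Hy.ne_ts (hy : Hy c g Δ r Y f h) {u v : V} (hu : u ∈ Y) (hv : v ∈ Y) (m n : ℕ) :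
    tt c g f m u ≠ f (tt c g f n v) := by
  intro h1
  have h2 := (hy.lev hv n).2
  rw [← h1] at h2
  exact hy.nt u hu m _ h2

lemma Hy.injf (hy : Hy c g Δ r Y f h) {u v : V} (hu : u ∈ Y) (hv : v ∈ Y) {m n : ℕ}
    (h1 : f (tt c g f m u) = f (tt c g f n v)) : tt c g f m u = tt c g f n v := by
  rw [← hy.fh _ (hy.ne hu m), ← hy.fh _ (hy.ne hv n), h1]

lemma Hy.start (hy : Hy c g Δ r Y f h) {u v : V} (hu : u ∈ Y) (hv : v ∈ Y) (n : ℕ) :
    u ≠ tt c g f (n + 1) v := by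
  intro h1
  rw [tt_succ] at h1
  have h2 : c.S g u = f (tt c g f n v) := by rw [h1, c.invol]
  rw [hy.miss u hu] at h2
  exact hy.mv v hv n (h1.symm.trans h2)

lemma Hy.inj (hy : Hy c g Δ r Y f h) {u v : V} (hu : u ∈ Y) (hv : v ∈ Y) {m n : ℕ}
    (h1 : tt c g f m u = tt c g f n v) : m = n ∧ u = v := by
  induction m generalizing n with
  | zero =>
    cases n with
    | zero => exact ⟨rfl, h1⟩
    | succ n => exact absurd h1 (hy.start hu hv n)
  | succ m ih =>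
    cases n with
    | zero => exact absurd h1.symm (hy.start hv hu m)
    | succ n =>
      rw [tt_succ, tt_succ] at h1
      have h2 : f (tt c g f m u) = f (tt c g f n v) := by
        rw [← c.invol g (f (tt c g f m u)), h1, c.invol]
      obtain ⟨h3, h4⟩ := ih (hy.injf hu hv h2)
      exact ⟨by rw [h3], h4⟩

/-- the `t`-points of the walks from `J` -/
def CT (c : PC G l) (g : Fin l) (f : V → V) (J : Set V) : Set V :=
  {x | ∃ u ∈ J, ∃ n, x = tt c g f n u}

/-- the `s`-points of the walks from `J` -/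
def CS (c : PC G l) (g : Fin l) (f : V → V) (J : Set V) : Set V :=
  {x | ∃ u ∈ J, ∃ n, x = f (tt c g f n u)}

open Classical in
/-- the new involutions -/
noncomputable def nS (c : PC G l) (g : Fin l) (f h : V → V) (J : Set V) (k : Fin l) (x : V) : V :=
  if k = g then (if x ∈ CT c g f J then f x else if x ∈ CS c g f J then h x else c.S g x)
  else c.S k x

lemma nS_ne {k : Fin l} (hk : k ≠ g) (x : V) : nS c g f h J k x = c.S k x := if_neg hk

lemma nS_t {u : V} (hu : u ∈ J) (n : ℕ) :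
    nS c g f h J g (tt c g f n u) = f (tt c g f n u) := by
  unfold nS
  rw [if_pos rfl, if_pos ⟨u, hu, n, rfl⟩]

lemma Hy.nS_s (hy : Hy c g Δ r Y f h) (hJ : J ⊆ Y) {u : V} (hu : u ∈ J) (n : ℕ) :
    nS c g f h J g (f (tt c g f n u)) = tt c g f n u := by
  unfold nS
  rw [if_pos rfl, if_neg, if_pos ⟨u, hu, n, rfl⟩, hy.fh _ (hy.ne (hJ hu) n)]
  rintro ⟨v, hv, m, h1⟩
  exact hy.ne_ts (hJ hv) (hJ hu) m n h1.symm

lemma nS_o {x : V} (h1 : x ∉ CT c g f J) (h2 : x ∉ CS c g f J) :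
    nS c g f h J g x = c.S g x := by
  unfold nS
  rw [if_pos rfl, if_neg h1, if_neg h2]

lemma nS_off {x : V} (h1 : x ∉ CT c g f J) (h2 : x ∉ CS c g f J) (k : Fin l) :
    nS c g f h J k x = c.S k x := by
  by_cases hk : k = g
  · rw [hk]
    exact nS_o h1 h2
  · exact nS_ne hk x

lemma three (c : PC G l) (g : Fin l) (f : V → V) (J : Set V) (x : V) :
    (∃ u ∈ J, ∃ n, x = tt c g f n u) ∨ (∃ u ∈ J, ∃ n, x = f (tt c g f n u)) ∨
      (x ∉ CT c g f J ∧ x ∉ CS c g f J) := by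
  by_cases h1 : x ∈ CT c g f J
  · exact Or.inl h1
  · by_cases h2 : x ∈ CS c g f J
    · exact Or.inr (Or.inl h2)
    · exact Or.inr (Or.inr ⟨h1, h2⟩)

/-- the complement of the walks is closed under colour `g` -/
lemma Hy.closed (hy : Hy c g Δ r Y f h) (hJ : J ⊆ Y) {x : V} (h1 : x ∉ CT c g f J)
    (h2 : x ∉ CS c g f J) : c.S g x ∉ CT c g f J ∧ c.S g x ∉ CS c g f J := by
  constructor
  · rintro ⟨u, hu, n, h3⟩
    cases n with
    | zero =>
      rw [tt_zero] at h3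
      refine h1 ⟨u, hu, 0, ?_⟩
      rw [tt_zero, ← hy.miss u (hJ hu), ← h3, c.invol]
    | succ n =>
      rw [tt_succ] at h3
      refine h2 ⟨u, hu, n, ?_⟩
      rw [← c.invol g x, h3, c.invol]
  · rintro ⟨u, hu, n, h3⟩
    refine h1 ⟨u, hu, n + 1, ?_⟩
    rw [tt_succ, ← h3, c.invol]

lemma Hy.invol' (hy : Hy c g Δ r Y f h) (hJ : J ⊆ Y) (k : Fin l) (x : V) :
    nS c g f h J k (nS c g f h J k x) = x := by
  by_cases hk : k = g
  · subst hk
    rcases three c k f J x with ⟨u, hu, n, rfl⟩ | ⟨u, hu, n, rfl⟩ | ⟨h1, h2⟩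
    · rw [nS_t hu, hy.nS_s hJ hu]
    · rw [hy.nS_s hJ hu, nS_t hu]
    · obtain ⟨h3, h4⟩ := hy.closed hJ h1 h2
      rw [nS_o h1 h2, nS_o h3 h4, c.invol]
  · rw [nS_ne hk, nS_ne hk, c.invol]

lemma Hy.adj' (hy : Hy c g Δ r Y f h) (hJ : J ⊆ Y) (k : Fin l) (x : V)
    (hx : nS c g f h J k x ≠ x) : G.Adj x (nS c g f h J k x) := by
  by_cases hk : k = g
  · subst hk
    rcases three c k f J x with ⟨u, hu, n, rfl⟩ | ⟨u, hu, n, rfl⟩ | ⟨h1, h2⟩
    · rw [nS_t hu]
      exact (hy.adj u (hJ hu) n).1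
    · rw [hy.nS_s hJ hu]
      exact (hy.adj u (hJ hu) n).1.symm
    · rw [nS_o h1 h2] at hx ⊢
      exact c.adj k x hx
  · rw [nS_ne hk] at hx ⊢
    exact c.adj k x hx

/-- the new edges of colour `g` have no other colour -/
lemma Hy.one (hy : Hy c g Δ r Y f h) (hJ : J ⊆ Y) {k : Fin l} (hk : k ≠ g) {x : V}
    (hx : nS c g f h J g x ≠ x) : nS c g f h J g x ≠ c.S k x := by
  intro h0
  rcases three c g f J x with ⟨u, hu, n, rfl⟩ | ⟨u, hu, n, rfl⟩ | ⟨h1, h2⟩
  · rw [nS_t hu] at h0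
    exact (hy.adj u (hJ hu) n).2 k h0.symm
  · rw [hy.nS_s hJ hu] at h0
    refine (hy.adj u (hJ hu) n).2 k ?_
    conv_lhs => rw [h0]
    exact c.invol k _
  · rw [nS_o h1 h2] at h0 hx
    exact hk (c.disj g k x h0 hx).symm

lemma Hy.disj' (hy : Hy c g Δ r Y f h) (hJ : J ⊆ Y) (k k' : Fin l) (x : V)
    (h1 : nS c g f h J k x = nS c g f h J k' x) (hx : nS c g f h J k x ≠ x) : k = k' := by
  by_cases hk : k = g
  · by_cases hk' : k' = g
    · rw [hk, hk']
    · subst hk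
      rw [nS_ne hk'] at h1
      exact absurd h1 (hy.one hJ hk' hx)
  · by_cases hk' : k' = g
    · subst hk'
      rw [h1] at hx
      rw [nS_ne hk] at h1
      exact absurd h1.symm (hy.one hJ hk hx)
    · rw [nS_ne hk] at h1 hx
      rw [nS_ne hk'] at h1
      exact c.disj k k' x h1 hx

/-- the new colouring -/
noncomputable def nc (hy : Hy c g Δ r Y f h) (hJ : J ⊆ Y) : PC G l where
  S := nS c g f h J
  invol := hy.invol' hJ
  adj := hy.adj' hJ
  disj := hy.disj' hJ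

lemma Hy.moved (hy : Hy c g Δ r Y f h) (hJ : J ⊆ Y) (k : Fin l) (x : V) (hx : c.S k x ≠ x) :
    nS c g f h J k x ≠ x := by
  by_cases hk : k = g
  · subst hk
    rcases three c k f J x with ⟨u, hu, n, rfl⟩ | ⟨u, hu, n, rfl⟩ | ⟨h1, h2⟩
    · rw [nS_t hu]
      exact hy.ne (hJ hu) n
    · rw [hy.nS_s hJ hu]
      exact (hy.ne (hJ hu) n).symm
    · rwa [nS_o h1 h2]
  · rwa [nS_ne hk]

lemma Hy.dg_le (hy : Hy c g Δ r Y f h) (hJ : J ⊆ Y) (x : V) :
    dg (RG (nc hy hJ)) x ≤ dg (RG c) x := by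
  have h1 := dg_add c (hy.fin x)
  have h2 := dg_add (nc hy hJ) (hy.fin x)
  have h3 : {k | c.S k x ≠ x}.ncard ≤ {k | (nc hy hJ).S k x ≠ x}.ncard :=
    ncard_le_ncard (fun k hk => hy.moved hJ k x hk) (toFinite _)
  omega

lemma Hy.dg_start (hy : Hy c g Δ r Y f h) (hJ : J ⊆ Y) {u : V} (hu : u ∈ J) :
    dg (RG (nc hy hJ)) u < r := by
  have h1 := dg_add c (hy.fin u)
  have h2 := dg_add (nc hy hJ) (hy.fin u)
  have h3 : {k | c.S k u ≠ u}.ncard < {k | (nc hy hJ).S k u ≠ u}.ncard := by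
    refine ncard_lt_ncard ⟨fun k hk => hy.moved hJ k u hk, fun h' => ?_⟩ (toFinite _)
    have h4 : g ∈ {k | (nc hy hJ).S k u ≠ u} := by
      have h5 : nS c g f h J g u = f u := nS_t hu 0
      change nS c g f h J g u ≠ u
      rw [h5]
      exact hy.ne (hJ hu) 0
    exact h' h4 (hy.miss u (hJ hu))
  have h4 := hy.deg u (hJ hu)
  omega

/-- the old edges of colour `g` are uncoloured now -/
lemma Hy.newR (hy : Hy c g Δ r Y f h) (hJ : J ⊆ Y) {u : V} (hu : u ∈ J) (n : ℕ) :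
    (RG (nc hy hJ)).Adj (f (tt c g f n u)) (tt c g f (n + 1) u) := by
  have h0 := hy.mv u (hJ hu) n
  refine ⟨by rw [tt_succ]; exact c.adj g _ h0, fun k hk => ?_⟩
  change nS c g f h J k _ = _ at hk
  by_cases hkg : k = g
  · subst hkg
    rw [hy.nS_s hJ hu] at hk
    have := (hy.inj (hJ hu) (hJ hu) hk).1
    omega
  · rw [nS_ne hkg, tt_succ] at hk
    exact hkg (c.disj g k _ hk.symm h0).symm

lemma Hy.oldR (hy : Hy c g Δ r Y f h) (hJ : J ⊆ Y) {u : V} (hu : u ∈ J) (n : ℕ) :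
    ¬ (RG (nc hy hJ)).Adj (f (tt c g f n u)) (tt c g f n u) := by
  intro h1
  exact h1.2 g (hy.nS_s hJ hu n)

lemma Hy.lev' (hy : Hy c g Δ r Y f h) (hJ : J ⊆ Y) {u : V} (hu : u ∈ J) (n : ℕ) :
    tt c g f n u ∈ TS G (RG (nc hy hJ)) Δ l r ∅ (2 * n) true := by
  induction n with
  | zero => exact Or.inl (hy.dg_start hJ hu)
  | succ n ih =>
    refine Or.inr ⟨f (tt c g f n u), ?_, (hy.newR hJ hu n).symm⟩
    exact Or.inr ⟨_, ih, (hy.adj u (hJ hu) n).1.symm, hy.oldR hJ hu n⟩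

/-- a removed edge on the path from `p` to `u` -/
lemma exit {R R' : SimpleGraph V} {p u : V} (h1 : R.Reachable p u) (h2 : ¬ R'.Reachable p u) :
    ∃ v w, R'.Reachable p v ∧ R.Adj v w ∧ ¬ R'.Adj v w := by
  by_contra h3
  push Not at h3
  apply h2
  have key : ∀ a b : V, R.Reachable a b → R'.Reachable p a → R'.Reachable p b := by
    rintro a b ⟨w⟩ ha
    induction w with
    | nil => exact ha
    | cons hadj _ ih => exact ih (ha.trans (h3 _ _ ha hadj).reachable)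
  exact key p u h1 SimpleGraph.Reachable.rfl

lemma Hy.final (hy : Hy c g Δ r Y f h) (hJ : J ⊆ Y) (hlr : l + r = Δ)
    (hind : ∀ x y, G.Adj x y → dg G x < Δ ∨ dg G y < Δ) {p u : V} (hu : u ∈ J)
    (hpu : (RG c).Reachable p u) : p ∉ X1 G (RG (nc hy hJ)) Δ l r := by
  rintro ⟨⟨-, h2⟩, h3⟩
  have h4 : ¬ (RG (nc hy hJ)).Reachable p u := by
    intro h5
    have h6 := h2 u h5
    have h7 := hy.dg_start hJ hu
    omega
  obtain ⟨v, w, h5, h6, h7⟩ := exit hpu h4
  -- the component contains a new edge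
  have key : ∃ u' ∈ J, ∃ n, (RG (nc hy hJ)).Reachable p (f (tt c g f n u')) := by
    obtain ⟨k, hk⟩ := exists_col (nc hy hJ) h6.1 h7
    change nS c g f h J k v = w at hk
    have hkg : k = g := by
      by_contra hkg
      rw [nS_ne hkg] at hk
      exact h6.2 k hk
    subst hkg
    rcases three c k f J v with ⟨u', hu', n, rfl⟩ | ⟨u', hu', n, rfl⟩ | ⟨h8, h9⟩
    · cases n with
      | zero =>
        rw [tt_zero] at h5
        have h10 := h2 u' h5
        have h11 := hy.dg_start hJ hu'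
        omega
      | succ n =>
        exact ⟨u', hu', n, h5.trans (hy.newR hJ hu' n).symm.reachable⟩
    · exact ⟨u', hu', n, h5⟩
    · rw [nS_o h8 h9] at hk
      exact absurd hk (h6.2 k)
  obtain ⟨u', hu', n, h8⟩ := key
  have h9 := hy.newR hJ hu' n
  have h10 := h8.trans h9.reachable
  rcases hind _ _ h9.1 with h11 | h11
  · have h12 : ¬ (dg G (f (tt c g f n u')) < dg (RG c) (f (tt c g f n u')) + l) :=
      hy.ns u' (hJ hu') n 0
    have h13 := hy.dg_le hJ (f (tt c g f n u'))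
    have h14 := h2 _ h8
    omega
  · exact h3 _ h10 h11 _ (hy.lev' hJ hu' (n + 1))

end plain

section measurable

variable {V : Type u} [MeasurableSpace V] {G : SimpleGraph V} {l m : ℕ} {ν : Measure V}
  {C : ℝ≥0∞}

lemma img_f (hq : QInv G ν C) (e : PCol G m) (hl : Lab e) {f : V → V} {A : Set V}
    (hA : ∀ x ∈ A, G.Adj x (f x)) : ν (f '' A) ≤ m * C * ν A := by
  have h1 : f '' A ⊆ ⋃ k : Fin m, e.S k ⁻¹' A := by
    rintro y ⟨x, hx, rfl⟩
    obtain ⟨k, hk⟩ := hl x (f x) (hA x hx)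
    refine mem_iUnion.2 ⟨k, ?_⟩
    rw [mem_preimage, ← hk, e.invol]
    exact hx
  calc ν (f '' A) ≤ ν (⋃ k : Fin m, e.S k ⁻¹' A) := measure_mono h1
    _ ≤ ∑ k : Fin m, ν (e.S k ⁻¹' A) := measure_iUnion_fintype_le _ _
    _ ≤ ∑ _k : Fin m, C * ν A := Finset.sum_le_sum fun k _ => qi_S hq e le_rfl k A
    _ = m * C * ν A := by
      rw [Finset.sum_const, Finset.card_univ, Fintype.card_fin, nsmul_eq_mul, mul_assoc]

lemma img_S (hq : QInv G ν C) (c : PCol G l) (g : Fin l) (A : Set V) :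
    ν (c.S g '' A) ≤ C * ν A := by
  have h1 : c.S g '' A = c.S g ⁻¹' A := by
    ext x
    constructor
    · rintro ⟨y, hy, rfl⟩
      rw [mem_preimage, c.invol]
      exact hy
    · intro hx
      exact ⟨c.S g x, hx, c.invol g x⟩
  rw [h1]
  exact qi_S hq c le_rfl g A

variable {c : PCol G l} {g : Fin l} {Δ r : ℕ} {Y J : Set V} {f h : V → V}

lemma measurable_tt (hf : Measurable f) (n : ℕ) : Measurable (tt (toPC c) g f n) := by
  have h1 : Measurable (fun x => c.S g (f x)) := (c.meas g).comp hf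
  exact h1.iterate n

lemma img_tt (hq : QInv G ν C) (e : PCol G m) (hl : Lab e) (hy : Hy (toPC c) g Δ r Y f h)
    (hJ : J ⊆ Y) (n : ℕ) : ν (tt (toPC c) g f n '' J) ≤ (C * (m * C)) ^ n * ν J := by
  induction n with
  | zero =>
    have h1 : tt (toPC c) g f 0 '' J = J := image_id J
    rw [h1, pow_zero, one_mul]
  | succ n ih =>
    have h1 : tt (toPC c) g f (n + 1) '' J = c.S g '' (f '' (tt (toPC c) g f n '' J)) := by
      rw [image_image, image_image]
      exact image_congr fun u _ => tt_succ n u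
    have h2 : ∀ x ∈ tt (toPC c) g f n '' J, G.Adj x (f x) := by
      rintro x ⟨u, hu, rfl⟩
      exact (hy.adj u (hJ hu) n).1
    calc ν (tt (toPC c) g f (n + 1) '' J)
        = ν (c.S g '' (f '' (tt (toPC c) g f n '' J))) := by rw [h1]
      _ ≤ C * ν (f '' (tt (toPC c) g f n '' J)) := img_S hq c g _
      _ ≤ C * (m * C * ν (tt (toPC c) g f n '' J)) := by gcongr; exact img_f hq e hl h2
      _ ≤ C * (m * C * ((C * (m * C)) ^ n * ν J)) := by gcongr
      _ = (C * (m * C)) ^ (n + 1) * ν J := by rw [pow_succ]; ring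

/-- the points number `n` of the walks -/
def Pn (c : PC G l) (g : Fin l) (f : V → V) (n : ℕ) (J : Set V) : Set V :=
  tt c g f n '' J ∪ f '' (tt c g f n '' J)

lemma Pn_le (hq : QInv G ν C) (hC : C ≠ ⊤) (e : PCol G m) (hl : Lab e)
    (hy : Hy (toPC c) g Δ r Y f h) (n : ℕ) : ∃ D : ℝ≥0∞, D ≠ ⊤ ∧ ∀ J ⊆ Y,
    ν (Pn (toPC c) g f n J) ≤ D * ν J := by
  refine ⟨(C * (m * C)) ^ n + m * C * (C * (m * C)) ^ n, ?_, fun J hJ => ?_⟩
  · have h1 : C * (m * C) ≠ ⊤ :=
      ENNReal.mul_ne_top hC (ENNReal.mul_ne_top (ENNReal.natCast_ne_top m) hC)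
    exact ENNReal.add_ne_top.2 ⟨ENNReal.pow_ne_top h1, ENNReal.mul_ne_top
      (ENNReal.mul_ne_top (ENNReal.natCast_ne_top m) hC) (ENNReal.pow_ne_top h1)⟩
  · have h1 := img_tt hq e hl hy hJ n
    have h2 : ∀ x ∈ tt (toPC c) g f n '' J, G.Adj x (f x) := by
      rintro x ⟨u, hu, rfl⟩
      exact (hy.adj u (hJ hu) n).1
    calc ν (Pn (toPC c) g f n J)
        ≤ ν (tt (toPC c) g f n '' J) + ν (f '' (tt (toPC c) g f n '' J)) := measure_union_le _ _
      _ ≤ (C * (m * C)) ^ n * ν J + m * C * ((C * (m * C)) ^ n * ν J) := by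
        refine add_le_add h1 ((img_f hq e hl h2).trans ?_)
        gcongr
      _ = ((C * (m * C)) ^ n + m * C * (C * (m * C)) ^ n) * ν J := by ring

lemma CT_eq : CT (toPC c) g f J = ⋃ n, tt (toPC c) g f n '' J := by
  ext x
  rw [mem_iUnion]
  constructor
  · rintro ⟨u, hu, n, rfl⟩
    exact ⟨n, u, hu, rfl⟩
  · rintro ⟨n, u, hu, rfl⟩
    exact ⟨u, hu, n, rfl⟩

lemma CS_eq : CS (toPC c) g f J = ⋃ n, f '' (tt (toPC c) g f n '' J) := by
  ext x
  rw [mem_iUnion]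
  constructor
  · rintro ⟨u, hu, n, rfl⟩
    exact ⟨n, _, ⟨u, hu, rfl⟩, rfl⟩
  · rintro ⟨n, _, ⟨u, hu, rfl⟩, rfl⟩
    exact ⟨u, hu, n, rfl⟩

lemma Pn_disj (hy : Hy (toPC c) g Δ r Y f h) :
    Pairwise (Function.onFun Disjoint fun n => Pn (toPC c) g f n Y) := by
  intro m n hmn
  rw [Function.onFun, Set.disjoint_left]
  rintro x (⟨u, hu, rfl⟩ | ⟨_, ⟨u, hu, rfl⟩, rfl⟩) (⟨v, hv, h1⟩ | ⟨_, ⟨v, hv, rfl⟩, h1⟩)
  · exact hmn (hy.inj hu hv h1.symm).1
  · exact hy.ne_ts hu hv m n h1.symm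
  · exact hy.ne_ts hv hu n m h1
  · exact hmn (hy.inj hu hv (hy.injf hu hv h1.symm)).1

variable [StandardBorelSpace V]

lemma meas_tt (hf : Measurable f) (hy : Hy (toPC c) g Δ r Y f h) (hJ : J ⊆ Y)
    (hJm : MeasurableSet J) (n : ℕ) : MeasurableSet (tt (toPC c) g f n '' J) :=
  hJm.image_of_measurable_injOn (measurable_tt hf n)
    fun _ hu _ hv huv => (hy.inj (hJ hu) (hJ hv) huv).2

lemma meas_ft (hf : Measurable f) (hy : Hy (toPC c) g Δ r Y f h) (hJ : J ⊆ Y)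
    (hJm : MeasurableSet J) (n : ℕ) : MeasurableSet (f '' (tt (toPC c) g f n '' J)) := by
  rw [image_image]
  exact hJm.image_of_measurable_injOn (hf.comp (measurable_tt hf n))
    fun _ hu _ hv huv => (hy.inj (hJ hu) (hJ hv) (hy.injf (hJ hu) (hJ hv) huv)).2

lemma meas_CT (hf : Measurable f) (hy : Hy (toPC c) g Δ r Y f h) (hJ : J ⊆ Y)
    (hJm : MeasurableSet J) : MeasurableSet (CT (toPC c) g f J) := by
  rw [CT_eq]
  exact MeasurableSet.iUnion fun n => meas_tt hf hy hJ hJm n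

lemma meas_CS (hf : Measurable f) (hy : Hy (toPC c) g Δ r Y f h) (hJ : J ⊆ Y)
    (hJm : MeasurableSet J) : MeasurableSet (CS (toPC c) g f J) := by
  rw [CS_eq]
  exact MeasurableSet.iUnion fun n => meas_ft hf hy hJ hJm n

/-- the measure of the walks from small sets is small -/
lemma small [IsFiniteMeasure ν] (hq : QInv G ν C) (hC : C ≠ ⊤) (e : PCol G m) (hl : Lab e)
    (hf : Measurable f) (hY : MeasurableSet Y) (hy : Hy (toPC c) g Δ r Y f h)
    {ε : ℝ} (hε : 0 < ε) : ∃ δ : ℝ, 0 < δ ∧ ∀ J ⊆ Y, ν.real J < δ →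
      ν.real (CT (toPC c) g f J ∪ CS (toPC c) g f J) < ε := by
  choose D hD hDJ using fun n => Pn_le hq hC e hl hy n
  have h1 : ∑' n, ν (Pn (toPC c) g f n Y) ≠ ⊤ := by
    rw [← measure_iUnion (Pn_disj hy) fun n =>
      (meas_tt hf hy Subset.rfl hY n).union (meas_ft hf hy Subset.rfl hY n)]
    exact measure_ne_top _ _
  have h2 := ENNReal.tendsto_sum_nat_add _ h1
  have h3 : (0 : ℝ≥0∞) < ENNReal.ofReal (ε / 2) := ENNReal.ofReal_pos.2 (by linarith)
  obtain ⟨N, hN⟩ := (h2.eventually_lt_const h3).exists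
  set K : ℝ := ∑ n ∈ Finset.range N, (D n).toReal with hK
  have hK0 : 0 ≤ K := Finset.sum_nonneg fun _ _ => ENNReal.toReal_nonneg
  refine ⟨ε / 2 / (K + 1), by positivity, fun J hJ hJs => ?_⟩
  have h4 : CT (toPC c) g f J ∪ CS (toPC c) g f J ⊆
      (⋃ n ∈ Finset.range N, Pn (toPC c) g f n J) ∪ ⋃ n, Pn (toPC c) g f (n + N) Y := by
    have key : ∀ x n, x ∈ Pn (toPC c) g f n J →
        x ∈ (⋃ n ∈ Finset.range N, Pn (toPC c) g f n J) ∪ ⋃ n, Pn (toPC c) g f (n + N) Y := by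
      intro x n hx
      by_cases hn : n < N
      · left
        simp only [mem_iUnion]
        exact ⟨n, Finset.mem_range.2 hn, hx⟩
      · right
        refine mem_iUnion.2 ⟨n - N, ?_⟩
        rw [Nat.sub_add_cancel (not_lt.1 hn)]
        rcases hx with ⟨u, hu, rfl⟩ | ⟨_, ⟨u, hu, rfl⟩, rfl⟩
        · exact Or.inl ⟨u, hJ hu, rfl⟩
        · exact Or.inr ⟨_, ⟨u, hJ hu, rfl⟩, rfl⟩
    rintro x (⟨u, hu, n, rfl⟩ | ⟨u, hu, n, rfl⟩)
    · exact key _ n (Or.inl ⟨u, hu, rfl⟩)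
    · exact key _ n (Or.inr ⟨_, ⟨u, hu, rfl⟩, rfl⟩)
  have h5 : ν.real (⋃ n, Pn (toPC c) g f (n + N) Y) < ε / 2 := by
    have h6 : ν (⋃ n, Pn (toPC c) g f (n + N) Y) < ENNReal.ofReal (ε / 2) :=
      (measure_iUnion_le _).trans_lt hN
    exact (ENNReal.lt_ofReal_iff_toReal_lt (measure_ne_top _ _)).1 h6
  have h6 : ν.real (⋃ n ∈ Finset.range N, Pn (toPC c) g f n J) ≤ K * ν.real J := by
    refine (measureReal_biUnion_finset_le _ _).trans ?_
    rw [hK, Finset.sum_mul]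
    exact Finset.sum_le_sum fun n _ => real_le_of (hD n) (hDJ n J hJ)
  have h7 : K * ν.real J ≤ ε / 2 := by
    have h8 : K * ν.real J ≤ (K + 1) * (ε / 2 / (K + 1)) :=
      mul_le_mul (by linarith) hJs.le measureReal_nonneg (by linarith)
    rwa [mul_div_cancel₀ _ (by linarith : K + 1 ≠ 0)] at h8
  calc ν.real (CT (toPC c) g f J ∪ CS (toPC c) g f J)
      ≤ ν.real ((⋃ n ∈ Finset.range N, Pn (toPC c) g f n J) ∪
          ⋃ n, Pn (toPC c) g f (n + N) Y) := measureReal_mono h4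
    _ ≤ ν.real (⋃ n ∈ Finset.range N, Pn (toPC c) g f n J) +
          ν.real (⋃ n, Pn (toPC c) g f (n + N) Y) := measureReal_union_le _ _
    _ < ε := by linarith

lemma meas_nS (hf : Measurable f) (hh : Measurable h) (hy : Hy (toPC c) g Δ r Y f h)
    (hJ : J ⊆ Y) (hJm : MeasurableSet J) (k : Fin l) :
    Measurable (nS (toPC c) g f h J k) := by
  classical
  by_cases hk : k = g
  · subst hk
    have h1 : nS (toPC c) k f h J k = fun x => if x ∈ CT (toPC c) k f J then f x else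
        if x ∈ CS (toPC c) k f J then h x else c.S k x := by
      funext x
      unfold nS
      rw [if_pos rfl]
      rfl
    rw [h1]
    exact Measurable.ite (meas_CT hf hy hJ hJm) hf
      (Measurable.ite (meas_CS hf hy hJ hJm) hh (c.meas k))
  · have h1 : nS (toPC c) g f h J k = c.S k := funext fun x => nS_ne hk x
    rw [h1]
    exact c.meas k

end measurable

end FLP_

open FLP_ in
theorem allFLP : tFLP.{u} := by
  intro V _ _ G m e ν _ C Δ l r hl hq hC hPX hlr _ c g Y f h hY hf hh hY1 hfh _ hw ε hε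
  have hy : Hy (toPC c) g Δ r Y f h :=
    { fin := hPX.fin
      miss := fun u hu => (hY1 u hu).2.1
      deg := fun u hu => (hY1 u hu).2.2
      fh := hfh
      adj := fun u hu n => (hw u hu n).1
      nt := fun u hu n j => (hw u hu n).2.1 j
      ns := fun u hu n j => (hw u hu n).2.2.1 j
      mv := fun u hu n => (hw u hu n).2.2.2 }
  obtain ⟨δ, hδ, hs⟩ := small hq hC e hl hf hY hy (div_pos hε (by positivity : (0 : ℝ) < l + 1))
  refine ⟨δ, hδ, fun J hJ hJm hJs => ?_⟩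
  let c' : PCol G l :=
    { S := nS (toPC c) g f h J
      meas := meas_nS hf hh hy hJ hJm
      invol := hy.invol' hJ
      adj := hy.adj' hJ
      disj := hy.disj' hJ }
  have h0 : toPC c' = nc hy hJ := rfl
  refine ⟨c', fun x => ?_, ?_, ?_⟩
  · rw [h0]
    exact hy.dg_le hJ x
  · have h1 := hs J hJ hJs
    have h2 : PCol.dst ν c c' ≤ l * ν.real (CT (toPC c) g f J ∪ CS (toPC c) g f J) := by
      refine dst_le_off fun x hx k => ?_
      rw [mem_union, not_or] at hx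
      exact nS_off hx.1 hx.2 k
    refine h2.trans_lt ?_
    have h3 : (l : ℝ) * ν.real (CT (toPC c) g f J ∪ CS (toPC c) g f J) ≤ l * (ε / (l + 1)) :=
      mul_le_mul_of_nonneg_left h1.le (Nat.cast_nonneg l)
    have h4 : (l : ℝ) * (ε / (l + 1)) < ε := by
      rw [mul_div_assoc', div_lt_iff₀ (by positivity)]
      nlinarith
    exact h3.trans_lt h4
  · rintro p ⟨u, hu, hpu⟩
    rw [h0]
    exact hy.final hJ hlr hPX.ind hu hpu

end Pool.Agent.MEQ
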