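import Pool.Agent.MEQ.Targets
import Pool.Agent.MEQ.Base
import Pool.Agent.MEO.MAIN
import Pool.Agent.MEC.Generators

set_option autoImplicit false
set_option linter.unusedVariables false

/-! MP_fff3e1_lc, project MEQ: assembly of the theorem (target E1). -/

namespace Pool.Agent.MEQ

open MeasureTheory Set Filter
open scoped ENNReal
open Pool.Agent.MEC
open Pool.Agent.MEP
open Pool.Agent.MEO

universe u

namespace MNQ_

variable {V : Type u} {G : SimpleGraph V}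

/-- the empty colouring is clean -/
lemma base [MeasurableSpace V] {ν : Measure V} {Δ : ℕ} (hpx : PX G Δ univ) (hΔ : 1 ≤ Δ) :
    (∀ᵐ x ∂ν, dg (RG (toPC (PCol.empty G 0))) x ≤ Δ) ∧ Cln ν Δ (PCol.empty G 0) := by
  have h1 : RG (toPC (PCol.empty G 0)) = G := by
    ext x y
    rw [RG_adj]
    exact ⟨fun h => h.1, fun h => ⟨h, fun k => k.elim0⟩⟩
  refine ⟨?_, ?_⟩
  · rw [h1]
    exact Eventually.of_forall hpx.deg
  · intro X hX _ _ _
    rw [h1] at hX
    have h2 : XX G Δ = ∅ := by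
      rw [eq_empty_iff_forall_notMem]
      rintro x ⟨-, hx⟩
      have h3 := hx x SimpleGraph.Reachable.rfl
      obtain ⟨y, hy⟩ := (dg_pos_iff (hpx.fin x)).1 (by omega)
      have h4 := hx y hy.reachable
      rcases hpx.ind x y hy with h5 | h5 <;> omega
    rw [h2] at hX
    rw [subset_empty_iff.1 hX]
    exact measure_empty

/-- clean states of all levels below `Δ` -/
lemma clean (h_CLQ : tCLQ.{u}) (h_CMQ : tCMQ.{u}) [MeasurableSpace V]
    [StandardBorelSpace V] {m : ℕ} (e : PCol G m) {ν : Measure V} [IsFiniteMeasure ν]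
    {C : ℝ≥0∞} {Δ : ℕ} (hl : Lab e) (hq : QInv G ν C) (hC : C ≠ ⊤) (hpx : PX G Δ univ) :
    ∀ l r : ℕ, l + r = Δ → 1 ≤ r →
    ∃ c : PCol G l, (∀ᵐ x ∂ν, dg (RG (toPC c)) x ≤ r) ∧ Cln ν r c := by
  intro l
  induction l with
  | zero =>
    intro r hr h1
    have : r = Δ := by omega
    subst this
    exact ⟨PCol.empty G 0, base hpx h1⟩
  | succ l ih =>
    intro r hr h1
    obtain ⟨c, hc1, hc2⟩ := ih (r + 1) (by omega) (by omega)
    obtain ⟨c', hc'⟩ :=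
      h_CMQ V G m e ν C Δ l (r + 1) hl hq hC hpx (by omega) c hc1 hc2
    exact h_CLQ V G m e ν C Δ (l + 1) r hl hq hC hpx hr (by omega) h1 ⟨c', hc'⟩

end MNQ_

open MNQ_ in
theorem allMNQ (h_LAB : tLAB.{u}) (h_CLQ : tCLQ.{u}) (h_CMQ : tCMQ.{u}) : tMNQ.{u} := by
  intro V _ _ G Δ μ _ hG hd hi hχ
  obtain ⟨e, hl⟩ := h_LAB V G Δ hG hd
  obtain ⟨g⟩ := exists_gen hG hd
  have hpx := MAIN_.px hd hi hχ
  have : IsFiniteMeasure (g.nu μ) := ⟨g.nu_univ_lt_top μ⟩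
  have hq : QInv G (g.nu μ) (Gen.CC Δ) := g.qinv_nu μ
  have hC : Gen.CC Δ ≠ ⊤ := by
    unfold Gen.CC
    exact ENNReal.add_ne_top.2 ⟨ENNReal.mul_ne_top (by simp) (by simp), by simp⟩
  have hac : μ ≪ g.nu μ := Measure.absolutelyContinuous_of_le (g.le_nu μ)
  rcases Nat.eq_zero_or_pos Δ with h0 | h0
  · subst h0
    refine ⟨PCol.empty G 0, Eventually.of_forall fun x y hxy => ?_⟩
    have h1 := hpx.deg x
    have h2 := (dg_pos_iff (hpx.fin x)).2 ⟨y, hxy⟩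
    omega
  · obtain ⟨l, rfl⟩ : ∃ l, Δ = l + 1 := ⟨Δ - 1, by omega⟩
    obtain ⟨c, hc1, hc2⟩ := clean h_CLQ h_CMQ e hl hq hC hpx l 1 rfl le_rfl
    obtain ⟨c', hc'⟩ := h_CMQ V G _ e _ _ (l + 1) l 1 hl hq hC hpx le_rfl c hc1 hc2
    refine ⟨c', hac.ae_le ?_⟩
    filter_upwards [hc'] with x hx y hxy
    by_contra hcon
    push Not at hcon
    have h1 : (RG (toPC c')).Adj x y := ⟨hxy, hcon⟩
    have h2 := (dg_pos_iff (fin_of_le (RG_le (toPC c')) (hpx.fin x))).2 ⟨y, h1⟩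
    omega

end Pool.Agent.MEQ
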