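import Pool.Agent.MEQ.Targets2
import Pool.Agent.MEQ.MNQ
import Pool.Agent.MEO.CYC
import Pool.Agent.MEO.LAB
import Pool.Agent.MEO.MES

set_option autoImplicit false

/-! MP_fff3e1_lc: the theorem with light edges removed step by step. -/

namespace Pool.Agent.MEQ

open MeasureTheory Set Filter
open scoped ENNReal
open Pool.Agent.MEC
open Pool.Agent.MEP
open Pool.Agent.MEO

universe u

/-- `G` without its edges `xy` with `deg x + deg y ≤ Δ + 1` -/
def noLight {V : Type u} (Δ : ℕ) (G : SimpleGraph V) : SimpleGraph V where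
  Adj x y := G.Adj x y ∧ ¬ (G.neighborSet x).encard + (G.neighborSet y).encard ≤ (Δ + 1 : ℕ)
  symm := ⟨fun _ _ h => ⟨h.1.symm, fun h' => h.2 (by rw [add_comm]; exact h')⟩⟩
  loopless := ⟨fun _ h => h.1.ne rfl⟩

namespace FNI_

theorem le {V : Type u} (Δ : ℕ) (G : SimpleGraph V) : noLight Δ G ≤ G := fun _ _ h => h.1

theorem sub {V : Type u} {R G : SimpleGraph V} (h : R ≤ G) (x : V) :
    (R.neighborSet x).encard ≤ (G.neighborSet x).encard :=
  encard_le_encard fun _ hy => h hy

/-- a partial colouring of a subgraph -/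
def up {V : Type u} [MeasurableSpace V] {R G : SimpleGraph V} {Δ : ℕ} (h : R ≤ G)
    (c : PCol R Δ) : PCol G Δ where
  S := c.S
  meas := c.meas
  invol := c.invol
  adj := fun k x hx => h (c.adj k x hx)
  disj := c.disj

end FNI_

open FNI_ in
/-- the theorem for graphs which have no odd cycles after `n` removals of light edges -/
theorem allFNI (h_LAB : tLAB.{u}) (h_MES : tMES.{u}) (h_CYC : tCYC.{u}) (h_MNQ : tMNQ.{u})
    (h_GRE : tGRE.{u}) (V : Type u) [MeasurableSpace V] [StandardBorelSpace V] (Δ : ℕ)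
    (μ : Measure V) [IsFiniteMeasure μ] (n : ℕ) : ∀ (G : SimpleGraph V),
    MeasurableSet {p : V × V | G.Adj p.1 p.2} → (∀ x, (G.neighborSet x).encard ≤ Δ) →
    (∀ x y, G.Adj x y → (G.neighborSet x).encard < Δ ∨ (G.neighborSet y).encard < Δ) →
    (∀ (v : V) (p : ((noLight Δ)^[n] G).Walk v v), p.IsCycle → Even p.length) →
    ∃ c : PCol G Δ, ∀ᵐ x ∂μ, ∀ y, G.Adj x y → ∃ k, c.S k x = y := by
  induction n with
  | zero =>
    intro G hG hd hi ho
    exact h_MNQ V G Δ μ hG hd hi (h_CYC V G ho)
  | succ n ih =>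
    intro G hG hd hi ho
    obtain ⟨e, he⟩ := h_LAB V G Δ hG hd
    have hfin : ∀ x, (G.neighborSet x).Finite := fun x =>
      Set.finite_of_encard_le_coe (hd x)
    have hdg : ∀ x, (G.neighborSet x).encard = dg G x := fun x => by
      unfold dg
      exact ((hfin x).cast_ncard_eq).symm
    have hm : ∀ j, MeasurableSet {x | dg G x = j} :=
      ((h_MES V G _ _ e e he).2.1 G le_rfl hG).1
    have hdm : Measurable fun x => dg G x := by
      refine measurable_to_countable' fun j => ?_
      exact hm j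
    have hG' : MeasurableSet {p : V × V | (noLight Δ G).Adj p.1 p.2} := by
      have h1 : {p : V × V | (noLight Δ G).Adj p.1 p.2} = {p : V × V | G.Adj p.1 p.2} ∩
          {p : V × V | dg G p.1 + dg G p.2 ≤ Δ + 1}ᶜ := by
        ext p
        have h2 : (G.neighborSet p.1).encard + (G.neighborSet p.2).encard ≤ (Δ + 1 : ℕ) ↔
            dg G p.1 + dg G p.2 ≤ Δ + 1 := by
          rw [hdg, hdg]
          exact_mod_cast Iff.rfl
        simp only [mem_ofPred_eq, mem_inter_iff, mem_compl_iff, ← h2]
        rfl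
      rw [h1]
      refine hG.inter (MeasurableSet.compl ?_)
      exact measurableSet_le ((hdm.comp measurable_fst).add (hdm.comp measurable_snd))
        measurable_const
    obtain ⟨c, hc⟩ := ih (noLight Δ G) hG' (fun x => (sub (le Δ G) x).trans (hd x))
      (fun x y hxy => (hi x y hxy.1).imp (lt_of_le_of_lt (sub (le Δ G) x))
        (lt_of_le_of_lt (sub (le Δ G) y))) ho
    obtain ⟨c', hc1, hc2⟩ := h_GRE V G Δ _ e he (up (le Δ G) c)
    refine ⟨c', ?_⟩
    filter_upwards [hc] with x hx y hxy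
    by_cases hl : dg G x + dg G y ≤ Δ + 1
    · exact hc2 x y hxy hl
    · have h1 : (noLight Δ G).Adj x y := by
        refine ⟨hxy, fun h2 => hl ?_⟩
        rw [hdg, hdg] at h2
        exact_mod_cast h2
      obtain ⟨k, hk⟩ := hx y h1
      refine ⟨k, ?_⟩
      rw [hc1 k x]
      · exact hk
      · intro h3
        exact hxy.ne (h3.symm.trans hk)

end Pool.Agent.MEQ
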