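import Pool.Agent.MEQ.Targets2
import Pool.Agent.MEO.MES

set_option autoImplicit false

/-! MP_fff3e1_lc: greedy colouring of the light edges. -/

namespace Pool.Agent.MEQ

open MeasureTheory Set Filter
open scoped ENNReal
open Pool.Agent.MEC
open Pool.Agent.MEP
open Pool.Agent.MEO

universe u

namespace GRE_

variable {V : Type u} {G : SimpleGraph V} {Δ m : ℕ}

/-- a light uncoloured edge has a free colour -/
lemma free (c : PC G Δ) {x y : V} (hx : (G.neighborSet x).Finite) (hy : (G.neighborSet y).Finite)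
    (hxy : (RG c).Adj x y) (hl : dg G x + dg G y ≤ Δ + 1) :
    ∃ k, c.S k x = x ∧ c.S k y = y := by
  classical
  have h1 := dg_add c hx
  have h2 := dg_add c hy
  have h3 : 0 < dg (RG c) x := (dg_pos_iff (fin_of_le (RG_le c) hx)).2 ⟨y, hxy⟩
  have h4 : 0 < dg (RG c) y := (dg_pos_iff (fin_of_le (RG_le c) hy)).2 ⟨x, hxy.symm⟩
  by_contra hcon
  push Not at hcon
  have h5 : (univ : Set (Fin Δ)) ⊆ {k | c.S k x ≠ x} ∪ {k | c.S k y ≠ y} := by
    intro k _
    by_cases hk : c.S k x = x
    · exact Or.inr (hcon k hk)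
    · exact Or.inl hk
  have h6 := ncard_le_ncard h5 (toFinite _)
  have h7 := ncard_union_le {k | c.S k x ≠ x} {k | c.S k y ≠ y}
  rw [ncard_univ, Nat.card_fin] at h6
  omega

variable [MeasurableSpace V] [StandardBorelSpace V]

/-- uncoloured light edges with label `κ` -/
def E (e : PCol G m) (κ : Fin m) (c : PCol G Δ) : Set V :=
  {x | (RG (toPC c)).Adj x (e.S κ x) ∧ dg G x + dg G (e.S κ x) ≤ Δ + 1}

/-- colour `k` is free at both ends -/
def Fr (e : PCol G m) (κ : Fin m) (c : PCol G Δ) (k : Fin Δ) : Set V :=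
  {x | c.S k x = x ∧ c.S k (e.S κ x) = e.S κ x}

/-- points at which `k` is the colour of the edge -/
def P (e : PCol G m) (κ : Fin m) (c : PCol G Δ) (k : Fin Δ) : Set V :=
  {x | x ∈ E e κ c ∧ x ∈ Fr e κ c k ∧ ∀ j < k, x ∉ Fr e κ c j}

omit [StandardBorelSpace V] in
lemma E_inv {e : PCol G m} {κ : Fin m} {c : PCol G Δ} {x : V} (h : x ∈ E e κ c) :
    e.S κ x ∈ E e κ c := by
  refine ⟨?_, ?_⟩
  · rw [e.invol]
    exact h.1.symm
  · rw [e.invol, add_comm]
    exact h.2

omit [StandardBorelSpace V] in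
lemma Fr_inv {e : PCol G m} {κ : Fin m} {c : PCol G Δ} {k : Fin Δ} {x : V} :
    e.S κ x ∈ Fr e κ c k ↔ x ∈ Fr e κ c k := by
  unfold Fr
  simp only [mem_ofPred_eq, e.invol]
  exact and_comm

omit [StandardBorelSpace V] in
lemma P_inv {e : PCol G m} {κ : Fin m} {c : PCol G Δ} {k : Fin Δ} {x : V}
    (h : x ∈ P e κ c k) : e.S κ x ∈ P e κ c k :=
  ⟨E_inv h.1, Fr_inv.2 h.2.1, fun j hj h' => h.2.2 j hj (Fr_inv.1 h')⟩

omit [StandardBorelSpace V] in
lemma P_uniq {e : PCol G m} {κ : Fin m} {c : PCol G Δ} {k k' : Fin Δ} {x : V}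
    (h : x ∈ P e κ c k) (h' : x ∈ P e κ c k') : k = k' := by
  rcases lt_trichotomy k k' with h1 | h1 | h1
  · exact absurd h.2.1 (h'.2.2 k h1)
  · exact h1
  · exact absurd h'.2.1 (h.2.2 k' h1)

lemma P_meas {e : PCol G m} (he : Lab e) (κ : Fin m) (c : PCol G Δ) (k : Fin Δ) :
    MeasurableSet (P e κ c k) := by
  obtain ⟨hG, hR, hc, -, -⟩ := allMES V G m Δ e c he
  have hd := (hR G le_rfl hG).1
  have hdm : Measurable fun x => dg G x := measurable_to_countable' fun j => hd j
  have h1 : MeasurableSet (E e κ c) := by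
    refine MeasurableSet.inter ?_ ?_
    · exact (measurable_id.prodMk (e.meas κ)) hc
    · exact measurableSet_le (hdm.add (hdm.comp (e.meas κ))) measurable_const
  have h2 : ∀ j, MeasurableSet (Fr e κ c j) := fun j =>
    (measurableSet_eq_fun (c.meas j) measurable_id).inter
      (measurableSet_eq_fun ((c.meas j).comp (e.meas κ)) (e.meas κ))
  have h3 : P e κ c k = E e κ c ∩ (Fr e κ c k ∩ ⋂ j : Fin Δ, ⋂ _ : j < k, (Fr e κ c j)ᶜ) := by
    ext x
    simp only [P, mem_ofPred_eq, mem_inter_iff, mem_iInter, mem_compl_iff]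
  rw [h3]
  exact h1.inter ((h2 k).inter (MeasurableSet.iInter fun j => MeasurableSet.iInter fun _ =>
    (h2 j).compl))

open Classical in
/-- one round -/
noncomputable def step {e : PCol G m} (he : Lab e) (κ : Fin m) (c : PCol G Δ) : PCol G Δ where
  S := fun k x => if x ∈ P e κ c k then e.S κ x else c.S k x
  meas := fun k => Measurable.ite (P_meas he κ c k) (e.meas κ) (c.meas k)
  invol := by
    intro k x
    by_cases h : x ∈ P e κ c k
    · rw [if_pos h, if_pos (P_inv h), e.invol]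
    · rw [if_neg h]
      by_cases h' : c.S k x ∈ P e κ c k
      · exfalso
        have h1 : c.S k (c.S k x) = c.S k x := h'.2.1.1
        rw [c.invol] at h1
        rw [← h1] at h'
        exact h h'
      · rw [if_neg h', c.invol]
  adj := by
    intro k x
    by_cases h : x ∈ P e κ c k
    · rw [if_pos h]
      exact fun _ => h.1.1.1
    · rw [if_neg h]
      exact c.adj k x
  disj := by
    intro k k' x
    by_cases h : x ∈ P e κ c k
    · rw [if_pos h]
      by_cases h' : x ∈ P e κ c k'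
      · exact fun _ _ => P_uniq h h'
      · rw [if_neg h']
        intro h1 _
        exact absurd h1.symm (h.1.1.2 k')
    · rw [if_neg h]
      by_cases h' : x ∈ P e κ c k'
      · rw [if_pos h']
        intro h1 _
        exact absurd h1 (h'.1.1.2 k)
      · rw [if_neg h']
        exact c.disj k k' x

lemma step_old {e : PCol G m} (he : Lab e) (κ : Fin m) (c : PCol G Δ) {k : Fin Δ} {x : V}
    (h : c.S k x ≠ x) : (step he κ c).S k x = c.S k x := by
  have h1 : x ∉ P e κ c k := fun h' => h h'.2.1.1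
  exact if_neg h1

omit [StandardBorelSpace V] in
lemma fin {e : PCol G m} (he : Lab e) (x : V) : (G.neighborSet x).Finite := by
  refine (finite_range fun k => e.S k x).subset ?_
  intro y hy
  obtain ⟨k, hk⟩ := he x y hy
  exact ⟨k, hk⟩

lemma step_new {e : PCol G m} (he : Lab e) (κ : Fin m) (c : PCol G Δ) {x : V}
    (h : G.Adj x (e.S κ x)) (hl : dg G x + dg G (e.S κ x) ≤ Δ + 1) :
    ∃ k, (step he κ c).S k x = e.S κ x := by
  classical
  by_cases hc : ∃ k, c.S k x = e.S κ x
  · obtain ⟨k, hk⟩ := hc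
    refine ⟨k, ?_⟩
    rw [step_old he κ c, hk]
    rw [hk]
    exact h.ne'
  · push Not at hc
    have h1 : x ∈ E e κ c := ⟨⟨h, hc⟩, hl⟩
    obtain ⟨k, hk⟩ := free (toPC c) (fin he x) (fin he _) h1.1 h1.2
    have h2 : ∃ k, x ∈ P e κ c k := by
      have hne : (Finset.univ.filter fun k => x ∈ Fr e κ c k).Nonempty :=
        ⟨k, Finset.mem_filter.2 ⟨Finset.mem_univ _, hk⟩⟩
      refine ⟨(Finset.univ.filter fun k => x ∈ Fr e κ c k).min' hne, h1, ?_, ?_⟩
      · have := Finset.min'_mem _ hne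
        simpa using this
      · intro j hj hj'
        have : j ∈ Finset.univ.filter fun k => x ∈ Fr e κ c k := by simpa using hj'
        exact absurd (Finset.min'_le _ _ this) (not_le.2 hj)
    obtain ⟨k', hk'⟩ := h2
    exact ⟨k', if_pos hk'⟩

/-- all rounds -/
lemma rounds {e : PCol G m} (he : Lab e) (s : Finset (Fin m)) (c : PCol G Δ) :
    ∃ c' : PCol G Δ, (∀ k x, c.S k x ≠ x → c'.S k x = c.S k x) ∧
      ∀ κ ∈ s, ∀ x, G.Adj x (e.S κ x) → dg G x + dg G (e.S κ x) ≤ Δ + 1 →
        ∃ k, c'.S k x = e.S κ x := by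
  classical
  induction s using Finset.induction_on with
  | empty => exact ⟨c, fun _ _ _ => rfl, by simp⟩
  | insert κ s _ ih =>
    obtain ⟨c1, h1, h2⟩ := ih
    refine ⟨step he κ c1, ?_, ?_⟩
    · intro k x hk
      rw [step_old he κ c1, h1 k x hk]
      rw [h1 k x hk]
      exact hk
    · intro κ' hκ' x hx hl
      rcases Finset.mem_insert.1 hκ' with rfl | h3
      · exact step_new he κ' c1 hx hl
      · obtain ⟨k, hk⟩ := h2 κ' h3 x hx hl
        refine ⟨k, ?_⟩
        rw [step_old he κ c1, hk]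
        rw [hk]
        exact hx.ne'

end GRE_

theorem allGRE : tGRE.{u} := by
  intro V _ _ G Δ m e he c
  obtain ⟨c', h1, h2⟩ := GRE_.rounds he Finset.univ c
  refine ⟨c', h1, fun x y hxy hl => ?_⟩
  obtain ⟨κ, rfl⟩ := he x y hxy
  exact h2 κ (Finset.mem_univ _) x hxy hl

end Pool.Agent.MEQ
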