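import Pool.Agent.MEQ.Targets
import Pool.Agent.MEQ.Base
import Pool.Agent.MEQ.BND
import Pool.Agent.MEC.Complete

set_option autoImplicit false

/-! MP_fff3e1_lc, B4: the limit of the auction, Hall's theorem with optional left vertices. -/

namespace Pool.Agent.MEQ

open MeasureTheory Set Filter
open scoped ENNReal Topology
open Pool.Agent.MEC
open Pool.Agent.MEP
open Pool.Agent.MEO

universe u

namespace HALL_

/-- the points at which the prices are bounded -/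
def Fi {U : Type u} (k : ℕ → U → ℕ) : Set U := {y | ∃ n : ℕ, ∀ t, k t y ≤ n}

/-- a run of the auction; at time `t` the points of `B t` bid -/
structure Run {U : Type u} [MeasurableSpace U] {K : SimpleGraph U} {m : ℕ} (e : PCol K m)
    (ν : Measure U) (L O : Set U) (δ : Fin m → U → ℝ≥0∞) (c : ℝ≥0∞)
    (B : ℕ → Set U) (s : ℕ → U → U) (k : ℕ → U → ℕ) : Prop where
  auc : ∀ t, Auc e ν L O δ c (s t) (k t)
  k0 : ∀ y, k 0 y = 0
  up : ∀ t y, k t y ≤ k (t + 1) y ∧ k (t + 1) y ≤ k t y + 1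
  chg : ∀ t y, y ∉ L → s (t + 1) y ≠ s t y → k (t + 1) y = k t y + 1
  bid : ∀ t, ∀ x ∈ B t, s t x = x → (∃ y, K.Adj x y) →
    (x ∈ O → ∃ κ, e.S κ x ≠ x ∧ k t (e.S κ x) * δ κ x ≤ c) →
    ∃ y, K.Adj x y ∧ k (t + 1) y = k t y + 1

section plain

variable {U : Type u} [MeasurableSpace U] {K : SimpleGraph U} {m : ℕ} {e : PCol K m}
  {ν : Measure U} {L O : Set U} {δ : Fin m → U → ℝ≥0∞} {c C θ : ℝ≥0∞} {B : ℕ → Set U}
  {s : ℕ → U → U} {k : ℕ → U → ℕ}

lemma Run.mono (h : Run e ν L O δ c B s k) {t t' : ℕ} (htt : t ≤ t') (y : U) :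
    k t y ≤ k t' y := by
  induction t', htt using Nat.le_induction with
  | base => exact le_rfl
  | succ t' _ ih => exact ih.trans (h.up t' y).1

lemma Run.le (h : Run e ν L O δ c B s k) (t : ℕ) (y : U) : k t y ≤ t := by
  induction t with
  | zero => rw [h.k0]
  | succ t ih => exact (h.up t y).2.trans (Nat.succ_le_succ ih)

lemma Run.const_k (h : Run e ν L O δ c B s k) {y : U} (hy : y ∈ Fi k) :
    ∃ T, ∀ t, T ≤ t → k t y = k T y := by
  obtain ⟨n, hn⟩ := hy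
  have hb : BddAbove (range fun t => k t y) := ⟨n, by rintro _ ⟨t, rfl⟩; exact hn t⟩
  obtain ⟨T, hT⟩ := Nat.sSup_mem (range_nonempty fun t => k t y) hb
  refine ⟨T, fun t ht => le_antisymm ?_ (h.mono ht y)⟩
  have h1 : k t y ≤ sSup (range fun t => k t y) := le_csSup hb ⟨t, rfl⟩
  exact h1.trans hT.ge

lemma Run.const_s (h : Run e ν L O δ c B s k) {y : U} (hyL : y ∉ L) {T : ℕ}
    (hT : ∀ t, T ≤ t → k t y = k T y) (t : ℕ) (ht : T ≤ t) : s t y = s T y := by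
  induction t, ht using Nat.le_induction with
  | base => rfl
  | succ t ht ih =>
    by_contra hne
    have h1 : s (t + 1) y ≠ s t y := by rw [ih]; exact hne
    have h2 := h.chg t y hyL h1
    have h3 := hT t ht
    have h4 := hT (t + 1) (by omega)
    omega

/-- all neighbours become constant together -/
lemma Run.const_nb (h : Run e ν L O δ c B s k) (hl : Lab e) {x : U}
    (hx : ∀ y, K.Adj x y → y ∈ Fi k) :
    ∃ T, ∀ y, K.Adj x y → ∀ t, T ≤ t → k t y = k T y := by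
  have h1 : ∀ κ : Fin m, ∃ T, K.Adj x (e.S κ x) →
      ∀ t, T ≤ t → k t (e.S κ x) = k T (e.S κ x) := by
    intro κ
    by_cases hκ : K.Adj x (e.S κ x)
    · obtain ⟨T, hT⟩ := h.const_k (hx _ hκ)
      exact ⟨T, fun _ => hT⟩
    · exact ⟨0, fun h => absurd h hκ⟩
  choose T hT using h1
  refine ⟨Finset.univ.sup T, ?_⟩
  intro y hy t ht
  obtain ⟨κ, rfl⟩ := hl x y hy
  have h2 : T κ ≤ Finset.univ.sup T := Finset.le_sup (Finset.mem_univ κ)
  rw [hT κ hy t (h2.trans ht), hT κ hy _ h2]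

lemma Run.const_left (h : Run e ν L O δ c B s k) (hb : ∀ x y, K.Adj x y → (x ∈ L ↔ y ∉ L))
    {x : U} (hxL : x ∈ L) {T : ℕ} (hT : ∀ y, K.Adj x y → ∀ t, T ≤ t → k t y = k T y)
    (t : ℕ) (ht : T ≤ t) : s t x = s T x := by
  have key : ∀ t t', T ≤ t → T ≤ t' → s t x ≠ x → s t' x = s t x := by
    intro t t' ht ht' hne
    have h1 : K.Adj x (s t x) := (h.auc t).adj x hne
    have h2 : s t x ∉ L := (hb x _ h1).1 hxL
    have h3 := h.const_s h2 (hT _ h1) t ht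
    have h4 := h.const_s h2 (hT _ h1) t' ht'
    have h5 : s t (s t x) = x := (h.auc t).inv x
    have h6 : s t' (s t x) = x := by rw [h4, ← h3, h5]
    calc s t' x = s t' (s t' (s t x)) := by rw [h6]
      _ = s t x := (h.auc t').inv _
  by_cases h1 : s t x = x
  · by_cases h2 : s T x = x
    · rw [h1, h2]
    · exact key T t le_rfl ht h2
  · exact (key t T ht le_rfl h1).symm

/-- a free vertex which does not bid is optional, and all prices are too high -/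
lemma Run.no_bid (h : Run e ν L O δ c B s k) {x : U} {T : ℕ}
    (hT : ∀ y, K.Adj x y → ∀ t, T ≤ t → k t y = k T y) {t : ℕ} (ht : T ≤ t) (hxB : x ∈ B t)
    (hs : s t x = x) (hn : ∃ y, K.Adj x y) :
    x ∈ O ∧ ∀ κ, e.S κ x ≠ x → c < k t (e.S κ x) * δ κ x := by
  by_contra hcon
  have h1 : x ∈ O → ∃ κ, e.S κ x ≠ x ∧ k t (e.S κ x) * δ κ x ≤ c := by
    intro hxO
    by_contra h2
    refine hcon ⟨hxO, fun κ hκ => ?_⟩
    by_contra h3
    exact h2 ⟨κ, hκ, not_lt.1 h3⟩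
  obtain ⟨y, hy, hk⟩ := h.bid t x hxB hs hn h1
  have h3 := hT y hy t ht
  have h4 := hT y hy (t + 1) (by omega)
  omega

/-- the matching at one time as a partial colouring -/
def pc {s : U → U} {k : U → ℕ} (h : Auc e ν L O δ c s k) : PCol K 1 where
  S := fun _ => s
  meas := fun _ => h.ms
  invol := fun _ => h.inv
  adj := fun _ => h.adj
  disj := fun k k' _ _ _ => Subsingleton.elim k k'

lemma Run.fi_of_freq (h : Run e ν L O δ c B s k) {y : U} {R : ℝ≥0∞} (hR : R ≠ ⊤)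
    (hf : ∃ᶠ t in atTop, (k t y : ℝ≥0∞) ≤ R) : y ∈ Fi k := by
  obtain ⟨n, hn⟩ := ENNReal.exists_nat_gt hR
  refine ⟨n, fun t => ?_⟩
  obtain ⟨t', ht', h1⟩ := frequently_atTop.1 hf t
  have h2 : (k t' y : ℝ≥0∞) ≤ n := h1.trans hn.le
  exact (h.mono ht' y).trans (Nat.cast_le.1 h2)

lemma dg_ne_zero (hl : Lab e) {x y : U} (h : K.Adj x y) : (dg K x : ℝ≥0∞) ≠ 0 := by
  rw [Ne, Nat.cast_eq_zero]
  exact ((dg_pos_iff (hl.fin x)).2 ⟨y, h⟩).ne'

lemma k_le_of_Av (hl : Lab e) {x : U} {κ : Fin m} (hκ : e.S κ x ≠ x) (hup : δ κ x ≤ C)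
    (hlo : C⁻¹ ≤ δ κ x) (hC : C ≠ ⊤) {k : U → ℕ} {R : ℝ≥0∞} (hR : Av e δ k x ≤ R) :
    (k (e.S κ x) : ℝ≥0∞) ≤ R * dg K x * C := by
  classical
  have hC0 : C ≠ 0 := by
    rintro rfl
    rw [ENNReal.inv_zero] at hlo
    exact absurd (hlo.trans hup) (by simp)
  have h0 : (dg K x : ℝ≥0∞) ≠ 0 := dg_ne_zero hl (e.adj κ x hκ)
  have ht : (dg K x : ℝ≥0∞) ≠ ⊤ := ENNReal.natCast_ne_top _
  have h1 : (∑ κ : Fin m, if e.S κ x = x then 0 else k (e.S κ x) * δ κ x) ≤ R * dg K x := by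
    unfold Av at hR
    exact (ENNReal.div_le_iff h0 ht).1 hR
  have h2 : (k (e.S κ x) : ℝ≥0∞) * δ κ x ≤
      ∑ κ : Fin m, if e.S κ x = x then 0 else k (e.S κ x) * δ κ x := by
    have h3 := Finset.single_le_sum
      (f := fun κ : Fin m => if e.S κ x = x then 0 else (k (e.S κ x) : ℝ≥0∞) * δ κ x)
      (fun _ _ => zero_le) (Finset.mem_univ κ)
    simpa only [if_neg hκ] using h3
  have h4 : (k (e.S κ x) : ℝ≥0∞) * C⁻¹ ≤ R * dg K x :=
    (mul_le_mul_right hlo _).trans (h2.trans h1)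
  rw [← div_eq_mul_inv] at h4
  exact (ENNReal.div_le_iff hC0 hC).1 h4

lemma Run.fi_all (h : Run e ν L O δ c B s k) (hl : Lab e) (hC : C ≠ ⊤) {x : U}
    (hup : ∀ κ, δ κ x ≤ C) (hlo : ∀ κ, C⁻¹ ≤ δ κ x) {R : ℝ≥0∞} (hR : R ≠ ⊤)
    (hf : ∃ᶠ t in atTop, Av e δ (k t) x ≤ R) (y : U) (hy : K.Adj x y) : y ∈ Fi k := by
  obtain ⟨κ, rfl⟩ := hl x y hy
  have hR' : R * dg K x * C ≠ ⊤ :=
    ENNReal.mul_ne_top (ENNReal.mul_ne_top hR (ENNReal.natCast_ne_top _)) hC
  exact h.fi_of_freq hR' (hf.mono fun t ht =>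
    k_le_of_Av hl (K.ne_of_adj hy).symm (hup κ) (hlo κ) hC ht)

/-- the average price is large if all prices are large -/
lemma le_Av (hl : Lab e) {x y : U} (hy : K.Adj x y) {k : U → ℕ}
    (h : ∀ κ, e.S κ x ≠ x → c ≤ k (e.S κ x) * δ κ x) : c ≤ Av e δ k x := by
  classical
  have h0 := dg_ne_zero hl hy
  have ht : (dg K x : ℝ≥0∞) ≠ ⊤ := ENNReal.natCast_ne_top _
  unfold Av
  rw [ENNReal.le_div_iff_mul_le (Or.inl h0) (Or.inl ht), dg_eq_card hl le_rfl x]
  have h2 : {κ | K.Adj x (e.S κ x)} = ↑(Finset.univ.filter fun κ => ¬ e.S κ x = x) := by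
    ext κ
    simp only [mem_ofPred_eq, Finset.coe_filter, Finset.mem_univ, true_and]
    exact ⟨fun h h' => (K.ne_of_adj h) h'.symm, fun h => e.adj κ x h⟩
  rw [h2, ncard_coe_finset, Finset.card_filter]
  push_cast
  rw [Finset.mul_sum]
  refine Finset.sum_le_sum fun κ _ => ?_
  by_cases hκ : e.S κ x = x
  · simp [hκ]
  · simpa [hκ] using h κ hκ

end plain

section meas

variable {U : Type u} [MeasurableSpace U] [StandardBorelSpace U] {K : SimpleGraph U} {m : ℕ}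
  {e : PCol K m} {ν : Measure U} {L O : Set U} {δ : Fin m → U → ℝ≥0∞} {c C θ : ℝ≥0∞}
  {B : ℕ → Set U} {s : ℕ → U → U} {k : ℕ → U → ℕ}

omit [StandardBorelSpace U] in
/-- Fatou's lemma -/
lemma fatou {A : Set U} (hA : MeasurableSet A) {f : ℕ → U → ℝ≥0∞} (hf : ∀ t, Measurable (f t))
    {M : ℝ≥0∞} (hM : M ≠ ⊤) (h : ∀ t, ∫⁻ x in A, f t x ∂ν ≤ M) :
    ∀ᵐ x ∂ν, x ∈ A → ∃ n : ℕ, ∃ᶠ t in atTop, f t x ≤ n := by
  have h1 : ∫⁻ x in A, liminf (fun t => f t x) atTop ∂ν ≤ M := by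
    refine (lintegral_liminf_le hf).trans ?_
    exact liminf_le_of_frequently_le' (Frequently.of_forall h)
  have h2 : ∀ᵐ x ∂(ν.restrict A), liminf (fun t => f t x) atTop < ⊤ :=
    ae_lt_top (Measurable.liminf hf) (ne_top_of_le_ne_top hM h1)
  rw [ae_restrict_iff' hA] at h2
  filter_upwards [h2] with x hx hxA
  obtain ⟨n, hn⟩ := ENNReal.exists_nat_gt (hx hxA).ne
  exact ⟨n, (frequently_lt_of_liminf_lt (by isBoundedDefault) hn).mono fun _ h => h.le⟩

/-- existence of a run -/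
lemma exists_run [IsFiniteMeasure ν] (h_BID : tBID.{u}) (hl : Lab e) (hd : Den e ν C δ)
    (hL : MeasurableSet L) (hO : MeasurableSet O) (hOL : O ⊆ L)
    (hb : ∀ x y, K.Adj x y → (x ∈ L ↔ y ∉ L)) (hB : ∀ t, MeasurableSet (B t))
    (hBL : ∀ t, B t ⊆ L)
    (hBd : ∀ t, ∀ x ∈ B t, ∀ x' ∈ B t, ∀ y, K.Adj x y → K.Adj x' y → x = x') :
    ∃ s k, Run e ν L O δ c B s k := by
  have h : ∀ (t : ℕ) (p : {p : (U → U) × (U → ℕ) // Auc e ν L O δ c p.1 p.2}),
      ∃ q : {p : (U → U) × (U → ℕ) // Auc e ν L O δ c p.1 p.2},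
        (∀ y, p.1.2 y ≤ q.1.2 y ∧ q.1.2 y ≤ p.1.2 y + 1) ∧
        (∀ y, y ∉ L → q.1.1 y ≠ p.1.1 y → q.1.2 y = p.1.2 y + 1) ∧
        ∀ x ∈ B t, p.1.1 x = x → (∃ y, K.Adj x y) →
          (x ∈ O → ∃ κ, e.S κ x ≠ x ∧ p.1.2 (e.S κ x) * δ κ x ≤ c) →
          ∃ y, K.Adj x y ∧ q.1.2 y = p.1.2 y + 1 := by
    rintro t ⟨⟨s, k⟩, hp⟩
    obtain ⟨s', k', h1, h2, h3, h4⟩ := h_BID U K m e ν C L O δ c hl hd hL hO hOL hb
      (B t) (hB t) (hBL t) (hBd t) s k hp
    exact ⟨⟨(s', k'), h1⟩, h2, h3, h4⟩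
  choose F hF using h
  have h0 : Auc e ν L O δ c (fun x : U => x) (fun _ => 0) :=
    ⟨measurable_id, measurable_const, fun _ => rfl, fun _ h => absurd rfl h,
      fun _ _ _ => rfl, ae_of_all ν fun _ _ _ _ _ h => absurd rfl h,
      ae_of_all ν fun _ _ _ _ h => absurd rfl h⟩
  let q : ℕ → {p : (U → U) × (U → ℕ) // Auc e ν L O δ c p.1 p.2} := fun t =>
    Nat.rec ⟨(fun x : U => x, fun _ => 0), h0⟩ (fun t p => F t p) t
  exact ⟨fun t => (q t).1.1, fun t => (q t).1.2, ⟨fun t => (q t).2, fun _ => rfl,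
    fun t => (hF t (q t)).1, fun t => (hF t (q t)).2.1, fun t => (hF t (q t)).2.2⟩⟩

/-- what holds at almost every point -/
def Pt (K : SimpleGraph U) (L O : Set U) (θ : ℝ≥0∞) (k : ℕ → U → ℕ) (z : U) : Prop :=
  (z ∉ L → ld K O θ z < 1 → z ∈ Fi k) ∧
  (z ∈ L → z ∉ O → (∃ y, K.Adj z y ∧ y ∈ Fi k) → ∀ y, K.Adj z y → y ∈ Fi k) ∧
  (z ∈ O → ∀ y, K.Adj z y → y ∈ Fi k)

lemma Run.ae_Pt [IsFiniteMeasure ν] (h : Run e ν L O δ c B s k) (h_BND : tBND.{u})
    (hl : Lab e) (hd : Den e ν C δ) (hC : C ≠ ⊤) (hL : MeasurableSet L) (hO : MeasurableSet O)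
    (hOL : O ⊆ L) (hb : ∀ x y, K.Adj x y → (x ∈ L ↔ y ∉ L)) (hc : c ≠ ⊤) (hθ0 : θ ≠ 0)
    (hθ : θ ≤ 1) (hld : ∀ᵐ y ∂ν, y ∉ L → ld K O θ y ≤ 1) : ∀ᵐ z ∂ν, Pt K L O θ k z := by
  have hbd := fun t => h_BND U K m e ν C L O δ c θ hl hd hC hL hO hOL hb hc hθ hld (s t) (k t)
    (h.auc t) ⟨t, fun y => h.le t y⟩
  have hM : ν univ + c * ν univ ≠ ⊤ := ENNReal.add_ne_top.2
    ⟨measure_ne_top ν _, ENNReal.mul_ne_top hc (measure_ne_top ν _)⟩
  have hkm : ∀ t, Measurable fun y => (k t y : ℝ≥0∞) := fun t =>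
    (measurable_from_nat (f := fun n : ℕ => (n : ℝ≥0∞))).comp (h.auc t).mk'
  have h1 := fatou (ν := ν) hL.compl (f := fun t y => (1 - ld K O θ y) * k t y)
    (fun t => ((BND_.meas_ld hl hO).const_sub 1).mul (hkm t)) hM fun t => (hbd t).1
  have h2 := fatou (ν := ν) (hL.diff hO) (f := fun t x => Av e δ (k t) x - Mn e δ (k t) x)
    (fun t => (BND_.meas_Av hl hd (h.auc t).mk').sub (BND_.meas_Mn hd (h.auc t).mk')) hM
    fun t => (hbd t).2.1
  have h3 := fatou (ν := ν) hO (f := fun t x => Av e δ (k t) x)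
    (fun t => BND_.meas_Av hl hd (h.auc t).mk') (M := (ν univ + c * ν univ) / θ)
    (ENNReal.div_ne_top hM hθ0) fun t => by
      rw [ENNReal.le_div_iff_mul_le (Or.inl hθ0) (Or.inr hM), mul_comm]
      refine (hbd t).2.2.trans ?_
      gcongr
      exact subset_univ _
  filter_upwards [h1, h2, h3, ae_all_iff.2 hd.up, ae_all_iff.2 hd.lo] with z h1 h2 h3 hup hlo
  refine ⟨fun hzL hz => ?_, fun hzL hzO => ?_, fun hzO => ?_⟩
  · obtain ⟨n, hn⟩ := h1 hzL
    have h4 : 1 - ld K O θ z ≠ 0 := (tsub_pos_of_lt hz).ne'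
    have h5 : (n : ℝ≥0∞) / (1 - ld K O θ z) ≠ ⊤ :=
      ENNReal.div_ne_top (ENNReal.natCast_ne_top n) h4
    refine h.fi_of_freq h5 (hn.mono fun t ht => ?_)
    rw [ENNReal.le_div_iff_mul_le (Or.inl h4) (Or.inr (ENNReal.natCast_ne_top n)), mul_comm]
    exact ht
  · rintro ⟨y0, hy0, n0, hn0⟩
    obtain ⟨κ0, rfl⟩ := hl z y0 hy0
    obtain ⟨n, hn⟩ := h2 ⟨hzL, hzO⟩
    have h4 : (n : ℝ≥0∞) + n0 * C ≠ ⊤ := ENNReal.add_ne_top.2
      ⟨ENNReal.natCast_ne_top n, ENNReal.mul_ne_top (ENNReal.natCast_ne_top n0) hC⟩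
    refine h.fi_all hl hC hup hlo h4 (hn.mono fun t ht => ?_)
    have h5 : Mn e δ (k t) z ≤ n0 * C := by
      classical
      unfold Mn
      refine (iInf_le _ κ0).trans ?_
      rw [if_neg (K.ne_of_adj hy0).symm]
      exact mul_le_mul' (Nat.cast_le.2 (hn0 t)) (hup κ0)
    exact (tsub_le_iff_right.1 ht).trans (by gcongr)
  · obtain ⟨n, hn⟩ := h3 hzO
    exact h.fi_all hl hC hup hlo (ENNReal.natCast_ne_top n) hn

omit [MeasurableSpace U] [StandardBorelSpace U] in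
/-- on a component with a slack vertex all prices are bounded -/
lemma good (hb : ∀ x y, K.Adj x y → (x ∈ L ↔ y ∉ L)) {y z : U} (hyL : y ∉ L)
    (hy : ld K O θ y < 1) (hP : ∀ x, K.Reachable y x → Pt K L O θ k x)
    (hz : K.Reachable y z) : (z ∉ L → z ∈ Fi k) ∧ (z ∈ L → ∀ y', K.Adj z y' → y' ∈ Fi k) := by
  obtain ⟨p⟩ := hz
  have key : ∀ {a b : U} (p : K.Walk a b), K.Reachable y a →
      ((a ∉ L → a ∈ Fi k) ∧ (a ∈ L → ∀ y', K.Adj a y' → y' ∈ Fi k)) →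
      ((b ∉ L → b ∈ Fi k) ∧ (b ∈ L → ∀ y', K.Adj b y' → y' ∈ Fi k)) := by
    intro a b p
    induction p with
    | nil => exact fun _ h => h
    | @cons a a' b hadj p ih =>
      intro hr h
      have hr' : K.Reachable y a' := hr.trans hadj.reachable
      refine ih hr' ?_
      by_cases haL : a ∈ L
      · have h1 : a' ∉ L := (hb a a' hadj).1 haL
        exact ⟨fun _ => h.2 haL a' hadj, fun h2 => absurd h2 h1⟩
      · have h1 : a' ∈ L := by
          by_contra h2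
          exact haL ((hb a a' hadj).2 h2)
        refine ⟨fun h2 => absurd h1 h2, fun _ => ?_⟩
        by_cases hO : a' ∈ O
        · exact (hP a' hr').2.2 hO
        · exact (hP a' hr').2.1 h1 hO ⟨a, hadj.symm, h.1 haL⟩
  exact key p SimpleGraph.Reachable.rfl
    ⟨fun _ => (hP y SimpleGraph.Reachable.rfl).1 hyL hy, fun h => absurd h hyL⟩

end meas

end HALL_

open HALL_

/-- B4 -/
theorem allHALL (h_VCL : tVCL.{u}) (h_DEN : tDEN.{u}) (h_BID : tBID.{u}) (h_BND : tBND.{u}) :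
    tHALL.{u} := by
  classical
  intro U _ _ K m e ν _ C L O θ hl hq hC hL hO hOL hb hθ0 hθ hld hsl
  obtain ⟨δ, hd⟩ := h_DEN U K m e ν C hq hC
  -- the bound for the prices paid by the optional vertices
  obtain ⟨c, hc, hcO⟩ : ∃ c : ℝ≥0∞, c ≠ ⊤ ∧ (ν O ≠ 0 → c * (θ * ν O) = 2 * ν univ) := by
    by_cases h0 : ν O = 0
    · exact ⟨0, ENNReal.zero_ne_top, fun h => absurd h0 h⟩
    · have h1 : θ * ν O ≠ 0 := mul_ne_zero hθ0 h0
      have h2 : θ * ν O ≠ ⊤ := ENNReal.mul_ne_top (ne_top_of_le_ne_top ENNReal.one_ne_top hθ)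
        (measure_ne_top ν _)
      refine ⟨2 * ν univ / (θ * ν O), ENNReal.div_ne_top
        (ENNReal.mul_ne_top (by simp) (measure_ne_top ν _)) h1, fun _ => ?_⟩
      exact ENNReal.div_mul_cancel h1 h2
  -- the order of the bids
  obtain ⟨N, col, hcol, hsep⟩ := h_VCL U K m e
    ((Finset.univ : Finset (Fin m × Fin m)).image fun p => [p.1, p.2])
  set B : ℕ → Set U := fun t => {x | x ∈ L ∧ (col x : ℕ) = t % N} with hBdef
  have hB : ∀ t, MeasurableSet (B t) := fun t => hL.inter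
    (measurableSet_eq_fun ((measurable_from_top (f := fun n : Fin N => (n : ℕ))).comp hcol)
      measurable_const)
  have hBd : ∀ t, ∀ x ∈ B t, ∀ x' ∈ B t, ∀ y, K.Adj x y → K.Adj x' y → x = x' := by
    intro t x hx x' hx' y hxy hxy'
    by_contra hne
    obtain ⟨κ, hκ⟩ := hl x y hxy
    obtain ⟨κ', hκ'⟩ := hl y x' hxy'.symm
    have h1 : wd e [κ, κ'] x = x' := by
      rw [wd_cons, wd_cons, wd_nil, hκ, hκ']
    have h2 := hsep x [κ, κ'] (Finset.mem_image.2 ⟨(κ, κ'), Finset.mem_univ _, rfl⟩)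
      (by rw [h1]; exact fun h => hne h.symm)
    rw [h1] at h2
    exact h2 (Fin.ext (hx'.2.trans hx.2.symm))
  have hturn : ∀ x ∈ L, ∀ T, ∃ t, T ≤ t ∧ x ∈ B t := by
    intro x hx T
    have h0 : 0 < N := (Nat.zero_le _).trans_lt (col x).2
    refine ⟨T * N + col x, ?_, hx, ?_⟩
    · have h1 : T ≤ T * N := Nat.le_mul_of_pos_right T h0
      omega
    · rw [Nat.add_mod, Nat.mul_mod_left, zero_add, Nat.mod_mod, Nat.mod_eq_of_lt (col x).2]
  obtain ⟨s, k, h⟩ := exists_run (c := c) (ν := ν) (B := B) h_BID hl hd hL hO hOL hb hB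
    (fun t x hx => hx.1) hBd
  have hPt := ae_Cq hq e (h.ae_Pt h_BND hl hd hC hL hO hOL hb hc hθ0 hθ hld)
  -- the limit
  set M : PCol K 1 := PCol.lim fun t => pc (h.auc t) with hMdef
  have hMS : ∀ {z : U} {T : ℕ}, (∀ t, T ≤ t → s t z = s T z) → M.S 0 z = s T z :=
    fun {z T} hT => PCol.limS_eq (c := fun t => pc (h.auc t)) (k := 0)
      (eventually_atTop.2 ⟨T, hT⟩)
  -- a left vertex in a component with a slack vertex
  have hleft : ∀ᵐ x ∂ν, x ∈ L → (∃ y, y ∉ L ∧ K.Reachable x y ∧ ld K O θ y < 1) →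
      M.S 0 x = x → x ∈ O ∧ ∃ T, ∀ t, T ≤ t → s t x = x ∧ c ≤ Av e δ (k t) x := by
    filter_upwards [hPt] with x hx hxL
    rintro ⟨y, hyL, hxy, hy⟩ hfree
    have hP : ∀ z, K.Reachable y z → Pt K L O θ k z := fun z hz =>
      hx z ((Cm_iff_reachable hl).2 (hxy.trans hz))
    have hgood := (good hb hyL hy hP hxy.symm).2 hxL
    obtain ⟨T, hT⟩ := h.const_nb hl hgood
    have hs := fun t ht => h.const_left hb hxL hT t ht
    have hsT : s T x = x := by rw [← hMS hs]; exact hfree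
    have hn : ∃ y, K.Adj x y := by
      obtain ⟨p⟩ := hxy
      cases p with
      | nil => exact absurd hxL hyL
      | cons hadj _ => exact ⟨_, hadj⟩
    obtain ⟨t0, ht0, hxB⟩ := hturn x hxL T
    have h1 := h.no_bid hT ht0 hxB (by rw [hs t0 ht0, hsT]) hn
    refine ⟨h1.1, t0, fun t ht => ⟨by rw [hs t (ht0.trans ht), hsT], ?_⟩⟩
    obtain ⟨y1, hy1⟩ := hn
    refine le_Av hl hy1 fun κ hκ => (h1.2 κ hκ).le.trans ?_
    gcongr
    exact h.mono ht _
  refine ⟨M, ?_, ?_⟩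
  · filter_upwards [hleft] with x hx hxL hxO hy hfree
    exact hxO (hx hxL hy hfree).1
  · intro hO0 hcov
    have hfree : ∀ᵐ x ∂ν, x ∈ O → M.S 0 x = x := by
      have h1 := measure_eq_zero_iff_ae_notMem.1 hcov
      filter_upwards [h1] with x hx hxO
      by_contra h2
      exact hx ⟨hxO, h2⟩
    set G : ℕ → Set U := fun T =>
      {x | x ∈ O ∧ ∀ t, T ≤ t → s t x = x ∧ c ≤ Av e δ (k t) x} with hG
    have hGm : ∀ T, MeasurableSet (G T) := by
      intro T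
      have h1 : G T = O ∩ ⋂ t, {x | T ≤ t → s t x = x ∧ c ≤ Av e δ (k t) x} := by
        ext x
        simp [hG]
      rw [h1]
      refine hO.inter (MeasurableSet.iInter fun t => ?_)
      by_cases ht : T ≤ t
      · simp only [ht, true_imp_iff]
        exact (measurableSet_eq_fun (h.auc t).ms measurable_id).inter
          (measurableSet_le measurable_const (BND_.meas_Av hl hd (h.auc t).mk'))
      · simp [ht]
    have hGmono : Monotone G := fun T T' hT x hx =>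
      ⟨hx.1, fun t ht => hx.2 t (hT.trans ht)⟩
    have hGO : ∀ T, G T ⊆ O := fun T x hx => hx.1
    have hGU : ν (⋃ T, G T) = ν O := by
      refine le_antisymm (measure_mono (iUnion_subset hGO)) (measure_mono_ae ?_)
      filter_upwards [hleft, hfree, hsl] with x hx hf hs hxO
      have hxL := hOL hxO
      obtain ⟨y, hxy, hy⟩ := hs hxO
      obtain ⟨_, T, hT⟩ := hx hxL ⟨y, (hb x y hxy).1 hxL, hxy.reachable, hy⟩ (hf hxO)
      exact mem_iUnion.2 ⟨T, hxO, hT⟩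
    have ht1 : Tendsto (fun T => ν (G T)) atTop (𝓝 (ν O)) := by
      have := tendsto_measure_iUnion_atTop (μ := ν) hGmono
      rw [hGU] at this
      exact this
    have ht2 : Tendsto (fun T => ν (O \ G T)) atTop (𝓝 0) := by
      have h1 : ∀ T, ν (O \ G T) = ν O - ν (G T) := fun T =>
        measure_sdiff (hGO T) (hGm T).nullMeasurableSet (measure_ne_top ν _)
      have h2 := ENNReal.Tendsto.sub (tendsto_const_nhds (x := ν O)) ht1
        (Or.inl (measure_ne_top ν O))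
      rw [tsub_self] at h2
      exact h2.congr fun T => (h1 T).symm
    have hineq : ∀ T, θ * (c * ν (G T)) ≤ ν univ + c * ν (O \ G T) := by
      intro T
      have h3 := (h_BND U K m e ν C L O δ c θ hl hd hC hL hO hOL hb hc hθ hld (s T) (k T)
        (h.auc T) ⟨T, fun y => h.le T y⟩).2.2
      have h4 : c * ν (G T) ≤ ∫⁻ x in O, Av e δ (k T) x ∂ν := by
        calc c * ν (G T) = ∫⁻ _ in G T, c ∂ν := (setLIntegral_const _ _).symm
          _ ≤ ∫⁻ x in G T, Av e δ (k T) x ∂ν :=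
            setLIntegral_mono' (hGm T) fun x hx => (hx.2 T le_rfl).2
          _ ≤ ∫⁻ x in O, Av e δ (k T) x ∂ν := lintegral_mono_set (hGO T)
      calc θ * (c * ν (G T)) ≤ θ * ∫⁻ x in O, Av e δ (k T) x ∂ν := by gcongr
        _ ≤ ν univ + c * ν {x | x ∈ O ∧ s T x ≠ x} := h3
        _ ≤ ν univ + c * ν (O \ G T) := by
          gcongr
          rintro x ⟨hxO, hx⟩
          exact ⟨hxO, fun hxG => hx (hxG.2 T le_rfl).1⟩
    have hlim1 : Tendsto (fun T => θ * (c * ν (G T))) atTop (𝓝 (θ * (c * ν O))) :=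
      ENNReal.Tendsto.const_mul (ENNReal.Tendsto.const_mul ht1 (Or.inr hc))
        (Or.inr (ne_top_of_le_ne_top ENNReal.one_ne_top hθ))
    have hlim2 : Tendsto (fun T => ν univ + c * ν (O \ G T)) atTop (𝓝 (ν univ + c * 0)) :=
      tendsto_const_nhds.add (ENNReal.Tendsto.const_mul ht2 (Or.inr hc))
    have hfin := le_of_tendsto_of_tendsto' hlim1 hlim2 hineq
    rw [mul_zero, add_zero] at hfin
    have h5 : θ * (c * ν O) = 2 * ν univ := by
      rw [← hcO hO0]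
      ring
    rw [h5, two_mul] at hfin
    have h6 : ν univ ≠ 0 := fun h0 => hO0 (measure_mono_null (subset_univ _) h0)
    have h7 : ν univ < ν univ + ν univ := ENNReal.lt_add_right (measure_ne_top ν _) h6
    exact absurd hfin (not_le.2 h7)

end Pool.Agent.MEQ
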