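import Pool.Agent.MEQ.Targets
import Pool.Agent.MEQ.Base
import Pool.Agent.MEO.DKP
import Pool.Agent.MEO.CNT

set_option autoImplicit false

/-! C1: disjoint infinite alternating walks. -/

namespace Pool.Agent.MEQ

open MeasureTheory Set Filter
open scoped ENNReal
open Pool.Agent.MEC
open Pool.Agent.MEP
open Pool.Agent.MEO

universe u

namespace KGW_

section plain

variable {V : Type u} {G : SimpleGraph V} {l : ℕ}

/-- the uncoloured edges and the edges of colour `g` -/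
def HG (c : PC G l) (g : Fin l) : SimpleGraph V where
  Adj x y := (RG c).Adj x y ∨ (x ≠ y ∧ c.S g x = y)
  symm := ⟨by
    rintro x y (h | ⟨h1, h2⟩)
    · exact Or.inl h.symm
    · exact Or.inr ⟨h1.symm, by rw [← h2, c.invol]⟩⟩
  loopless := ⟨by
    rintro x (h | ⟨h, -⟩)
    · exact h.ne rfl
    · exact h rfl⟩

lemma HG_le (c : PC G l) (g : Fin l) : HG c g ≤ G := by
  rintro x y (h | ⟨h1, h2⟩)
  · exact h.1
  · rw [← h2]
    exact c.adj g x (by rw [h2]; exact h1.symm)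

lemma HG_fix {c : PC G l} {g : Fin l} {x y : V} (h : c.S g x = x) (h' : (HG c g).Adj x y) :
    (RG c).Adj x y := by
  rcases h' with h1 | ⟨h1, h2⟩
  · exact h1
  · exact absurd (h.symm.trans h2) h1

lemma dg_HG_fix {c : PC G l} {g : Fin l} {x : V} (h : c.S g x = x) :
    dg (HG c g) x = dg (RG c) x :=
  dg_congr fun _ => ⟨fun h' => HG_fix h h', Or.inl⟩

lemma dg_HG_le (c : PC G l) (g : Fin l) {x : V} (hf : (G.neighborSet x).Finite) :
    dg (HG c g) x ≤ dg (RG c) x + 1 := by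
  unfold dg
  have h1 : (HG c g).neighborSet x ⊆ insert (c.S g x) ((RG c).neighborSet x) := by
    rintro y (h | ⟨_, h2⟩)
    · exact Or.inr h
    · exact Or.inl h2.symm
  have h2 : (insert (c.S g x) ((RG c).neighborSet x)).Finite :=
    (fin_of_le (RG_le c) hf).insert _
  exact (ncard_le_ncard h1 h2).trans (ncard_insert_le _ _)

lemma dg_HG_move {c : PC G l} {g : Fin l} {x : V} (hf : (G.neighborSet x).Finite)
    (h : c.S g x ≠ x) : dg (HG c g) x = dg (RG c) x + 1 := by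
  unfold dg
  have h1 : (HG c g).neighborSet x = insert (c.S g x) ((RG c).neighborSet x) := by
    ext y
    constructor
    · rintro (h | ⟨_, h2⟩)
      · exact Or.inr h
      · exact Or.inl h2.symm
    · rintro (h1 | h1)
      · exact Or.inr ⟨fun h2 => h (h1.symm.trans h2.symm), h1.symm⟩
      · exact Or.inl h1
  rw [h1]
  exact ncard_insert_of_notMem (fun h' => h'.2 g rfl) (fin_of_le (RG_le c) hf)

/-- the left vertices: optional ones and targets of the colour `g` -/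
def AA (c : PC G l) (g : Fin l) (Δ r : ℕ) (Y0 : Set V) : Set V :=
  Y0 ∪ ({t | t ∈ CNT_.Out G (RG c) Δ l r ∅ true} ∩ {t | c.S g t = t}ᶜ)

/-- the optional left vertices in the double cover -/
def OO (Y0 : Set V) : Set (V × Bool) := {p | p.2 = false ∧ p.1 ∈ Y0}

lemma out_dg {c : PC G l} {Δ r : ℕ} {t : V} (h : t ∈ CNT_.Out G (RG c) Δ l r ∅ true)
    (hr : dg (RG c) t ≤ r) : dg (RG c) t = r := by
  refine le_antisymm hr ?_
  by_contra h1
  exact h 0 (Or.inl (not_le.1 h1))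

/-- all colours are present at points of no `TS n false` -/
lemma out_full {c : PC G l} {Δ r : ℕ} {s : V} (hf : (G.neighborSet s).Finite)
    (h : s ∈ CNT_.Out G (RG c) Δ l r ∅ false) (k : Fin l) : c.S k s ≠ s := by
  intro h1
  exact h 0 ((miss_iff c hf).1 ⟨k, h1⟩)

section load

variable [MeasurableSpace V] {c : PC G l} {g : Fin l} {Δ r : ℕ} {Y0 : Set V}

lemma wt_lt {r : ℕ} (hr : 1 ≤ r) : (4 : ℝ≥0∞)⁻¹ / (r : ℝ≥0∞) < ((r + 1 : ℕ) : ℝ≥0∞)⁻¹ := by
  have h1 : (4 : ℝ≥0∞)⁻¹ / (r : ℝ≥0∞) = ((4 * r : ℕ) : ℝ≥0∞)⁻¹ := by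
    rw [div_eq_mul_inv, Nat.cast_mul, ENNReal.mul_inv (by simp) (by simp)]
    norm_num
  rw [h1, ENNReal.inv_lt_inv]
  exact_mod_cast (by omega : r + 1 < 4 * r)

/-- the weight sent to each neighbour -/
lemma wt (hr : 1 ≤ r) (hfin : ∀ x, (G.neighborSet x).Finite)
    (hY : ∀ u ∈ Y0, c.S g u = u ∧ u ∈ CNT_.Out G (RG c) Δ l r ∅ true) {t : V}
    (ht : t ∈ AA c g Δ r Y0) (hd : dg (RG c) t ≤ r) :
    open Classical in
    (if (t, false) ∈ OO Y0 then (4 : ℝ≥0∞)⁻¹ else 1) /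
      (dg (DK (HG c g) (AA c g Δ r Y0)) (t, false) : ℝ≥0∞) ≤ ((r + 1 : ℕ) : ℝ≥0∞)⁻¹ ∧
    (t ∈ Y0 → (if (t, false) ∈ OO Y0 then (4 : ℝ≥0∞)⁻¹ else 1) /
      (dg (DK (HG c g) (AA c g Δ r Y0)) (t, false) : ℝ≥0∞) < ((r + 1 : ℕ) : ℝ≥0∞)⁻¹) := by
  classical
  rw [DKP_.dg_left ht]
  by_cases hY' : t ∈ Y0
  · have h1 : (t, false) ∈ OO Y0 := ⟨rfl, hY'⟩
    have h2 := wt_lt hr
    rw [if_pos h1, dg_HG_fix (hY t hY').1, out_dg (hY t hY').2 hd]
    exact ⟨h2.le, fun _ => h2⟩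
  · have h1 : (t, false) ∉ OO Y0 := fun h => hY' h.2
    have h2 : t ∈ CNT_.Out G (RG c) Δ l r ∅ true ∧ c.S g t ≠ t := ht.resolve_left hY'
    rw [if_neg h1, dg_HG_move (hfin t) h2.2, out_dg h2.1 hd, one_div]
    exact ⟨le_rfl, fun h => absurd h hY'⟩

/-- the load of a right vertex -/
lemma load (hr : 1 ≤ r) (hfin : ∀ x, (G.neighborSet x).Finite)
    (hY : ∀ u ∈ Y0, c.S g u = u ∧ u ∈ CNT_.Out G (RG c) Δ l r ∅ true) {s : V}
    (hs : dg (RG c) s ≤ r) (hn : ∀ t, G.Adj s t → dg (RG c) t ≤ r) :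
    ld (DK (HG c g) (AA c g Δ r Y0)) (OO Y0) 4⁻¹ (s, true) ≤ 1 ∧
    ((∃ u ∈ Y0, (RG c).Adj s u) →
      ld (DK (HG c g) (AA c g Δ r Y0)) (OO Y0) 4⁻¹ (s, true) < 1) := by
  classical
  set K := DK (HG c g) (AA c g Δ r Y0) with hK
  have hdeg : dg K (s, true) ≤ r + 1 :=
    (DKP_.dg_le_fst (p := (s, true)) (fin_of_le (HG_le c g) (hfin s))).trans
      ((dg_HG_le c g (hfin s)).trans (by omega))
  have hfinK : (K.neighborSet (s, true)).Finite := by
    have h1 : K.neighborSet (s, true) ⊆ (fun y => (y, false)) '' G.neighborSet s := by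
      rintro ⟨y, i⟩ ⟨h1, h2, -, -⟩
      refine ⟨y, HG_le c g h1, Prod.ext rfl ?_⟩
      change true ≠ i at h2
      change false = i
      cases i <;> simp_all
    exact ((hfin s).image _).subset h1
  have hsum : ∑' _ : K.neighborSet (s, true), ((r + 1 : ℕ) : ℝ≥0∞)⁻¹ ≤ 1 := by
    rw [ENNReal.tsum_set_const, ← hfinK.cast_ncard_eq]
    have h2 : (((K.neighborSet (s, true)).ncard : ℕ∞) : ℝ≥0∞) ≤ ((r + 1 : ℕ) : ℝ≥0∞) := by
      rw [ENat.toENNReal_coe]
      exact_mod_cast hdeg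
    calc (((K.neighborSet (s, true)).ncard : ℕ∞) : ℝ≥0∞) * ((r + 1 : ℕ) : ℝ≥0∞)⁻¹
        ≤ ((r + 1 : ℕ) : ℝ≥0∞) * ((r + 1 : ℕ) : ℝ≥0∞)⁻¹ := by gcongr
      _ ≤ 1 := ENNReal.mul_inv_le_one _
  have hmem : ∀ x : K.neighborSet (s, true), (x : V × Bool).2 = false ∧
      (x : V × Bool).1 ∈ AA c g Δ r Y0 ∧ G.Adj s (x : V × Bool).1 := by
    rintro ⟨⟨y, i⟩, h1, h2, h3, h4⟩
    change true ≠ i at h2
    have hi : i = false := by cases i <;> simp_all
    subst hi
    exact ⟨rfl, h4 rfl, HG_le c g h1⟩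
  have hle : ∀ x : K.neighborSet (s, true),
      (if (x : V × Bool) ∈ OO Y0 then (4 : ℝ≥0∞)⁻¹ else 1) / (dg K (x : V × Bool) : ℝ≥0∞) ≤
        ((r + 1 : ℕ) : ℝ≥0∞)⁻¹ ∧ ((x : V × Bool).1 ∈ Y0 →
      (if (x : V × Bool) ∈ OO Y0 then (4 : ℝ≥0∞)⁻¹ else 1) / (dg K (x : V × Bool) : ℝ≥0∞) <
        ((r + 1 : ℕ) : ℝ≥0∞)⁻¹) := by
    intro x
    obtain ⟨h1, h2, h3⟩ := hmem x
    have h4 : (x : V × Bool) = ((x : V × Bool).1, false) := Prod.ext rfl h1
    have h5 := wt (c := c) (g := g) (Δ := Δ) hr hfin hY h2 (hn _ h3)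
    rw [← h4] at h5
    exact h5
  have h1 : ld K (OO Y0) 4⁻¹ (s, true) ≤ 1 :=
    (ENNReal.tsum_le_tsum fun x => (hle x).1).trans hsum
  refine ⟨h1, ?_⟩
  rintro ⟨u, hu, hsu⟩
  have hKu : K.Adj (s, true) (u, false) :=
    ⟨Or.inl hsu, by simp, fun h => by simp at h, fun _ => Or.inl hu⟩
  refine lt_of_lt_of_le ?_ hsum
  refine ENNReal.tsum_lt_tsum (i := ⟨(u, false), hKu⟩) ?_ (fun x => (hle x).1)
    ((hle ⟨(u, false), hKu⟩).2 hu)
  exact ne_top_of_le_ne_top ENNReal.one_ne_top h1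

end load

/-! ### The walk -/

section walk

variable {c : PC G l} {g : Fin l} {Δ r : ℕ} {Y0 : Set V} {M : V × Bool → V × Bool}

lemma M_false (hMa : ∀ p, M p ≠ p → (DK (HG c g) (AA c g Δ r Y0)).Adj p (M p)) {x : V}
    (h : M (x, false) ≠ (x, false)) : M (x, false) = ((M (x, false)).1, true) := by
  have h1 := (hMa _ h).2.1
  refine Prod.ext rfl ?_
  change false ≠ (M (x, false)).2 at h1
  cases h2 : (M (x, false)).2
  · exact absurd h2.symm h1
  · rfl

lemma M_true (hMa : ∀ p, M p ≠ p → (DK (HG c g) (AA c g Δ r Y0)).Adj p (M p)) {x : V}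
    (h : M (x, true) ≠ (x, true)) : M (x, true) = ((M (x, true)).1, false) := by
  have h1 := (hMa _ h).2.1
  refine Prod.ext rfl ?_
  change true ≠ (M (x, true)).2 at h1
  cases h2 : (M (x, true)).2
  · rfl
  · exact absurd h2.symm h1

lemma fh (hM2 : ∀ p, M (M p) = p)
    (hMa : ∀ p, M p ≠ p → (DK (HG c g) (AA c g Δ r Y0)).Adj p (M p)) {x : V}
    (h : (M (x, false)).1 ≠ x) : (M ((M (x, false)).1, true)).1 = x := by
  have h1 : M (x, false) ≠ (x, false) := fun h' => h (by rw [h'])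
  rw [← M_false hMa h1, hM2]

lemma hf (hM2 : ∀ p, M (M p) = p)
    (hMa : ∀ p, M p ≠ p → (DK (HG c g) (AA c g Δ r Y0)).Adj p (M p)) {x : V}
    (h : (M (x, true)).1 ≠ x) : (M ((M (x, true)).1, false)).1 = x := by
  have h1 : M (x, true) ≠ (x, true) := fun h' => h (by rw [h'])
  rw [← M_true hMa h1, hM2]

end walk

end plain

section meas

variable {V : Type u} [MeasurableSpace V]

lemma emb (i : Bool) : MeasurableEmbedding (fun x : V => (x, i)) where
  injective := fun x y h => congrArg Prod.fst h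
  measurable := measurable_id.prodMk measurable_const
  measurableSet_image' := by
    intro s hs
    have : (fun x : V => (x, i)) '' s = s ×ˢ {i} := by
      ext ⟨a, b⟩
      simp only [mem_image, Prod.mk.injEq, mem_prod, mem_singleton_iff]
      constructor
      · rintro ⟨x, hx, rfl, rfl⟩
        exact ⟨hx, rfl⟩
      · rintro ⟨h1, rfl⟩
        exact ⟨a, h1, rfl, rfl⟩
    rw [this]
    exact hs.prod (MeasurableSet.singleton i)

lemma ae_dbl {μ : Measure V} {P : V × Bool → Prop} :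
    (∀ᵐ p ∂dbl μ, P p) ↔ (∀ᵐ x ∂μ, P (x, false)) ∧ ∀ᵐ x ∂μ, P (x, true) := by
  unfold dbl
  rw [ae_add_measure_iff, (emb false).ae_map_iff, (emb true).ae_map_iff]

end meas

end KGW_

open KGW_ in
/-- C1 -/
theorem allKGW (h_HALL : tHALL.{u}) (h_QDB : tQDB.{u}) (h_MES : tMES.{u}) : tKGW.{u} := by
  classical
  intro V _ _ G m e ν _ C Δ l r hl hq hC hPX _ hr c g Y0 hsat hY0m hY0 hν
  obtain ⟨hGm, hMd, hRm, -, -⟩ := h_MES V G m l e c hl
  set R := RG (toPC c) with hRdef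
  have hRG : R ≤ G := RG_le _
  have hfin : ∀ x, (G.neighborSet x).Finite := hl.fin
  have dR : Measurable (dg R) := measurable_to_countable' fun j => (hMd R hRG hRm).1 j
  have dG : Measurable (dg G) := measurable_to_countable' fun j => (hMd G le_rfl hGm).1 j
  set A := AA (toPC c) g Δ r Y0 with hAdef
  set H := HG (toPC c) g with hHdef
  set K := DK H A with hKdef
  have hHG : H ≤ G := HG_le _ _
  have hAm : MeasurableSet A := hY0m.union
    ((CNT_.ms_Out e hl R Δ l r ∅ hRG hRm hGm MeasurableSet.empty dR dG true).inter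
      (measurableSet_eq_fun (c.meas g) measurable_id).compl)
  have hHm : MeasurableSet {p : V × V | H.Adj p.1 p.2} :=
    hRm.union ((measurableSet_eq_fun measurable_fst measurable_snd).compl.inter
      (measurableSet_eq_fun ((c.meas g).comp measurable_fst) measurable_snd))
  have hY : ∀ u ∈ Y0, (toPC c).S g u = u ∧ u ∈ CNT_.Out G (RG (toPC c)) Δ l r ∅ true :=
    fun u hu => ⟨(hY0 u hu).2.1, (hY0 u hu).2.2.2⟩
  obtain ⟨C', hC', hq'⟩ := h_QDB V G m e ν C hl hq hC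
  have hfinm : IsFiniteMeasure (dbl ν) := by
    unfold dbl
    infer_instance
  have hLm : MeasurableSet {p : V × Bool | p.2 = false} :=
    measurable_snd (measurableSet_singleton false)
  have hOm : MeasurableSet (OO Y0) := hLm.inter (measurable_fst hY0m)
  have hgood : ∀ᵐ b ∂ν, ∀ x ∈ Cm e b, dg R x ≤ r := ae_Cq hq e hsat
  obtain ⟨M, hM1, hM2⟩ := h_HALL (V × Bool) K m (DKP_.eK H A e hHm hAm) (dbl ν) C'
    {p : V × Bool | p.2 = false} (OO Y0) 4⁻¹ (DKP_.lab_eK hl hHG hHm hAm)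
    (hq' K fun p q h => Or.inr (hHG h.1)) hC' hLm hOm (fun p hp => hp.1) (by
      rintro ⟨x, i⟩ ⟨y, j⟩ ⟨-, h2, -, -⟩
      change i ≠ j at h2
      cases i <;> cases j <;> simp_all) (by simp) (by
      rw [ENNReal.inv_le_one]
      norm_num) (by
      refine ae_dbl.2 ⟨Eventually.of_forall fun x h => absurd rfl h, ?_⟩
      filter_upwards [hgood] with s hs _
      exact (load hr hfin hY (hs s (Cm_self e s))
        fun t ht => hs t (Cm_adj hl (Cm_self e s) ht)).1) (by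
      refine ae_dbl.2 ⟨?_, Eventually.of_forall fun x h => absurd h.1 (by simp)⟩
      filter_upwards [hgood] with u hu hO
      have hu0 : u ∈ Y0 := hO.2
      have h1 : 0 < dg R u := by
        rw [(hY0 u hu0).2.2.1]
        exact hr
      obtain ⟨s, hs⟩ := (dg_pos_iff (fin_of_le hRG (hfin u))).1 h1
      have hsC : s ∈ Cm e u := Cm_adj hl (Cm_self e u) (hRG hs)
      refine ⟨(s, true), ⟨Or.inl hs, by simp, fun _ => Or.inl hu0, fun h => by simp at h⟩, ?_⟩
      exact (load hr hfin hY (hu s hsC) fun t ht => hu t (Cm_adj hl hsC ht)).2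
        ⟨u, hu0, hs.symm⟩)
  have hMa : ∀ p, M.S 0 p ≠ p → K.Adj p (M.S 0 p) := M.adj 0
  have hMi : ∀ p, M.S 0 (M.S 0 p) = p := M.invol 0
  have hMf : ∀ x, (M.S 0 (x, false)).1 ≠ x → (M.S 0 ((M.S 0 (x, false)).1, true)).1 = x :=
    fun x hx => fh (c := toPC c) (g := g) (Δ := Δ) (r := r) (Y0 := Y0) hMi hMa hx
  -- the covered optional vertices
  have hOν : dbl ν (OO Y0) ≠ 0 := by
    rw [DKP_.dbl_apply hOm]
    intro h
    have h1 : {x : V | (x, false) ∈ OO Y0} = Y0 := by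
      ext x
      exact ⟨fun h => h.2, fun h => ⟨rfl, h⟩⟩
    rw [h1] at h
    exact hν (add_eq_zero.1 h).1
  have hcov := hM2 hOν
  have hcm : MeasurableSet {x : V × Bool | x ∈ OO Y0 ∧ M.S 0 x ≠ x} :=
    hOm.inter (measurableSet_eq_fun (M.meas 0) measurable_id).compl
  set Y1 : Set V := {x | x ∈ Y0 ∧ M.S 0 (x, false) ≠ (x, false)} with hY1
  have hY1m : MeasurableSet Y1 :=
    hY0m.inter (measurableSet_eq_fun ((M.meas 0).comp (DKP_.meas_mk false))
      (DKP_.meas_mk false)).compl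
  have hY1ν : ν Y1 ≠ 0 := by
    rw [DKP_.dbl_apply hcm] at hcov
    intro h
    apply hcov
    have h1 : {x : V | (x, false) ∈ {x : V × Bool | x ∈ OO Y0 ∧ M.S 0 x ≠ x}} ⊆ Y1 :=
      fun x h => ⟨h.1.2, h.2⟩
    have h2 : {x : V | (x, true) ∈ {x : V × Bool | x ∈ OO Y0 ∧ M.S 0 x ≠ x}} = ∅ := by
      ext x
      simp only [mem_empty_iff_false, iff_false]
      exact fun h => absurd h.1.1 (by simp)
    rw [measure_mono_null h1 h, h2, measure_empty, add_zero]
  -- the good points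
  have hall : ∀ᵐ b ∂ν, ∀ x ∈ Cm e b, dg R x ≤ r ∧ ((x, false) ∉ OO Y0 →
      (∃ y : V × Bool, y.2 ≠ false ∧ K.Reachable (x, false) y ∧ ld K (OO Y0) 4⁻¹ y < 1) →
      M.S 0 (x, false) ≠ (x, false)) := by
    refine ae_Cq hq e (hsat.and ?_)
    filter_upwards [(ae_dbl.1 hM1).1] with x hx h1 h2
    exact hx rfl h1 h2
  set N := toMeasurable ν {b | ¬ ∀ x ∈ Cm e b, dg R x ≤ r ∧ ((x, false) ∉ OO Y0 →
      (∃ y : V × Bool, y.2 ≠ false ∧ K.Reachable (x, false) y ∧ ld K (OO Y0) 4⁻¹ y < 1) →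
      M.S 0 (x, false) ≠ (x, false))} with hN
  have hNν : ν N = 0 := by
    rw [hN, measure_toMeasurable]
    exact hall
  have hNg : ∀ b ∉ N, ∀ x ∈ Cm e b, dg R x ≤ r ∧ ((x, false) ∉ OO Y0 →
      (∃ y : V × Bool, y.2 ≠ false ∧ K.Reachable (x, false) y ∧ ld K (OO Y0) 4⁻¹ y < 1) →
      M.S 0 (x, false) ≠ (x, false)) := by
    intro b hb
    by_contra h
    exact hb (subset_toMeasurable ν _ h)
  refine ⟨Y1 \ N, fun x hx => hx.1.1, hY1m.diff (measurableSet_toMeasurable _ _), ?_,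
    fun x => (M.S 0 (x, false)).1, fun y => (M.S 0 (y, true)).1,
    measurable_fst.comp ((M.meas 0).comp (DKP_.meas_mk false)),
    measurable_fst.comp ((M.meas 0).comp (DKP_.meas_mk true)), hMf,
    fun y hy => hf (c := toPC c) (g := g) (Δ := Δ) (r := r) (Y0 := Y0) hMi hMa hy, ?_⟩
  · rw [measure_sdiff_null hNν]
    exact hY1ν
  rintro u ⟨⟨hu0, hu1⟩, huN⟩
  have hg := hNg u huN
  set f : V → V := fun x => (M.S 0 (x, false)).1 with hfdef
  set t : ℕ → V := fun n => (fun x => c.S g (f x))^[n] u with ht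
  have hts : ∀ n, t (n + 1) = c.S g (f (t n)) := fun n =>
    Function.iterate_succ_apply' _ n u
  -- covered vertices
  have hcv : ∀ x, M.S 0 (x, false) ≠ (x, false) →
      M.S 0 (x, false) = (f x, true) ∧ K.Adj (x, false) (f x, true) := by
    intro x hx
    have h1 := M_false (c := toPC c) (g := g) (Δ := Δ) (r := r) (Y0 := Y0) hMa hx
    have h2 := hMa _ hx
    rw [h1] at h2
    exact ⟨h1, h2⟩
  have hinv : ∀ n, t n ∈ Cm e u ∧ t n ∈ CNT_.Out G R Δ l r ∅ true ∧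
      R.Adj (t n) (f (t n)) ∧ M.S 0 (t n, false) ≠ (t n, false) ∧
      K.Reachable (t n, false) (f u, true) := by
    intro n
    induction n with
    | zero =>
      have h1 := hcv u hu1
      have h2 : R.Adj u (f u) := HG_fix (hY u hu0).1 h1.2.1
      exact ⟨Cm_self e u, (hY u hu0).2, h2, hu1, h1.2.reachable⟩
    | succ n ih =>
      obtain ⟨h1, h2, h3, h4, h5⟩ := ih
      have hsS : f (t n) ∈ CNT_.Out G R Δ l r ∅ false := CNT_.ex_adj h2 h3
      have hsC : f (t n) ∈ Cm e u := Cm_adj hl h1 (hRG h3)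
      have hne : c.S g (f (t n)) ≠ f (t n) := out_full (c := toPC c) (hfin _) hsS g
      have hGa : G.Adj (f (t n)) (t (n + 1)) := by
        rw [hts]
        exact c.adj g _ hne
      have hnR : ¬ R.Adj (f (t n)) (t (n + 1)) := by
        rw [hts]
        exact fun h => h.2 g rfl
      have hT : t (n + 1) ∈ CNT_.Out G R Δ l r ∅ true := CNT_.de_adj hsS hGa hnR
      have hgt : c.S g (t (n + 1)) = f (t n) := by
        rw [hts]
        exact c.invol g _
      have hgne : c.S g (t (n + 1)) ≠ t (n + 1) := by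
        rw [hgt]
        exact hGa.ne
      have hA : t (n + 1) ∈ A := Or.inr ⟨hT, hgne⟩
      have hC1 : t (n + 1) ∈ Cm e u := Cm_adj hl hsC hGa
      have hK1 : K.Adj (t (n + 1), false) (f (t n), true) :=
        ⟨Or.inr ⟨hGa.ne.symm, hgt⟩, by simp, fun _ => hA, fun h => by simp at h⟩
      have hreach : K.Reachable (t (n + 1), false) (f u, true) :=
        hK1.reachable.trans ((hcv _ h4).2.symm.reachable.trans h5)
      have hcov1 : M.S 0 (t (n + 1), false) ≠ (t (n + 1), false) := by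
        refine (hg _ hC1).2 (fun h => hgne (hY _ h.2).1) ⟨(f u, true), by simp, hreach, ?_⟩
        have h6 : R.Adj u (f u) := HG_fix (hY u hu0).1 (hcv u hu1).2.1
        have h7 : f u ∈ Cm e u := Cm_adj hl (Cm_self e u) (hRG h6)
        exact (load hr hfin hY (hg _ h7).1 fun x hx => (hg x (Cm_adj hl h7 hx)).1).2
          ⟨u, hu0, h6.symm⟩
      refine ⟨hC1, hT, ?_, hcov1, hreach⟩
      rcases (hcv _ hcov1).2.1 with h6 | ⟨h6, h7⟩
      · exact h6
      · exfalso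
        have h8 : f (t n) = f (t (n + 1)) := hgt.symm.trans h7
        have h9 : t n = t (n + 1) := by
          have e1 := hMf (t n) h3.ne.symm
          have e2 := hMf (t (n + 1)) h6.symm
          change (M.S 0 (f (t n), true)).1 = t n at e1
          change (M.S 0 (f (t (n + 1)), true)).1 = t (n + 1) at e2
          rw [← e1, ← e2, h8]
        exact hnR (by rw [← h9]; exact h3.symm)
  intro n
  obtain ⟨-, h2, h3, -, -⟩ := hinv n
  have hsS : f (t n) ∈ CNT_.Out G R Δ l r ∅ false := CNT_.ex_adj h2 h3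
  exact ⟨h3, h2, hsS, out_full (c := toPC c) (hfin _) hsS g⟩

end Pool.Agent.MEQ
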