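import Pool.Agent.MEQ.Targets
import Pool.Agent.MEQ.Base

set_option autoImplicit false

/-! First part of A5': the set of right vertices without a finite alternating path is local. -/

namespace Pool.Agent.MEQ

open MeasureTheory Set Filter
open scoped ENNReal
open Pool.Agent.MEC
open Pool.Agent.MEP
open Pool.Agent.MEO

universe u

namespace LO2A_

variable {U : Type u} [MeasurableSpace U] {P K : SimpleGraph U} {m : ℕ} {e : PCol P m}
  {L : Set U}

lemma meas_EL [StandardBorelSpace U] (hl : Lab e) (hKP : K ≤ P)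
    (hK : MeasurableSet {p : U × U | K.Adj p.1 p.2}) (hL : MeasurableSet L) {s : U → U}
    (hs : Measurable s) (n : ℕ) : MeasurableSet (EL K L s n) := by
  have h0 : MeasurableSet {y | s y = y} := measurableSet_eq_fun hs measurable_id
  induction n with
  | zero => exact hL.compl.inter h0
  | succ n ih =>
    have h1 : EL K L s (n + 1) = Lᶜ ∩ ({y | s y = y} ∪
        ⋃ k, ({y | K.Adj (s y) (e.S k (s y))} ∩ (fun y => e.S k (s y)) ⁻¹' EL K L s n)) := by
      ext y
      constructor
      · rintro ⟨hy, h⟩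
        refine ⟨hy, ?_⟩
        rcases h with h | ⟨y', h2, h3⟩
        · exact Or.inl h
        · obtain ⟨k, hk⟩ := hl _ _ (hKP h2)
          refine Or.inr (mem_iUnion.2 ⟨k, ?_, ?_⟩)
          · change K.Adj (s y) (e.S k (s y))
            rw [hk]
            exact h2
          · change e.S k (s y) ∈ EL K L s n
            rw [hk]
            exact h3
      · rintro ⟨hy, h⟩
        refine ⟨hy, ?_⟩
        rcases h with h | h
        · exact Or.inl h
        · obtain ⟨k, h2, h3⟩ := mem_iUnion.1 h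
          exact Or.inr ⟨_, h2, h3⟩
    rw [h1]
    refine hL.compl.inter (h0.union (MeasurableSet.iUnion fun k => ?_))
    have h2 : Measurable fun y => e.S k (s y) := (e.meas k).comp hs
    exact (hK.preimage (hs.prodMk h2)).inter (h2 ih)

lemma wd_cons2 (k k' : Fin m) (w : List (Fin m)) (x : U) :
    wd e (k :: k' :: w) x = wd e w (e.S k' (e.S k x)) := rfl

lemma loc_EL (hl : Lab e) (hKP : K ≤ P) (n : ℕ) (M M' : PCol K 1) (x : U)
    (h : ∀ w : List (Fin m), w.length ≤ 2 * n → ∀ k, M.S k (wd e w x) = M'.S k (wd e w x))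
    (hx : x ∈ EL K L (M.S 0) n) : x ∈ EL K L (M'.S 0) n := by
  induction n generalizing x with
  | zero =>
    have h0 : M.S 0 x = M'.S 0 x := h [] (by simp) 0
    exact ⟨hx.1, by rw [← h0]; exact hx.2⟩
  | succ n ih =>
    have h0 : M.S 0 x = M'.S 0 x := h [] (by simp) 0
    refine ⟨hx.1, ?_⟩
    rcases hx.2 with h1 | ⟨y', h2, h3⟩
    · exact Or.inl (by rw [← h0]; exact h1)
    · by_cases h4 : M.S 0 x = x
      · exact Or.inl (by rw [← h0]; exact h4)
      · obtain ⟨k, hk⟩ := hl _ _ (hKP (M.adj 0 x h4))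
        obtain ⟨k', hk'⟩ := hl _ _ (hKP h2)
        refine Or.inr ⟨y', by rw [← h0]; exact h2, ih y' ?_ h3⟩
        intro w hw j
        have h5 := h (k :: k' :: w) (by simp only [List.length_cons]; omega) j
        rw [wd_cons2, hk, hk'] at h5
        exact h5

end LO2A_

open LO2A_ in
theorem allLO2A : ∀ (U : Type u) [MeasurableSpace U] [StandardBorelSpace U]
    (P K : SimpleGraph U) (m : ℕ) (e : PCol P m) (L : Set U), Lab e → K ≤ P →
    MeasurableSet {p : U × U | K.Adj p.1 p.2} → MeasurableSet L →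
    Loc e (fun M : PCol K 1 => NF K L (M.S 0)) := by
  intro U _ _ P K m e L hl hKP hK hL
  refine ⟨fun n M => {y | y ∉ L ∧ y ∉ EL K L (M.S 0) n}, ?_, ?_, ?_⟩
  · intro n M
    exact hL.compl.inter (meas_EL hl hKP hK hL (M.meas 0) n).compl
  · intro M
    ext y
    rw [mem_iInter]
    constructor
    · rintro ⟨h1, h2⟩ n
      exact ⟨h1, h2 n⟩
    · intro h
      exact ⟨(h 0).1, fun n => (h n).2⟩
  · intro n
    refine ⟨2 * n, fun M M' x h => ?_⟩
    constructor
    · rintro ⟨h1, h2⟩
      exact ⟨h1, fun h3 => h2 (loc_EL hl hKP n M' M x (fun w hw k => (h w hw k).symm) h3)⟩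
    · rintro ⟨h1, h2⟩
      exact ⟨h1, fun h3 => h2 (loc_EL hl hKP n M M' x h h3)⟩

end Pool.Agent.MEQ
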