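import Pool.Agent.MEQ.Targets
import Pool.Agent.MEQ.Base
import Pool.Agent.MEP.Walk

set_option autoImplicit false

/-! A5, A5', parts 1 and 2: bad strands and infinite strands are local. -/

namespace Pool.Agent.MEQ

open MeasureTheory Set Filter
open scoped ENNReal
open Pool.Agent.MEC
open Pool.Agent.MEP
open Pool.Agent.MEO

universe u

namespace LOCA_

section

variable {V : Type u}

/-- the `N`-th condition in the definition of `Inf` -/
def InfN (s t : V → V) (N : ℕ) : Set V := {x | (NS s t N x ∨ NS t s N x) ∧ x ∈ Long s t N}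

lemma Inf_eq (s t : V → V) : Inf s t = ⋂ N : ℕ, InfN s t N := by
  ext x
  simp [Inf, InfN]

lemma Bad_eq (s t : V → V) : Bad s t = ⋂ N : ℕ, Clean s t N := by
  ext x
  simp [Bad]

variable {s t s' t' : V → V} {x : V} {N : ℕ}

lemma NS_iff (h : ∀ n, n ≤ 2 * N → al s' t' n x = al s t n x) :
    NS s t N x ↔ NS s' t' N x := by
  refine forall_congr' fun n => ?_
  refine imp_congr_right fun hn => ?_
  rw [h n (by omega), h (n + 1) (by omega)]

lemma Long_iff (h : ∀ n, n ≤ 2 * N → al s' t' n x = al s t n x) :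
    x ∈ Long s t N ↔ x ∈ Long s' t' N := by
  refine forall_congr' fun p => ?_
  refine imp_congr_right fun _ => imp_congr_right fun hp => ?_
  rw [h (2 * p) (by omega)]

lemma Clean_iff (h : ∀ n, n ≤ 2 * N → al s' t' n x = al s t n x)
    (h' : ∀ n, n ≤ 2 * N → al t' s' n x = al t s n x) :
    x ∈ Clean s t N ↔ x ∈ Clean s' t' N :=
  and_congr (and_congr (NS_iff h) (NS_iff h')) (Long_iff h)

lemma InfN_iff (h : ∀ n, n ≤ 2 * N → al s' t' n x = al s t n x)
    (h' : ∀ n, n ≤ 2 * N → al t' s' n x = al t s n x) :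
    x ∈ InfN s t N ↔ x ∈ InfN s' t' N :=
  and_congr (or_congr (NS_iff h) (NS_iff h')) (Long_iff h)

end

section words

variable {V : Type u} [MeasurableSpace V] {G : SimpleGraph V} {m : ℕ} {e : PCol G m}

/-- walks along edges are given by words -/
lemma al_word (hl : Lab e) (n : ℕ) : ∀ (s t : V → V) (_ : ∀ x, s x ≠ x → G.Adj x (s x))
    (_ : ∀ x, t x ≠ x → G.Adj x (t x)) (x : V),
    ∃ w : List (Fin m), w.length ≤ n ∧ wd e w x = al s t n x := by
  induction n with
  | zero => exact fun s t _ _ x => ⟨[], le_rfl, rfl⟩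
  | succ n ih =>
    intro s t hs ht x
    obtain ⟨w, hw, h⟩ := ih t s ht hs (s x)
    by_cases hx : s x = x
    · refine ⟨w, hw.trans (Nat.le_succ n), ?_⟩
      rw [al_succ, ← h, hx]
    · obtain ⟨k, hk⟩ := hl x (s x) (hs x hx)
      refine ⟨k :: w, Nat.succ_le_succ hw, ?_⟩
      rw [wd_cons, hk, h, al_succ]

/-- the walks agree if the functions agree near the point -/
lemma al_agree (hl : Lab e) {s t s' t' : V → V} (hs : ∀ x, s x ≠ x → G.Adj x (s x))
    (ht : ∀ x, t x ≠ x → G.Adj x (t x)) {x : V} {L : ℕ}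
    (h : ∀ w : List (Fin m), w.length ≤ L →
      s' (wd e w x) = s (wd e w x) ∧ t' (wd e w x) = t (wd e w x)) {n : ℕ} (hn : n ≤ L) :
    al s' t' n x = al s t n x := by
  refine al_congr n x fun j hj => ?_
  obtain ⟨w, hw, hw'⟩ := al_word hl j s t hs ht x
  rw [← hw']
  exact h w (by omega)

variable [StandardBorelSpace V]

lemma loc_Bad {K : SimpleGraph V} {l : ℕ} (hl : Lab e) (S T : PCol K l → V → V)
    (mS : ∀ c, Measurable (S c)) (mT : ∀ c, Measurable (T c))
    (aS : ∀ c x, S c x ≠ x → G.Adj x (S c x)) (aT : ∀ c x, T c x ≠ x → G.Adj x (T c x))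
    (hS : ∀ c c' x, (∀ k, c.S k x = c'.S k x) → S c' x = S c x)
    (hT : ∀ c c' x, (∀ k, c.S k x = c'.S k x) → T c' x = T c x) :
    Loc e (fun c : PCol K l => Bad (S c) (T c)) := by
  refine ⟨fun N c => Clean (S c) (T c) N, fun N c => measurableSet_Clean (mS c) (mT c) N,
    fun c => Bad_eq _ _, fun N => ⟨2 * N, fun c c' x h => ?_⟩⟩
  refine Clean_iff (fun n hn => ?_) (fun n hn => ?_)
  · exact al_agree hl (aS c) (aT c) (fun w hw => ⟨hS c c' _ (h w hw), hT c c' _ (h w hw)⟩) hn
  · exact al_agree hl (aT c) (aS c) (fun w hw => ⟨hT c c' _ (h w hw), hS c c' _ (h w hw)⟩) hn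

lemma loc_Inf {K : SimpleGraph V} {l : ℕ} (hl : Lab e) (S T : PCol K l → V → V)
    (mS : ∀ c, Measurable (S c)) (mT : ∀ c, Measurable (T c))
    (aS : ∀ c x, S c x ≠ x → G.Adj x (S c x)) (aT : ∀ c x, T c x ≠ x → G.Adj x (T c x))
    (hS : ∀ c c' x, (∀ k, c.S k x = c'.S k x) → S c' x = S c x)
    (hT : ∀ c c' x, (∀ k, c.S k x = c'.S k x) → T c' x = T c x) :
    Loc e (fun c : PCol K l => Inf (S c) (T c)) := by
  refine ⟨fun N c => InfN (S c) (T c) N, fun N c => ?_, fun c => Inf_eq _ _,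
    fun N => ⟨2 * N, fun c c' x h => ?_⟩⟩
  · exact ((measurableSet_NS (mS c) (mT c) N).union (measurableSet_NS (mT c) (mS c) N)).inter
      (measurableSet_Long (mS c) (mT c) N)
  refine InfN_iff (fun n hn => ?_) (fun n hn => ?_)
  · exact al_agree hl (aS c) (aT c) (fun w hw => ⟨hS c c' _ (h w hw), hT c c' _ (h w hw)⟩) hn
  · exact al_agree hl (aT c) (aS c) (fun w hw => ⟨hT c c' _ (h w hw), hS c c' _ (h w hw)⟩) hn

end words

end LOCA_

open LOCA_

/-- A5, the first two parts -/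
theorem allLOCA : ∀ (V : Type u) [MeasurableSpace V] [StandardBorelSpace V]
    (G : SimpleGraph V) (m l : ℕ) (e : PCol G m), Lab e →
    (∀ g h : Fin l, Loc e (fun c : PCol G l => Bad (c.S g) (c.S h))) ∧
    (∀ g h : Fin l, Loc e (fun c : PCol G l => Inf (c.S g) (c.S h))) := by
  intro V _ _ G m l e hl
  refine ⟨fun g h => ?_, fun g h => ?_⟩
  · exact loc_Bad hl (fun c => c.S g) (fun c => c.S h) (fun c => c.meas g) (fun c => c.meas h)
      (fun c => c.adj g) (fun c => c.adj h) (fun c c' x hx => (hx g).symm)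
      (fun c c' x hx => (hx h).symm)
  · exact loc_Inf hl (fun c => c.S g) (fun c => c.S h) (fun c => c.meas g) (fun c => c.meas h)
      (fun c => c.adj g) (fun c => c.adj h) (fun c c' x hx => (hx g).symm)
      (fun c c' x hx => (hx h).symm)

/-- A5', the second part -/
theorem allLO2B : ∀ (U : Type u) [MeasurableSpace U] [StandardBorelSpace U]
    (P K : SimpleGraph U) (m : ℕ) (e : PCol P m) (L : Set U) (t : U → U), Lab e → K ≤ P →
    MeasurableSet {p : U × U | K.Adj p.1 p.2} → MeasurableSet L → Measurable t →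
    (∀ x, t (t x) = x) → (∀ x, t x ≠ x → P.Adj x (t x)) →
    Loc e (fun M : PCol K 1 => Bad (M.S 0) t) := by
  intro U _ _ P K m e L t hl hKP _ _ ht _ hta
  exact loc_Bad hl (fun M => M.S 0) (fun _ => t) (fun M => M.meas 0) (fun _ => ht)
    (fun M x hx => hKP (M.adj 0 x hx)) (fun _ => hta) (fun M M' x hx => (hx 0).symm)
    (fun M M' x _ => rfl)

end Pool.Agent.MEQ
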