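import Pool.Agent.MEQ.Targets
import Pool.Agent.MEQ.Base
import Pool.Agent.MEO.UXX
import Pool.Agent.MEO.MES

set_option autoImplicit false

/-! A5, parts 3 and 4: bad components, and bad components without completable exchanges,
are local. -/

namespace Pool.Agent.MEQ

open MeasureTheory Set Filter
open scoped ENNReal
open Pool.Agent.MEC
open Pool.Agent.MEP
open Pool.Agent.MEO

universe u

namespace LOCB_

open Pool.Agent.MEO.UXX_

section plain

variable {V : Type u} {G : SimpleGraph V}

/-- the `N`-th condition in the definition of `X1` -/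
def YN (G R : SimpleGraph V) (Δ l r N : ℕ) : Set V :=
  {x | x ∈ XN R r N ∧ ∀ y ∈ Bl R N x, dg G y < Δ → y ∉ TS G R Δ l r ∅ N true}

lemma X1_eq {R : SimpleGraph V} (hf : ∀ x, (R.neighborSet x).Finite) (Δ l r : ℕ) :
    X1 G R Δ l r = ⋂ N, YN G R Δ l r N := by
  ext x
  rw [mem_iInter]
  constructor
  · rintro ⟨h1, h2⟩ N
    rw [XX_eq hf r, mem_iInter] at h1
    exact ⟨h1 N, fun y hy hd => h2 y (Bl_reach hy) hd N⟩
  · intro h
    refine ⟨?_, fun y hy hd n hn => ?_⟩
    · rw [XX_eq hf r, mem_iInter]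
      exact fun N => (h N).1
    · obtain ⟨N, hN⟩ := reach_Bl hy
      exact (h (max N n)).2 y (Bl_mono R (le_max_left N n) x hN) hd
        (TS_mono (le_max_right N n) true hn)

end plain

section words

variable {V : Type u} [MeasurableSpace V] {G : SimpleGraph V} {l m : ℕ} {e : PCol G m}

/-- membership in `TS` depends only on the state near the point -/
lemma loc_TS (hl : Lab e) (Δ r n : ℕ) : ∀ (b : Bool) (c c' : PCol G l) (x : V),
    (∀ w : List (Fin m), w.length ≤ n → ∀ k, c.S k (wd e w x) = c'.S k (wd e w x)) →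
    x ∈ TS G (RG (toPC c)) Δ l r ∅ n b → x ∈ TS G (RG (toPC c')) Δ l r ∅ n b := by
  induction n with
  | zero =>
    intro b c c' x h hx
    have h0 : ∀ k, (toPC c').S k x = (toPC c).S k x := fun k => (h [] le_rfl k).symm
    have h1 : dg (RG (toPC c')) x = dg (RG (toPC c)) x := dg_RG_congr h0
    cases b with
    | true =>
      rcases hx with hx | ⟨hx, -⟩
      · exact Or.inl (by rw [h1]; exact hx)
      · exact absurd hx (notMem_empty x)
    | false =>
      change dg G x < dg (RG (toPC c')) x + l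
      rw [h1]
      exact hx
  | succ n ih =>
    intro b c c' x h hx
    have h0 : ∀ k, (toPC c').S k x = (toPC c).S k x := fun k => (h [] (by simp) k).symm
    have hk : ∀ k : Fin m, ∀ w : List (Fin m), w.length ≤ n → ∀ j,
        c.S j (wd e w (e.S k x)) = c'.S j (wd e w (e.S k x)) := fun k w hw j =>
      h (k :: w) (Nat.succ_le_succ hw) j
    have hw : ∀ w : List (Fin m), w.length ≤ n → ∀ k, c.S k (wd e w x) = c'.S k (wd e w x) :=
      fun w hw => h w (hw.trans (Nat.le_succ n))
    cases b with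
    | true =>
      rcases hx with hx | ⟨s, hs, hxs⟩
      · exact Or.inl (ih true c c' x hw hx)
      · obtain ⟨k, rfl⟩ := hl _ _ hxs.1
        exact Or.inr ⟨_, ih false c c' _ (hk k) hs, (RG_congr h0 _).2 hxs⟩
    | false =>
      rcases hx with hx | ⟨t, ht, hxt, hnt⟩
      · exact Or.inl (ih false c c' x hw hx)
      · obtain ⟨k, rfl⟩ := hl _ _ hxt
        exact Or.inr ⟨_, ih true c c' _ (hk k) ht, hxt, fun h' => hnt ((RG_congr h0 _).1 h')⟩

lemma loc_XN (hl : Lab e) (r N : ℕ) (c c' : PCol G l) (x : V)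
    (h : ∀ w : List (Fin m), w.length ≤ N → ∀ k, c.S k (wd e w x) = c'.S k (wd e w x))
    (hx : x ∈ XN (RG (toPC c)) r N) : x ∈ XN (RG (toPC c')) r N := by
  refine XN_congr (c := toPC c') (cb := toPC c) (fun y hy k => ?_) hx
  obtain ⟨w, hw, rfl⟩ := Bl_word hl (RG_le _) hy
  exact h w hw k

lemma loc_YN (hl : Lab e) (Δ r N : ℕ) (c c' : PCol G l) (x : V)
    (h : ∀ w : List (Fin m), w.length ≤ 2 * N → ∀ k, c.S k (wd e w x) = c'.S k (wd e w x))
    (hx : x ∈ YN G (RG (toPC c)) Δ l r N) : x ∈ YN G (RG (toPC c')) Δ l r N := by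
  refine ⟨loc_XN hl r N c c' x (fun w hw => h w (by omega)) hx.1, fun y hy hd ht => ?_⟩
  obtain ⟨w, hw, rfl⟩ := Bl_word hl (RG_le _) hy
  have h1 : Bl (RG (toPC c)) N x = Bl (RG (toPC c')) N x := by
    refine Bl_congr (c := toPC c') (cb := toPC c) (N := N) (fun y hy k => ?_) N (by omega)
    obtain ⟨w', hw', rfl⟩ := Bl_word hl (RG_le _) hy
    exact h w' (by omega) k
  rw [← h1] at hy
  refine hx.2 _ hy hd (loc_TS hl Δ r N true c' c _ (fun w' hw' k => ?_) ht)
  have h2 := h (w ++ w') (by rw [List.length_append]; omega) k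
  rw [wd_append] at h2
  exact h2.symm

variable [StandardBorelSpace V]

lemma measurable_dg (hl : Lab e) {R : SimpleGraph V} (hR : R ≤ G)
    (hm : MeasurableSet {p : V × V | R.Adj p.1 p.2}) : Measurable (dg R) :=
  measurable_to_countable' fun j => MES_.meas_dg hl hR hm j

lemma meas_TS (hl : Lab e) {R : SimpleGraph V} (hR : R ≤ G)
    (hm : MeasurableSet {p : V × V | R.Adj p.1 p.2}) (Δ r n : ℕ) :
    ∀ b : Bool, MeasurableSet (TS G R Δ l r ∅ n b) := by
  have hG := MES_.meas_G hl
  have hdR := measurable_dg hl hR hm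
  have hdG := measurable_dg hl le_rfl hG
  have hRk : ∀ k, MeasurableSet {x | R.Adj x (e.S k x)} := fun k =>
    (measurable_id.prodMk (e.meas k)) hm
  have hGk : ∀ k, MeasurableSet {x | G.Adj x (e.S k x)} := fun k =>
    (measurable_id.prodMk (e.meas k)) hG
  induction n with
  | zero =>
    intro b
    cases b with
    | true =>
      have h1 : TS G R Δ l r ∅ 0 true = {t | dg R t < r} := by
        ext t
        constructor
        · rintro (h | ⟨h, -⟩)
          · exact h
          · exact absurd h (notMem_empty t)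
        · exact fun h => Or.inl h
      rw [h1]
      exact measurableSet_lt hdR measurable_const
    | false => exact measurableSet_lt hdG (hdR.add_const l)
  | succ n ih =>
    intro b
    cases b with
    | true =>
      have h1 : TS G R Δ l r ∅ (n + 1) true = TS G R Δ l r ∅ n true ∪
          ⋃ k, ({x | R.Adj x (e.S k x)} ∩ e.S k ⁻¹' TS G R Δ l r ∅ n false) := by
        ext x
        constructor
        · rintro (h | ⟨s, hs, hxs⟩)
          · exact Or.inl h
          · obtain ⟨k, rfl⟩ := hl _ _ (hR hxs)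
            exact Or.inr (mem_iUnion.2 ⟨k, hxs, hs⟩)
        · rintro (h | h)
          · exact Or.inl h
          · obtain ⟨k, h2, h3⟩ := mem_iUnion.1 h
            exact Or.inr ⟨_, h3, h2⟩
      rw [h1]
      exact (ih true).union (MeasurableSet.iUnion fun k => (hRk k).inter (e.meas k (ih false)))
    | false =>
      have h1 : TS G R Δ l r ∅ (n + 1) false = TS G R Δ l r ∅ n false ∪
          ⋃ k, (({x | G.Adj x (e.S k x)} ∩ {x | R.Adj x (e.S k x)}ᶜ) ∩
            e.S k ⁻¹' TS G R Δ l r ∅ n true) := by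
        ext x
        constructor
        · rintro (h | ⟨t, ht, hxt, hnt⟩)
          · exact Or.inl h
          · obtain ⟨k, rfl⟩ := hl _ _ hxt
            exact Or.inr (mem_iUnion.2 ⟨k, ⟨hxt, hnt⟩, ht⟩)
        · rintro (h | h)
          · exact Or.inl h
          · obtain ⟨k, ⟨h2, h3⟩, h4⟩ := mem_iUnion.1 h
            exact Or.inr ⟨_, h4, h2, h3⟩
      rw [h1]
      exact (ih false).union (MeasurableSet.iUnion fun k =>
        ((hGk k).inter (hRk k).compl).inter (e.meas k (ih true)))

lemma meas_YN (hl : Lab e) {R : SimpleGraph V} (hR : R ≤ G)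
    (hm : MeasurableSet {p : V × V | R.Adj p.1 p.2}) (Δ r N : ℕ) :
    MeasurableSet (YN G R Δ l r N) := by
  have hT : MeasurableSet {y | dg G y < Δ → y ∉ TS G R Δ l r ∅ N true} := by
    have h1 : {y | dg G y < Δ → y ∉ TS G R Δ l r ∅ N true} =
        {y | dg G y < Δ}ᶜ ∪ (TS G R Δ l r ∅ N true)ᶜ := by
      ext y
      exact imp_iff_not_or
    rw [h1]
    exact (measurableSet_lt (measurable_dg hl le_rfl (MES_.meas_G hl)) measurable_const).compl.union
      (meas_TS hl hR hm Δ r N true).compl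
  have hw : ∀ w : List (Fin m), MeasurableSet {x | wd e w x ∈ Bl R N x} := fun w =>
    (measurable_id.prodMk (wd e w).measurable) (meas_Bl hl hR hm N)
  have h1 : YN G R Δ l r N = XN R r N ∩ ⋂ w : List (Fin m), ({x | wd e w x ∈ Bl R N x}ᶜ ∪
      wd e w ⁻¹' {y | dg G y < Δ → y ∉ TS G R Δ l r ∅ N true}) := by
    ext x
    constructor
    · rintro ⟨h1, h2⟩
      refine ⟨h1, mem_iInter.2 fun w => ?_⟩
      by_cases hx : wd e w x ∈ Bl R N x
      · exact Or.inr (h2 _ hx)
      · exact Or.inl hx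
    · rintro ⟨h1, h2⟩
      refine ⟨h1, fun y hy => ?_⟩
      obtain ⟨w, -, rfl⟩ := Bl_word hl hR hy
      rcases mem_iInter.1 h2 w with h | h
      · exact absurd hy h
      · exact h
  rw [h1]
  exact (meas_XN hl hR hm (fun j => MES_.meas_dg hl hR hm j) r N).inter
    (MeasurableSet.iInter fun w => (hw w).compl.union ((wd e w).measurable hT))

end words

end LOCB_

open LOCB_ UXX_ in
/-- A5, the last two parts -/
theorem allLOCB : ∀ (V : Type u) [MeasurableSpace V] [StandardBorelSpace V]
    (G : SimpleGraph V) (m l : ℕ) (e : PCol G m), Lab e →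
    (∀ r : ℕ, Loc e (fun c : PCol G l => XX (RG (toPC c)) r)) ∧
    ∀ Δ r : ℕ, Loc e (fun c : PCol G l => X1 G (RG (toPC c)) Δ l r) := by
  intro V _ _ G m l e hl
  have hf : ∀ (c : PCol G l) (x : V), ((RG (toPC c)).neighborSet x).Finite := fun c x =>
    fin_of_le (RG_le _) (Lab.fin hl x)
  refine ⟨fun r => ?_, fun Δ r => ?_⟩
  · refine ⟨fun N c => XN (RG (toPC c)) r N, fun N c => ?_, fun c => XX_eq (hf c) r,
      fun N => ⟨N, fun c c' x h => ?_⟩⟩
    · exact meas_XN hl (RG_le _) (MES_.meas_RG hl c)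
        (fun j => MES_.meas_dg hl (RG_le _) (MES_.meas_RG hl c) j) r N
    · exact ⟨loc_XN hl r N c c' x h, loc_XN hl r N c' c x fun w hw k => (h w hw k).symm⟩
  · refine ⟨fun N c => YN G (RG (toPC c)) Δ l r N, fun N c => ?_, fun c => X1_eq (hf c) Δ l r,
      fun N => ⟨2 * N, fun c c' x h => ?_⟩⟩
    · exact meas_YN hl (RG_le _) (MES_.meas_RG hl c) Δ r N
    · exact ⟨loc_YN hl Δ r N c c' x h, loc_YN hl Δ r N c' c x fun w hw k => (h w hw k).symm⟩

end Pool.Agent.MEQ
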