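import Pool.Agent.MEQ.Targets
import Pool.Agent.MEQ.Base
import Mathlib.Combinatorics.SimpleGraph.Hall

set_option autoImplicit false

/-! MP_fff3e1_lc, B9: matchings covering the vertices of degree `r`, without measurability.
Proof of `tMPT`: two copies of the graph, the two copies of a vertex of degree less than `r` are
joined; this graph is regular with multiplicities, and has a perfect matching. -/

namespace Pool.Agent.MEQ

open MeasureTheory Set Filter
open scoped ENNReal
open Pool.Agent.MEC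
open Pool.Agent.MEP
open Pool.Agent.MEO

universe u

namespace MPT_

variable {V : Type u}

/-- two copies of `R`, the copies of a vertex of degree less than `r` are joined -/
def KK (R : SimpleGraph V) (r : ℕ) : SimpleGraph (V × Bool) where
  Adj p q := (p.2 = q.2 ∧ R.Adj p.1 q.1) ∨ (p.1 = q.1 ∧ p.2 ≠ q.2 ∧ dg R p.1 < r)
  symm := ⟨by
    rintro p q (⟨h1, h2⟩ | ⟨h1, h2, h3⟩)
    · exact Or.inl ⟨h1.symm, h2.symm⟩
    · exact Or.inr ⟨h1.symm, h2.symm, h1 ▸ h3⟩⟩
  loopless := ⟨by
    rintro p (⟨-, h⟩ | ⟨-, h, -⟩)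
    · exact h.ne rfl
    · exact h rfl⟩

open Classical in
/-- the multiplicities of the edges -/
noncomputable def mm (R : SimpleGraph V) (r : ℕ) (p q : V × Bool) : ℕ :=
  (if p.2 = q.2 ∧ R.Adj p.1 q.1 then 1 else 0) +
    (if p.1 = q.1 ∧ p.2 ≠ q.2 then r - dg R p.1 else 0)

variable {R : SimpleGraph V} {r : ℕ}

lemma mm_symm (p q : V × Bool) : mm R r p q = mm R r q p := by
  classical
  unfold mm
  congr 1
  · refine if_congr ?_ rfl rfl
    exact ⟨fun h => ⟨h.1.symm, h.2.symm⟩, fun h => ⟨h.1.symm, h.2.symm⟩⟩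
  · by_cases h : p.1 = q.1 ∧ p.2 ≠ q.2
    · rw [if_pos h, if_pos ⟨h.1.symm, h.2.symm⟩, h.1]
    · rw [if_neg h, if_neg fun h' => h ⟨h'.1.symm, h'.2.symm⟩]

open Classical in
/-- the part inside the copy -/
lemma part1_le (hf : ∀ x, (R.neighborSet x).Finite) (p : V × Bool) (T : Finset (V × Bool)) :
    (T.filter fun q : V × Bool => p.2 = q.2 ∧ R.Adj p.1 q.1).card ≤ dg R p.1 := by
  classical
  have h1 : ((T.filter fun q : V × Bool => p.2 = q.2 ∧ R.Adj p.1 q.1 :
      Finset (V × Bool)) : Set (V × Bool)) ⊆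
      (fun y => (y, p.2)) '' R.neighborSet p.1 := by
    intro q hq
    simp only [Finset.coe_filter, mem_ofPred_eq] at hq
    exact ⟨q.1, hq.2.2, by rw [hq.2.1]⟩
  rw [← Set.ncard_coe_finset]
  refine (ncard_le_ncard h1 ((hf p.1).image _)).trans ?_
  exact ncard_image_le (hf p.1)

open Classical in
lemma part1_eq (p : V × Bool) (T : Finset (V × Bool))
    (hT : ∀ q, (KK R r).Adj p q → q ∈ T) :
    (T.filter fun q : V × Bool => p.2 = q.2 ∧ R.Adj p.1 q.1).card = dg R p.1 := by
  classical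
  have h1 : ((T.filter fun q : V × Bool => p.2 = q.2 ∧ R.Adj p.1 q.1 :
      Finset (V × Bool)) : Set (V × Bool)) =
      (fun y => (y, p.2)) '' R.neighborSet p.1 := by
    ext q
    simp only [Finset.coe_filter, mem_ofPred_eq]
    constructor
    · intro hq
      exact ⟨q.1, hq.2.2, by rw [hq.2.1]⟩
    · rintro ⟨y, hy, rfl⟩
      exact ⟨hT _ (Or.inl ⟨rfl, hy⟩), rfl, hy⟩
  rw [← Set.ncard_coe_finset, h1]
  refine ncard_image_of_injective _ ?_
  intro a b hab
  exact (Prod.mk.inj hab).1

open Classical in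
/-- the part between the copies -/
lemma part2 (p : V × Bool) (T : Finset (V × Bool)) :
    (∑ q ∈ T, if p.1 = q.1 ∧ p.2 ≠ q.2 then r - dg R p.1 else 0) =
      if (p.1, !p.2) ∈ T then r - dg R p.1 else 0 := by
  have h1 : ∀ q : V × Bool, (p.1 = q.1 ∧ p.2 ≠ q.2) ↔ (p.1, !p.2) = q := by
    rintro ⟨a, b⟩
    obtain ⟨c, d⟩ := p
    simp only [Prod.mk.injEq]
    cases b <;> cases d <;> simp
  simp only [h1]
  exact Finset.sum_ite_eq T (p.1, !p.2) fun _ => r - dg R p.1

lemma sum_le (hf : ∀ x, (R.neighborSet x).Finite) (hd : ∀ x, dg R x ≤ r) (p : V × Bool)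
    (T : Finset (V × Bool)) : ∑ q ∈ T, mm R r p q ≤ r := by
  classical
  unfold mm
  rw [Finset.sum_add_distrib, part2, Finset.sum_boole]
  have h1 := part1_le hf p T
  have h2 := hd p.1
  simp only [Nat.cast_id]
  split_ifs <;> omega

lemma sum_eq (hd : ∀ x, dg R x ≤ r) (p : V × Bool)
    (T : Finset (V × Bool)) (hT : ∀ q, (KK R r).Adj p q → q ∈ T) :
    ∑ q ∈ T, mm R r p q = r := by
  classical
  unfold mm
  rw [Finset.sum_add_distrib, part2, Finset.sum_boole]
  have h1 := part1_eq p T hT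
  have h2 := hd p.1
  simp only [Nat.cast_id]
  by_cases h3 : (p.1, !p.2) ∈ T
  · rw [if_pos h3]
    omega
  · rw [if_neg h3]
    have h4 : ¬ dg R p.1 < r := by
      intro h5
      exact h3 (hT _ (Or.inr ⟨rfl, by cases p.2 <;> simp, h5⟩))
    omega

lemma nbr_fin (hf : ∀ x, (R.neighborSet x).Finite) (p : V × Bool) :
    ((KK R r).neighborSet p).Finite := by
  refine (((hf p.1).image fun y => (y, p.2)).union (finite_singleton (p.1, !p.2))).subset ?_
  rintro ⟨y, b⟩ (⟨h1, h2⟩ | ⟨h1, h2, -⟩)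
  · exact Or.inl ⟨y, h2, by simp [h1]⟩
  · right
    obtain ⟨a, d⟩ := p
    simp only [mem_singleton_iff, Prod.mk.injEq] at h1 h2 ⊢
    refine ⟨h1.symm, ?_⟩
    cases b <;> cases d <;> simp_all

/-- Hall's condition -/
lemma hall (hf : ∀ x, (R.neighborSet x).Finite) (hd : ∀ x, dg R x ≤ r) (hr : 1 ≤ r)
    (s : Set (V × Bool)) : s.ncard ≤ (⋃ x ∈ s, (KK R r).neighborSet x).ncard := by
  classical
  rcases s.finite_or_infinite with hs | hs
  swap
  · rw [hs.ncard]
    exact Nat.zero_le _
  have hN : (⋃ x ∈ s, (KK R r).neighborSet x).Finite := hs.biUnion fun x _ => nbr_fin hf x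
  obtain ⟨S, hS⟩ := hs.exists_finset_coe
  obtain ⟨T, hT⟩ := hN.exists_finset_coe
  rw [← hT, ← hS, Set.ncard_coe_finset, Set.ncard_coe_finset]
  have h1 : ∑ p ∈ S, ∑ q ∈ T, mm R r p q = S.card * r := by
    rw [Finset.sum_congr rfl fun p hp => sum_eq hd p T ?_, Finset.sum_const, smul_eq_mul]
    intro q hq
    have : q ∈ (T : Set (V × Bool)) := by
      rw [hT]
      have hp' : p ∈ s := by rw [← hS]; exact hp
      exact mem_biUnion hp' hq
    exact this
  have h2 : ∑ p ∈ S, ∑ q ∈ T, mm R r p q ≤ T.card * r := by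
    rw [Finset.sum_comm]
    have h3 : ∀ q ∈ T, ∑ p ∈ S, mm R r p q ≤ r := by
      intro q _
      rw [Finset.sum_congr rfl fun p _ => mm_symm (R := R) (r := r) p q]
      exact sum_le hf hd q S
    refine (Finset.sum_le_sum h3).trans ?_
    rw [Finset.sum_const, smul_eq_mul]
  have h4 : S.card * r ≤ T.card * r := h1 ▸ h2
  exact Nat.le_of_mul_le_mul_right h4 hr

end MPT_

open MPT_

theorem allMPT : tMPT.{u} := by
  classical
  intro V R r χ hf hd hr hχ
  have : (KK R r).LocallyFinite := fun p => (nbr_fin hf p).fintype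
  have hbip : (KK R r).IsBipartiteWith {p | xor (χ p.1) p.2 = true}
      {p | xor (χ p.1) p.2 = false} := by
    constructor
    · rw [Set.disjoint_left]
      intro p h1 h2
      simp only [mem_ofPred_eq] at h1 h2
      rw [h1] at h2
      exact absurd h2 (by simp)
    · rintro ⟨a, b⟩ ⟨c, d⟩ (⟨h1, h2⟩ | ⟨h1, h2, -⟩)
      · have h3 := hχ a c h2
        simp only at h1
        subst h1
        simp only [mem_ofPred_eq]
        cases hb : b <;> cases ha : χ a <;> cases hc : χ c <;> simp_all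
      · simp only at h1 h2
        subst h1
        simp only [mem_ofPred_eq]
        cases hb : b <;> cases hdd : d <;> cases ha : χ a <;> simp_all
  obtain ⟨M, hM⟩ := SimpleGraph.exists_isPerfectMatching_of_forall_ncard_le hbip (hall hf hd hr)
  rw [SimpleGraph.Subgraph.isPerfectMatching_iff] at hM
  choose t ht1 ht2 using hM
  simp only at ht1 ht2
  have ht3 : ∀ p, t (t p) = p := fun p => (ht2 (t p) p (ht1 p).symm).symm
  have ht4 : ∀ p, (KK R r).Adj p (t p) := fun p => (ht1 p).adj_sub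
  obtain ⟨f, hf0, hf1⟩ : ∃ f : V → V, (∀ x, (t (x, false)).2 = false → f x = (t (x, false)).1) ∧
      ∀ x, (t (x, false)).2 ≠ false → f x = x := by
    refine ⟨fun x => if (t (x, false)).2 = false then (t (x, false)).1 else x, ?_, ?_⟩
    · intro x h
      exact if_pos h
    · intro x h
      exact if_neg h
  refine ⟨f, ?_, ?_, ?_⟩
  · intro x
    by_cases h : (t (x, false)).2 = false
    · have h1 : (f x, false) = t (x, false) := Prod.ext (hf0 x h) h.symm
      have h2 : t (f x, false) = (x, false) := by rw [h1, ht3]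
      rw [hf0 (f x) (by rw [h2]), h2]
    · rw [hf1 x h, hf1 x h]
  · intro x hx
    by_cases h : (t (x, false)).2 = false
    · rw [hf0 x h]
      rcases ht4 (x, false) with ⟨-, h2⟩ | ⟨-, h2, -⟩
      · exact h2
      · exact absurd h.symm h2
    · exact absurd (hf1 x h) hx
  · intro x hx
    by_cases h : (t (x, false)).2 = false
    · rw [hf0 x h]
      rcases ht4 (x, false) with ⟨-, h2⟩ | ⟨-, h2, -⟩
      · exact h2.ne'
      · exact absurd h.symm h2
    · exfalso
      rcases ht4 (x, false) with ⟨h2, -⟩ | ⟨-, -, h2⟩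
      · exact h h2.symm
      · exact absurd hx h2.ne

end Pool.Agent.MEQ
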