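import Pool.Agent.MEQ.Targets
import Pool.Agent.MEQ.Base
import Pool.Agent.MEO.MAT

set_option autoImplicit false

/-! MP_fff3e1_lc, B8: from the injection to a matching.  Proof of `tMTQ`. -/

namespace Pool.Agent.MEQ

open MeasureTheory Set Filter
open scoped ENNReal
open Pool.Agent.MEC
open Pool.Agent.MEP
open Pool.Agent.MEO

universe u

namespace MTQ_

variable {V : Type u}

/-- bijections between subsets, along the edges of `R` -/
structure PB (R : SimpleGraph V) (f g : V → V) : Prop where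
  f1 : ∀ x, f x ≠ x → R.Adj x (f x) ∧ g (f x) = x
  g1 : ∀ y, g y ≠ y → R.Adj (g y) y ∧ f (g y) = y

/-- the orbit has a starting point or is periodic -/
def StP (g : V → V) (x : V) : Prop :=
  (∃ n, g (g^[n] x) = g^[n] x) ∨ ∃ p, 1 ≤ p ∧ g^[p] x = x

/-- the orbit has an end -/
def En (f : V → V) (x : V) : Prop := ∃ n, f (f^[n] x) = f^[n] x

/-- bi-infinite orbits -/
def Bi (f g : V → V) (x : V) : Prop := ¬ StP g x ∧ ¬ En f x

/-- a point of `T` is reached going back -/
def HT (g : V → V) (T : Set V) (x : V) : Prop := ∃ n, g^[n] x ∈ T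

/-- points at which the orbit keeps its direction -/
def Po (f g : V → V) (T : Set V) (x : V) : Prop := StP g x ∨ (¬ En f x ∧ HT g T x)

variable {R : SimpleGraph V} {f g : V → V} {T : Set V}

lemma stp_f (h : PB R f g) {x : V} (hx : f x ≠ x) : StP g (f x) ↔ StP g x := by
  have hgf : g (f x) = x := (h.f1 x hx).2
  constructor
  · rintro (⟨n, hn⟩ | ⟨p, hp1, hp⟩)
    · rcases n with _ | n
      · simp only [Function.iterate_zero, id_eq] at hn
        rw [hgf] at hn
        exact absurd hn.symm hx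
      · rw [Function.iterate_succ_apply, hgf] at hn
        exact Or.inl ⟨n, hn⟩
    · obtain ⟨q, rfl⟩ : ∃ q, p = q + 1 := ⟨p - 1, by omega⟩
      rw [Function.iterate_succ_apply, hgf] at hp
      refine Or.inr ⟨q + 1, hp1, ?_⟩
      rw [Function.iterate_succ_apply', hp, hgf]
  · rintro (⟨n, hn⟩ | ⟨p, hp1, hp⟩)
    · refine Or.inl ⟨n + 1, ?_⟩
      rw [Function.iterate_succ_apply, hgf]
      exact hn
    · obtain ⟨q, rfl⟩ : ∃ q, p = q + 1 := ⟨p - 1, by omega⟩
      by_cases hg : g (g^[q] x) = g^[q] x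
      · have h2 : g (g^[q] x) = x := by
          rw [← Function.iterate_succ_apply' g q x]
          exact hp
        have h1 : g^[q] x = x := hg.symm.trans h2
        refine Or.inl ⟨1, ?_⟩
        rw [h1] at hg
        simp only [Function.iterate_one]
        rw [hgf]
        exact hg
      · have h1 := (h.g1 _ hg).2
        rw [← Function.iterate_succ_apply' g q x, hp] at h1
        refine Or.inr ⟨q + 1, hp1, ?_⟩
        rw [h1, ← Function.iterate_add_apply, add_comm, Function.iterate_add_apply, hp]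

lemma en_f {x : V} (hx : f x ≠ x) : En f (f x) ↔ En f x := by
  constructor
  · rintro ⟨n, hn⟩
    exact ⟨n + 1, by rw [Function.iterate_succ_apply]; exact hn⟩
  · rintro ⟨n, hn⟩
    rcases n with _ | n
    · exact absurd hn hx
    · exact ⟨n, by rw [Function.iterate_succ_apply] at hn; exact hn⟩

lemma bi_f (h : PB R f g) {x : V} (hx : f x ≠ x) : Bi f g (f x) ↔ Bi f g x := by
  unfold Bi
  rw [stp_f h hx, en_f hx]

lemma f_ne (h : PB R f g) {y : V} (hy : g y ≠ y) : f (g y) ≠ g y := by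
  rw [(h.g1 y hy).2]
  exact hy.symm

lemma stp_g (h : PB R f g) {y : V} (hy : g y ≠ y) : StP g (g y) ↔ StP g y := by
  have h1 := stp_f h (f_ne h hy)
  rw [(h.g1 y hy).2] at h1
  exact h1.symm

lemma en_g (h : PB R f g) {y : V} (hy : g y ≠ y) : En f (g y) ↔ En f y := by
  have h1 := en_f (f_ne h hy)
  rw [(h.g1 y hy).2] at h1
  exact h1.symm

lemma bi_g (h : PB R f g) {y : V} (hy : g y ≠ y) : Bi f g (g y) ↔ Bi f g y := by
  unfold Bi
  rw [stp_g h hy, en_g h hy]

lemma bi_f_ne {x : V} (hx : Bi f g x) : f x ≠ x := fun h1 => hx.2 ⟨0, h1⟩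

lemma bi_g_ne {x : V} (hx : Bi f g x) : g x ≠ x := fun h1 => hx.1 (Or.inl ⟨0, h1⟩)

lemma ht_f (h : PB R f g) {x : V} (hx : f x ≠ x) : HT g T (f x) ↔ f x ∈ T ∨ HT g T x := by
  have hgf : g (f x) = x := (h.f1 x hx).2
  constructor
  · rintro ⟨n, hn⟩
    rcases n with _ | n
    · exact Or.inl hn
    · rw [Function.iterate_succ_apply, hgf] at hn
      exact Or.inr ⟨n, hn⟩
  · rintro (h1 | ⟨n, hn⟩)
    · exact ⟨0, h1⟩
    · exact ⟨n + 1, by rw [Function.iterate_succ_apply, hgf]; exact hn⟩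

lemma po_f (h : PB R f g) {x : V} (hx : f x ≠ x) (hp : Po f g T x) : Po f g T (f x) := by
  rcases hp with h1 | ⟨h1, h2⟩
  · exact Or.inl ((stp_f h hx).2 h1)
  · exact Or.inr ⟨fun h3 => h1 ((en_f hx).1 h3), (ht_f h hx).2 (Or.inr h2)⟩

lemma po_f' (h : PB R f g) {x : V} (hx : f x ≠ x) (hp : Po f g T (f x)) :
    Po f g T x ∨ (Bi f g x ∧ f x ∈ T) := by
  by_cases hs : StP g x
  · exact Or.inl (Or.inl hs)
  rcases hp with h1 | ⟨h1, h2⟩
  · exact absurd ((stp_f h hx).1 h1) hs
  · have h3 : ¬ En f x := fun h3 => h1 ((en_f hx).2 h3)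
    rcases (ht_f h hx).1 h2 with h4 | h4
    · exact Or.inr ⟨⟨hs, h3⟩, h4⟩
    · exact Or.inl (Or.inr ⟨h3, h4⟩)

lemma reach_f (x : V) : (FG f).Reachable x (f x) := by
  by_cases hx : f x = x
  · rw [hx]
  · exact SimpleGraph.Adj.reachable ⟨fun h1 => hx h1.symm, Or.inl rfl⟩

lemma reach_g (h : PB R f g) (n : ℕ) (x : V) : (FG f).Reachable x (g^[n] x) := by
  induction n generalizing x with
  | zero => exact SimpleGraph.Reachable.refl _
  | succ n ih =>
    rw [Function.iterate_succ_apply]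
    refine SimpleGraph.Reachable.trans ?_ (ih (g x))
    by_cases hx : g x = x
    · rw [hx]
    · exact SimpleGraph.Adj.reachable ⟨fun h1 => hx h1.symm, Or.inr (h.g1 x hx).2.symm⟩

lemma reach (h : PB R f g) {x y : V} (hxy : (FG f).Reachable x y) :
    ∃ n, y = f^[n] x ∨ y = g^[n] x := by
  obtain ⟨p⟩ := hxy
  induction p with
  | nil => exact ⟨0, Or.inl rfl⟩
  | @cons x z y hadj _ ih =>
    obtain ⟨n, hn⟩ := ih
    obtain ⟨hne, h1 | h1⟩ := hadj
    · have hx : f x ≠ x := by rw [← h1]; exact hne.symm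
      have hgf : g (f x) = x := (h.f1 x hx).2
      subst h1
      rcases hn with rfl | rfl
      · exact ⟨n + 1, Or.inl (by rw [Function.iterate_succ_apply])⟩
      · rcases n with _ | n
        · exact ⟨1, Or.inl rfl⟩
        · exact ⟨n, Or.inr (by rw [Function.iterate_succ_apply, hgf])⟩
    · have hz : f z ≠ z := by rw [← h1]; exact hne
      have hgf : g (f z) = z := (h.f1 z hz).2
      rw [← h1] at hgf
      rcases hn with rfl | rfl
      · rcases n with _ | n
        · exact ⟨1, Or.inr hgf.symm⟩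
        · exact ⟨n, Or.inl (by rw [Function.iterate_succ_apply, ← h1])⟩
      · exact ⟨n + 1, Or.inr (by rw [Function.iterate_succ_apply, hgf])⟩

open Classical in
/-- the new injection -/
noncomputable def F' (f g : V → V) (T : Set V) (x : V) : V :=
  if Po f g T x then f x else g x

open Classical in
/-- its inverse -/
noncomputable def G' (f g : V → V) (T : Set V) (x : V) : V :=
  if Po f g T x then (if Bi f g x ∧ x ∈ T then x else g x)
  else (if Bi f g x ∧ f x ∈ T then x else f x)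

lemma F'_pos {x : V} (h : Po f g T x) : F' f g T x = f x := if_pos h

lemma F'_neg {x : V} (h : ¬ Po f g T x) : F' f g T x = g x := if_neg h

lemma G'_pos {x : V} (h : Po f g T x) (h2 : ¬ (Bi f g x ∧ x ∈ T)) : G' f g T x = g x := by
  unfold G'
  rw [if_pos h, if_neg h2]

lemma G'_pos' {x : V} (h : Po f g T x) (h2 : Bi f g x ∧ x ∈ T) : G' f g T x = x := by
  unfold G'
  rw [if_pos h, if_pos h2]

lemma G'_neg {x : V} (h : ¬ Po f g T x) (h2 : ¬ (Bi f g x ∧ f x ∈ T)) :
    G' f g T x = f x := by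
  unfold G'
  rw [if_neg h, if_neg h2]

lemma G'_neg' {x : V} (h : ¬ Po f g T x) (h2 : Bi f g x ∧ f x ∈ T) : G' f g T x = x := by
  unfold G'
  rw [if_neg h, if_pos h2]

lemma pb' (h : PB R f g) (hT : PT (FG f) T) : PB R (F' f g T) (G' f g T) := by
  constructor
  · intro x hx
    by_cases hp : Po f g T x
    · rw [F'_pos hp] at hx ⊢
      have hgf : g (f x) = x := (h.f1 x hx).2
      refine ⟨(h.f1 x hx).1, ?_⟩
      rw [G'_pos (po_f h hx hp), hgf]
      rintro ⟨hb, ht⟩
      have hb' := (bi_f h hx).1 hb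
      rcases hp with h1 | ⟨h1, n, hn⟩
      · exact hb'.1 h1
      · have h2 := hT _ ht _ hn ((reach_f x).symm.trans (reach_g h n x))
        refine hb'.1 (Or.inr ⟨n + 1, by omega, ?_⟩)
        rw [Function.iterate_succ_apply', ← h2, hgf]
    · rw [F'_neg hp] at hx ⊢
      refine ⟨(h.g1 x hx).1.symm, ?_⟩
      have hfg := (h.g1 x hx).2
      have hnp : ¬ Po f g T (g x) := by
        intro h1
        have h2 := po_f h (f_ne h hx) h1
        rw [hfg] at h2
        exact hp h2
      rw [G'_neg hnp, hfg]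
      rintro ⟨hb, ht⟩
      rw [hfg] at ht
      have hb' := (bi_g h hx).1 hb
      exact hp (Or.inr ⟨hb'.2, 0, ht⟩)
  · intro y hy
    by_cases hp : Po f g T y
    · by_cases h2 : Bi f g y ∧ y ∈ T
      · exact absurd (G'_pos' hp h2) hy
      rw [G'_pos hp h2] at hy ⊢
      have hfg := (h.g1 y hy).2
      refine ⟨(h.g1 y hy).1, ?_⟩
      have hp' : Po f g T (g y) := by
        have h3 := f_ne h hy
        rcases po_f' h h3 (by rw [hfg]; exact hp) with h4 | ⟨h4, h5⟩
        · exact h4
        · rw [hfg] at h5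
          exact absurd ⟨(bi_g h hy).1 h4, h5⟩ h2
      rw [F'_pos hp', hfg]
    · by_cases h2 : Bi f g y ∧ f y ∈ T
      · exact absurd (G'_neg' hp h2) hy
      rw [G'_neg hp h2] at hy ⊢
      have hgf : g (f y) = y := (h.f1 y hy).2
      refine ⟨(h.f1 y hy).1.symm, ?_⟩
      have hp' : ¬ Po f g T (f y) := by
        intro h3
        rcases po_f' h hy h3 with h4 | h4
        · exact hp h4
        · exact h2 h4
      rw [F'_neg hp', hgf]

/-! ### the new orbits have a starting point or are periodic -/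

lemma G'_stp {x : V} (h : StP g x) : G' f g T x = g x :=
  G'_pos (Or.inl h) fun h2 => h2.1.1 h

lemma G'_en {x : V} (h : ¬ StP g x) (h' : En f x) : G' f g T x = f x := by
  refine G'_neg ?_ fun h2 => h2.1.2 h'
  rintro (h1 | h1)
  · exact h h1
  · exact h1.1 h'

lemma good_stp (h : PB R f g) {x : V} (hx : StP g x) : StP (G' f g T) x := by
  have h1 : ∀ n, (G' f g T)^[n] x = g^[n] x ∧ StP g (g^[n] x) := by
    intro n
    induction n with
    | zero => exact ⟨rfl, hx⟩
    | succ n ih =>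
      rw [Function.iterate_succ_apply', Function.iterate_succ_apply', ih.1]
      refine ⟨G'_stp ih.2, ?_⟩
      by_cases hg : g (g^[n] x) = g^[n] x
      · rw [hg]
        exact ih.2
      · exact (stp_g h hg).2 ih.2
  rcases hx with ⟨n, hn⟩ | ⟨p, hp1, hp⟩
  · refine Or.inl ⟨n, ?_⟩
    rw [(h1 n).1, G'_stp (h1 n).2]
    exact hn
  · exact Or.inr ⟨p, hp1, by rw [(h1 p).1]; exact hp⟩

lemma good_en (h : PB R f g) {x : V} (hx : ¬ StP g x) (hx' : En f x) :
    StP (G' f g T) x := by
  have h1 : ∀ n, (G' f g T)^[n] x = f^[n] x ∧ ¬ StP g (f^[n] x) ∧ En f (f^[n] x) := by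
    intro n
    induction n with
    | zero => exact ⟨rfl, hx, hx'⟩
    | succ n ih =>
      rw [Function.iterate_succ_apply', Function.iterate_succ_apply', ih.1]
      refine ⟨G'_en ih.2.1 ih.2.2, ?_⟩
      by_cases hf : f (f^[n] x) = f^[n] x
      · rw [hf]
        exact ih.2
      · exact ⟨fun h2 => ih.2.1 ((stp_f h hf).1 h2), (en_f hf).2 ih.2.2⟩
  obtain ⟨n, hn⟩ := hx'
  refine Or.inl ⟨n, ?_⟩
  rw [(h1 n).1, G'_en (h1 n).2.1 (h1 n).2.2]
  exact hn

lemma good_ht (h : PB R f g) (n : ℕ) : ∀ x, Bi f g x → g^[n] x ∈ T →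
    ∃ m, G' f g T ((G' f g T)^[m] x) = (G' f g T)^[m] x := by
  induction n with
  | zero =>
    intro x hb hx
    exact ⟨0, G'_pos' (Or.inr ⟨hb.2, 0, hx⟩) ⟨hb, hx⟩⟩
  | succ n ih =>
    intro x hb hx
    have hp : Po f g T x := Or.inr ⟨hb.2, n + 1, hx⟩
    by_cases hT : x ∈ T
    · exact ⟨0, G'_pos' hp ⟨hb, hT⟩⟩
    · have h1 : G' f g T x = g x := G'_pos hp fun h2 => hT h2.2
      rw [Function.iterate_succ_apply] at hx
      obtain ⟨m, hm⟩ := ih (g x) ((bi_g h (bi_g_ne hb)).2 hb) hx
      refine ⟨m + 1, ?_⟩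
      rw [Function.iterate_succ_apply, h1]
      exact hm

lemma good_ft (h : PB R f g) (n : ℕ) : ∀ x, Bi f g x → ¬ HT g T x → f^[n] x ∈ T →
    ∃ m, G' f g T ((G' f g T)^[m] x) = (G' f g T)^[m] x := by
  induction n with
  | zero =>
    intro x hb hn hx
    exact absurd ⟨0, hx⟩ hn
  | succ n ih =>
    intro x hb hn hx
    have hp : ¬ Po f g T x := by
      rintro (h1 | h1)
      · exact hb.1 h1
      · exact hn h1.2
    by_cases hT : f x ∈ T
    · exact ⟨0, G'_neg' hp ⟨hb, hT⟩⟩
    · have h1 : G' f g T x = f x := G'_neg hp fun h2 => hT h2.2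
      rw [Function.iterate_succ_apply] at hx
      have hne := bi_f_ne hb
      have h2 : ¬ HT g T (f x) := by
        intro h3
        rcases (ht_f h hne).1 h3 with h4 | h4
        · exact hT h4
        · exact hn h4
      obtain ⟨m, hm⟩ := ih (f x) ((bi_f h hne).2 hb) h2 hx
      refine ⟨m + 1, ?_⟩
      rw [Function.iterate_succ_apply, h1]
      exact hm

lemma good (h : PB R f g) {x : V} (hx : StP g x ∨ En f x ∨ x ∈ sn (FG f) T) :
    StP (G' f g T) x := by
  by_cases h1 : StP g x
  · exact good_stp h h1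
  by_cases h2 : En f x
  · exact good_en h h1 h2
  rcases hx with h3 | h3 | ⟨y, hy, hxy⟩
  · exact absurd h3 h1
  · exact absurd h3 h2
  · by_cases h4 : HT g T x
    · obtain ⟨n, hn⟩ := h4
      exact Or.inl (good_ht h n x ⟨h1, h2⟩ hn)
    · obtain ⟨n, rfl | rfl⟩ := reach h hxy
      · exact Or.inl (good_ft h n x ⟨h1, h2⟩ h4 hy)
      · exact absurd ⟨n, hy⟩ h4

section meas

variable [MeasurableSpace V] [StandardBorelSpace V]

lemma meas_stp (hg : Measurable g) : MeasurableSet {x | StP g x} := by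
  have h1 : {x | StP g x} = (⋃ n : ℕ, {x | g (g^[n] x) = g^[n] x}) ∪
      ⋃ p : ℕ, ⋃ _ : 1 ≤ p, {x | g^[p] x = x} := by
    ext x
    simp [StP]
  rw [h1]
  refine MeasurableSet.union (MeasurableSet.iUnion fun n => ?_)
    (MeasurableSet.iUnion fun p => MeasurableSet.iUnion fun _ => ?_)
  · exact measurableSet_eq_fun (hg.comp (hg.iterate n)) (hg.iterate n)
  · exact measurableSet_eq_fun (hg.iterate p) measurable_id

lemma meas_en (hf : Measurable f) : MeasurableSet {x | En f x} := by
  have h1 : {x | En f x} = ⋃ n : ℕ, {x | f (f^[n] x) = f^[n] x} := by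
    ext x
    simp [En]
  rw [h1]
  exact MeasurableSet.iUnion fun n => measurableSet_eq_fun (hf.comp (hf.iterate n))
    (hf.iterate n)

omit [StandardBorelSpace V] in
lemma meas_ht (hg : Measurable g) (hT : MeasurableSet T) : MeasurableSet {x | HT g T x} := by
  have h1 : {x | HT g T x} = ⋃ n : ℕ, (g^[n]) ⁻¹' T := by
    ext x
    simp [HT]
  rw [h1]
  exact MeasurableSet.iUnion fun n => (hg.iterate n) hT

lemma meas_bi (hf : Measurable f) (hg : Measurable g) : MeasurableSet {x | Bi f g x} :=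
  (meas_stp hg).compl.inter (meas_en hf).compl

lemma meas_po (hf : Measurable f) (hg : Measurable g) (hT : MeasurableSet T) :
    MeasurableSet {x | Po f g T x} :=
  (meas_stp hg).union ((meas_en hf).compl.inter (meas_ht hg hT))

lemma meas_F' (hf : Measurable f) (hg : Measurable g) (hT : MeasurableSet T) :
    Measurable (F' f g T) := by
  classical
  exact Measurable.ite (meas_po hf hg hT) hf hg

lemma meas_G' (hf : Measurable f) (hg : Measurable g) (hT : MeasurableSet T) :
    Measurable (G' f g T) := by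
  classical
  exact Measurable.ite (meas_po hf hg hT)
    (Measurable.ite ((meas_bi hf hg).inter hT) measurable_id hg)
    (Measurable.ite ((meas_bi hf hg).inter (hf hT)) measurable_id hf)

end meas

end MTQ_

open MTQ_ in
theorem allMTQ : tMTQ.{u} := by
  intro V _ _ R χ f g T hχ hf hg hfR hgR hTm hT
  have h : PB R f g := ⟨hfR, hgR⟩
  have h' := pb' h hT
  obtain ⟨s, hs, hs1, hs2, hs3⟩ := MEO.allMAT V R χ (F' f g T) (G' f g T) hχ
    (meas_F' hf hg hTm) (meas_G' hf hg hTm) h'.f1 h'.g1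
  refine ⟨s, hs, hs1, hs2, ?_⟩
  intro x hx hfx
  refine hs3 x ?_ ?_
  · have h1 : StP (G' f g T) x := by
      refine good h ?_
      rcases hx with h2 | h2 | h2 | h2
      · exact Or.inl (Or.inl h2)
      · exact Or.inr (Or.inl h2)
      · exact Or.inl (Or.inr h2)
      · exact Or.inr (Or.inr h2)
    exact h1
  · by_cases hp : Po f g T x
    · rw [F'_pos hp]
      exact hfx
    · rw [F'_neg hp]
      intro h1
      exact hp (Or.inl (Or.inl ⟨0, h1⟩))

end Pool.Agent.MEQ
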