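import Pool.Agent.MEQ.Targets
import Pool.Agent.MEQ.Base
import Pool.Agent.MEQ.LO2A
import Pool.Agent.MEO.DKP

set_option autoImplicit false

/-! B5: at a continuity point every right vertex has a finite alternating path to a free one. -/

namespace Pool.Agent.MEQ

open MeasureTheory Set Filter
open scoped ENNReal
open Pool.Agent.MEC
open Pool.Agent.MEP
open Pool.Agent.MEO

universe u

namespace NSN_

section plain

variable {U : Type u} {K P : SimpleGraph U} {L : Set U} {s : U → U} {r : ℕ}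

/-- the edges of `K` at points of `T` -/
def KT (K : SimpleGraph U) (T : Set U) : SimpleGraph U where
  Adj x y := K.Adj x y ∧ (x ∈ T ∨ y ∈ T)
  symm := ⟨fun _ _ h => ⟨h.1.symm, h.2.symm⟩⟩
  loopless := ⟨fun _ h => h.1.ne rfl⟩

/-- a copy of these edges, and a pendant edge at each point of `D` -/
def K2 (K : SimpleGraph U) (T D : Set U) : SimpleGraph (U × Bool) where
  Adj p q := (p.2 = false ∧ q.2 = false ∧ (KT K T).Adj p.1 q.1) ∨
    (p.2 ≠ q.2 ∧ p.1 = q.1 ∧ p.1 ∈ D)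
  symm := ⟨by
    rintro p q (⟨h1, h2, h3⟩ | ⟨h1, h2, h3⟩)
    · exact Or.inl ⟨h2, h1, h3.symm⟩
    · exact Or.inr ⟨h1.symm, h2.symm, by rw [← h2]; exact h3⟩⟩
  loopless := ⟨by
    rintro p (⟨-, -, h⟩ | ⟨h, -⟩)
    · exact h.ne rfl
    · exact h rfl⟩

/-- the optional vertices -/
def OO (D : Set U) : Set (U × Bool) := {p | p.2 = true ∧ p.1 ∈ D}

/-- the left vertices -/
def LL (T : Set U) : Set (U × Bool) := {p | p.2 = false → p.1 ∈ T}

lemma KT_le (T : Set U) : KT K T ≤ K := fun _ _ h => h.1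

lemma K2_left {T D : Set U} {x : U} (hx : x ∉ D) {q : U × Bool}
    (h : (K2 K T D).Adj (x, false) q) : q = (q.1, false) ∧ K.Adj x q.1 := by
  rcases h with ⟨-, h2, h3⟩ | ⟨-, -, h3⟩
  · exact ⟨Prod.ext rfl h2, h3.1⟩
  · exact absurd h3 hx

/-- left vertices whose partner has no finite alternating path -/
def TT (K : SimpleGraph U) (L : Set U) (s : U → U) : Set U := {x | s x ∈ NF K L s}

/-- deficient right vertices -/
def DD (K : SimpleGraph U) (L : Set U) (s : U → U) (r : ℕ) : Set U :=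
  {y | y ∈ NF K L s ∧ dg (KT K (TT K L s)) y < r}

lemma nf_ne {y : U} (h : y ∈ NF K L s) : s y ≠ y := fun h' => h.2 0 ⟨h.1, h'⟩

lemma tt_L (hbip : ∀ x y, K.Adj x y → (x ∈ L ↔ y ∉ L)) (hs2 : ∀ x, s (s x) = x)
    (hsa : ∀ x, s x ≠ x → K.Adj x (s x)) {x : U} (h : x ∈ TT K L s) : x ∈ L := by
  have h1 : s (s x) ≠ s x := nf_ne h
  have h2 := hsa _ h1
  rw [hs2] at h2
  by_contra h3
  exact h.1 ((hbip _ _ h2).2 h3)

lemma tt_nbr (hbip : ∀ x y, K.Adj x y → (x ∈ L ↔ y ∉ L)) (hs2 : ∀ x, s (s x) = x)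
    (hsa : ∀ x, s x ≠ x → K.Adj x (s x)) {x z : U} (h : x ∈ TT K L s) (hz : K.Adj x z) :
    z ∈ NF K L s := by
  have h1 : z ∉ L := (hbip _ _ hz).1 (tt_L hbip hs2 hsa h)
  refine ⟨h1, fun j hj => h.2 (j + 1) ⟨h.1, Or.inr ⟨z, ?_, hj⟩⟩⟩
  rw [hs2]
  exact hz

lemma nf_tt (hs2 : ∀ x, s (s x) = x) {y : U} (h : y ∈ NF K L s) : s y ∈ TT K L s := by
  change s (s y) ∈ NF K L s
  rw [hs2]
  exact h

lemma reach (hbip : ∀ x y, K.Adj x y → (x ∈ L ↔ y ∉ L)) (hs2 : ∀ x, s (s x) = x)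
    (hsa : ∀ x, s x ≠ x → K.Adj x (s x)) (hfin : ∀ x, (K.neighborSet x).Finite)
    {x y : U} (p : K.Walk x y) (hd : ∀ z, K.Reachable x z → z ∉ L → dg K z ≤ r)
    (hx : x ∈ TT K L s ∨ x ∈ NF K L s) (hy : y ∉ L) (hyd : dg K y < r) :
    ∃ z ∈ DD K L s r, (K2 K (TT K L s) (DD K L s r)).Reachable (x, false) (z, false) ∧
      K.Reachable x z := by
  induction p with
  | nil =>
    rcases hx with hx | hx
    · exact absurd (tt_L hbip hs2 hsa hx) hy
    · refine ⟨_, ⟨hx, ?_⟩, SimpleGraph.Reachable.rfl, SimpleGraph.Reachable.rfl⟩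
      exact (dg_mono (R := KT K (TT K L s)) (R' := K) (fun _ h => h.1) (hfin _)).trans_lt hyd
  | @cons a b c hab p ih =>
    have hd' : ∀ z, K.Reachable b z → z ∉ L → dg K z ≤ r := fun z hz =>
      hd z (hab.reachable.trans hz)
    rcases hx with hx | hx
    · obtain ⟨z, hz, hz1, hz2⟩ := ih hd' (Or.inr (tt_nbr hbip hs2 hsa hx hab)) hy hyd
      refine ⟨z, hz, ?_, hab.reachable.trans hz2⟩
      have h1 : (K2 K (TT K L s) (DD K L s r)).Adj (a, false) (b, false) :=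
        Or.inl ⟨rfl, rfl, hab, Or.inl hx⟩
      exact h1.reachable.trans hz1
    · by_cases hb : b ∈ TT K L s
      · obtain ⟨z, hz, hz1, hz2⟩ := ih hd' (Or.inl hb) hy hyd
        refine ⟨z, hz, ?_, hab.reachable.trans hz2⟩
        have h1 : (K2 K (TT K L s) (DD K L s r)).Adj (a, false) (b, false) :=
          Or.inl ⟨rfl, rfl, hab, Or.inr hb⟩
        exact h1.reachable.trans hz1
      · refine ⟨a, ⟨hx, ?_⟩, SimpleGraph.Reachable.rfl, SimpleGraph.Reachable.rfl⟩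
        have h1 : dg K a ≤ r := hd a SimpleGraph.Reachable.rfl hx.1
        refine lt_of_lt_of_le ?_ h1
        refine ncard_lt_ncard ?_ (hfin a)
        refine ⟨fun z hz => hz.1, fun h => ?_⟩
        have h2 := h hab
        rcases h2.2 with h3 | h3
        · exact hx.1 (tt_L hbip hs2 hsa h3)
        · exact hb h3

/-! ### The load -/

section load

variable {T D : Set U} {θ : ℝ≥0∞}

lemma K2_nbr (p : U × Bool) : (K2 K T D).neighborSet p ⊆
    insert (p.1, !p.2) ((fun x => (x, false)) '' K.neighborSet p.1) := by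
  rintro q (⟨-, h2, h3⟩ | ⟨h1, h2, -⟩)
  · exact Or.inr ⟨q.1, h3.1, Prod.ext rfl h2.symm⟩
  · refine Or.inl (Prod.ext h2.symm ?_)
    change q.2 = !p.2
    cases hp : p.2 <;> cases hq : q.2 <;> simp_all

lemma K2_fin (hfin : ∀ x, (K.neighborSet x).Finite) (p : U × Bool) :
    ((K2 K T D).neighborSet p).Finite := (((hfin p.1).image _).insert _).subset (K2_nbr p)

lemma dg_K2_left (hfin : ∀ x, (K.neighborSet x).Finite) {x : U} (hx : x ∈ T) :
    dg K x ≤ dg (K2 K T D) (x, false) := by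
  have h1 : (fun y : U => (y, false)) '' K.neighborSet x ⊆ (K2 K T D).neighborSet (x, false) := by
    rintro _ ⟨y, hy, rfl⟩
    exact Or.inl ⟨rfl, rfl, hy, Or.inl hx⟩
  have h2 := ncard_le_ncard h1 (K2_fin hfin _)
  rwa [ncard_image_of_injective _ (fun a b h => congrArg Prod.fst h)] at h2

lemma dg_K2_opt (hfin : ∀ x, (K.neighborSet x).Finite) {y : U} (hy : y ∈ D) :
    1 ≤ dg (K2 K T D) (y, true) := by
  refine (dg_pos_iff (K2_fin hfin _)).2 ⟨(y, false), Or.inr ⟨by simp, rfl, hy⟩⟩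

open Classical in
lemma ld_le (hfin : ∀ x, (K.neighborSet x).Finite) {z : U} (hz : z ∉ T)
    (hd : ∀ x ∈ T, K.Adj z x → dg K x = r) :
    ld (K2 K T D) (OO D) θ (z, false) ≤
      (dg (KT K T) z : ℝ≥0∞) * (r : ℝ≥0∞)⁻¹ + (if z ∈ D then θ else 0) := by
  set S1 : Set (U × Bool) := (fun x => (x, false)) '' (KT K T).neighborSet z with hS1
  set S2 : Set (U × Bool) := {p | p = (z, true) ∧ z ∈ D} with hS2
  set f : U × Bool → ℝ≥0∞ := fun p => (if p ∈ OO D then θ else 1) / (dg (K2 K T D) p : ℝ≥0∞)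
    with hf
  have hsub : (K2 K T D).neighborSet (z, false) ⊆ S1 ∪ S2 := by
    rintro q (⟨-, h2, h3⟩ | ⟨h1, h2, h3⟩)
    · exact Or.inl ⟨q.1, h3, Prod.ext rfl h2.symm⟩
    · refine Or.inr ⟨Prod.ext h2.symm ?_, h3⟩
      change false ≠ q.2 at h1
      change q.2 = true
      cases hq : q.2
      · exact absurd hq.symm h1
      · rfl
  have h1 : ∑' x : S1, f x ≤ (dg (KT K T) z : ℝ≥0∞) * (r : ℝ≥0∞)⁻¹ := by
    have h2 : ∀ x : S1, f x ≤ (r : ℝ≥0∞)⁻¹ := by
      rintro ⟨_, x, hx, rfl⟩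
      have hxT : x ∈ T := hx.2.resolve_left hz
      have h3 : (x, false) ∉ OO D := fun h => by simpa using h.1
      have h4 : r ≤ dg (K2 K T D) (x, false) := by
        rw [← hd x hxT hx.1]
        exact dg_K2_left hfin hxT
      change (if (x, false) ∈ OO D then θ else 1) / (dg (K2 K T D) (x, false) : ℝ≥0∞) ≤ _
      rw [if_neg h3, one_div]
      exact ENNReal.inv_le_inv.2 (by exact_mod_cast h4)
    refine (ENNReal.tsum_le_tsum h2).trans ?_
    rw [ENNReal.tsum_set_const]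
    have h5 : ((KT K T).neighborSet z).Finite := (hfin z).subset fun _ h => h.1
    have h6 : S1.encard = (dg (KT K T) z : ℕ∞) := by
      rw [hS1, Function.Injective.encard_image (fun a b h => congrArg Prod.fst h)]
      exact h5.cast_ncard_eq.symm
    rw [h6, ENat.toENNReal_coe]
  have h2 : ∑' x : S2, f x ≤ (if z ∈ D then θ else 0) := by
    by_cases hD : z ∈ D
    · rw [if_pos hD]
      have h3 : S2 = {(z, true)} := by
        ext p
        exact ⟨fun h => h.1, fun h => ⟨h, hD⟩⟩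
      rw [h3, tsum_singleton (z, true) f]
      have h4 : (1 : ℝ≥0∞) ≤ (dg (K2 K T D) (z, true) : ℝ≥0∞) := by
        exact_mod_cast dg_K2_opt hfin hD
      change (if (z, true) ∈ OO D then θ else 1) / (dg (K2 K T D) (z, true) : ℝ≥0∞) ≤ _
      rw [if_pos (show (z, true) ∈ OO D from ⟨rfl, hD⟩)]
      calc θ / (dg (K2 K T D) (z, true) : ℝ≥0∞) ≤ θ / 1 := ENNReal.div_le_div_left h4 θ
        _ = θ := by rw [div_one]
    · rw [if_neg hD]
      have h3 : S2 = ∅ := by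
        ext p
        exact ⟨fun h => absurd h.2 hD, fun h => h.elim⟩
      rw [h3]
      simp
  calc ld (K2 K T D) (OO D) θ (z, false)
      ≤ ∑' x : ↑(S1 ∪ S2), f x := ENNReal.tsum_mono_subtype f hsub
    _ ≤ ∑' x : S1, f x + ∑' x : S2, f x := ENNReal.tsum_union_le f S1 S2
    _ ≤ _ := add_le_add h1 h2

lemma ld_le_one (hr : 1 ≤ r) (hfin : ∀ x, (K.neighborSet x).Finite) {z : U} (hz : z ∉ T)
    (hd : ∀ x ∈ T, K.Adj z x → dg K x = r) (hzr : dg K z ≤ r)
    (hD : ∀ y ∈ D, dg (KT K T) y < r) :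
    ld (K2 K T D) (OO D) ((r : ℝ≥0∞) + 1)⁻¹ (z, false) ≤ 1 ∧
    (z ∈ D → ld (K2 K T D) (OO D) ((r : ℝ≥0∞) + 1)⁻¹ (z, false) < 1) := by
  classical
  have hr0 : (r : ℝ≥0∞) ≠ 0 := by
    have : r ≠ 0 := by omega
    exact_mod_cast this
  have hrt : (r : ℝ≥0∞) ≠ ⊤ := ENNReal.natCast_ne_top r
  have hm : (r : ℝ≥0∞) * (r : ℝ≥0∞)⁻¹ = 1 := ENNReal.mul_inv_cancel hr0 hrt
  have key : z ∈ D → ld (K2 K T D) (OO D) ((r : ℝ≥0∞) + 1)⁻¹ (z, false) < 1 := by
    intro hzD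
    have h1 := ld_le (D := D) (θ := ((r : ℝ≥0∞) + 1)⁻¹) hfin hz hd
    rw [if_pos hzD] at h1
    refine h1.trans_lt ?_
    have h2 : ((r : ℝ≥0∞) + 1)⁻¹ < (r : ℝ≥0∞)⁻¹ := by
      rw [ENNReal.inv_lt_inv]
      exact ENNReal.lt_add_right hrt one_ne_zero
    have h3 : (dg (KT K T) z : ℝ≥0∞) * (r : ℝ≥0∞)⁻¹ ≠ ⊤ :=
      ENNReal.mul_ne_top (ENNReal.natCast_ne_top _) (ENNReal.inv_ne_top.2 hr0)
    calc (dg (KT K T) z : ℝ≥0∞) * (r : ℝ≥0∞)⁻¹ + ((r : ℝ≥0∞) + 1)⁻¹
        < (dg (KT K T) z : ℝ≥0∞) * (r : ℝ≥0∞)⁻¹ + (r : ℝ≥0∞)⁻¹ :=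
          ENNReal.add_lt_add_left h3 h2
      _ = ((dg (KT K T) z : ℝ≥0∞) + 1) * (r : ℝ≥0∞)⁻¹ := by rw [add_mul, one_mul]
      _ ≤ (r : ℝ≥0∞) * (r : ℝ≥0∞)⁻¹ := by
          gcongr
          have := hD z hzD
          exact_mod_cast this
      _ = 1 := hm
  refine ⟨?_, key⟩
  by_cases hzD : z ∈ D
  · exact (key hzD).le
  · have h1 := ld_le (D := D) (θ := ((r : ℝ≥0∞) + 1)⁻¹) hfin hz hd
    rw [if_neg hzD, add_zero] at h1
    refine h1.trans ?_
    have h2 : dg (KT K T) z ≤ r :=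
      (dg_mono (R := KT K T) (R' := K) (fun _ h => h.1) (hfin z)).trans hzr
    calc (dg (KT K T) z : ℝ≥0∞) * (r : ℝ≥0∞)⁻¹ ≤ (r : ℝ≥0∞) * (r : ℝ≥0∞)⁻¹ := by
          gcongr
      _ = 1 := hm

end load

/-! ### The walks -/

section walk

variable {g h : U → U} {Y Γ : Set U}

/-- the points reached after exactly `j` steps -/
def WW (g h : U → U) (Y : Set U) (j : ℕ) : Set U := {z | h^[j] z ∈ Y ∧ g^[j] (h^[j] z) = z}

/-- the points reached after at least `n` steps -/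
def AA (g h : U → U) (Y : Set U) (n : ℕ) : Set U := {z | ∃ j, n ≤ j ∧ z ∈ WW g h Y j}

lemma iter_mem (hΓ : ∀ y ∈ Γ, g y ∈ Γ) {y : U} (hy : y ∈ Γ) (j : ℕ) : g^[j] y ∈ Γ := by
  induction j generalizing y with
  | zero => exact hy
  | succ j ih => exact ih (hΓ y hy)

lemma iter_inv (hΓ : ∀ y ∈ Γ, g y ∈ Γ) (hg : ∀ y ∈ Γ, h (g y) = y) {y : U} (hy : y ∈ Γ)
    (j : ℕ) : h^[j] (g^[j] y) = y := by
  induction j generalizing y with
  | zero => rfl
  | succ j ih =>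
    rw [Function.iterate_succ_apply' h, Function.iterate_succ_apply g, ih (hΓ y hy)]
    exact hg y hy

lemma WW_iff (hΓ : ∀ y ∈ Γ, g y ∈ Γ) (hg : ∀ y ∈ Γ, h (g y) = y) (hY : Y ⊆ Γ) {z : U} {j : ℕ} :
    z ∈ WW g h Y j ↔ ∃ y ∈ Y, g^[j] y = z := by
  constructor
  · rintro ⟨h1, h2⟩
    exact ⟨_, h1, h2⟩
  · rintro ⟨y, hy, rfl⟩
    have h1 := iter_inv hΓ hg (hY hy) j
    refine ⟨?_, ?_⟩
    · rw [h1]; exact hy
    · rw [h1]

lemma WW_disj (hΓ : ∀ y ∈ Γ, g y ∈ Γ) (hg : ∀ y ∈ Γ, h (g y) = y) (hY : Y ⊆ Γ)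
    (hYg : ∀ y ∈ Γ, g y ∉ Y) {z : U} {i j : ℕ} (hi : z ∈ WW g h Y i) (hj : z ∈ WW g h Y j) :
    i = j := by
  have key : ∀ {i j : ℕ}, i < j → z ∈ WW g h Y i → z ∈ WW g h Y j → False := by
    intro i j hij hi hj
    obtain ⟨y, hy, rfl⟩ := (WW_iff hΓ hg hY).1 hi
    obtain ⟨y', hy', h1⟩ := (WW_iff hΓ hg hY).1 hj
    obtain ⟨k, rfl⟩ := Nat.exists_eq_add_of_lt hij
    have h2 : g^[i] (g^[k + 1] y') = g^[i] y := by
      rw [← Function.iterate_add_apply, ← h1]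
      congr 1
    have h3 := congrArg (h^[i]) h2
    rw [iter_inv hΓ hg (iter_mem hΓ (hY hy') _), iter_inv hΓ hg (hY hy)] at h3
    rw [Function.iterate_succ_apply'] at h3
    exact hYg _ (iter_mem hΓ (hY hy') k) (h3 ▸ hy)
  rcases lt_trichotomy i j with h1 | h1 | h1
  · exact (key h1 hi hj).elim
  · exact h1
  · exact (key h1 hj hi).elim

lemma AA_succ (n : ℕ) {z : U} : z ∈ AA g h Y n ↔ z ∈ WW g h Y n ∨ z ∈ AA g h Y (n + 1) := by
  constructor
  · rintro ⟨j, hj, hz⟩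
    rcases hj.eq_or_lt with rfl | h1
    · exact Or.inl hz
    · exact Or.inr ⟨j, h1, hz⟩
  · rintro (hz | ⟨j, hj, hz⟩)
    · exact ⟨n, le_rfl, hz⟩
    · exact ⟨j, by omega, hz⟩

lemma AA_anti {n n' : ℕ} (hn : n ≤ n') : AA g h Y n' ⊆ AA g h Y n := by
  rintro z ⟨j, hj, hz⟩
  exact ⟨j, hn.trans hj, hz⟩

/-- a point of the walks other than a start comes from the previous point -/
lemma AA_pred (hΓ : ∀ y ∈ Γ, g y ∈ Γ) (hg : ∀ y ∈ Γ, h (g y) = y) (hY : Y ⊆ Γ) {z : U} {n : ℕ}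
    (hz : z ∈ AA g h Y (n + 1)) : ∃ y ∈ AA g h Y n, y ∈ Γ ∧ g y = z := by
  obtain ⟨j, hj, hz⟩ := hz
  obtain ⟨y, hy, rfl⟩ := (WW_iff hΓ hg hY).1 hz
  obtain ⟨i, rfl⟩ : ∃ i, j = i + 1 := ⟨j - 1, by omega⟩
  refine ⟨g^[i] y, ⟨i, by omega, (WW_iff hΓ hg hY).2 ⟨y, hy, rfl⟩⟩,
    iter_mem hΓ (hY hy) i, ?_⟩
  rw [Function.iterate_succ_apply']

lemma AA_next (hΓ : ∀ y ∈ Γ, g y ∈ Γ) (hg : ∀ y ∈ Γ, h (g y) = y) (hY : Y ⊆ Γ) {z : U} {n : ℕ}
    (hz : z ∈ AA g h Y n) : z ∈ Γ ∧ g z ∈ AA g h Y (n + 1) := by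
  obtain ⟨j, hj, hz⟩ := hz
  obtain ⟨y, hy, rfl⟩ := (WW_iff hΓ hg hY).1 hz
  refine ⟨iter_mem hΓ (hY hy) j, j + 1, by omega, (WW_iff hΓ hg hY).2 ⟨y, hy, ?_⟩⟩
  rw [Function.iterate_succ_apply']

open Classical in
/-- the tails of the walks are switched -/
noncomputable def sw (s ψ g h : U → U) (Y : Set U) (n : ℕ) (z : U) : U :=
  if z ∈ WW g h Y n then z else
    if z ∈ AA g h Y (n + 1) ∨ s z ∈ AA g h Y n then ψ z else s z

/-- the walks `y, s y, g y = ψ (s y), ..` starting in `Y` -/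
structure Wk (K : SimpleGraph U) (L : Set U) (s ψ g h : U → U) (Y Γ : Set U) : Prop where
  bip : ∀ x y, K.Adj x y → (x ∈ L ↔ y ∉ L)
  s2 : ∀ x, s (s x) = x
  sa : ∀ x, s x ≠ x → K.Adj x (s x)
  cl : ∀ y ∈ Γ, g y ∈ Γ
  hg : ∀ y ∈ Γ, h (g y) = y
  YΓ : Y ⊆ Γ
  Yg : ∀ y ∈ Γ, g y ∉ Y
  ΓL : ∀ y ∈ Γ, y ∉ L
  ne : ∀ y ∈ Γ, s y ≠ y
  ψs : ∀ y ∈ Γ, ψ (s y) = g y
  ψg : ∀ y ∈ Γ, ψ (g y) = s y
  ad : ∀ y ∈ Γ, K.Adj (s y) (g y)

namespace Wk

variable {ψ : U → U} {n : ℕ}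

lemma sL (H : Wk K L s ψ g h Y Γ) {y : U} (hy : y ∈ Γ) : s y ∈ L := by
  have h1 := H.sa y (H.ne y hy)
  exact (H.bip _ _ h1.symm).2 (H.ΓL y hy)

lemma WΓ (H : Wk K L s ψ g h Y Γ) {z : U} (hz : z ∈ WW g h Y n) : z ∈ Γ := by
  obtain ⟨y, hy, rfl⟩ := (WW_iff H.cl H.hg H.YΓ).1 hz
  exact iter_mem H.cl (H.YΓ hy) n

lemma AΓ (H : Wk K L s ψ g h Y Γ) {z : U} (hz : z ∈ AA g h Y n) : z ∈ Γ := by
  obtain ⟨j, -, hz⟩ := hz
  exact H.WΓ hz

lemma WA (H : Wk K L s ψ g h Y Γ) {z : U} (hz : z ∈ WW g h Y n) : z ∉ AA g h Y (n + 1) := by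
  rintro ⟨j, hj, hz'⟩
  have := WW_disj H.cl H.hg H.YΓ H.Yg hz hz'
  omega

lemma sL' (H : Wk K L s ψ g h Y Γ) {z : U} (hz : s z ∈ AA g h Y n) : z ∈ L := by
  have h1 := H.sL (H.AΓ hz)
  rwa [H.s2] at h1

lemma sw_W {z : U} (hz : z ∈ WW g h Y n) : sw s ψ g h Y n z = z := if_pos hz

lemma sw_A {z : U} (hz : z ∉ WW g h Y n) (hz' : z ∈ AA g h Y (n + 1) ∨ s z ∈ AA g h Y n) :
    sw s ψ g h Y n z = ψ z := by
  unfold sw
  rw [if_neg hz, if_pos hz']

lemma sw_o {z : U} (hz : z ∉ WW g h Y n)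
    (hz' : ¬ (z ∈ AA g h Y (n + 1) ∨ s z ∈ AA g h Y n)) : sw s ψ g h Y n z = s z := by
  unfold sw
  rw [if_neg hz, if_neg hz']

lemma invol (H : Wk K L s ψ g h Y Γ) (z : U) :
    sw s ψ g h Y n (sw s ψ g h Y n z) = z := by
  by_cases h1 : z ∈ WW g h Y n
  · rw [sw_W h1, sw_W h1]
  by_cases h2 : z ∈ AA g h Y (n + 1)
  · obtain ⟨y, hy, hyΓ, rfl⟩ := AA_pred H.cl H.hg H.YΓ h2
    have h3 : s y ∉ WW g h Y n := fun h => H.ΓL _ (H.WΓ h) (H.sL hyΓ)
    rw [sw_A h1 (Or.inl h2), H.ψg y hyΓ, sw_A h3 (Or.inr (by rw [H.s2]; exact hy)), H.ψs y hyΓ]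
  by_cases h3 : s z ∈ AA g h Y n
  · have hyΓ := H.AΓ h3
    have h4 : ψ z = g (s z) := by
      have := H.ψs _ hyΓ
      rwa [H.s2] at this
    have h5 := (AA_next H.cl H.hg H.YΓ h3).2
    have h6 : g (s z) ∉ WW g h Y n := fun h => H.WA h h5
    rw [sw_A h1 (Or.inr h3), h4, sw_A h6 (Or.inl h5), H.ψg _ hyΓ, H.s2]
  · have h4 : s z ∉ WW g h Y n := fun h => h3 ((AA_succ n).2 (Or.inl h))
    have h5 : s z ∉ AA g h Y (n + 1) := fun h => h3 ((AA_succ n).2 (Or.inr h))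
    have h6 : z ∉ AA g h Y n := fun h => ((AA_succ n).1 h).elim h1 h2
    rw [sw_o h1 (by tauto), sw_o h4 (by rw [H.s2]; tauto), H.s2]

lemma adj (H : Wk K L s ψ g h Y Γ) (z : U) (hz : sw s ψ g h Y n z ≠ z) :
    K.Adj z (sw s ψ g h Y n z) := by
  by_cases h1 : z ∈ WW g h Y n
  · exact absurd (sw_W h1) hz
  by_cases h2 : z ∈ AA g h Y (n + 1)
  · obtain ⟨y, hy, hyΓ, rfl⟩ := AA_pred H.cl H.hg H.YΓ h2
    rw [sw_A h1 (Or.inl h2), H.ψg y hyΓ]
    exact (H.ad y hyΓ).symm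
  by_cases h3 : s z ∈ AA g h Y n
  · have hyΓ := H.AΓ h3
    have h4 : ψ z = g (s z) := by
      have := H.ψs _ hyΓ
      rwa [H.s2] at this
    rw [sw_A h1 (Or.inr h3), h4]
    have := H.ad _ hyΓ
    rwa [H.s2] at this
  · rw [sw_o h1 (by tauto)] at hz ⊢
    exact H.sa z hz

lemma cov (H : Wk K L s ψ g h Y Γ) {x : U} (hx : x ∈ L) (hx' : s x ≠ x) :
    sw s ψ g h Y n x ≠ x := by
  have h1 : x ∉ WW g h Y n := fun h => H.ΓL _ (H.WΓ h) hx
  have h2 : x ∉ AA g h Y (n + 1) := fun h => H.ΓL _ (H.AΓ h) hx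
  by_cases h3 : s x ∈ AA g h Y n
  · have hyΓ := H.AΓ h3
    have h4 : ψ x = g (s x) := by
      have := H.ψs _ hyΓ
      rwa [H.s2] at this
    rw [sw_A h1 (Or.inr h3), h4]
    have := (H.ad _ hyΓ).ne
    rw [H.s2] at this
    exact this.symm
  · rwa [sw_o h1 (by tauto)]

lemma chg {z : U} (hz : z ∉ AA g h Y n) (hz' : s z ∉ AA g h Y n) :
    sw s ψ g h Y n z = s z := by
  refine sw_o (fun h => hz ((AA_succ n).2 (Or.inl h))) ?_
  rintro (h1 | h1)
  · exact hz ((AA_succ n).2 (Or.inr h1))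
  · exact hz' h1

lemma lev (H : Wk K L s ψ g h Y Γ) {y : U} (hy : y ∈ Y) :
    y ∈ EL K L (sw s ψ g h Y n) n := by
  have key : ∀ i j : ℕ, i + j = n → g^[j] y ∈ EL K L (sw s ψ g h Y n) i := by
    intro i
    induction i with
    | zero =>
      intro j hj
      have hj' : j = n := by omega
      subst hj'
      have h1 : g^[j] y ∈ WW g h Y j := (WW_iff H.cl H.hg H.YΓ).2 ⟨y, hy, rfl⟩
      exact ⟨H.ΓL _ (H.WΓ h1), sw_W h1⟩
    | succ i ih =>
      intro j hj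
      have h1 : g^[j] y ∈ WW g h Y j := (WW_iff H.cl H.hg H.YΓ).2 ⟨y, hy, rfl⟩
      have h2 := H.WΓ h1
      have h3 : g^[j] y ∉ AA g h Y n := by
        rintro ⟨k, hk, hz⟩
        have := WW_disj H.cl H.hg H.YΓ H.Yg h1 hz
        omega
      have h4 : s (g^[j] y) ∉ AA g h Y n := fun h => H.ΓL _ (H.AΓ h) (H.sL h2)
      refine ⟨H.ΓL _ h2, Or.inr ⟨g^[j + 1] y, ?_, ih (j + 1) (by omega)⟩⟩
      rw [chg h3 h4, Function.iterate_succ_apply']
      exact H.ad _ h2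
  exact key n 0 (by omega)

end Wk

end walk

end plain

section meas

variable {U : Type u} [MeasurableSpace U]

lemma emb (i : Bool) : MeasurableEmbedding (fun x : U => (x, i)) where
  injective := fun x y h => congrArg Prod.fst h
  measurable := measurable_id.prodMk measurable_const
  measurableSet_image' := by
    intro s hs
    have : (fun x : U => (x, i)) '' s = s ×ˢ {i} := by
      ext ⟨a, b⟩
      simp only [mem_image, Prod.mk.injEq, mem_prod, mem_singleton_iff]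
      constructor
      · rintro ⟨x, hx, rfl, rfl⟩
        exact ⟨hx, rfl⟩
      · rintro ⟨h1, rfl⟩
        exact ⟨a, h1, rfl, rfl⟩
    rw [this]
    exact hs.prod (MeasurableSet.singleton i)

lemma ae_dbl {μ : Measure U} {P : U × Bool → Prop} :
    (∀ᵐ p ∂dbl μ, P p) ↔ (∀ᵐ x ∂μ, P (x, false)) ∧ ∀ᵐ x ∂μ, P (x, true) := by
  unfold dbl
  rw [ae_add_measure_iff, (emb false).ae_map_iff, (emb true).ae_map_iff]

lemma ms_K2 {K : SimpleGraph U} {T D : Set U} [StandardBorelSpace U]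
    (hK : MeasurableSet {p : U × U | K.Adj p.1 p.2})
    (hT : MeasurableSet T) (hD : MeasurableSet D) :
    MeasurableSet {p : (U × Bool) × (U × Bool) | (K2 K T D).Adj p.1 p.2} := by
  have hKT : MeasurableSet {p : U × U | (KT K T).Adj p.1 p.2} :=
    hK.inter ((measurable_fst hT).union (measurable_snd hT))
  have e1 : Measurable fun p : (U × Bool) × (U × Bool) => (p.1.1, p.2.1) :=
    (measurable_fst.comp measurable_fst).prodMk (measurable_fst.comp measurable_snd)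
  have e2 : Measurable fun p : (U × Bool) × (U × Bool) => p.1.2 :=
    measurable_snd.comp measurable_fst
  have e3 : Measurable fun p : (U × Bool) × (U × Bool) => p.2.2 :=
    measurable_snd.comp measurable_snd
  have e4 : Measurable fun p : (U × Bool) × (U × Bool) => p.1.1 :=
    measurable_fst.comp measurable_fst
  have e5 : Measurable fun p : (U × Bool) × (U × Bool) => p.2.1 :=
    measurable_fst.comp measurable_snd
  exact ((e2 (measurableSet_singleton false)).inter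
    ((e3 (measurableSet_singleton false)).inter (e1 hKT))).union
    ((measurableSet_eq_fun e2 e3).compl.inter ((measurableSet_eq_fun e4 e5).inter (e4 hD)))

lemma ms_WW [StandardBorelSpace U] {g h : U → U} {Y : Set U} (hg : Measurable g)
    (hh : Measurable h) (hY : MeasurableSet Y) (j : ℕ) : MeasurableSet (WW g h Y j) :=
  ((hh.iterate j) hY).inter
    (measurableSet_eq_fun ((hg.iterate j).comp (hh.iterate j)) measurable_id)

lemma ms_AA [StandardBorelSpace U] {g h : U → U} {Y : Set U} (hg : Measurable g)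
    (hh : Measurable h) (hY : MeasurableSet Y) (n : ℕ) : MeasurableSet (AA g h Y n) := by
  have h1 : AA g h Y n = ⋃ j, {z | n ≤ j ∧ z ∈ WW g h Y j} := by
    ext z
    simp only [AA, mem_ofPred_eq, mem_iUnion]
  rw [h1]
  refine MeasurableSet.iUnion fun j => ?_
  by_cases hj : n ≤ j
  · have h2 : {z | n ≤ j ∧ z ∈ WW g h Y j} = WW g h Y j := by
      ext z
      exact ⟨fun h => h.2, fun h => ⟨hj, h⟩⟩
    rw [h2]
    exact ms_WW hg hh hY j
  · have h2 : {z | n ≤ j ∧ z ∈ WW g h Y j} = ∅ := by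
      ext z
      exact ⟨fun h => absurd h.1 hj, fun h => h.elim⟩
    rw [h2]
    exact MeasurableSet.empty

end meas

end NSN_

open NSN_ in
/-- B5 -/
theorem allNSN (h_HALL : tHALL.{u}) (h_QDB : tQDB.{u}) (h_LAB : tLAB.{u}) (h_MES : tMES.{u}) :
    tNSN.{u} := by
  classical
  intro U _ _ P K m r e ν _ C L M hl hq hC hKP hKm hLm hbip hr hdL hdR hsl hcov hStb
  by_contra hne
  set s : U → U := M.S 0 with hsdef
  have hs2 : ∀ x, s (s x) = x := M.invol 0
  have hsa : ∀ x, s x ≠ x → K.Adj x (s x) := M.adj 0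
  have hsm : Measurable s := M.meas 0
  have hfin : ∀ x, (K.neighborSet x).Finite := fun x => fin_of_le hKP (hl.fin x)
  set T := TT K L s with hT
  set D := DD K L s r with hD
  have hTL : ∀ x ∈ T, x ∈ L := fun x hx => tt_L hbip hs2 hsa hx
  have hDL : ∀ y ∈ D, y ∉ L := fun y hy => hy.1.1
  have hDT : ∀ y ∈ D, y ∉ T := fun y hy h => hDL y hy (hTL y h)
  -- measurability
  have hNm : MeasurableSet (NF K L s) := by
    have h1 : NF K L s = Lᶜ ∩ ⋂ j, (EL K L s j)ᶜ := by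
      ext y
      simp only [NF, mem_ofPred_eq, mem_inter_iff, mem_compl_iff, mem_iInter]
    rw [h1]
    exact hLm.compl.inter (MeasurableSet.iInter fun j =>
      (LO2A_.meas_EL hl hKP hKm hLm hsm j).compl)
  have hTm : MeasurableSet T := hsm hNm
  have hKTm : MeasurableSet {p : U × U | (KT K T).Adj p.1 p.2} :=
    hKm.inter ((measurable_fst hTm).union (measurable_snd hTm))
  have hKTP : KT K T ≤ P := (KT_le T).trans hKP
  have hMd := (h_MES U P m m e e hl).2.1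
  have dKT : Measurable (dg (KT K T)) := measurable_to_countable' fun j => (hMd _ hKTP hKTm).1 j
  have hDm : MeasurableSet D := hNm.inter (measurableSet_lt dKT measurable_const)
  -- the good points
  have hgood : ∀ᵐ b ∂ν, ∀ x ∈ Cm e b, (x ∈ L → dg K x = r) ∧ (x ∉ L → dg K x ≤ r) ∧
      (x ∈ L → ∃ y, y ∉ L ∧ K.Reachable x y ∧ dg K y < r) := by
    refine ae_Cq hq e ?_
    filter_upwards [hdL, hdR, hsl] with x h1 h2 h3
    exact ⟨h1, h2, h3⟩
  have hdr : ∀ x, ((x ∈ L → dg K x = r) ∧ (x ∉ L → dg K x ≤ r) ∧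
      (x ∈ L → ∃ y, y ∉ L ∧ K.Reachable x y ∧ dg K y < r)) → dg K x ≤ r := by
    intro x hx
    by_cases h : x ∈ L
    · exact (hx.1 h).le
    · exact hx.2.1 h
  -- a deficient vertex
  have hreach : ∀ b, (∀ x ∈ Cm e b, (x ∈ L → dg K x = r) ∧ (x ∉ L → dg K x ≤ r) ∧
      (x ∈ L → ∃ y, y ∉ L ∧ K.Reachable x y ∧ dg K y < r)) → ∀ x ∈ Cm e b, x ∈ T →
      ∃ z ∈ D, (K2 K T D).Reachable (x, false) (z, false) ∧ z ∈ Cm e b := by
    intro b hb x hx hxT
    obtain ⟨y, hy, ⟨p⟩, hyd⟩ := (hb x hx).2.2 (hTL x hxT)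
    obtain ⟨z, hz, hz1, hz2⟩ := reach (r := r) hbip hs2 hsa hfin p
      (fun z hz _ => hdr z (hb z (Cm_trans hx (Cm_of_reachable hl hKP hz)))) (Or.inl hxT) hy hyd
    exact ⟨z, hz, hz1, Cm_trans hx (Cm_of_reachable hl hKP hz2)⟩
  have hsC : ∀ b x, x ∈ Cm e b → s x ∈ Cm e b := by
    intro b x hx
    by_cases h : s x = x
    · rw [h]; exact hx
    · exact Cm_adj hl hx (hKP (hsa x h))
  have hDν : ν D ≠ 0 := by
    intro h
    apply hne
    rw [measure_eq_zero_iff_ae_notMem]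
    filter_upwards [hgood, ae_Cq_not hq e h] with b hb hb' hbN
    obtain ⟨z, hz, -, hzC⟩ := hreach b hb (s b) (hsC b b (Cm_self e b)) (nf_tt hs2 hbN)
    exact hb' z hzC hz
  -- Hall
  have hdeg : ∀ p, ((K2 K T D).neighborSet p).encard ≤ ((m + 1 : ℕ) : ℕ∞) := by
    intro p
    refine (encard_le_encard (K2_nbr p)).trans ((encard_insert_le _ _).trans ?_)
    have h1 : ((fun x : U => (x, false)) '' K.neighborSet p.1).encard ≤ (m : ℕ∞) := by
      refine (encard_image_le _ _).trans ?_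
      have h2 : K.neighborSet p.1 ⊆ range fun k => e.S k p.1 := by
        intro y hy
        obtain ⟨k, hk⟩ := hl _ _ (hKP hy)
        exact ⟨k, hk⟩
      refine (encard_le_encard h2).trans ?_
      rw [← image_univ]
      refine (encard_image_le _ _).trans ?_
      rw [encard_univ]
      simp
    push_cast
    gcongr
  obtain ⟨e2, hl2⟩ := h_LAB (U × Bool) (K2 K T D) (m + 1) (ms_K2 hKm hTm hDm) hdeg
  obtain ⟨C', hC', hq'⟩ := h_QDB U P m e ν C hl hq hC
  have hq2 : QInv (K2 K T D) (dbl ν) C' := hq' _ (by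
    rintro p q (⟨-, -, h3⟩ | ⟨-, h2, -⟩)
    · exact Or.inr (hKTP h3)
    · exact Or.inl h2)
  have hfinm : IsFiniteMeasure (dbl ν) := by
    unfold dbl
    infer_instance
  have hLLm : MeasurableSet (LL T) := by
    have h1 : LL T = {p : U × Bool | p.2 = false}ᶜ ∪ {p : U × Bool | p.1 ∈ T} := by
      ext p
      simp only [LL, mem_ofPred_eq, mem_union, mem_compl_iff]
      tauto
    rw [h1]
    exact (measurable_snd (measurableSet_singleton false)).compl.union (measurable_fst hTm)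
  have hOOm : MeasurableSet (OO D) :=
    (measurable_snd (measurableSet_singleton true)).inter (measurable_fst hDm)
  have hload : ∀ b, (∀ x ∈ Cm e b, (x ∈ L → dg K x = r) ∧ (x ∉ L → dg K x ≤ r) ∧
      (x ∈ L → ∃ y, y ∉ L ∧ K.Reachable x y ∧ dg K y < r)) → ∀ z ∈ Cm e b, z ∉ T →
      ld (K2 K T D) (OO D) ((r : ℝ≥0∞) + 1)⁻¹ (z, false) ≤ 1 ∧
      (z ∈ D → ld (K2 K T D) (OO D) ((r : ℝ≥0∞) + 1)⁻¹ (z, false) < 1) := by
    intro b hb z hz hzT
    refine ld_le_one hr hfin hzT (fun x hx hzx => ?_) (hdr z (hb z hz)) fun y hy => hy.2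
    exact (hb x (Cm_adj hl hz (hKP hzx))).1 (hTL x hx)
  obtain ⟨M2, hM1, hM2⟩ := h_HALL (U × Bool) (K2 K T D) (2 * (m + 1)) e2 (dbl ν) C'
    (LL T) (OO D) ((r : ℝ≥0∞) + 1)⁻¹ hl2 hq2 hC' hLLm hOOm
    (fun p hp h => absurd (hp.1.symm.trans h) (by simp)) (by
      rintro p q (⟨h1, h2, h3⟩ | ⟨h1, h2, h3⟩)
      · have h4 := (hbip _ _ h3.1)
        constructor
        · intro h5 h6
          exact h4.1 (hTL _ (h5 h1)) (hTL _ (h6 h2))
        · intro h5 _
          rcases h3.2 with h6 | h6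
          · exact h6
          · exact absurd (fun _ => h6) h5
      · cases hp : p.2 <;> cases hq : q.2
        · rw [hp, hq] at h1
          exact absurd rfl h1
        · constructor
          · intro h4
            exact absurd (h4 hp) (hDT _ h3)
          · intro h4
            exact absurd (fun h => absurd (hq.symm.trans h) (by simp)) h4
        · constructor
          · intro _ h5
            exact hDT _ (h2 ▸ h3) (h5 hq)
          · intro _ h
            exact absurd (hp.symm.trans h) (by simp)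
        · rw [hp, hq] at h1
          exact absurd rfl h1)
    (ENNReal.inv_ne_zero.2 (ENNReal.add_ne_top.2 ⟨ENNReal.natCast_ne_top r, ENNReal.one_ne_top⟩))
    (by
      rw [ENNReal.inv_le_one]
      exact le_add_self)
    (by
      refine ae_dbl.2 ⟨?_, Eventually.of_forall fun x h => absurd
        (show (x, true) ∈ LL T from fun h' => absurd h' (by simp)) h⟩
      filter_upwards [hgood] with z hz hzT
      exact (hload z hz z (Cm_self e z) fun h => hzT fun _ => h).1)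
    (by
      refine ae_dbl.2 ⟨Eventually.of_forall fun x h => absurd h.1 (by simp), ?_⟩
      filter_upwards [hgood] with z hz hzO
      exact ⟨(z, false), Or.inr ⟨by simp, rfl, hzO.2⟩,
        (hload z hz z (Cm_self e z) (hDT z hzO.2)).2 hzO.2⟩)
  have hMa : ∀ p, M2.S 0 p ≠ p → (K2 K T D).Adj p (M2.S 0 p) := M2.adj 0
  have hMi : ∀ p, M2.S 0 (M2.S 0 p) = p := M2.invol 0
  -- covered optional vertices
  have hOν : dbl ν (OO D) ≠ 0 := by
    rw [DKP_.dbl_apply hOOm]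
    intro h
    have h1 : {x : U | (x, true) ∈ OO D} = D := by
      ext x
      exact ⟨fun h => h.2, fun h => ⟨rfl, h⟩⟩
    rw [h1] at h
    exact hDν (add_eq_zero.1 h).2
  have hcv := hM2 hOν
  have hcm : MeasurableSet {x : U × Bool | x ∈ OO D ∧ M2.S 0 x ≠ x} :=
    hOOm.inter (measurableSet_eq_fun (M2.meas 0) measurable_id).compl
  set Y1 : Set U := {x | x ∈ D ∧ M2.S 0 (x, true) ≠ (x, true)} with hY1
  have hY1m : MeasurableSet Y1 :=
    hDm.inter (measurableSet_eq_fun ((M2.meas 0).comp (DKP_.meas_mk true))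
      (DKP_.meas_mk true)).compl
  have hY1ν : ν Y1 ≠ 0 := by
    rw [DKP_.dbl_apply hcm] at hcv
    intro h
    apply hcv
    have h1 : {x : U | (x, true) ∈ {x : U × Bool | x ∈ OO D ∧ M2.S 0 x ≠ x}} ⊆ Y1 :=
      fun x h => ⟨h.1.2, h.2⟩
    have h2 : {x : U | (x, false) ∈ {x : U × Bool | x ∈ OO D ∧ M2.S 0 x ≠ x}} = ∅ := by
      ext x
      simp only [mem_empty_iff_false, iff_false]
      exact fun h => absurd h.1.1 (by simp)
    rw [measure_mono_null h1 h, h2, measure_empty, zero_add]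
  -- the good components
  set Gd : U → Prop := fun b => ∀ x ∈ Cm e b, ((x ∈ L → dg K x = r) ∧ (x ∉ L → dg K x ≤ r) ∧
      (x ∈ L → ∃ y, y ∉ L ∧ K.Reachable x y ∧ dg K y < r)) ∧ ((x, false) ∈ LL T →
      (∃ y : U × Bool, y ∉ LL T ∧ (K2 K T D).Reachable (x, false) y ∧
        ld (K2 K T D) (OO D) ((r : ℝ≥0∞) + 1)⁻¹ y < 1) → M2.S 0 (x, false) ≠ (x, false))
    with hGd
  have hall : ∀ᵐ b ∂ν, Gd b := by
    refine ae_Cq hq e ?_
    filter_upwards [hdL, hdR, hsl, (ae_dbl.1 hM1).1] with x h1 h2 h3 h4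
    exact ⟨⟨h1, h2, h3⟩, fun h5 h6 => h4 h5 (fun h => absurd h.1 (by simp)) h6⟩
  set N := toMeasurable ν {b | ¬ Gd b} with hN
  have hNν : ν N = 0 := by
    rw [hN, measure_toMeasurable]
    exact hall
  have hNg : ∀ b ∉ N, Gd b := by
    intro b hb
    by_contra h
    exact hb (subset_toMeasurable ν _ h)
  set Y : Set U := Y1 \ N with hYdef
  have hYm : MeasurableSet Y := hY1m.diff (measurableSet_toMeasurable _ _)
  have hYν : ν Y ≠ 0 := by
    rw [hYdef, measure_sdiff_null hNν]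
    exact hY1ν
  set ψ : U → U := fun x => (M2.S 0 (x, false)).1 with hψ
  set g : U → U := fun y => ψ (s y) with hgdef
  set h : U → U := fun z => s (ψ z) with hhdef
  set Γ : Set U := {y | y ∈ NF K L s ∧ Gd y} with hΓ
  have hGdC : ∀ b x, x ∈ Cm e b → Gd b → Gd x := by
    intro b x hx hb y hy
    exact hb y (Cm_trans hx hy)
  -- one step
  have hstep : ∀ y ∈ Γ, M2.S 0 (s y, false) = (g y, false) ∧ K.Adj (s y) (g y) ∧ g y ∈ Γ ∧
      M2.S 0 (g y, false) = (s y, false) := by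
    rintro y ⟨hy, hyG⟩
    have hxT : s y ∈ T := nf_tt hs2 hy
    have hxC : s y ∈ Cm e y := hsC y y (Cm_self e y)
    have hb : ∀ x ∈ Cm e y, (x ∈ L → dg K x = r) ∧ (x ∉ L → dg K x ≤ r) ∧
      (x ∈ L → ∃ y, y ∉ L ∧ K.Reachable x y ∧ dg K y < r) := fun x hx => (hyG x hx).1
    obtain ⟨z, hz, hz1, hz2⟩ := hreach y hb (s y) hxC hxT
    have h1 : M2.S 0 (s y, false) ≠ (s y, false) :=
      (hyG _ hxC).2 (fun _ => hxT) ⟨(z, false), fun h => hDT z hz (h rfl), hz1,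
        (hload y hb z hz2 (hDT z hz)).2 hz⟩
    obtain ⟨h2, h3⟩ := K2_left (fun h => hDT _ h hxT) (hMa _ h1)
    have h4 : M2.S 0 (s y, false) = (g y, false) := h2
    have h5 : K.Adj (s y) (g y) := h3
    refine ⟨h4, h5, ⟨tt_nbr hbip hs2 hsa hxT h5,
      hGdC y _ (Cm_adj hl hxC (hKP h5)) hyG⟩, ?_⟩
    rw [← h4, hMi]
  have hW : Wk K L s ψ g h Y Γ := by
    refine ⟨hbip, hs2, hsa, fun y hy => (hstep y hy).2.2.1, fun y hy => ?_, ?_, ?_,
      fun y hy => hy.1.1, fun y hy => nf_ne hy.1, fun y _ => rfl, fun y hy => ?_,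
      fun y hy => (hstep y hy).2.1⟩
    · change s (M2.S 0 (g y, false)).1 = y
      rw [(hstep y hy).2.2.2]
      exact hs2 y
    · rintro y ⟨h1, h2⟩
      exact ⟨h1.1.1, hNg y h2⟩
    · rintro y hy ⟨⟨-, h1⟩, -⟩
      have h2 := (hstep y hy).2.2.2
      have h3 : M2.S 0 (g y, true) = (g y, false) := by
        rcases hMa _ h1 with ⟨h3, -, -⟩ | ⟨h3, h4, -⟩
        · exact absurd h3 (by simp)
        · refine Prod.ext h4.symm ?_
          change true ≠ (M2.S 0 (g y, true)).2 at h3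
          cases h5 : (M2.S 0 (g y, true)).2
          · rfl
          · exact absurd h5.symm h3
      have h4 := hMi (g y, true)
      rw [h3, h2] at h4
      have := congrArg Prod.snd h4
      simp at this
    · change (M2.S 0 (g y, false)).1 = s y
      rw [(hstep y hy).2.2.2]
  have hψm : Measurable ψ := measurable_fst.comp ((M2.meas 0).comp (DKP_.meas_mk false))
  have hgm : Measurable g := hψm.comp hsm
  have hhm : Measurable h := hsm.comp hψm
  -- the new matchings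
  let Mn : ℕ → PCol K 1 := fun n =>
    { S := fun _ => sw s ψ g h Y n
      meas := fun _ => Measurable.ite (ms_WW hgm hhm hYm n) measurable_id
        (Measurable.ite ((ms_AA hgm hhm hYm (n + 1)).union (hsm (ms_AA hgm hhm hYm n)))
          hψm hsm)
      invol := fun _ x => hW.invol x
      adj := fun _ x hx => hW.adj x hx
      disj := fun k k' _ _ _ => Subsingleton.elim k k' }
  have hdst : ∀ n, PCol.dst ν M (Mn n) ≤ (1 + C.toReal) * ν.real (AA g h Y n) := by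
    intro n
    have h1 := dst_le_off (ν := ν) (c := M) (c' := Mn n)
      (A := AA g h Y n ∪ M.S 0 ⁻¹' AA g h Y n) (by
        intro x hx k
        have hk : k = 0 := Subsingleton.elim _ _
        subst hk
        exact Wk.chg (fun h' => hx (Or.inl h')) fun h' => hx (Or.inr h'))
    refine h1.trans ?_
    have h2 : ν.real (M.S 0 ⁻¹' AA g h Y n) ≤ C.toReal * ν.real (AA g h Y n) :=
      real_le_of hC (qi_S hq M hKP 0 _)
    have h3 := measureReal_union_le (μ := ν) (AA g h Y n) (M.S 0 ⁻¹' AA g h Y n)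
    push_cast
    rw [one_mul]
    nlinarith
  have hlim : Tendsto (fun n => (1 + C.toReal) * ν.real (AA g h Y n)) atTop (nhds 0) := by
    have h1 : Tendsto (fun n => ν (AA g h Y n)) atTop (nhds (ν (⋂ n, AA g h Y n))) :=
      tendsto_measure_iInter_atTop (fun n => (ms_AA hgm hhm hYm n).nullMeasurableSet)
        (fun i j hij => AA_anti hij) ⟨0, measure_ne_top _ _⟩
    have h2 : (⋂ n, AA g h Y n) = ∅ := by
      ext z
      simp only [mem_iInter, mem_empty_iff_false, iff_false]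
      intro hz
      obtain ⟨j, -, hj⟩ := hz 0
      obtain ⟨j', hj', hj2⟩ := hz (j + 1)
      have := WW_disj hW.cl hW.hg hW.YΓ hW.Yg hj hj2
      omega
    rw [h2, measure_empty] at h1
    have h3 : Tendsto (fun n => ν.real (AA g h Y n)) atTop (nhds 0) := by
      have := (ENNReal.tendsto_toReal ENNReal.zero_ne_top).comp h1
      rw [ENNReal.toReal_zero] at this
      exact this
    have h4 := h3.const_mul (1 + C.toReal)
    rwa [mul_zero] at h4
  have hYr : 0 < ν.real Y := by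
    rw [measureReal_def]
    exact ENNReal.toReal_pos hYν (measure_ne_top _ _)
  obtain ⟨δ, hδ, hStb'⟩ := hStb (ν.real Y) hYr
  obtain ⟨n, hn⟩ := (hlim.eventually (gt_mem_nhds hδ)).exists
  have h1 := hStb' (Mn n) (by
    filter_upwards [hcov] with x hx hxL
    exact hW.cov hxL (hx hxL)) ((hdst n).trans_lt hn)
  have h2 : Y ⊆ NF K L (M.S 0) \ NF K L ((Mn n).S 0) := by
    intro y hy
    exact ⟨(hW.YΓ hy).1, fun h' => h'.2 n (hW.lev hy)⟩
  exact absurd (measureReal_mono h2 (measure_ne_top _ _)) (not_le.2 h1)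

end Pool.Agent.MEQ
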