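import Pool.Agent.MEQ.Targets
import Pool.Agent.MEQ.Base
import Pool.Agent.MEO.DKP
import Pool.Agent.MEO.ORB

set_option autoImplicit false

/-! MP_fff3e1_lc, every Borel probability measure, target tORQ: an injection with good orbits. -/

namespace Pool.Agent.MEQ

open MeasureTheory Set Filter
open scoped ENNReal
open Pool.Agent.MEC
open Pool.Agent.MEP
open Pool.Agent.MEO

universe u

namespace ORQ_

/-! ### The flip -/

section flip

variable {V : Type u}

lemma flp_flp (p : V × Bool) : flp (flp p) = p := by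
  unfold flp
  simp

lemma flp_snd_ne (p : V × Bool) : p.2 ≠ (flp p).2 := by
  unfold flp
  cases p.2 <;> simp

lemma flp_adj (R : SimpleGraph V) (F : Set V) (p : V × Bool) : (DP R F).Adj p (flp p) :=
  Or.inr ⟨rfl, flp_snd_ne p⟩

lemma measurable_flp [MeasurableSpace V] : Measurable (flp : V × Bool → V × Bool) := by
  unfold flp
  exact measurable_fst.prodMk ((measurable_of_countable (fun i : Bool => !i)).comp
    measurable_snd)

end flip

/-! ### The load -/

lemma ld_eq {U : Type u} {K : SimpleGraph U} {L : Set U} {r : ℕ} (hdeg : ∀ x ∈ L, dg K x = r)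
    {y : U} (hf : (K.neighborSet y).Finite) (hy : ∀ x, K.Adj y x → x ∈ L) :
    ld K ∅ 1 y = (dg K y : ℝ≥0∞) / r := by
  classical
  have h1 : ld K ∅ 1 y = ∑' _ : K.neighborSet y, 1 / (r : ℝ≥0∞) := by
    unfold ld
    refine tsum_congr fun x => ?_
    rw [hdeg x (hy x x.2)]
    simp
  rw [h1, ENNReal.tsum_set_const, ← hf.cast_ncard_eq]
  unfold dg
  simp [div_eq_mul_inv]

lemma ld_le {U : Type u} {K : SimpleGraph U} {L : Set U} {r : ℕ} (hdeg : ∀ x ∈ L, dg K x = r)
    {y : U} (hf : (K.neighborSet y).Finite) (hy : ∀ x, K.Adj y x → x ∈ L)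
    (h : dg K y ≤ r) : ld K ∅ 1 y ≤ 1 := by
  rw [ld_eq hdeg hf hy]
  refine ENNReal.div_le_of_le_mul ?_
  rw [one_mul]
  exact_mod_cast h

lemma ld_lt {U : Type u} {K : SimpleGraph U} {L : Set U} {r : ℕ} (hdeg : ∀ x ∈ L, dg K x = r)
    {y : U} (hf : (K.neighborSet y).Finite) (hy : ∀ x, K.Adj y x → x ∈ L)
    (h : dg K y < r) : ld K ∅ 1 y < 1 := by
  rw [ld_eq hdeg hf hy]
  refine ENNReal.div_lt_of_lt_mul ?_
  rw [one_mul]
  exact_mod_cast h

/-! ### Strands and orbits -/

section strands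

variable {V : Type u} {s t : V → V}

lemma SG_s (hs : ∀ x, s (s x) = x) {x : V} (h : s x ≠ x) : (SG s t).Adj x (s x) :=
  ⟨h.symm, Or.inl ⟨rfl, (hs x).symm⟩⟩

lemma SG_t (ht : ∀ x, t (t x) = x) {x : V} (h : t x ≠ x) : (SG s t).Adj x (t x) :=
  ⟨h.symm, Or.inr ⟨rfl, (ht x).symm⟩⟩

/-- the bad strands are closed -/
lemma bad_cld (hs : ∀ x, s (s x) = x) (ht : ∀ x, t (t x) = x) : Cld (SG s t) (Bad s t) := by
  rintro x hx y ⟨-, ⟨rfl, -⟩ | ⟨rfl, -⟩⟩
  · exact ORB_.bad_s hs ht hx
  · exact ORB_.bad_t hs ht hx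

/-- the strands off a saturated set are closed -/
lemma sn_cld (R : SimpleGraph V) (T : Set V) : Cld R (sn R T)ᶜ := by
  rintro x hx y hxy ⟨z, hz, hyz⟩
  exact hx ⟨z, hz, hxy.reachable.trans hyz⟩

lemma cld_inter {R : SimpleGraph V} {X Y : Set V} (hX : Cld R X) (hY : Cld R Y) :
    Cld R (X ∩ Y) := fun x hx y hxy => ⟨hX x hx.1 y hxy, hY x hx.2 y hxy⟩

end strands

section orbits

variable {V : Type u} {R : SimpleGraph V} {s : V × Bool → V × Bool}

/-- the forward map -/
def fw (s : V × Bool → V × Bool) (x : V) : V := (s (x, false)).1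

/-- the backward map -/
def bw (s : V × Bool → V × Bool) (x : V) : V := (s (x, true)).1

/-- `s` changes the copy along edges of `R` -/
def Alt (R : SimpleGraph V) (s : V × Bool → V × Bool) : Prop :=
  (∀ p, s (s p) = p) ∧ ∀ p, s p ≠ p → R.Adj p.1 (s p).1 ∧ p.2 ≠ (s p).2

lemma Alt.fw_eq (h : Alt R s) {x : V} (hx : s (x, false) ≠ (x, false)) :
    s (x, false) = (fw s x, true) := by
  refine Prod.ext rfl ?_
  have h2 := (h.2 _ hx).2
  revert h2
  cases (s (x, false)).2 <;> simp

lemma Alt.bw_eq (h : Alt R s) {x : V} (hx : s (x, true) ≠ (x, true)) :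
    s (x, true) = (bw s x, false) := by
  refine Prod.ext rfl ?_
  have h2 := (h.2 _ hx).2
  revert h2
  cases (s (x, true)).2 <;> simp

lemma Alt.ne_fw (h : Alt R s) {x : V} (hx : s (x, false) ≠ (x, false)) : fw s x ≠ x :=
  fun h1 => (R.ne_of_adj (h.2 _ hx).1) h1.symm

lemma Alt.ne_bw (h : Alt R s) {x : V} (hx : s (x, true) ≠ (x, true)) : bw s x ≠ x :=
  fun h1 => (R.ne_of_adj (h.2 _ hx).1) h1.symm

lemma ne_of_fw {x : V} (hx : fw s x ≠ x) : s (x, false) ≠ (x, false) := by
  intro h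
  exact hx (congrArg Prod.fst h)

lemma ne_of_bw {x : V} (hx : bw s x ≠ x) : s (x, true) ≠ (x, true) := by
  intro h
  exact hx (congrArg Prod.fst h)

lemma Alt.fw_spec (h : Alt R s) {x : V} (hx : fw s x ≠ x) :
    R.Adj x (fw s x) ∧ bw s (fw s x) = x := by
  have h1 := ne_of_fw hx
  refine ⟨(h.2 _ h1).1, ?_⟩
  unfold bw
  rw [← h.fw_eq h1, h.1]

lemma Alt.bw_spec (h : Alt R s) {x : V} (hx : bw s x ≠ x) :
    R.Adj (bw s x) x ∧ fw s (bw s x) = x := by
  have h1 := ne_of_bw hx
  refine ⟨(h.2 _ h1).1.symm, ?_⟩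
  unfold fw
  rw [← h.bw_eq h1, h.1]

/-- strands give orbits -/
lemma Alt.reach_fst (h : Alt R s) {p q : V × Bool} (hpq : (SG s flp).Reachable p q) :
    (FG (fw s)).Reachable p.1 q.1 := by
  obtain ⟨w⟩ := hpq
  induction w with
  | nil => exact SimpleGraph.Reachable.refl _
  | @cons a b d hab w ih =>
    refine SimpleGraph.Reachable.trans ?_ ih
    obtain ⟨hne, ⟨h1, h2⟩ | ⟨h1, -⟩⟩ := hab
    · have h3 : s a ≠ a := fun h' => hne (by rw [h1, h'])
      obtain ⟨a1, a2⟩ := a
      cases a2 with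
      | false =>
        have h4 := h.ne_fw h3
        have h5 : b.1 = fw s a1 := by rw [h1]; rfl
        rw [h5]
        exact SimpleGraph.Adj.reachable ⟨h4.symm, Or.inl rfl⟩
      | true =>
        have h4 := h.ne_bw h3
        have h5 : b.1 = bw s a1 := by rw [h1]; rfl
        rw [h5]
        exact SimpleGraph.Adj.reachable ⟨h4.symm, Or.inr (h.bw_spec h4).2.symm⟩
    · rw [h1]
      exact SimpleGraph.Reachable.refl _

/-- the two copies of a point are on the same strand -/
lemma reach_copy (x : V) (i j : Bool) : (SG s flp).Reachable (x, i) (x, j) := by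
  by_cases hij : i = j
  · rw [hij]
  · have h1 : (x, j) = flp (x, i) := by
      unfold flp
      cases i <;> cases j <;> simp_all
    rw [h1]
    refine (SG_t flp_flp ?_).reachable
    intro h
    exact flp_snd_ne (x, i) (congrArg Prod.snd h).symm

/-- orbits give strands -/
lemma Alt.reach_up (h : Alt R s) {x y : V} (hxy : (FG (fw s)).Reachable x y) (i j : Bool) :
    (SG s flp).Reachable (x, i) (y, j) := by
  have key : ∀ a : V, fw s a ≠ a → (SG s flp).Reachable (a, false) (fw s a, true) := by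
    intro a ha
    have h1 := ne_of_fw ha
    rw [← h.fw_eq h1]
    exact (SG_s h.1 h1).reachable
  obtain ⟨w⟩ := hxy
  induction w generalizing i with
  | nil => exact reach_copy _ i j
  | @cons a b d hab w ih =>
    obtain ⟨hne, h1 | h1⟩ := hab
    · have h2 : fw s a ≠ a := fun h' => hne (by rw [h1, h'])
      have h3 := key a h2
      rw [← h1] at h3
      exact (reach_copy a i false).trans (h3.trans (ih true))
    · have h2 : fw s b ≠ b := fun h' => hne (by rw [h1, h'])
      have h3 := key b h2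
      rw [← h1] at h3
      exact (reach_copy a i true).trans (h3.symm.trans (ih false))

/-- the points of the transversal -/
def dn (T : Set (V × Bool)) : Set V := {x | (x, false) ∈ T ∨ (x, true) ∈ T}

lemma mem_dn {T : Set (V × Bool)} {x : V} : x ∈ dn T ↔ ∃ i, (x, i) ∈ T := by
  constructor
  · rintro (h | h)
    · exact ⟨_, h⟩
    · exact ⟨_, h⟩
  · rintro ⟨i, h⟩
    cases i with
    | false => exact Or.inl h
    | true => exact Or.inr h

lemma Alt.pt (h : Alt R s) {T : Set (V × Bool)} (hT : PT (SG s flp) T) :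
    PT (FG (fw s)) (dn T) := by
  intro x hx y hy hxy
  obtain ⟨i, hi⟩ := mem_dn.1 hx
  obtain ⟨j, hj⟩ := mem_dn.1 hy
  exact congrArg Prod.fst (hT _ hi _ hj (h.reach_up hxy i j))

lemma Alt.sn (h : Alt R s) {T : Set (V × Bool)} {x : V} {i : Bool}
    (hx : (x, i) ∈ sn (SG s flp) T) : x ∈ sn (FG (fw s)) (dn T) := by
  obtain ⟨q, hq, hxq⟩ := hx
  exact ⟨q.1, mem_dn.2 ⟨q.2, hq⟩, h.reach_fst hxq⟩

/-- a point whose orbit is infinite in both directions and not periodic is on a bad strand -/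
lemma Alt.bad (h : Alt R s) {x : V} (h1 : ∀ n, bw s ((bw s)^[n] x) ≠ (bw s)^[n] x)
    (h2 : ∀ n, fw s ((fw s)^[n] x) ≠ (fw s)^[n] x) (h3 : ∀ p, 1 ≤ p → (bw s)^[p] x ≠ x) :
    (x, true) ∈ Bad s flp := by
  have hb : ∀ n, s ((bw s)^[n] x, true) = ((bw s)^[n + 1] x, false) := by
    intro n
    rw [Function.iterate_succ_apply']
    exact h.bw_eq (ne_of_bw (h1 n))
  have hf : ∀ n, s ((fw s)^[n] x, false) = ((fw s)^[n + 1] x, true) := by
    intro n
    rw [Function.iterate_succ_apply']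
    exact h.fw_eq (ne_of_fw (h2 n))
  have hodd : ∀ n, ¬ Even (2 * n + 1) := by
    intro n
    rw [Nat.even_add_one]
    exact not_not.2 (even_two_mul n)
  have hA : ∀ n, al s flp (2 * n) (x, true) = ((bw s)^[n] x, true) := by
    intro n
    induction n with
    | zero => rfl
    | succ n ih =>
      have e1 : 2 * (n + 1) = (2 * n + 1) + 1 := by ring
      rw [e1, al_last_odd s flp (hodd n), al_last_even s flp (even_two_mul n), ih, hb]
      rfl
  have hB : ∀ n, al s flp (2 * n + 1) (x, true) = ((bw s)^[n + 1] x, false) := by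
    intro n
    rw [al_last_even s flp (even_two_mul n), hA, hb]
  have hC : ∀ n, al flp s (2 * n) (x, true) = ((fw s)^[n] x, true) := by
    intro n
    induction n with
    | zero => rfl
    | succ n ih =>
      have e1 : 2 * (n + 1) = (2 * n + 1) + 1 := by ring
      rw [e1, al_last_odd flp s (hodd n), al_last_even flp s (even_two_mul n), ih]
      exact hf n
  have hD : ∀ n, al flp s (2 * n + 1) (x, true) = ((fw s)^[n] x, false) := by
    intro n
    rw [al_last_even flp s (even_two_mul n), hC]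
    rfl
  rw [Bad_iff]
  refine ⟨?_, ?_, ?_⟩
  · intro n
    rcases Nat.even_or_odd' n with ⟨k, rfl | rfl⟩
    · rw [hA, hB]
      intro h'
      exact absurd (congrArg Prod.snd h') (by simp)
    · have e1 : 2 * k + 1 + 1 = 2 * (k + 1) := by ring
      rw [e1, hA, hB]
      intro h'
      exact absurd (congrArg Prod.snd h') (by simp)
  · intro n
    rcases Nat.even_or_odd' n with ⟨k, rfl | rfl⟩
    · rw [hC, hD]
      intro h'
      exact absurd (congrArg Prod.snd h') (by simp)
    · have e1 : 2 * k + 1 + 1 = 2 * (k + 1) := by ring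
      rw [e1, hC, hD]
      intro h'
      exact absurd (congrArg Prod.snd h') (by simp)
  · intro p hp h'
    rw [hA] at h'
    exact h3 p hp (congrArg Prod.fst h')

end orbits

/-! ### Measurability of the strand graph -/

lemma measurableSet_SG {U : Type u} [MeasurableSpace U] [StandardBorelSpace U] {s t : U → U}
    (hs : Measurable s) (ht : Measurable t) :
    MeasurableSet {p : U × U | (SG s t).Adj p.1 p.2} := by
  have h1 : {p : U × U | (SG s t).Adj p.1 p.2} = {p : U × U | p.1 = p.2}ᶜ ∩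
      (({p : U × U | p.2 = s p.1} ∩ {p : U × U | p.1 = s p.2}) ∪
        ({p : U × U | p.2 = t p.1} ∩ {p : U × U | p.1 = t p.2})) := by
    ext p
    rfl
  rw [h1]
  refine (measurableSet_eq_fun measurable_fst measurable_snd).compl.inter
    (((measurableSet_eq_fun measurable_snd (hs.comp measurable_fst)).inter
      (measurableSet_eq_fun measurable_fst (hs.comp measurable_snd))).union
    ((measurableSet_eq_fun measurable_snd (ht.comp measurable_fst)).inter
      (measurableSet_eq_fun measurable_fst (ht.comp measurable_snd))))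

end ORQ_

open ORQ_

theorem allORQ (h_QDB : tQDB.{u}) (h_HALL : tHALL.{u}) (h_BDQ : tBDQ.{u}) (h_LO2 : tLO2.{u})
    (h_GEQ : tGEQ.{u}) (h_NSN : tNSN.{u}) (h_BDN : tBDN.{u}) (h_SMO : tSMO.{u})
    (h_MES : tMES.{u}) : tORQ.{u} := by
  intro V _ _ G m e ν _ C r R hLab hQ hC hr hRG hRm hdeg hsl
  classical
  have hfinD : IsFiniteMeasure (dbl ν) := ORB_.fin_dbl ν
  have hdm : ∀ j, MeasurableSet {x | dg R x = j} := ((h_MES V G m m e e hLab).2.1 R hRG hRm).1
  have hF := hdm r
  set K := DK R {x | dg R x = r} with hK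
  set P := DP R {x | dg R x = r} with hP
  set L := {p : V × Bool | p.2 = false ∧ dg R p.1 = r} with hLdef
  obtain ⟨C', hC', hQD⟩ := h_QDB V G m e ν C hLab hQ hC
  have hQK : QInv K (dbl ν) C' := hQD K fun p q h => Or.inr (hRG h.1)
  have hQP : QInv P (dbl ν) C' := hQD P fun p q h => by
    rcases h with h | h
    · exact Or.inr (hRG h.1)
    · exact Or.inl h.1
  have hLabK : Lab (DKP_.eK R {x | dg R x = r} e hRm hF) := DKP_.lab_eK hLab hRG hRm hF
  have hLabP : Lab (DKP_.eP R {x | dg R x = r} e hRm hF) := DKP_.lab_eP hLab hRG hRm hF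
  set eK := DKP_.eK R {x | dg R x = r} e hRm hF with heK
  set eP := DKP_.eP R {x | dg R x = r} e hRm hF with heP
  have hKP : K ≤ P := fun p q h => Or.inl h
  have hKm := (h_MES (V × Bool) K m m eK eK hLabK).1
  have hmL : MeasurableSet L :=
    (measurable_snd (measurableSet_singleton false)).inter (measurable_fst hF)
  have hbip : ∀ x y, K.Adj x y → (x ∈ L ↔ y ∉ L) := by
    rintro ⟨x, i⟩ ⟨y, j⟩ ⟨-, h2, h3, h4⟩
    change i ≠ j at h2
    cases i <;> cases j <;> simp_all
  have hdL : ∀ x ∈ L, dg K x = r := by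
    rintro ⟨x, i⟩ ⟨h1, h2⟩
    change i = false at h1
    subst h1
    exact (DKP_.dg_left (x := x) h2).trans h2
  have hnL : ∀ y, y ∉ L → ∀ x, K.Adj y x → x ∈ L := by
    intro y hy x hyx
    by_contra hx
    exact hy ((hbip y x hyx).2 hx)
  have hfinR : ∀ x, (R.neighborSet x).Finite := fun x => fin_of_le hRG (hLab.fin x)
  have hdR : ∀ᵐ y ∂(dbl ν), y ∉ L → dg K y ≤ r := by
    rw [ORB_.ae_dbl]
    refine ⟨?_, ?_⟩
    · filter_upwards [hdeg] with x hx _
      exact (DKP_.dg_le_fst (hfinR x)).trans hx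
    · filter_upwards [hdeg] with x hx _
      exact (DKP_.dg_le_fst (hfinR x)).trans hx
  -- slack
  have hsl1 : ∀ᵐ x ∂(dbl ν), x ∈ L → ∃ y, y ∉ L ∧ K.Reachable x y ∧ dg K y < r := by
    rw [ORB_.ae_dbl]
    refine ⟨?_, Eventually.of_forall fun x h => absurd h.1 (by simp)⟩
    filter_upwards [ae_Cq hQ e hdeg, hsl] with x hx1 hx2 hxL
    obtain ⟨y, h1, h2⟩ := h_BDQ V R r hfinR hr x hxL.2
      (fun y hy => hx1 y (Cm_of_reachable hLab hRG hy)) (hx2 hxL.2)
    exact ⟨(y, true), fun h => absurd h.1 (by simp), h1, h2⟩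
  obtain ⟨M0, hM0, -⟩ := h_HALL (V × Bool) K m eK (dbl ν) C' L ∅ 1 hLabK hQK hC' hmL
    MeasurableSet.empty (empty_subset _) hbip one_ne_zero le_rfl
    (by
      filter_upwards [hdR] with y hy hyL
      exact ld_le hdL (hLabK.fin y) (hnL y hyL) (hy hyL))
    (Eventually.of_forall fun x hx => absurd hx (notMem_empty x))
  have hst : ∃ c : PCol K 1, ∀ᵐ x ∂(dbl ν), QL L x fun k => c.S k x := by
    refine ⟨M0, ?_⟩
    filter_upwards [hM0, hsl1] with x hx1 hx2 hxL
    obtain ⟨y, h1, h2, h3⟩ := hx2 hxL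
    exact hx1 hxL (notMem_empty x) ⟨y, h1, h2, ld_lt hdL (hLabK.fin y) (hnL y h1) h3⟩
  obtain ⟨hl1, hl2⟩ := h_LO2 (V × Bool) P K (m + 1) eP L flp hLabP hKP hKm hmL measurable_flp
    flp_flp fun x _ => flp_adj R _ x
  obtain ⟨M, hM, hStb⟩ := h_GEQ (V × Bool) P K (m + 1) 1 eP (dbl ν) C' hQP hC' Bool
    (fun b => if b then (fun M : PCol K 1 => NF K L (M.S 0)) else
      (fun M : PCol K 1 => Bad (M.S 0) flp))
    (by
      intro b
      cases b with
      | false => exact hl2
      | true => exact hl1) (QL L) hst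
  have hS1 : Stb (dbl ν) (QL L) (fun M : PCol K 1 => NF K L (M.S 0)) M := hStb true
  have hS2 : Stb (dbl ν) (QL L) (fun M : PCol K 1 => Bad (M.S 0) flp) M := hStb false
  have hNF := h_NSN (V × Bool) P K (m + 1) r eP (dbl ν) C' L M hLabP hQP hC' hKP hKm hmL hbip hr
    (Eventually.of_forall hdL) hdR hsl1 hM hS1
  have hBD := h_BDN V G m e ν C r (m + 1) R hLab hQ hC hr hRG hRm hdeg eP M hLabP hM hS2 hNF
  -- the matching
  set s := M.S 0 with hsdef
  have hsm : Measurable s := M.meas 0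
  have hs : ∀ x, s (s x) = x := M.invol 0
  have hsa : ∀ x, s x ≠ x → K.Adj x (s x) := M.adj 0
  have hAlt : Alt R s := ⟨hs, fun p hp => ⟨(hsa p hp).1, (hsa p hp).2.1⟩⟩
  have hSGP : SG s flp ≤ P := by
    rintro x y ⟨hne, ⟨h1, -⟩ | ⟨h1, -⟩⟩
    · rw [h1]
      exact hKP (hsa x fun h => hne (by rw [h1, h]))
    · rw [h1]
      exact flp_adj R _ x
  obtain ⟨T, hTm, hTP, hTs, hTN⟩ := h_SMO (V × Bool) P (m + 1) eP (dbl ν) hLabP (SG s flp) hSGP
    (measurableSet_SG hsm measurable_flp)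
  have hBm : MeasurableSet (Bad s flp) :=
    (h_MES (V × Bool) K m m eK eK hLabK).2.2.2.2 s flp hsm measurable_flp
  have hX := hBD (Bad s flp ∩ (sn (SG s flp) T)ᶜ) inter_subset_left (hBm.inter hTs.compl)
    (cld_inter (bad_cld hs flp_flp) (sn_cld _ _))
    (fun T' hT' => hTN T' (hT'.trans inter_subset_right))
  have hX2 : ∀ᵐ x ∂(dbl ν), x ∉ Bad s flp ∩ (sn (SG s flp) T)ᶜ :=
    measure_eq_zero_iff_ae_notMem.1 hX
  refine ⟨fw s, bw s,
    measurable_fst.comp (hsm.comp (measurable_id.prodMk measurable_const)),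
    measurable_fst.comp (hsm.comp (measurable_id.prodMk measurable_const)),
    fun x hx => hAlt.fw_spec hx, fun y hy => hAlt.bw_spec hy, ?_, dn T, ?_, hAlt.pt hTP, ?_⟩
  · have h1 := (ORB_.ae_dbl.1 hM).1
    filter_upwards [h1] with x hx hr'
    exact hAlt.ne_fw (hx ⟨rfl, hr'⟩)
  · exact ((measurable_id.prodMk measurable_const) hTm).union
      ((measurable_id.prodMk measurable_const) hTm)
  · have h1 := (ORB_.ae_dbl.1 hX2).2
    filter_upwards [h1] with x hx
    by_contra hcon
    push Not at hcon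
    obtain ⟨hc1, hc2, hc3, hc4⟩ := hcon
    apply hx
    refine ⟨hAlt.bad hc1 hc2 hc3, fun h => hc4 (hAlt.sn h)⟩

end Pool.Agent.MEQ
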