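import Pool.Agent.MEQ.Targets
import Pool.Agent.MEQ.Base
import Pool.Agent.MEO.PART

set_option autoImplicit false

/-! D1: the exchanges for all options at a place, as lists of steps. -/

namespace Pool.Agent.MEQ

open MeasureTheory Set Filter
open scoped ENNReal
open Pool.Agent.MEC
open Pool.Agent.MEP
open Pool.Agent.MEO

universe u

namespace PRK_

open Pool.Agent.MEO.PART_

variable {V : Type u}

/-- a legal sequence of steps inside `C` leads from `R` to `R'` -/
def Run (G : SimpleGraph V) (l r : ℕ) (X P C : Set V) (R R' : SimpleGraph V) : Prop :=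
  ∃ σ : List (Ex V), (∀ x ∈ σ, x.a ∈ C ∧ x.v ∈ C ∧ x.b ∈ C) ∧ LegL G l r X P R σ ∧ apL R σ = R'

variable {G : SimpleGraph V} {l r : ℕ} {X P C : Set V} {R R1 R' : SimpleGraph V}

lemma Run.refl : Run G l r X P C R R :=
  ⟨[], fun _ hx => absurd hx List.not_mem_nil, trivial, rfl⟩

lemma LegL_snoc {σ : List (Ex V)} {x : Ex V} (h : LegL G l r X P R σ)
    (hx : Leg G l r X P (apL R σ) x) : LegL G l r X P R (σ ++ [x]) := by
  induction σ generalizing R with
  | nil => exact ⟨hx, trivial⟩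
  | cons y σ ih => exact ⟨h.1, ih h.2 hx⟩

lemma Run.snoc (h : Run G l r X P C R R1) {x : Ex V} (hC : x.a ∈ C ∧ x.v ∈ C ∧ x.b ∈ C)
    (hx : Leg G l r X P R1 x) : Run G l r X P C R (ap R1 x) := by
  obtain ⟨σ, h1, h2, rfl⟩ := h
  refine ⟨σ ++ [x], fun y hy => ?_, LegL_snoc h2 hx, ?_⟩
  · rcases List.mem_append.1 hy with hy | hy
    · exact h1 y hy
    · rw [List.mem_singleton.1 hy]
      exact hC
  · rw [apL_append]
    rfl

lemma Leg.monoP {Q : Set V} (hPQ : P ⊆ Q) {x : Ex V} (h : Leg G l r X P R x) :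
    Leg G l r X Q R x :=
  ⟨h.1, h.2.1, h.2.2.1, fun h0 h1 h2 => (h.2.2.2 h0 h1 h2).imp (@hPQ _) (@hPQ _)⟩

lemma LegL.monoP {Q : Set V} (hPQ : P ⊆ Q) {σ : List (Ex V)} (h : LegL G l r X P R σ) :
    LegL G l r X Q R σ := by
  induction σ generalizing R with
  | nil => exact trivial
  | cons x σ ih => exact ⟨Leg.monoP hPQ h.1, ih h.2⟩

lemma Run.monoP {Q : Set V} (hPQ : P ⊆ Q) (h : Run G l r X P C R R') :
    Run G l r X Q C R R' := by
  obtain ⟨σ, h1, h2, h3⟩ := h
  exact ⟨σ, h1, LegL.monoP hPQ h2, h3⟩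

lemma ap_le (h : R ≤ G) {x : Ex V} (hx : Leg G l r X P R x) : ap R x ≤ G := by
  obtain ⟨h0, h1, h2, -⟩ := hx
  intro y z hyz
  unfold ap at hyz
  split_ifs at hyz with hk0 hk1
  · rcases (ins_adj).1 hyz with h3 | ⟨-, ⟨rfl, rfl⟩ | ⟨rfl, rfl⟩⟩
    · exact h h3.1
    · exact (h0 hk0).2.1
    · exact (h0 hk0).2.1.symm
  · exact h hyz.1
  · have hk2 : x.kd = 2 := by omega
    rcases (ins_adj).1 hyz with h3 | ⟨-, ⟨rfl, rfl⟩ | ⟨rfl, rfl⟩⟩
    · exact h h3
    · exact (h2 hk2).1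
    · exact (h2 hk2).1.symm

lemma Run.le (h : R ≤ G) (hr : Run G l r X P C R R') : R' ≤ G := by
  obtain ⟨σ, -, h2, rfl⟩ := hr
  induction σ generalizing R with
  | nil => exact h
  | cons x σ ih => exact ih (ap_le h h2.1) h2.2

/-- the effect of the first operation -/
lemma op1 (hle : R ≤ G) (hcl : ∀ x ∈ C, ∀ y, G.Adj x y → y ∈ C)
    (hf : ∀ x, (G.neighborSet x).Finite) (hs : Run G l r X P C R R1)
    {a v b : V} (ha : a ∈ C) (hab : R1.Adj a b) (hav : G.Adj a v) (hnv : ¬ R1.Adj a v)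
    (hv : dg R1 v < r) (hb : dg G b < dg R1 b + l) (hP : a ∈ X → b ∈ X → a ∈ P) :
    ∃ R', Run G l r X P C R R' ∧ dg R' b < dg R1 b ∧
      dg R' v = dg R1 v + 1 ∧
      ∀ y, y ≠ a → y ≠ b → y ≠ v → R'.neighborSet y = R1.neighborSet y := by
  have hbv : b ≠ v := by
    rintro rfl
    exact hnv hab
  have hle1 := hs.le hle
  have hav' : a ≠ v := hav.ne
  have hdel : ¬ (del R1 a b).Adj a v := fun h => hnv h.1
  refine ⟨ap R1 ⟨0, a, v, b⟩, hs.snoc ⟨ha, hcl a ha v hav, hcl a ha b (hle1 hab)⟩ ?_,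
    ?_, ?_, ?_⟩
  · exact ⟨fun _ => ⟨hab, hav, hnv, hv, hb⟩,
      fun h => absurd h (show ¬ (0 : Fin 3) = 1 by decide),
      fun h => absurd h (show ¬ (0 : Fin 3) = 2 by decide), fun _ h1 h2 => Or.inl (hP h1 h2)⟩
  · rw [show ap R1 ⟨0, a, v, b⟩ = ins (del R1 a b) a v from if_pos rfl,
      dg_congr (nb_ins_off (del R1 a b) hab.ne.symm hbv)]
    exact dg_del_lt hab (nbfin hle1 hf b)
  · rw [show ap R1 ⟨0, a, v, b⟩ = ins (del R1 a b) a v from if_pos rfl,
      dg_ins hav' hdel, dg_congr (nb_del_off R1 hav'.symm hbv.symm)]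
    rw [nb_del_off R1 hav'.symm hbv.symm]
    exact nbfin hle1 hf v
  · intro y h1 h2 h3
    rw [show ap R1 ⟨0, a, v, b⟩ = ins (del R1 a b) a v from if_pos rfl,
      nb_ins_off _ h1 h3, nb_del_off _ h1 h2]

lemma op2 (hle : R ≤ G) (hcl : ∀ x ∈ C, ∀ y, G.Adj x y → y ∈ C)
    (hf : ∀ x, (G.neighborSet x).Finite) (hs : Run G l r X P C R R1)
    {z z' : V} (hz : z ∈ C) (h : R1.Adj z z') (h1 : dg G z < dg R1 z + l)
    (h2 : dg G z' < dg R1 z' + l) (hP : z ∈ X → z' ∈ X → z ∈ P) :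
    ∃ R', Run G l r X P C R R' ∧ dg R' z < dg R1 z ∧
      ∀ y, y ≠ z → y ≠ z' → R'.neighborSet y = R1.neighborSet y := by
  have hle1 := hs.le hle
  refine ⟨ap R1 ⟨1, z, z, z'⟩, hs.snoc ⟨hz, hz, hcl z hz z' (hle1 h)⟩ ?_, ?_, ?_⟩
  · exact ⟨fun h => absurd h (show ¬ (1 : Fin 3) = 0 by decide), fun _ => ⟨h, h1, h2⟩,
      fun h => absurd h (show ¬ (1 : Fin 3) = 2 by decide), fun _ h1 h2 => Or.inl (hP h1 h2)⟩
  · exact dg_del_lt' h (nbfin hle1 hf z)
  · exact fun _ h3 h4 => nb_del_off R1 h3 h4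

lemma op3 (hle : R ≤ G) (hcl : ∀ x ∈ C, ∀ y, G.Adj x y → y ∈ C)
    (hf : ∀ x, (G.neighborSet x).Finite) (hs : Run G l r X P C R R1)
    {z z' : V} (hz : z ∈ C) (h : G.Adj z z') (hn : ¬ R1.Adj z z') (h1 : dg R1 z < r)
    (h2 : dg R1 z' < r) :
    ∃ R', Run G l r X P C R R' ∧ dg R' z' = dg R1 z' + 1 ∧
      ∀ y, y ≠ z → y ≠ z' → R'.neighborSet y = R1.neighborSet y := by
  have hle1 := hs.le hle
  refine ⟨ap R1 ⟨2, z, z', z⟩, hs.snoc ⟨hz, hcl z hz z' h, hz⟩ ?_, ?_, ?_⟩
  · exact ⟨fun h => absurd h (show ¬ (2 : Fin 3) = 0 by decide),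
      fun h => absurd h (show ¬ (2 : Fin 3) = 1 by decide),
      fun _ => ⟨h, hn, h1, h2⟩, fun h => absurd rfl h⟩
  · exact dg_ins h.ne hn (nbfin hle1 hf z')
  · exact fun _ h3 h4 => nb_ins_off R1 h3 h4

variable {Δ k : ℕ} {ρ : V → Bool}

/-- the claim -/
def Cl (G R : SimpleGraph V) (Δ l r : ℕ) (C X : Set V) (ρ : V → Bool) (n : ℕ) (v : V) : Prop :=
  ∃ Q : Set V, Q.Subsingleton ∧ (∀ x ∈ Q, x ∈ X ∧ x ∈ C ∧ dg G x = Δ ∧ ρ x = true) ∧
    ∀ f : V → V, (∀ x ∈ Q, R.Adj x (f x)) → ∃ R', Run G l r X Q C R R' ∧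
      (ρ v = true → dg R' v < r) ∧ (ρ v = false → dg G v < dg R' v + l) ∧
      (∀ x ∈ Q, dg R' (f x) < r) ∧
      ∀ y, R'.neighborSet y ≠ R.neighborSet y →
        (y = v ∨ ∃ j < n, y ∈ TS G R Δ l r X j (ρ y)) ∧ (y ∈ X → y ∈ Q ∨ ∃ x ∈ Q, y = f x)

lemma claim (h : Hy G R Δ l r k C X ρ) : ∀ n, n < k → ∀ v ∈ C, v ∉ X → dg G v < Δ →
    v ∈ TS G R Δ l r X n (ρ v) → (∀ j < n, v ∉ TS G R Δ l r X j (ρ v)) →
    Cl G R Δ l r C X ρ n v := by
  intro n
  induction n using Nat.strong_induction_on with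
  | _ n ih =>
  intro hnk v hvC hvX hvd hvn hvm
  have hdv := h.dg v hvC
  have hlr := h.lr
  have hf := h.px.fin
  cases hρ : ρ v with
  | true =>
    rw [hρ] at hvn hvm
    by_cases h0 : dg R v < r
    · refine ⟨∅, subsingleton_empty, fun x hx => absurd hx (notMem_empty x), fun f _ => ?_⟩
      refine ⟨R, Run.refl, fun _ => h0, fun hh => ?_, ?_, ?_⟩
      · rw [hρ] at hh
        exact absurd hh (by decide)
      · exact fun x hx => absurd hx (notMem_empty x)
      · exact fun y hy => absurd rfl hy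
    rcases ts_true hvn with (h1 | h1) | ⟨j, hj, s, hs, hvs⟩
    · exact absurd h1 h0
    · exact absurd h1.1 hvX
    have hsC : s ∈ C := h.px.cl v hvC s (h.le hvs)
    have hsX : s ∉ X := fun hsX => hvX (h.Xc s hsX v hvs.symm)
    have hρs : ρ s = false := by rw [h.ad v s (h.le hvs), hρ]; rfl
    obtain ⟨j', hj', hs', hsm⟩ := ts_min hs
    by_cases hsd : dg G s < Δ
    · obtain ⟨Q, hQ1, hQ2, hQ3⟩ := ih j' (by omega) (by omega) s hsC hsX hsd
        (by rw [hρs]; exact hs') (by rw [hρs]; exact hsm)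
      refine ⟨Q, hQ1, hQ2, fun f hff => ?_⟩
      obtain ⟨R1, hR1, -, hR3, hR4, hR5⟩ := hQ3 f hff
      have hv1 : R1.neighborSet v = R.neighborSet v := by
        by_contra hc
        rcases (hR5 v hc).1 with h2 | ⟨i, hi, h2⟩
        · exact hvs.ne h2
        · rw [hρ] at h2
          exact hvm i (by omega) h2
      obtain ⟨R', hR', hR'1, hR'2⟩ := op2 h.le h.px.cl hf hR1 hvC ((adj_congr hv1 s).2 hvs)
        (by rw [dg_congr hv1]; omega) (hR3 hρs) (fun hh => absurd hh hvX)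
      refine ⟨R', hR', fun _ => ?_, fun hh => ?_, fun x hx => ?_, fun y hy => ?_⟩
      · rw [dg_congr hv1] at hR'1
        omega
      · rw [hρ] at hh
        exact absurd hh (by decide)
      · have hfx : f x ∈ X := h.Xc x (hQ2 x hx).1 (f x) (hff x hx)
        rw [dg_congr (hR'2 (f x) (fun hh => hvX (hh ▸ hfx)) (fun hh => hsX (hh ▸ hfx)))]
        exact hR4 x hx
      · by_cases hyv : y = v
        · subst hyv
          exact ⟨Or.inl rfl, fun hyX => absurd hyX hvX⟩
        by_cases hys : y = s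
        · subst hys
          exact ⟨Or.inr ⟨j', by omega, by rw [hρs]; exact hs'⟩, fun hyX => absurd hyX hsX⟩
        rw [hR'2 y hyv hys] at hy
        obtain ⟨h2, h3⟩ := hR5 y hy
        refine ⟨Or.inr ?_, h3⟩
        rcases h2 with h2 | ⟨i, hi, h2⟩
        · exact absurd h2 hys
        · exact ⟨i, by omega, h2⟩
    · have hsΔ : dg G s = Δ := le_antisymm (h.px.deg s) (not_lt.1 hsd)
      have hfs := h.full hsC hsΔ
      rcases ts_false hs' with h1 | ⟨i, hi, t, ht, hst, hnst⟩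
      · omega
      have htd : dg G t < Δ := by
        rcases h.px.ind s t hst with h2 | h2
        · omega
        · exact h2
      have htC : t ∈ C := h.px.cl s hsC t hst
      have htX : t ∉ X := h.notX (by omega) htC htd ht
      have hρt : ρ t = true := by rw [h.ad s t hst, hρs]; rfl
      obtain ⟨i', hi', ht', htm⟩ := ts_min ht
      obtain ⟨Q, hQ1, hQ2, hQ3⟩ := ih i' (by omega) (by omega) t htC htX htd
        (by rw [hρt]; exact ht') (by rw [hρt]; exact htm)
      refine ⟨Q, hQ1, hQ2, fun f hff => ?_⟩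
      obtain ⟨R1, hR1, hR2, -, hR4, hR5⟩ := hQ3 f hff
      have hvt : v ≠ t := by
        rintro rfl
        exact hvm i' (by omega) ht'
      have hv1 : R1.neighborSet v = R.neighborSet v := by
        by_contra hc
        rcases (hR5 v hc).1 with h2 | ⟨i, hi, h2⟩
        · exact hvt h2
        · rw [hρ] at h2
          exact hvm i (by omega) h2
      have hs1 : R1.neighborSet s = R.neighborSet s := by
        by_contra hc
        rcases (hR5 s hc).1 with h2 | ⟨i, hi, h2⟩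
        · exact hst.ne h2
        · rw [hρs] at h2
          exact hsm i (by omega) h2
      obtain ⟨R', hR', hR'1, -, hR'3⟩ := op1 h.le h.px.cl hf hR1 hsC
        ((adj_congr hs1 v).2 hvs.symm)
        hst (fun hh => hnst ((adj_congr hs1 t).1 hh)) (hR2 hρt) (by rw [dg_congr hv1]; omega)
        (fun _ hh => absurd hh hvX)
      refine ⟨R', hR', fun _ => ?_, fun hh => ?_, fun x hx => ?_, fun y hy => ?_⟩
      · rw [dg_congr hv1] at hR'1
        omega
      · rw [hρ] at hh
        exact absurd hh (by decide)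
      · have hfx : f x ∈ X := h.Xc x (hQ2 x hx).1 (f x) (hff x hx)
        rw [dg_congr (hR'3 (f x) (fun hh => hsX (hh ▸ hfx)) (fun hh => hvX (hh ▸ hfx))
          (fun hh => htX (hh ▸ hfx)))]
        exact hR4 x hx
      · by_cases hyv : y = v
        · subst hyv
          exact ⟨Or.inl rfl, fun hyX => absurd hyX hvX⟩
        by_cases hys : y = s
        · subst hys
          exact ⟨Or.inr ⟨j', by omega, by rw [hρs]; exact hs'⟩, fun hyX => absurd hyX hsX⟩
        by_cases hyt : y = t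
        · subst hyt
          exact ⟨Or.inr ⟨i', by omega, by rw [hρt]; exact ht'⟩, fun hyX => absurd hyX htX⟩
        rw [hR'3 y hys hyv hyt] at hy
        obtain ⟨h2, h3⟩ := hR5 y hy
        refine ⟨Or.inr ?_, h3⟩
        rcases h2 with h2 | ⟨i, hi, h2⟩
        · exact absurd h2 hyt
        · exact ⟨i, by omega, h2⟩
  | false =>
    rw [hρ] at hvn hvm
    by_cases h0 : dg G v < dg R v + l
    · refine ⟨∅, subsingleton_empty, fun x hx => absurd hx (notMem_empty x), fun f _ => ?_⟩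
      refine ⟨R, Run.refl, fun hh => ?_, fun _ => h0, ?_, ?_⟩
      · rw [hρ] at hh
        exact absurd hh (by decide)
      · exact fun x hx => absurd hx (notMem_empty x)
      · exact fun y hy => absurd rfl hy
    rcases ts_false hvn with h1 | ⟨j, hj, t, ht, hvt, hnvt⟩
    · exact absurd h1 h0
    have htC : t ∈ C := h.px.cl v hvC t hvt
    have hρt : ρ t = true := by rw [h.ad v t hvt, hρ]; rfl
    by_cases htd : dg G t < Δ
    · have htX : t ∉ X := h.notX (by omega) htC htd ht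
      obtain ⟨j', hj', ht', htm⟩ := ts_min ht
      obtain ⟨Q, hQ1, hQ2, hQ3⟩ := ih j' (by omega) (by omega) t htC htX htd
        (by rw [hρt]; exact ht') (by rw [hρt]; exact htm)
      refine ⟨Q, hQ1, hQ2, fun f hff => ?_⟩
      obtain ⟨R1, hR1, hR2, -, hR4, hR5⟩ := hQ3 f hff
      have hv1 : R1.neighborSet v = R.neighborSet v := by
        by_contra hc
        rcases (hR5 v hc).1 with h2 | ⟨i, hi, h2⟩
        · exact hvt.ne h2
        · rw [hρ] at h2
          exact hvm i (by omega) h2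
      obtain ⟨R', hR', hR'1, hR'2⟩ := op3 h.le h.px.cl hf hR1 htC hvt.symm
        (fun hh => hnvt ((adj_congr hv1 t).1 hh.symm)) (hR2 hρt)
        (by rw [dg_congr hv1]; omega)
      refine ⟨R', hR', fun hh => ?_, fun _ => ?_, fun x hx => ?_, fun y hy => ?_⟩
      · rw [hρ] at hh
        exact absurd hh (by decide)
      · rw [dg_congr hv1] at hR'1
        omega
      · have hfx : f x ∈ X := h.Xc x (hQ2 x hx).1 (f x) (hff x hx)
        rw [dg_congr (hR'2 (f x) (fun hh => htX (hh ▸ hfx)) (fun hh => hvX (hh ▸ hfx)))]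
        exact hR4 x hx
      · by_cases hyv : y = v
        · subst hyv
          exact ⟨Or.inl rfl, fun hyX => absurd hyX hvX⟩
        by_cases hyt : y = t
        · subst hyt
          exact ⟨Or.inr ⟨j', by omega, by rw [hρt]; exact ht'⟩, fun hyX => absurd hyX htX⟩
        rw [hR'2 y hyt hyv] at hy
        obtain ⟨h2, h3⟩ := hR5 y hy
        refine ⟨Or.inr ?_, h3⟩
        rcases h2 with h2 | ⟨i, hi, h2⟩
        · exact absurd h2 hyt
        · exact ⟨i, by omega, h2⟩
    have htΔ : dg G t = Δ := le_antisymm (h.px.deg t) (not_lt.1 htd)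
    have hft := h.full htC htΔ
    by_cases htX : t ∈ X
    · refine ⟨{t}, subsingleton_singleton, fun x hx => ?_, fun f hff => ?_⟩
      · rw [mem_singleton_iff.1 hx]
        exact ⟨htX, htC, htΔ, hρt⟩
      have hadj : R.Adj t (f t) := hff t rfl
      have hfX : f t ∈ X := h.Xc t htX (f t) hadj
      have hfd : dg G (f t) < Δ := by
        rcases h.px.ind t (f t) (h.le hadj) with h2 | h2
        · omega
        · exact h2
      have hfr := h.Xr (f t) hfX
      have hρf : ρ (f t) = false := by rw [h.ad t (f t) (h.le hadj), hρt]; rfl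
      obtain ⟨R', hR', hR'1, hR'2, hR'3⟩ := op1 (l := l) (r := r) (X := X) (P := {t}) (R := R)
        (R1 := R) h.le h.px.cl hf
        Run.refl htC hadj hvt.symm (fun hh => hnvt hh.symm) (by omega)
        (by omega) (fun _ _ => rfl)
      refine ⟨R', hR', fun hh => ?_, fun _ => ?_, fun x hx => ?_, fun y hy => ?_⟩
      · rw [hρ] at hh
        exact absurd hh (by decide)
      · omega
      · rw [mem_singleton_iff.1 hx]
        omega
      · by_cases hyv : y = v
        · subst hyv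
          exact ⟨Or.inl rfl, fun hyX => absurd hyX hvX⟩
        by_cases hyt : y = t
        · subst hyt
          exact ⟨Or.inr ⟨j, by omega, by rw [hρt]; exact ht⟩, fun _ => Or.inl rfl⟩
        by_cases hyf : y = f t
        · subst hyf
          refine ⟨Or.inr ⟨0, by omega, ?_⟩, fun _ => Or.inr ⟨t, rfl, rfl⟩⟩
          rw [hρf]
          change dg G (f t) < dg R (f t) + l
          omega
        exact absurd (hR'3 y hyt hyf hyv) hy
    · obtain ⟨j', hj', ht', htm⟩ := ts_min ht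
      rcases ts_true ht' with (h1 | h1) | ⟨i, hi, s, hs, hts⟩
      · omega
      · exact absurd h1.1 htX
      have hsC : s ∈ C := h.px.cl t htC s (h.le hts)
      have hsX : s ∉ X := fun hsX => htX (h.Xc s hsX t hts.symm)
      have hsd : dg G s < Δ := by
        rcases h.px.ind t s (h.le hts) with h2 | h2
        · omega
        · exact h2
      have hρs : ρ s = false := by rw [h.ad t s (h.le hts), hρt]; rfl
      obtain ⟨i', hi', hs', hsm⟩ := ts_min hs
      obtain ⟨Q, hQ1, hQ2, hQ3⟩ := ih i' (by omega) (by omega) s hsC hsX hsd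
        (by rw [hρs]; exact hs') (by rw [hρs]; exact hsm)
      refine ⟨Q, hQ1, hQ2, fun f hff => ?_⟩
      obtain ⟨R1, hR1, -, hR3, hR4, hR5⟩ := hQ3 f hff
      have hvs : v ≠ s := by
        rintro rfl
        exact hvm i' (by omega) hs'
      have hv1 : R1.neighborSet v = R.neighborSet v := by
        by_contra hc
        rcases (hR5 v hc).1 with h2 | ⟨i, hi, h2⟩
        · exact hvs h2
        · rw [hρ] at h2
          exact hvm i (by omega) h2
      have ht1 : R1.neighborSet t = R.neighborSet t := by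
        by_contra hc
        rcases (hR5 t hc).1 with h2 | ⟨i, hi, h2⟩
        · exact hts.ne h2
        · rw [hρt] at h2
          exact htm i (by omega) h2
      obtain ⟨R', hR', hR'1, hR'2, hR'3⟩ := op1 h.le h.px.cl hf hR1 htC ((adj_congr ht1 s).2 hts)
        hvt.symm (fun hh => hnvt ((adj_congr ht1 v).1 hh).symm) (by rw [dg_congr hv1]; omega)
        (hR3 hρs) (fun hh => absurd hh htX)
      refine ⟨R', hR', fun hh => ?_, fun _ => ?_, fun x hx => ?_, fun y hy => ?_⟩
      · rw [hρ] at hh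
        exact absurd hh (by decide)
      · rw [dg_congr hv1] at hR'2
        omega
      · have hfx : f x ∈ X := h.Xc x (hQ2 x hx).1 (f x) (hff x hx)
        rw [dg_congr (hR'3 (f x) (fun hh => htX (hh ▸ hfx)) (fun hh => hsX (hh ▸ hfx))
          (fun hh => hvX (hh ▸ hfx)))]
        exact hR4 x hx
      · by_cases hyv : y = v
        · subst hyv
          exact ⟨Or.inl rfl, fun hyX => absurd hyX hvX⟩
        by_cases hys : y = s
        · subst hys
          exact ⟨Or.inr ⟨i', by omega, by rw [hρs]; exact hs'⟩, fun hyX => absurd hyX hsX⟩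
        by_cases hyt : y = t
        · subst hyt
          exact ⟨Or.inr ⟨j', by omega, by rw [hρt]; exact ht'⟩, fun hyX => absurd hyX htX⟩
        rw [hR'3 y hyt hys hyv] at hy
        obtain ⟨h2, h3⟩ := hR5 y hy
        refine ⟨Or.inr ?_, h3⟩
        rcases h2 with h2 | ⟨i, hi, h2⟩
        · exact absurd h2 hys
        · exact ⟨i, by omega, h2⟩


end PRK_

open PRK_ in
open Pool.Agent.MEO.PART_ in
theorem allPRK : tPRK.{u} := by
  intro V G Δ l r C px lr l1 r1 R X hle hdg hXr hXc hXw b hbX hbC hbΔ hbT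
  classical
  have hex : ∃ n, ∃ x ∈ X, x ∈ C ∧ dg G x = Δ ∧ x ∈ TS G R Δ l r X n false := by
    obtain ⟨n, hn⟩ := hbT
    exact ⟨n, b, hbX, hbC, hbΔ, hn⟩
  obtain ⟨k, ⟨p, hpX, hpC, hpΔ, hpT⟩, hkm⟩ :
      ∃ k, (∃ x ∈ X, x ∈ C ∧ dg G x = Δ ∧ x ∈ TS G R Δ l r X k false) ∧
        ∀ j < k, ¬ ∃ x ∈ X, x ∈ C ∧ dg G x = Δ ∧ x ∈ TS G R Δ l r X j false :=
    ⟨Nat.find hex, Nat.find_spec hex, fun j hj => Nat.find_min hex hj⟩
  obtain ⟨χ, hχ⟩ := px.bip
  have h : Hy G R Δ l r k C X (fun y => χ y != χ p) :=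
    { px := px, lr := lr, r1 := r1, le := hle, dg := hdg, Xr := hXr, Xc := hXc, Xw := hXw
      ad := by
        intro x y hxy
        have := hχ x y hxy
        revert this
        cases χ x <;> cases χ y <;> cases χ p <;> decide
      km := fun x hx hxC hxd j hj hT => hkm j hj ⟨x, hx, hxC, hxd, hT⟩ }
  have hρp : (fun y => χ y != χ p) p = false := by simp
  generalize hρ : (fun y => χ y != χ p) = ρ at h hρp
  clear hρ hχ
  have hfp := h.full hpC hpΔ
  rcases ts_false hpT with h1 | ⟨j, hj, t, ht, hpt, hnpt⟩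
  · omega
  have htd : dg G t < Δ := by
    rcases px.ind p t hpt with h2 | h2
    · omega
    · exact h2
  have htC : t ∈ C := px.cl p hpC t hpt
  have htX : t ∉ X := h.notX (by omega) htC htd ht
  have hρt : ρ t = true := by rw [h.ad p t hpt, hρp]; rfl
  obtain ⟨j', hj', ht', htm⟩ := ts_min ht
  obtain ⟨Q, hQ1, hQ2, hQ3⟩ := PRK_.claim h j' (by omega) t htC htX htd
    (by rw [hρt]; exact ht') (by rw [hρt]; exact htm)
  obtain ⟨q, hqX, hqC, hqQ, hQq⟩ : ∃ q ∈ X, q ∈ C ∧ (q = p ∨ q ∈ Q) ∧ ∀ x ∈ Q, x = q := by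
    rcases Q.eq_empty_or_nonempty with hQ | ⟨q, hq⟩
    · subst hQ
      exact ⟨p, hpX, hpC, Or.inl rfl, fun x hx => absurd hx (notMem_empty x)⟩
    · exact ⟨q, (hQ2 q hq).1, (hQ2 q hq).2.1, Or.inr hq, fun x hx => hQ1 hx hq⟩
  refine ⟨p, hpX, q, hqX, hpC, hqC, fun f hfp' hfq' => ?_⟩
  have hff : ∀ x ∈ Q, R.Adj x (f x) := fun x hx => by rw [hQq x hx]; exact hfq'
  obtain ⟨R1, hR1, hR2, -, hR4, hR5⟩ := hQ3 f hff
  have hρfp : ρ (f p) = true := by rw [h.ad p (f p) (hle hfp'), hρp]; rfl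
  have hfpX : f p ∈ X := hXc p hpX (f p) hfp'
  have hfpd : dg G (f p) < Δ := by
    rcases px.ind p (f p) (hle hfp') with h2 | h2
    · omega
    · exact h2
  have hp1 : R1.neighborSet p = R.neighborSet p := by
    by_contra hc
    rcases (hR5 p hc).1 with h2 | ⟨i, hi, h2⟩
    · exact hpt.ne h2
    · rw [hρp] at h2
      exact h.km p hpX hpC hpΔ i (by omega) h2
  have hfp1 : R1.neighborSet (f p) = R.neighborSet (f p) := by
    by_contra hc
    rcases (hR5 (f p) hc).2 hfpX with h2 | ⟨x, hx, h2⟩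
    · have := (hQ2 _ h2).2.2.1
      omega
    · have h3 := h.ad x (f x) (hle (hff x hx))
      rw [← h2, hρfp, (hQ2 x hx).2.2.2] at h3
      exact absurd h3 (by decide)
  have hfpr := hXr (f p) hfpX
  have hQP : Q ⊆ {p, q} := fun x hx => by
    rw [hQq x hx]
    exact Or.inr rfl
  obtain ⟨R', hR', hR'1, -, hR'3⟩ := op1 hle px.cl px.fin (hR1.monoP hQP) hpC
    ((adj_congr hp1 (f p)).2 hfp') hpt (fun hh => hnpt ((adj_congr hp1 t).1 hh)) (hR2 hρt)
    (by rw [dg_congr hfp1]; omega) (fun _ _ => Or.inl rfl)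
  rw [dg_congr hfp1] at hR'1
  have hRfp : dg R' (f p) < r := by omega
  obtain ⟨σ, hσ1, hσ2, hσ3⟩ := hR'
  refine ⟨σ, hσ1, hσ2, by rw [hσ3]; exact hRfp, ?_⟩
  rw [hσ3]
  rcases hqQ with rfl | hqQ
  · exact hRfp
  · have hfqX : f q ∈ X := hXc q hqX (f q) hfq'
    have hρfq : ρ (f q) = false := by
      rw [h.ad q (f q) (hle hfq'), (hQ2 q hqQ).2.2.2]; rfl
    have h2 : f q ≠ p := by
      intro hh
      rcases px.ind q (f q) (hle hfq') with h3 | h3
      · have := (hQ2 q hqQ).2.2.1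
        omega
      · rw [hh] at h3
        omega
    have h3 : f q ≠ f p := by
      intro hh
      rw [hh, hρfp] at hρfq
      exact absurd hρfq (by decide)
    have h4 : f q ≠ t := fun hh => htX (hh ▸ hfqX)
    rw [dg_congr (hR'3 (f q) h2 h3 h4)]
    exact hR4 q hqQ

end Pool.Agent.MEQ
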