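import Pool.Agent.MEQ.Targets
import Pool.Agent.MEQ.Base

set_option autoImplicit false

/-! A10: quasi-invariance of the doubled measure. -/

namespace Pool.Agent.MEQ

open MeasureTheory Set Filter
open scoped ENNReal
open Pool.Agent.MEC
open Pool.Agent.MEP
open Pool.Agent.MEO

universe u

namespace QDB_

variable {V : Type u} [MeasurableSpace V] {G : SimpleGraph V} {m : ℕ} {e : PCol G m}
  {ν : Measure V} {C : ℝ≥0∞}

lemma meas_mk (i : Bool) : Measurable fun x : V => (x, i) :=
  measurable_id.prodMk measurable_const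

lemma dbl_apply {B : Set (V × Bool)} (hB : MeasurableSet B) :
    dbl ν B = ν {x | (x, false) ∈ B} + ν {x | (x, true) ∈ B} := by
  unfold dbl
  rw [Measure.add_apply, Measure.map_apply (meas_mk false) hB,
    Measure.map_apply (meas_mk true) hB]
  rfl

/-- the points of one copy which are moved into `B` -/
lemma half_le (hl : Lab e) (hq : QInv G ν C) {S : V × Bool → V × Bool}
    (hS : ∀ p, (S p).1 = p.1 ∨ G.Adj p.1 (S p).1) (B : Set (V × Bool)) (i : Bool) :
    ν {x | S (x, i) ∈ B} ≤
      (1 + m * C) * (ν {x | (x, false) ∈ B} + ν {x | (x, true) ∈ B}) := by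
  have key : ∀ j : Bool, ν ({x | (x, j) ∈ B} ∪ ⋃ k, e.S k ⁻¹' {x | (x, j) ∈ B}) ≤
      (1 + m * C) * ν {x | (x, j) ∈ B} := by
    intro j
    refine (measure_union_le _ _).trans ?_
    rw [add_mul, one_mul]
    gcongr
    refine (measure_iUnion_fintype_le ν _).trans ?_
    refine (Finset.sum_le_sum fun k _ => qi_S hq e le_rfl k _).trans ?_
    rw [Finset.sum_const, Finset.card_univ, Fintype.card_fin, nsmul_eq_mul, mul_assoc]
  have hsub : {x | S (x, i) ∈ B} ⊆
      ({x | (x, false) ∈ B} ∪ ⋃ k, e.S k ⁻¹' {x | (x, false) ∈ B}) ∪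
      ({x | (x, true) ∈ B} ∪ ⋃ k, e.S k ⁻¹' {x | (x, true) ∈ B}) := by
    intro x hx
    have hx' : ((S (x, i)).1, (S (x, i)).2) ∈ B := hx
    have h2 : ∀ j : Bool, (S (x, i)).2 = j →
        x ∈ ({x | (x, j) ∈ B} ∪ ⋃ k, e.S k ⁻¹' {x | (x, j) ∈ B}) := by
      intro j hj
      rw [hj] at hx'
      rcases hS (x, i) with h | h
      · left
        rw [h] at hx'
        exact hx'
      · right
        obtain ⟨k, hk⟩ := hl _ _ h
        refine mem_iUnion.2 ⟨k, ?_⟩
        rw [← hk] at hx'
        exact hx'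
    cases hj : (S (x, i)).2 with
    | false => exact Or.inl (h2 false hj)
    | true => exact Or.inr (h2 true hj)
  refine (measure_mono hsub).trans ((measure_union_le _ _).trans ?_)
  rw [mul_add]
  exact add_le_add (key false) (key true)

end QDB_

open QDB_

/-- A10 -/
theorem allQDB : tQDB.{u} := by
  intro V _ _ G m e ν _ C hl hq hC
  refine ⟨2 * (1 + m * C), ?_, fun K hK S hS hS2 hSa B hB => ?_⟩
  · exact ENNReal.mul_ne_top (by norm_num)
      (ENNReal.add_ne_top.2 ⟨ENNReal.one_ne_top, ENNReal.mul_ne_top (ENNReal.natCast_ne_top m) hC⟩)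
  · have h1 : ∀ p, (S p).1 = p.1 ∨ G.Adj p.1 (S p).1 := by
      intro p
      by_cases h : S p = p
      · left
        rw [h]
      · rcases hK _ _ (hSa p h) with h | h
        · exact Or.inl h.symm
        · exact Or.inr h
    rw [dbl_apply (hS hB), dbl_apply hB, two_mul, add_mul]
    exact add_le_add (half_le hl hq h1 B false) (half_le hl hq h1 B true)

end Pool.Agent.MEQ
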