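import Pool.Agent.MEQ.Targets
import Pool.Agent.MEQ.Base
import Pool.Agent.MEO.OPS

set_option autoImplicit false

/-! MP_fff3e1_lc, project MEQ: one round of Kempe exchanges (tRND). -/

namespace Pool.Agent.MEQ

open MeasureTheory Set Filter
open scoped ENNReal
open Pool.Agent.MEC
open Pool.Agent.MEP
open Pool.Agent.MEO

universe u

namespace RND_

/-! ### Walks of two involutions -/

section walk

variable {V : Type u} {s t : V → V}

/-- after a stall a walk goes back -/
lemma refl (hs : ∀ x, s (s x) = x) (ht : ∀ x, t (t x) = x) {j n : ℕ} {z : V}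
    (hst : al s t (j + 1) z = al s t j z) (hjn : j < n) :
    (n ≤ 2 * j + 1 ∧ al s t n z = al s t (2 * j + 1 - n) z) ∨
      (2 * j + 1 ≤ n ∧ al s t n z = al t s (n - (2 * j + 1)) z) := by
  obtain ⟨i, rfl⟩ : ∃ i, n = (j + 1) + i := ⟨n - (j + 1), by omega⟩
  have key : al s t (j + 1 + i) z =
      if Even j then al t s i (al s t j z) else al s t i (al s t j z) := by
    rw [al_add, hst]
    by_cases hj : Even j
    · rw [if_neg (by rw [Nat.even_add_one]; exact not_not.2 hj), if_pos hj]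
    · rw [if_pos (by rw [Nat.even_add_one]; exact hj), if_neg hj]
  rcases Nat.le_total i j with hij | hij
  · left
    refine ⟨by omega, ?_⟩
    rw [key, al_back hs ht hij]
    congr 1
    omega
  · right
    refine ⟨by omega, ?_⟩
    rw [key]
    obtain ⟨d, rfl⟩ := Nat.exists_eq_add_of_le hij
    have e : j + 1 + (j + d) - (2 * j + 1) = d := by omega
    rw [e]
    by_cases hj : Even j
    · rw [if_pos hj, al_add_even t s hj, al_rev_even hs ht hj]
    · rw [if_neg hj, al_add_odd s t hj, al_rev_odd hs ht hj]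

/-- the shortest walk between two points of an orbit does not stall -/
lemma short (n : ℕ) : ∀ {s t : V → V}, (∀ x, s (s x) = x) → (∀ x, t (t x) = x) →
    ∀ {z b : V}, al s t n z = b →
    ∃ m, (al s t m z = b ∧ NS s t m z) ∨ (al t s m z = b ∧ NS t s m z) := by
  induction n using Nat.strong_induction_on with
  | _ n ih =>
    intro s t hs ht z b h
    rcases NS_or_stall s t n z with h1 | ⟨j, hj, h1⟩
    · exact ⟨n, Or.inl ⟨h, h1⟩⟩
    · rcases refl hs ht h1.2 hj with ⟨h2, h3⟩ | ⟨h2, h3⟩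
      · exact ih (2 * j + 1 - n) (by omega) hs ht (h3.symm.trans h)
      · obtain ⟨m, hm⟩ := ih (n - (2 * j + 1)) (by omega) ht hs (h3.symm.trans h)
        exact ⟨m, hm.symm⟩

/-- an end which is reached without a stall is the first stall -/
lemma stall_end (hs : ∀ x, s (s x) = x) (ht : ∀ x, t (t x) = x) {z b : V} {m : ℕ}
    (h : al s t m z = b) (hn : NS s t m z) (hb : s b = b ∨ t b = b) :
    (∃ m, StallAt s t m z ∧ al s t m z = b) ∨ ∃ m, StallAt t s m z ∧ al t s m z = b := by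
  rcases m with _ | m
  · have hz : z = b := h
    subst hz
    rcases hb with hb | hb
    · exact Or.inl ⟨0, ⟨fun n hn => absurd hn (Nat.not_lt_zero _), hb⟩, rfl⟩
    · exact Or.inr ⟨0, ⟨fun n hn => absurd hn (Nat.not_lt_zero _), hb⟩, rfl⟩
  · left
    have hm := hn m (by omega)
    by_cases hev : Even m
    · have hev' : ¬ Even (m + 1) := by rw [Nat.even_add_one]; exact not_not.2 hev
      rcases hb with hb | hb
      · exfalso
        rw [al_last_even s t hev] at hm h
        apply hm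
        rw [h]
        rw [← h, hs] at hb
        rw [hb, h]
      · refine ⟨m + 1, ⟨hn, ?_⟩, h⟩
        rw [al_last_odd s t hev', h, hb]
    · have hev' : Even (m + 1) := by rw [Nat.even_add_one]; exact hev
      rcases hb with hb | hb
      · refine ⟨m + 1, ⟨hn, ?_⟩, h⟩
        rw [al_last_even s t hev', h, hb]
      · exfalso
        rw [al_last_odd s t hev] at hm h
        apply hm
        rw [h]
        rw [← h, ht] at hb
        rw [hb, h]

/-- a strand has at most two ends -/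
lemma ends_le (hs : ∀ x, s (s x) = x) (ht : ∀ x, t (t x) = x) (z : V) :
    {b | t b = b ∧ ∃ n, al s t n z = b ∨ al t s n z = b}.encard ≤ 2 := by
  have h1 : {b | t b = b ∧ ∃ n, al s t n z = b ∨ al t s n z = b} ⊆
      {b | ∃ m, StallAt s t m z ∧ al s t m z = b} ∪
        {b | ∃ m, StallAt t s m z ∧ al t s m z = b} := by
    rintro b ⟨hb, n, hn | hn⟩
    · obtain ⟨m, ⟨h2, h3⟩ | ⟨h2, h3⟩⟩ := short n hs ht hn
      · exact stall_end hs ht h2 h3 (Or.inr hb)
      · exact (stall_end ht hs h2 h3 (Or.inl hb)).symm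
    · obtain ⟨m, ⟨h2, h3⟩ | ⟨h2, h3⟩⟩ := short n ht hs hn
      · exact (stall_end ht hs h2 h3 (Or.inl hb)).symm
      · exact stall_end hs ht h2 h3 (Or.inr hb)
  have h2 : ∀ s t : V → V, {b | ∃ m, StallAt s t m z ∧ al s t m z = b}.encard ≤ 1 := by
    intro s t
    rw [encard_le_one_iff]
    rintro a b ⟨m, h3, rfl⟩ ⟨m', h4, rfl⟩
    rw [h3.unique h4]
  calc _ ≤ _ := encard_le_encard h1
    _ ≤ _ := encard_union_le _ _
    _ ≤ 1 + 1 := add_le_add (h2 s t) (h2 t s)
    _ = 2 := one_add_one_eq_two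

/-- in a bipartite graph the two ends of a strand which miss different letters are on the same
side -/
lemma parity (hs : ∀ x, s (s x) = x) (ht : ∀ x, t (t x) = x) {χ : V → Bool}
    (h1 : ∀ x, s x ≠ x → χ (s x) ≠ χ x) (h2 : ∀ x, t x ≠ x → χ (t x) ≠ χ x) {z b : V}
    (hz : s z = z) (hb : t b = b) {n : ℕ} (h : al s t n z = b ∨ al t s n z = b) :
    χ z = χ b := by
  obtain ⟨m, hm⟩ : ∃ m, (al s t m z = b ∧ NS s t m z) ∨ (al t s m z = b ∧ NS t s m z) := by
    rcases h with h | h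
    · exact short n hs ht h
    · obtain ⟨m, hm⟩ := short n ht hs h
      exact ⟨m, hm.symm⟩
  rcases hm with ⟨hm, hn⟩ | ⟨hm, hn⟩
  · rcases m with _ | m
    · have : z = b := hm
      rw [this]
    · exact absurd hz (hn 0 (by omega))
  · have hside : ∀ j ≤ m, (χ (al t s j z) = χ z ↔ Even j) := by
      intro j
      induction j with
      | zero => intro _; simp
      | succ j ih =>
        intro hj
        have ih' := ih (by omega)
        have h3 := hn j (by omega)
        have h4 : χ (al t s (j + 1) z) ≠ χ (al t s j z) := by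
          by_cases hev : Even j
          · rw [al_last_even _ _ hev] at h3 ⊢
            exact h2 _ h3
          · rw [al_last_odd _ _ hev] at h3 ⊢
            exact h1 _ h3
        rw [Nat.even_add_one, ← ih']
        revert h4
        generalize χ (al t s (j + 1) z) = p
        generalize χ (al t s j z) = q
        generalize χ z = t
        revert p q t
        decide
    have hev : Even m := by
      by_contra hodd
      obtain ⟨m', rfl⟩ : ∃ m', m = m' + 1 := ⟨m - 1, by
        have : m ≠ 0 := by rintro rfl; exact hodd (by simp)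
        omega⟩
      have hev' : Even m' := by
        rw [Nat.even_add_one] at hodd
        exact not_not.1 hodd
      have h3 := hn m' (by omega)
      rw [al_last_even _ _ hev'] at h3 hm
      apply h3
      rw [hm]
      rw [← hm, ht] at hb
      rw [hb, hm]
    have := (hside m le_rfl).2 hev
    rw [← this, hm]

/-- the union of the strands of the points of `B` -/
def Yset (s t : V → V) (B : Set V) : Set V := {z | ∃ n, al s t n z ∈ B ∨ al t s n z ∈ B}

lemma Yset_comm (s t : V → V) (B : Set V) : Yset s t B = Yset t s B := by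
  ext z
  exact exists_congr fun n => or_comm

lemma Yset_self {B : Set V} {z : V} (h : z ∈ B) : z ∈ Yset s t B := ⟨0, Or.inl h⟩

lemma Yset_s (hs : ∀ x, s (s x) = x) {B : Set V} {z : V} (h : z ∈ Yset s t B) :
    s z ∈ Yset s t B := by
  obtain ⟨n, h | h⟩ := h
  · rcases n with _ | n
    · refine ⟨1, Or.inl ?_⟩
      rw [al_one, hs]
      exact h
    · exact ⟨n, Or.inr h⟩
  · refine ⟨n + 1, Or.inl ?_⟩
    rw [al_succ, hs]
    exact h

lemma Yset_t (ht : ∀ x, t (t x) = x) {B : Set V} {z : V} (h : z ∈ Yset s t B) :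
    t z ∈ Yset s t B := by
  rw [Yset_comm] at h ⊢
  exact Yset_s ht h

/-- strands of a smaller colouring are contained in strands of the larger one -/
lemma Yset_mono (hs : ∀ x, s (s x) = x) (ht : ∀ x, t (t x) = x) {s' t' : V → V}
    (h1 : ∀ x, s' x = x ∨ s' x = s x) (h2 : ∀ x, t' x = x ∨ t' x = t x) {B : Set V} :
    Yset s' t' B ⊆ Yset s t B := by
  intro z hz
  by_contra hcon
  have hs' : ∀ x ∈ (Yset s t B)ᶜ, s' x ∈ (Yset s t B)ᶜ := by
    intro x hx
    rcases h1 x with h | h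
    · rw [h]; exact hx
    · rw [h]
      intro h'
      apply hx
      have := Yset_s hs h'
      rwa [hs] at this
  have ht' : ∀ x ∈ (Yset s t B)ᶜ, t' x ∈ (Yset s t B)ᶜ := by
    intro x hx
    rcases h2 x with h | h
    · rw [h]; exact hx
    · rw [h]
      intro h'
      apply hx
      have := Yset_t ht h'
      rwa [ht] at this
  obtain ⟨n, h | h⟩ := hz
  · exact al_mem hs' ht' n hcon (Yset_self h)
  · exact al_mem ht' hs' n hcon (Yset_self h)

end walk

/-! ### Operations -/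

section ops

variable {V : Type u} {G : SimpleGraph V} {l : ℕ}

open Classical in
/-- the edges of colour `k` inside `A k` lose their colour -/
noncomputable def unA (c : PC G l) (A : Fin l → Set V) (hA : ∀ k, ∀ x ∈ A k, c.S k x ∈ A k) :
    PC G l where
  S := fun k x => if x ∈ A k then x else c.S k x
  invol := by
    intro k x
    by_cases h : x ∈ A k
    · simp only [if_pos h]
    · have h' : c.S k x ∉ A k := by
        intro h'
        apply h
        have := hA k _ h'
        rwa [c.invol] at this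
      simp only [if_neg h, if_neg h', c.invol]
  adj := by
    intro k x hx
    by_cases h : x ∈ A k
    · rw [if_pos h] at hx
      exact absurd rfl hx
    · rw [if_neg h] at hx ⊢
      exact c.adj k x hx
  disj := by
    intro k k' x h1 h2
    by_cases h : x ∈ A k
    · rw [if_pos h] at h2
      exact absurd rfl h2
    · rw [if_neg h] at h1 h2
      by_cases h' : x ∈ A k'
      · rw [if_pos h'] at h1
        exact absurd h1 h2
      · rw [if_neg h'] at h1
        exact c.disj k k' x h1 h2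

lemma unA_mem (c : PC G l) {A : Fin l → Set V} (hA : ∀ k, ∀ x ∈ A k, c.S k x ∈ A k) {k : Fin l}
    {x : V} (h : x ∈ A k) : (unA c A hA).S k x = x := if_pos h

lemma unA_not (c : PC G l) {A : Fin l → Set V} (hA : ∀ k, ∀ x ∈ A k, c.S k x ∈ A k) {k : Fin l}
    {x : V} (h : x ∉ A k) : (unA c A hA).S k x = c.S k x := if_neg h

lemma unA_or (c : PC G l) {A : Fin l → Set V} (hA : ∀ k, ∀ x ∈ A k, c.S k x ∈ A k) (k : Fin l)
    (x : V) : (unA c A hA).S k x = x ∨ (unA c A hA).S k x = c.S k x := by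
  by_cases h : x ∈ A k
  · exact Or.inl (unA_mem c hA h)
  · exact Or.inr (unA_not c hA h)

lemma RG_unA (c : PC G l) {A : Fin l → Set V} (hA : ∀ k, ∀ x ∈ A k, c.S k x ∈ A k) (x y : V) :
    (RG (unA c A hA)).Adj x y ↔ (RG c).Adj x y ∨ ∃ k, x ∈ A k ∧ c.S k x = y ∧ y ≠ x := by
  rw [RG_adj, RG_adj]
  constructor
  · rintro ⟨h1, h2⟩
    by_cases h3 : ∃ k, c.S k x = y
    · right
      obtain ⟨k, hk⟩ := h3
      refine ⟨k, ?_, hk, h1.ne'⟩
      by_contra h4
      exact h2 k (by rw [unA_not c hA h4, hk])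
    · left
      push Not at h3
      exact ⟨h1, h3⟩
  · rintro (⟨h1, h2⟩ | ⟨k, hk, rfl, h3⟩)
    · refine ⟨h1, fun k => ?_⟩
      rcases unA_or c hA k x with h | h
      · rw [h]; exact h1.ne
      · rw [h]; exact h2 k
    · refine ⟨c.adj k x h3, fun k' h4 => ?_⟩
      rcases unA_or c hA k' x with h | h
      · rw [h] at h4
        exact h3 h4.symm
      · rw [h] at h4
        have := c.disj k' k x h4 (by rw [h4]; exact h3)
        subst this
        rw [unA_mem c hA hk] at h
        exact h3 h.symm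

open Classical in
/-- the edges of the involution `s` get the colour `k` -/
noncomputable def colS (c : PC G l) (k : Fin l) (s : V → V) (hs : ∀ x, s (s x) = x)
    (h1 : ∀ x, s x ≠ x → c.S k x = x) (h2 : ∀ x, s x ≠ x → (RG c).Adj x (s x)) : PC G l where
  S := fun k' x => if k' = k ∧ s x ≠ x then s x else c.S k' x
  invol := by
    intro k' x
    by_cases h : k' = k ∧ s x ≠ x
    · have h' : k' = k ∧ s (s x) ≠ s x := ⟨h.1, by rw [hs]; exact h.2.symm⟩
      simp only [if_pos h]
      rw [if_pos h', hs]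
    · have h' : ¬ (k' = k ∧ s (c.S k' x) ≠ c.S k' x) := by
        rintro ⟨rfl, h3⟩
        have h4 := h1 _ h3
        rw [c.invol] at h4
        rw [← h4] at h3
        exact h ⟨rfl, h3⟩
      simp only [if_neg h, if_neg h', c.invol]
  adj := by
    intro k' x hx
    by_cases h : k' = k ∧ s x ≠ x
    · rw [if_pos h]
      exact (h2 x h.2).1
    · rw [if_neg h] at hx ⊢
      exact c.adj k' x hx
  disj := by
    have key : ∀ x k', s x ≠ x → s x ≠ c.S k' x := by
      intro x k' h3 h4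
      exact (h2 x h3).2 k' h4.symm
    intro a b x h3 h4
    by_cases ha : a = k ∧ s x ≠ x
    · rw [if_pos ha] at h3
      by_cases hb : b = k ∧ s x ≠ x
      · rw [ha.1, hb.1]
      · rw [if_neg hb] at h3
        exact absurd h3 (key x b ha.2)
    · rw [if_neg ha] at h3 h4
      by_cases hb : b = k ∧ s x ≠ x
      · rw [if_pos hb] at h3
        exact absurd h3.symm (key x a hb.2)
      · rw [if_neg hb] at h3
        exact c.disj a b x h3 h4

open Classical in
lemma RG_colS (c : PC G l) (k : Fin l) (s : V → V) (hs : ∀ x, s (s x) = x)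
    (h1 : ∀ x, s x ≠ x → c.S k x = x) (h2 : ∀ x, s x ≠ x → (RG c).Adj x (s x)) (x y : V) :
    (RG (colS c k s hs h1 h2)).Adj x y ↔ (RG c).Adj x y ∧ s x ≠ y := by
  rw [RG_adj, RG_adj]
  have e : ∀ k', (colS c k s hs h1 h2).S k' x = if k' = k ∧ s x ≠ x then s x else c.S k' x :=
    fun k' => rfl
  constructor
  · rintro ⟨h3, h4⟩
    refine ⟨⟨h3, fun k' h5 => ?_⟩, ?_⟩
    · have h6 := h4 k'
      rw [e] at h6
      by_cases h : k' = k ∧ s x ≠ x
      · have h7 := h1 x h.2
        rw [h.1, h7] at h5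
        exact h3.ne h5
      · rw [if_neg h] at h6
        exact h6 h5
    · intro h5
      have h6 := h4 k
      rw [e, if_pos ⟨rfl, by rw [h5]; exact h3.ne'⟩] at h6
      exact h6 h5
  · rintro ⟨⟨h3, h4⟩, h5⟩
    refine ⟨h3, fun k' h6 => ?_⟩
    rw [e] at h6
    by_cases h : k' = k ∧ s x ≠ x
    · rw [if_pos h] at h6
      exact h5 h6
    · rw [if_neg h] at h6
      exact h4 k' h6

end ops

/-! ### Measurable operations -/

section meas

variable {V : Type u} [MeasurableSpace V] {G : SimpleGraph V} {l : ℕ}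

/-- add the measurability -/
def mkM (c : PC G l) (h : ∀ k, Measurable (c.S k)) : PCol G l where
  S := c.S
  meas := h
  invol := c.invol
  adj := c.adj
  disj := c.disj

lemma toPC_mkM (c : PC G l) (h : ∀ k, Measurable (c.S k)) : toPC (mkM c h) = c := rfl

open Classical in
/-- exchange `α p` and `β p` for `p ∈ J` -/
noncomputable def sw (α β : V ≃ᵐ V) (J : Set V) (z : V) : V :=
  if α.symm z ∈ J then β (α.symm z) else if β.symm z ∈ J then α (β.symm z) else z

lemma measurable_sw (α β : V ≃ᵐ V) {J : Set V} (hJ : MeasurableSet J) :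
    Measurable (sw α β J) := by
  refine Measurable.ite (α.symm.measurable hJ) (β.measurable.comp α.symm.measurable) ?_
  exact Measurable.ite (β.symm.measurable hJ) (α.measurable.comp β.symm.measurable) measurable_id

section sw

variable {α β : V ≃ᵐ V} {J : Set V}

lemma sw_α {p : V} (hp : p ∈ J) : sw α β J (α p) = β p := by
  unfold sw
  rw [if_pos (by rwa [α.symm_apply_apply]), α.symm_apply_apply]

lemma sw_β (hd : ∀ p ∈ J, ∀ q ∈ J, α p ≠ β q) {p : V} (hp : p ∈ J) : sw α β J (β p) = α p := by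
  unfold sw
  rw [if_neg, if_pos (by rwa [β.symm_apply_apply]), β.symm_apply_apply]
  intro h
  exact hd _ h p hp (α.apply_symm_apply _)

lemma sw_cases (z : V) :
    (∃ p ∈ J, z = α p ∧ sw α β J z = β p) ∨ (∃ p ∈ J, z = β p ∧ sw α β J z = α p) ∨
      (sw α β J z = z ∧ (∀ p ∈ J, z ≠ α p) ∧ ∀ p ∈ J, z ≠ β p) := by
  by_cases h1 : α.symm z ∈ J
  · left
    refine ⟨α.symm z, h1, (α.apply_symm_apply _).symm, ?_⟩
    unfold sw
    rw [if_pos h1]
  · right
    by_cases h2 : β.symm z ∈ J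
    · left
      refine ⟨β.symm z, h2, (β.apply_symm_apply _).symm, ?_⟩
      unfold sw
      rw [if_neg h1, if_pos h2]
    · right
      refine ⟨?_, ?_, ?_⟩
      · unfold sw
        rw [if_neg h1, if_neg h2]
      · rintro p hp rfl
        exact h1 (by rwa [α.symm_apply_apply])
      · rintro p hp rfl
        exact h2 (by rwa [β.symm_apply_apply])

lemma sw_sw (hd : ∀ p ∈ J, ∀ q ∈ J, α p ≠ β q) (z : V) : sw α β J (sw α β J z) = z := by
  rcases sw_cases (α := α) (β := β) (J := J) z with ⟨p, hp, rfl, h⟩ | ⟨p, hp, rfl, h⟩ | ⟨h, -⟩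
  · rw [h, sw_β hd hp]
  · rw [h, sw_α hp]
  · rw [h, h]

end sw

lemma measurableSet_Yset {s t : V → V} (hs : Measurable s) (ht : Measurable t) {B : Set V}
    (hB : MeasurableSet B) : MeasurableSet (Yset s t B) := by
  have h1 : Yset s t B = ⋃ n, (al s t n ⁻¹' B ∪ al t s n ⁻¹' B) := by
    ext z
    simp only [mem_iUnion]
    rfl
  rw [h1]
  exact MeasurableSet.iUnion fun n =>
    (measurable_al' hs ht n hB).union (measurable_al' ht hs n hB)

/-- The edges `α p, β p` (`p ∈ J`) get the colour `k` after exchanging `k` and `h` on the strands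
of the points `β p`. -/
lemma joinM [StandardBorelSpace V] (c : PC G l) (hm : ∀ k, Measurable (c.S k)) {χ : V → Bool}
    (hχ : ∀ x y, G.Adj x y → χ x ≠ χ y) {J : Set V} (hJ : MeasurableSet J) (α β : V ≃ᵐ V)
    (k h : Fin l) (hab : ∀ p ∈ J, (RG c).Adj (α p) (β p)) (hk : ∀ p ∈ J, c.S k (α p) = α p)
    (hh : ∀ p ∈ J, c.S h (β p) = β p) (hd : ∀ p ∈ J, ∀ q ∈ J, α p ≠ β q)
    (hsep : ∀ p ∈ J, ∀ q ∈ J, α p ∈ Yset (c.S k) (c.S h) {β q} → p = q) :
    ∃ c' : PCol G l, (∀ z y, (RG (toPC c')).Adj z y ↔ (RG c).Adj z y ∧ sw α β J z ≠ y) ∧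
      ∀ z k', c'.S k' z ≠ c.S k' z → sw α β J z ≠ z ∨ z ∈ Yset (c.S k) (c.S h) (β '' J) := by
  classical
  set Y := Yset (c.S k) (c.S h) (β '' J) with hY
  have hYm : MeasurableSet Y :=
    measurableSet_Yset (hm k) (hm h) (β.measurableSet_image.2 hJ)
  have hYc : ∀ x ∈ Y, c.S k x ∈ Y ∧ c.S h x ∈ Y := fun x hx =>
    ⟨Yset_s (c.invol k) hx, Yset_t (c.invol h) hx⟩
  have hside : ∀ i x, c.S i x ≠ x → χ (c.S i x) ≠ χ x := fun i x hx =>
    (hχ _ _ (c.adj i x hx)).symm
  have hαY : ∀ p ∈ J, α p ∉ Y := by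
    rintro p hp ⟨n, hn⟩
    obtain ⟨q, hq, hn'⟩ : ∃ q ∈ J, al (c.S k) (c.S h) n (α p) = β q ∨
        al (c.S h) (c.S k) n (α p) = β q := by
      rcases hn with ⟨q, hq, hn⟩ | ⟨q, hq, hn⟩
      · exact ⟨q, hq, Or.inl hn.symm⟩
      · exact ⟨q, hq, Or.inr hn.symm⟩
    have hpq : p = q := hsep p hp q hq ⟨n, hn'⟩
    subst hpq
    exact hχ _ _ (hab p hp).1 (parity (c.invol k) (c.invol h) (hside k) (hside h) (hk p hp)
      (hh p hp) hn')
  have hβY : ∀ p ∈ J, β p ∈ Y := fun p hp => Yset_self ⟨p, hp, rfl⟩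
  set c2 := c.flip k h Y hYc with hc2
  have hRG2 : RG c2 = RG c := OPS_.RG_flip c k h Y hYc
  have h1 : ∀ x, sw α β J x ≠ x → c2.S k x = x := by
    intro x hx
    rcases sw_cases (α := α) (β := β) (J := J) x with ⟨p, hp, rfl, -⟩ | ⟨p, hp, rfl, -⟩ | ⟨h3, -⟩
    · rw [hc2, PC.flip_notMem c k h Y hYc (hαY p hp)]
      exact hk p hp
    · rw [hc2, PC.flip_left c k h Y hYc (hβY p hp)]
      exact hh p hp
    · exact absurd h3 hx
  have h2 : ∀ x, sw α β J x ≠ x → (RG c2).Adj x (sw α β J x) := by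
    intro x hx
    rw [hRG2]
    rcases sw_cases (α := α) (β := β) (J := J) x with ⟨p, hp, rfl, h3⟩ | ⟨p, hp, rfl, h3⟩ | ⟨h3, -⟩
    · rw [h3]
      exact hab p hp
    · rw [h3]
      exact (hab p hp).symm
    · exact absurd h3 hx
  have hsm := measurable_sw α β hJ
  have hm2 : ∀ k', Measurable (c2.S k') := fun k' =>
    Measurable.ite hYm (hm (Equiv.swap k h k')) (hm k')
  have hm3 : ∀ k', Measurable ((colS c2 k (sw α β J) (sw_sw hd) h1 h2).S k') := by
    intro k'
    by_cases hkk : k' = k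
    · have e : (colS c2 k (sw α β J) (sw_sw hd) h1 h2).S k' =
          fun x => if sw α β J x ≠ x then sw α β J x else c2.S k' x := by
        funext x
        by_cases h3 : sw α β J x ≠ x
        · rw [if_pos h3]
          exact if_pos ⟨hkk, h3⟩
        · rw [if_neg h3]
          exact if_neg fun h4 => h3 h4.2
      rw [e]
      refine Measurable.ite ?_ hsm (hm2 k')
      exact (measurableSet_eq_fun hsm measurable_id).compl
    · have e : (colS c2 k (sw α β J) (sw_sw hd) h1 h2).S k' = c2.S k' := by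
        funext x
        exact if_neg fun h4 => hkk h4.1
      rw [e]
      exact hm2 k'
  refine ⟨mkM _ hm3, ?_, ?_⟩
  · intro z y
    rw [toPC_mkM, RG_colS, hRG2]
  · intro z k' hz
    by_contra hcon
    push Not at hcon
    apply hz
    have e1 : (mkM _ hm3).S k' z = c2.S k' z := if_neg fun h4 => h4.2 hcon.1
    rw [e1, hc2, PC.flip_notMem c k h Y hYc hcon.2]

/-- the largest piece -/
lemma pick {ι : Type*} [Fintype ι] (μ : Measure V) {J : Set V} {B : ι → Set V}
    (hJ : J ⊆ ⋃ i, B i) (hne : J.Nonempty) : ∃ i, μ J ≤ Fintype.card ι * μ (J ∩ B i) := by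
  classical
  obtain ⟨x, hx⟩ := hne
  obtain ⟨i0, -⟩ := mem_iUnion.1 (hJ hx)
  obtain ⟨i, -, hi⟩ := Finset.exists_max_image Finset.univ (fun i => μ (J ∩ B i))
    ⟨i0, Finset.mem_univ _⟩
  refine ⟨i, ?_⟩
  have h1 : J ⊆ ⋃ i ∈ (Finset.univ : Finset ι), J ∩ B i := by
    intro y hy
    obtain ⟨j, hj⟩ := mem_iUnion.1 (hJ hy)
    simp only [mem_iUnion]
    exact ⟨j, Finset.mem_univ _, hy, hj⟩
  calc μ J ≤ μ (⋃ i ∈ (Finset.univ : Finset ι), J ∩ B i) := measure_mono h1
    _ ≤ ∑ j ∈ (Finset.univ : Finset ι), μ (J ∩ B j) := measure_biUnion_finset_le _ _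
    _ ≤ (Finset.univ : Finset ι).card • μ (J ∩ B i) := Finset.sum_le_card_nsmul _ _ _ hi
    _ = Fintype.card ι * μ (J ∩ B i) := by rw [nsmul_eq_mul, Finset.card_univ]

lemma encard_biUnion_le {ι X : Type*} (W : Finset ι) (A : ι → Set X) (d : ℕ)
    (h : ∀ w ∈ W, (A w).encard ≤ d) : (⋃ w ∈ W, A w).encard ≤ (W.card * d : ℕ) := by
  classical
  induction W using Finset.induction_on with
  | empty => simp
  | insert a W ha ih =>
    rw [Finset.set_biUnion_insert, Finset.card_insert_of_notMem ha]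
    calc _ ≤ _ := encard_union_le _ _
      _ ≤ (d : ℕ∞) + (W.card * d : ℕ) := add_le_add (h a (Finset.mem_insert_self _ _))
          (ih fun w hw => h w (Finset.mem_insert_of_mem hw))
      _ = ((W.card + 1) * d : ℕ) := by push_cast; ring

/-- Exchanges of kind 0 and 1 in one piece: `A` are the places where the edge of colour `k` is
removed first. -/
lemma main (h_THN : tTHN.{u}) (l N : ℕ) : ∃ K : ℝ≥0∞, K ≠ ⊤ ∧ ∀ (V : Type u)
    [MeasurableSpace V] [StandardBorelSpace V] (G : SimpleGraph V) (m : ℕ)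
    (e : PCol G m) (c : PCol G l) (wa wv wb : List (Fin m)) (W : Finset (List (Fin m)))
    (J : Set V) (μ : Measure V) [IsFiniteMeasure μ] (χ : V → Bool) (k h : Fin l) (z0 : Bool),
    (∀ x y, G.Adj x y → χ x ≠ χ y) → W.card ≤ N →
  wa ∈ W → wv ∈ W → wb ∈ W → MeasurableSet J → Spr e W J →
  (∀ p ∈ J, (RG (toPC c)).Adj (wd e wa p) (wd e wb p) ∧ c.S h (wd e wb p) = wd e wb p ∧
    (z0 = true → G.Adj (wd e wa p) (wd e wv p) ∧ c.S k (wd e wa p) = wd e wv p) ∧
    (z0 = false → c.S k (wd e wa p) = wd e wa p)) →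
  ∃ J' ⊆ J, MeasurableSet J' ∧ μ J ≤ K * μ J' ∧ ∃ c' : PCol G l,
    (∀ z y, (RG (toPC c')).Adj z y ↔ ((RG (toPC c)).Adj z y ∨ (z0 = true ∧ y ≠ z ∧
      ∃ p ∈ J', (z = wd e wa p ∧ y = wd e wv p) ∨ (z = wd e wv p ∧ y = wd e wa p))) ∧
      ¬ ∃ p ∈ J', (z = wd e wa p ∧ y = wd e wb p) ∨ (z = wd e wb p ∧ y = wd e wa p)) ∧
    ∀ z k, c'.S k z ≠ c.S k z → z ∈ Rgn e W J ∨ z ∈ Tch (toPC c) (Rgn e W J) := by
  classical
  obtain ⟨K, hK, hthn⟩ := h_THN (N * 2)
  refine ⟨K, hK, ?_⟩
  intro V _ _ G m e c wa wv wb W J μ _ χ k h z0 hχ hWN hwa hwv hwb hJm hspr hJ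
  set α : V ≃ᵐ V := wd e wa with hα
  set β : V ≃ᵐ V := wd e wb with hβ
  set η : V ≃ᵐ V := wd e wv with hη
  have hne : ∀ p ∈ J, α p ≠ β p := fun p hp => (hJ p hp).1.ne
  -- the conflicts
  have : Nonempty ({w // w ∈ W} × ℕ × Bool) := ⟨⟨⟨wa, hwa⟩, 0, true⟩⟩
  obtain ⟨en, hen⟩ := exists_surjective_nat ({w // w ∈ W} × ℕ × Bool)
  set θ : ℕ → V → V := fun i p => β.symm
    (if (en i).2.2 = true then al (c.S k) (c.S h) (en i).2.1 (wd e (en i).1.1 p)
      else al (c.S h) (c.S k) (en i).2.1 (wd e (en i).1.1 p)) with hθ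
  have hθm : ∀ i, Measurable (θ i) := by
    intro i
    refine β.symm.measurable.comp ?_
    by_cases hb : (en i).2.2 = true
    · simp only [if_pos hb]
      exact (measurable_al' (c.meas k) (c.meas h) _).comp (wd e _).measurable
    · simp only [if_neg hb]
      exact (measurable_al' (c.meas h) (c.meas k) _).comp (wd e _).measurable
  have hbound : ∀ x ∈ J, {y | y ∈ J ∧ y ≠ x ∧ ∃ i, θ i x = y}.encard ≤ (N * 2 : ℕ) := by
    intro x _
    have h1 : {y | y ∈ J ∧ y ≠ x ∧ ∃ i, θ i x = y} ⊆ ⋃ w ∈ W, (fun y => β y) ⁻¹'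
        {b | c.S h b = b ∧ ∃ n, al (c.S k) (c.S h) n (wd e w x) = b ∨
          al (c.S h) (c.S k) n (wd e w x) = b} := by
      rintro y ⟨hy, -, i, hi⟩
      simp only [mem_iUnion]
      refine ⟨(en i).1.1, (en i).1.2, (hJ y hy).2.1, (en i).2.1, ?_⟩
      by_cases hb : (en i).2.2 = true
      · left
        simp only [hθ, if_pos hb] at hi
        exact β.symm_apply_eq.1 hi
      · right
        simp only [hθ, if_neg hb] at hi
        exact β.symm_apply_eq.1 hi
    refine (encard_le_encard h1).trans ((encard_biUnion_le W _ 2 ?_).trans ?_)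
    · intro w _
      refine (encard_le_encard_of_injOn (f := fun y => β y) (fun y hy => hy)
        (β.injective.injOn)).trans ?_
      exact ends_le (c.invol k) (c.invol h) _
    · exact_mod_cast Nat.mul_le_mul_right 2 hWN
  obtain ⟨J', hJ'J, hJ'm, hind, hμ⟩ := hthn V μ J θ hJm hθm hbound
  refine ⟨J', hJ'J, hJ'm, hμ, ?_⟩
  -- remove the edges
  set A : Fin l → Set V := fun k' => if z0 = true ∧ k' = k then α '' J' ∪ η '' J' else ∅ with hAdef
  have hAmem : ∀ k' x, x ∈ A k' ↔ z0 = true ∧ k' = k ∧ ∃ p ∈ J', x = α p ∨ x = η p := by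
    intro k' x
    simp only [hAdef]
    by_cases hz : z0 = true ∧ k' = k
    · rw [if_pos hz]
      constructor
      · rintro (⟨p, hp, rfl⟩ | ⟨p, hp, rfl⟩)
        · exact ⟨hz.1, hz.2, p, hp, Or.inl rfl⟩
        · exact ⟨hz.1, hz.2, p, hp, Or.inr rfl⟩
      · rintro ⟨-, -, p, hp, rfl | rfl⟩
        · exact Or.inl ⟨p, hp, rfl⟩
        · exact Or.inr ⟨p, hp, rfl⟩
    · rw [if_neg hz]
      constructor
      · intro h'
        exact absurd h' (notMem_empty _)
      · rintro ⟨h1, h2, -⟩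
        exact absurd ⟨h1, h2⟩ hz
  have hkη : z0 = true → ∀ p ∈ J', c.S k (α p) = η p ∧ c.S k (η p) = α p := by
    intro hz p hp
    have h1 := ((hJ p (hJ'J hp)).2.2.1 hz).2
    exact ⟨h1, by rw [← h1, c.invol]⟩
  have hA : ∀ k', ∀ x ∈ A k', (toPC c).S k' x ∈ A k' := by
    intro k' x hx
    obtain ⟨h1, rfl, p, hp, h2⟩ := (hAmem k' x).1 hx
    refine (hAmem k' _).2 ⟨h1, rfl, p, hp, ?_⟩
    rcases h2 with rfl | rfl
    · exact Or.inr (hkη h1 p hp).1
    · exact Or.inl (hkη h1 p hp).2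
  have hAm : ∀ k', MeasurableSet (A k') := by
    intro k'
    by_cases hz : z0 = true ∧ k' = k
    · simp only [hAdef]
      rw [if_pos hz]
      exact (α.measurableSet_image.2 hJ'm).union (η.measurableSet_image.2 hJ'm)
    · simp only [hAdef]
      rw [if_neg hz]
      exact MeasurableSet.empty
  have hm1 : ∀ k', Measurable ((unA (toPC c) A hA).S k') := fun k' =>
    Measurable.ite (hAm k') measurable_id (c.meas k')
  have hor : ∀ k' x, (unA (toPC c) A hA).S k' x = x ∨ (unA (toPC c) A hA).S k' x = c.S k' x :=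
    fun k' x => unA_or (toPC c) hA k' x
  have hd : ∀ p ∈ J', ∀ q ∈ J', α p ≠ β q := by
    intro p hp q hq hpq
    have h1 : p = q := hspr p (hJ'J hp) q (hJ'J hq) wa hwa wb hwb hpq
    subst h1
    exact hne p (hJ'J hp) hpq
  have hsep : ∀ p ∈ J', ∀ q ∈ J', α p ∈ Yset ((unA (toPC c) A hA).S k)
      ((unA (toPC c) A hA).S h) {β q} → p = q := by
    intro p hp q hq h1
    obtain ⟨n, hn⟩ := Yset_mono (c.invol k) (c.invol h) (hor k) (hor h) h1
    rcases hn with hn | hn
    · obtain ⟨i, hi⟩ := hen ⟨⟨wa, hwa⟩, n, true⟩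
      have h2 : θ i p = q := by
        simp only [hθ, hi, if_true]
        rw [β.symm_apply_eq]
        exact hn
      rw [← hind p hp i (by rw [h2]; exact hq), h2]
    · obtain ⟨i, hi⟩ := hen ⟨⟨wa, hwa⟩, n, false⟩
      have h2 : θ i p = q := by
        simp only [hθ, hi]
        rw [β.symm_apply_eq]
        exact hn
      rw [← hind p hp i (by rw [h2]; exact hq), h2]
  obtain ⟨c', hadj, hchg⟩ := joinM (unA (toPC c) A hA) hm1 hχ hJ'm α β k h
    (fun p hp => (RG_unA _ hA _ _).2 (Or.inl (hJ p (hJ'J hp)).1))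
    (fun p hp => by
      by_cases hz : z0 = true
      · exact unA_mem _ hA ((hAmem k _).2 ⟨hz, rfl, p, hp, Or.inl rfl⟩)
      · rcases hor k (α p) with h1 | h1
        · exact h1
        · rw [h1]
          exact (hJ p (hJ'J hp)).2.2.2 (by simpa using hz))
    (fun p hp => by
      rcases hor h (β p) with h1 | h1
      · exact h1
      · rw [h1]
        exact (hJ p (hJ'J hp)).2.1) hd hsep
  refine ⟨c', ?_, ?_⟩
  · intro z y
    rw [hadj, RG_unA]
    have e1 : (∃ k', z ∈ A k' ∧ (toPC c).S k' z = y ∧ y ≠ z) ↔ (z0 = true ∧ y ≠ z ∧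
        ∃ p ∈ J', (z = α p ∧ y = η p) ∨ (z = η p ∧ y = α p)) := by
      constructor
      · rintro ⟨k', h1, h2, h3⟩
        obtain ⟨h4, rfl, p, hp, h5⟩ := (hAmem k' z).1 h1
        refine ⟨h4, h3, p, hp, ?_⟩
        rcases h5 with rfl | rfl
        · exact Or.inl ⟨rfl, h2.symm.trans (hkη h4 p hp).1⟩
        · exact Or.inr ⟨rfl, h2.symm.trans (hkη h4 p hp).2⟩
      · rintro ⟨h1, h2, p, hp, ⟨rfl, rfl⟩ | ⟨rfl, rfl⟩⟩
        · exact ⟨k, (hAmem k _).2 ⟨h1, rfl, p, hp, Or.inl rfl⟩, (hkη h1 p hp).1, h2⟩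
        · exact ⟨k, (hAmem k _).2 ⟨h1, rfl, p, hp, Or.inr rfl⟩, (hkη h1 p hp).2, h2⟩
    have e2 : y ≠ z → (sw α β J' z ≠ y ↔
        ¬ ∃ p ∈ J', (z = α p ∧ y = β p) ∨ (z = β p ∧ y = α p)) := by
      intro hyz
      constructor
      · rintro h1 ⟨p, hp, ⟨rfl, rfl⟩ | ⟨rfl, rfl⟩⟩
        · exact h1 (sw_α hp)
        · exact h1 (sw_β hd hp)
      · rintro h1 h2
        rcases sw_cases (α := α) (β := β) (J := J') z with ⟨p, hp, h3, h4⟩ |
          ⟨p, hp, h3, h4⟩ | ⟨h3, -⟩
        · exact h1 ⟨p, hp, Or.inl ⟨h3, h2.symm.trans h4⟩⟩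
        · exact h1 ⟨p, hp, Or.inr ⟨h3, h2.symm.trans h4⟩⟩
        · exact hyz (h2.symm.trans h3)
    rw [e1]
    constructor
    · rintro ⟨h1, h2⟩
      refine ⟨h1, (e2 ?_).1 h2⟩
      rcases h1 with h1 | h1
      · exact h1.ne'
      · exact h1.2.1
    · rintro ⟨h1, h2⟩
      refine ⟨h1, (e2 ?_).2 h2⟩
      rcases h1 with h1 | h1
      · exact h1.ne'
      · exact h1.2.1
  · intro z k' hz
    have hR : ∀ p ∈ J', ∀ w ∈ W, wd e w p ∈ Rgn e W J := fun p hp w hw =>
      ⟨p, hJ'J hp, w, hw, rfl⟩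
    by_cases h1 : c'.S k' z = (unA (toPC c) A hA).S k' z
    · left
      by_cases h2 : z ∈ A k'
      · obtain ⟨-, -, p, hp, rfl | rfl⟩ := (hAmem k' z).1 h2
        · exact hR p hp wa hwa
        · exact hR p hp wv hwv
      · exfalso
        apply hz
        rw [h1, unA_not _ hA h2]
        rfl
    · rcases hchg z k' h1 with h2 | h2
      · left
        rcases sw_cases (α := α) (β := β) (J := J') z with ⟨p, hp, rfl, -⟩ |
          ⟨p, hp, rfl, -⟩ | ⟨h3, -⟩
        · exact hR p hp wa hwa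
        · exact hR p hp wb hwb
        · exact absurd h3 h2
      · obtain ⟨n, hn⟩ := Yset_mono (c.invol k) (c.invol h) (hor k) (hor h) h2
        by_cases hkh : k = h
        · left
          subst hkh
          have key : ∀ n z, al (c.S k) (c.S k) n z = z ∨ al (c.S k) (c.S k) n z = c.S k z := by
            intro n
            induction n with
            | zero => intro z; exact Or.inl rfl
            | succ n ih =>
              intro z
              rw [al_succ]
              rcases ih (c.S k z) with h3 | h3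
              · exact Or.inr h3
              · left
                rw [h3, c.invol]
          obtain ⟨p, hp, hn'⟩ : ∃ p ∈ J', β p = al (c.S k) (c.S k) n z := by
            rcases hn with ⟨p, hp, h3⟩ | ⟨p, hp, h3⟩
            · exact ⟨p, hp, h3⟩
            · exact ⟨p, hp, h3⟩
          have h4 := (hJ p (hJ'J hp)).2.1
          have h5 : z = β p := by
            rcases key n z with h3 | h3
            · rw [hn', h3]
            · rw [h3] at hn'
              rw [← c.invol k z, ← hn']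
              exact h4
          rw [h5]
          exact hR p hp wb hwb
        · right
          rcases hn with ⟨p, hp, h3⟩ | ⟨p, hp, h3⟩
          · refine ⟨k, h, hkh, n, ?_, Or.inr ?_⟩
            · change al (c.S k) (c.S h) n z ∈ _
              rw [← h3]
              exact hR p hp wb hwb
            · change c.S h (al (c.S k) (c.S h) n z) = al (c.S k) (c.S h) n z
              rw [← h3]
              exact (hJ p (hJ'J hp)).2.1
          · refine ⟨h, k, fun h' => hkh h'.symm, n, ?_, Or.inl ?_⟩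
            · change al (c.S h) (c.S k) n z ∈ _
              rw [← h3]
              exact hR p hp wb hwb
            · change c.S h (al (c.S h) (c.S k) n z) = al (c.S h) (c.S k) n z
              rw [← h3]
              exact (hJ p (hJ'J hp)).2.1

/-- exchanges of kind 2 -/
lemma main2 [StandardBorelSpace V] {m : ℕ} (e : PCol G m) (c : PCol G l)
    (wa wv : List (Fin m)) (W : Finset (List (Fin m))) (J : Set V) (hwa : wa ∈ W) (hwv : wv ∈ W)
    (hJm : MeasurableSet J)
    (hJ : ∀ p ∈ J, G.Adj (wd e wa p) (wd e wv p) ∧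
      ¬ (RG (toPC c)).Adj (wd e wa p) (wd e wv p)) :
    ∃ c' : PCol G l, (∀ z y, (RG (toPC c')).Adj z y ↔ ((RG (toPC c)).Adj z y ∨ (y ≠ z ∧
      ∃ p ∈ J, (z = wd e wa p ∧ y = wd e wv p) ∨ (z = wd e wv p ∧ y = wd e wa p)))) ∧
      ∀ z k, c'.S k z ≠ c.S k z → z ∈ Rgn e W J := by
  classical
  set α : V ≃ᵐ V := wd e wa with hα
  set η : V ≃ᵐ V := wd e wv with hη
  set B : Fin l → Set V := fun k => J ∩ {p | c.S k (α p) = η p} with hBdef
  have hBm : ∀ k, MeasurableSet (B k) := fun k => hJm.inter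
    (measurableSet_eq_fun ((c.meas k).comp α.measurable) η.measurable)
  set A : Fin l → Set V := fun k => α '' B k ∪ η '' B k with hAdef
  have hkη : ∀ k, ∀ p ∈ B k, c.S k (α p) = η p ∧ c.S k (η p) = α p := by
    intro k p hp
    have h1 : c.S k (α p) = η p := hp.2
    exact ⟨h1, by rw [← h1, c.invol]⟩
  have hA : ∀ k', ∀ x ∈ A k', (toPC c).S k' x ∈ A k' := by
    rintro k' x (⟨p, hp, rfl⟩ | ⟨p, hp, rfl⟩)
    · exact Or.inr ⟨p, hp, (hkη k' p hp).1.symm⟩
    · exact Or.inl ⟨p, hp, (hkη k' p hp).2.symm⟩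
  have hAm : ∀ k', MeasurableSet (A k') := fun k' =>
    (α.measurableSet_image.2 (hBm k')).union (η.measurableSet_image.2 (hBm k'))
  have hm1 : ∀ k', Measurable ((unA (toPC c) A hA).S k') := fun k' =>
    Measurable.ite (hAm k') measurable_id (c.meas k')
  refine ⟨mkM (unA (toPC c) A hA) hm1, ?_, ?_⟩
  · intro z y
    rw [toPC_mkM, RG_unA]
    refine or_congr_right ?_
    constructor
    · rintro ⟨k', ⟨p, hp, rfl⟩ | ⟨p, hp, rfl⟩, h2, h3⟩
      · exact ⟨h3, p, hp.1, Or.inl ⟨rfl, h2.symm.trans (hkη k' p hp).1⟩⟩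
      · exact ⟨h3, p, hp.1, Or.inr ⟨rfl, h2.symm.trans (hkη k' p hp).2⟩⟩
    · rintro ⟨h3, p, hp, h4⟩
      obtain ⟨k', hk'⟩ := exists_col (toPC c) (hJ p hp).1 (hJ p hp).2
      have hpB : p ∈ B k' := ⟨hp, hk'⟩
      rcases h4 with ⟨rfl, rfl⟩ | ⟨rfl, rfl⟩
      · exact ⟨k', Or.inl ⟨p, hpB, rfl⟩, (hkη k' p hpB).1, h3⟩
      · exact ⟨k', Or.inr ⟨p, hpB, rfl⟩, (hkη k' p hpB).2, h3⟩
  · intro z k hz
    by_cases h1 : z ∈ A k
    · rcases h1 with ⟨p, hp, rfl⟩ | ⟨p, hp, rfl⟩
      · exact ⟨p, hp.1, wa, hwa, rfl⟩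
      · exact ⟨p, hp.1, wv, hwv, rfl⟩
    · exact absurd (unA_not (toPC c) hA h1) hz

lemma Rgn_mono {m : ℕ} (e : PCol G m) (W : Finset (List (Fin m))) {J J' : Set V} (h : J ⊆ J') :
    Rgn e W J ⊆ Rgn e W J' := by
  rintro z ⟨p, hp, w, hw, rfl⟩
  exact ⟨p, h hp, w, hw, rfl⟩

end meas

lemma Tch_mono {V : Type u} {G : SimpleGraph V} {l : ℕ} (c : PC G l) {E E' : Set V}
    (h : E ⊆ E') : Tch c E ⊆ Tch c E' := by
  rintro z ⟨g, k, hgk, n, h1, h2⟩
  exact ⟨g, k, hgk, n, h h1, h2⟩

end RND_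

open RND_ in
theorem allRND (h_THN : tTHN.{u}) : tRND.{u} := by
  classical
  intro l N
  obtain ⟨K0, hK0, hmain⟩ := main h_THN l N
  refine ⟨((l * l : ℕ) : ℝ≥0∞) * K0 + 1, ?_, ?_⟩
  · exact ENNReal.add_ne_top.2 ⟨ENNReal.mul_ne_top (ENNReal.natCast_ne_top _) hK0,
      ENNReal.one_ne_top⟩
  intro V _ _ G m Δ r e c x W J μ _ hlab hPX hW hxa hxv hxb hJm hspr hLeg
  obtain ⟨χ, hχ⟩ := hPX.bip
  by_cases hne : J.Nonempty
  swap
  · rw [not_nonempty_iff_eq_empty] at hne
    subst hne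
    exact ⟨∅, Subset.rfl, MeasurableSet.empty, by simp, c, fun p hp => absurd hp
      (notMem_empty _), fun z _ y => Iff.rfl, fun z k h => absurd rfl h⟩
  -- uniqueness of places
  have huniq : ∀ p ∈ J, ∀ q ∈ J, ∀ w ∈ W, ∀ w' ∈ W, wd e w p = wd e w' q → q = p :=
    fun p hp q hq w hw w' hw' h => (hspr p hp q hq w hw w' hw' h).symm
  have h3 : x.kd = 0 ∨ x.kd = 1 ∨ x.kd = 2 := by
    generalize x.kd = i
    revert i
    decide
  rcases h3 with hkd | hkd | hkd
  · -- kind 0
    have hJ0 : ∀ p ∈ J, (RG (toPC c)).Adj (wd e x.a p) (wd e x.b p) ∧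
        G.Adj (wd e x.a p) (wd e x.v p) ∧ ¬ (RG (toPC c)).Adj (wd e x.a p) (wd e x.v p) ∧
        dg (RG (toPC c)) (wd e x.v p) < r ∧
        dg G (wd e x.b p) < dg (RG (toPC c)) (wd e x.b p) + l :=
      fun p hp => (hLeg p hp).1 hkd
    set B : Fin l × Fin l → Set V := fun kh => {p | c.S kh.1 (wd e x.a p) = wd e x.v p ∧
      c.S kh.2 (wd e x.b p) = wd e x.b p} with hB
    have hcov : J ⊆ ⋃ i, B i := by
      intro p hp
      obtain ⟨h1, h2, h3, -, h5⟩ := hJ0 p hp
      obtain ⟨k, hk⟩ := exists_col (toPC c) h2 h3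
      obtain ⟨h, hh⟩ := (miss_iff (toPC c) (hPX.fin _)).2 h5
      exact mem_iUnion.2 ⟨(k, h), hk, hh⟩
    have hBm : ∀ i, MeasurableSet (B i) := fun i =>
      (measurableSet_eq_fun ((c.meas i.1).comp (wd e x.a).measurable)
        (wd e x.v).measurable).inter
      (measurableSet_eq_fun ((c.meas i.2).comp (wd e x.b).measurable) (wd e x.b).measurable)
    obtain ⟨⟨k, h⟩, hkh⟩ := pick μ hcov hne
    have hs : J ∩ B (k, h) ⊆ J := inter_subset_left
    obtain ⟨J', hJ'J, hJ'm, hμ, c', hadj, hchg⟩ := hmain V G m e c x.a x.v x.b W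
      (J ∩ B (k, h)) μ χ k h true hχ hW hxa hxv hxb (hJm.inter (hBm _))
      (fun p hp q hq => hspr p (hs hp) q (hs hq))
      (fun p hp => ⟨(hJ0 p hp.1).1, hp.2.2, fun _ => ⟨(hJ0 p hp.1).2.1, hp.2.1⟩,
        fun h' => absurd h' (by decide)⟩)
    have hJ' : J' ⊆ J := hJ'J.trans hs
    refine ⟨J', hJ', hJ'm, ?_, c', ?_, ?_, ?_⟩
    · calc μ J ≤ Fintype.card (Fin l × Fin l) * μ (J ∩ B (k, h)) := hkh
        _ ≤ ((l * l : ℕ) : ℝ≥0∞) * (K0 * μ J') := by
          rw [Fintype.card_prod, Fintype.card_fin]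
          gcongr
        _ = ((l * l : ℕ) : ℝ≥0∞) * K0 * μ J' := (mul_assoc _ _ _).symm
        _ ≤ (((l * l : ℕ) : ℝ≥0∞) * K0 + 1) * μ J' := by
          gcongr
          exact le_self_add
    · intro p hp w hw y
      have ea : ap (RG (toPC c)) (at' e p x) = ins (del (RG (toPC c)) (wd e x.a p)
          (wd e x.b p)) (wd e x.a p) (wd e x.v p) := if_pos hkd
      rw [ea, ins_adj, del_adj, hadj]
      obtain ⟨h1, h2, h3, -, -⟩ := hJ0 p (hJ' hp)
      have hab := h1.ne
      have hvb : wd e x.v p ≠ wd e x.b p := by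
        intro h'
        rw [h'] at h3
        exact h3 h1
      have e1 : (∃ q ∈ J', (wd e w p = wd e x.a q ∧ y = wd e x.v q) ∨
          (wd e w p = wd e x.v q ∧ y = wd e x.a q)) ↔
          ((wd e w p = wd e x.a p ∧ y = wd e x.v p) ∨
          (wd e w p = wd e x.v p ∧ y = wd e x.a p)) := by
        constructor
        · rintro ⟨q, hq, h4 | h4⟩
          · obtain rfl := huniq p (hJ' hp) q (hJ' hq) w hw _ hxa h4.1
            exact Or.inl h4
          · obtain rfl := huniq p (hJ' hp) q (hJ' hq) w hw _ hxv h4.1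
            exact Or.inr h4
        · intro h4
          exact ⟨p, hp, h4⟩
      have e2 : (∃ q ∈ J', (wd e w p = wd e x.a q ∧ y = wd e x.b q) ∨
          (wd e w p = wd e x.b q ∧ y = wd e x.a q)) ↔
          ((wd e w p = wd e x.a p ∧ y = wd e x.b p) ∨
          (wd e w p = wd e x.b p ∧ y = wd e x.a p)) := by
        constructor
        · rintro ⟨q, hq, h4 | h4⟩
          · obtain rfl := huniq p (hJ' hp) q (hJ' hq) w hw _ hxa h4.1
            exact Or.inl h4
          · obtain rfl := huniq p (hJ' hp) q (hJ' hq) w hw _ hxb h4.1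
            exact Or.inr h4
        · intro h4
          exact ⟨p, hp, h4⟩
      rw [e1, e2]
      generalize wd e w p = z
      have hav := h2.ne
      constructor
      · rintro ⟨h4 | ⟨-, h4, h5⟩, h6⟩
        · exact Or.inl ⟨h4, h6⟩
        · exact Or.inr ⟨h4.symm, h5⟩
      · rintro (⟨h4, h5⟩ | ⟨h4, h5⟩)
        · exact ⟨Or.inl h4, h5⟩
        · refine ⟨Or.inr ⟨rfl, h4.symm, h5⟩, ?_⟩
          rintro (⟨h6, h7⟩ | ⟨h6, h7⟩)
          · rcases h5 with ⟨-, h8⟩ | ⟨-, h8⟩
            · exact hvb (h8.symm.trans h7)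
            · exact hab (h8.symm.trans h7)
          · rcases h5 with ⟨h8, -⟩ | ⟨h8, -⟩
            · exact hab (h8.symm.trans h6)
            · exact hvb (h8.symm.trans h6)
    · intro z hz y
      rw [hadj]
      constructor
      · rintro ⟨h4 | ⟨-, -, q, hq, h5 | h5⟩, -⟩
        · exact h4
        · exact absurd ⟨q, hq, _, hxa, h5.1.symm⟩ hz
        · exact absurd ⟨q, hq, _, hxv, h5.1.symm⟩ hz
      · intro h4
        refine ⟨Or.inl h4, ?_⟩
        rintro ⟨q, hq, h5 | h5⟩
        · exact hz ⟨q, hq, _, hxa, h5.1.symm⟩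
        · exact hz ⟨q, hq, _, hxb, h5.1.symm⟩
    · intro z k' hz
      rcases hchg z k' hz with h4 | h4
      · exact Or.inl (Rgn_mono e W hs h4)
      · exact Or.inr (Tch_mono _ (Rgn_mono e W hs) h4)
  · -- kind 1
    have hJ0 : ∀ p ∈ J, (RG (toPC c)).Adj (wd e x.a p) (wd e x.b p) ∧
        dg G (wd e x.a p) < dg (RG (toPC c)) (wd e x.a p) + l ∧
        dg G (wd e x.b p) < dg (RG (toPC c)) (wd e x.b p) + l :=
      fun p hp => (hLeg p hp).2.1 hkd
    set B : Fin l × Fin l → Set V := fun kh => {p | c.S kh.1 (wd e x.a p) = wd e x.a p ∧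
      c.S kh.2 (wd e x.b p) = wd e x.b p} with hB
    have hcov : J ⊆ ⋃ i, B i := by
      intro p hp
      obtain ⟨h1, h2, h3⟩ := hJ0 p hp
      obtain ⟨k, hk⟩ := (miss_iff (toPC c) (hPX.fin _)).2 h2
      obtain ⟨h, hh⟩ := (miss_iff (toPC c) (hPX.fin _)).2 h3
      exact mem_iUnion.2 ⟨(k, h), hk, hh⟩
    have hBm : ∀ i, MeasurableSet (B i) := fun i =>
      (measurableSet_eq_fun ((c.meas i.1).comp (wd e x.a).measurable)
        (wd e x.a).measurable).inter
      (measurableSet_eq_fun ((c.meas i.2).comp (wd e x.b).measurable) (wd e x.b).measurable)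
    obtain ⟨⟨k, h⟩, hkh⟩ := pick μ hcov hne
    have hs : J ∩ B (k, h) ⊆ J := inter_subset_left
    obtain ⟨J', hJ'J, hJ'm, hμ, c', hadj, hchg⟩ := hmain V G m e c x.a x.v x.b W
      (J ∩ B (k, h)) μ χ k h false hχ hW hxa hxv hxb (hJm.inter (hBm _))
      (fun p hp q hq => hspr p (hs hp) q (hs hq))
      (fun p hp => ⟨(hJ0 p hp.1).1, hp.2.2, fun h' => absurd h' (by decide),
        fun _ => hp.2.1⟩)
    have hJ' : J' ⊆ J := hJ'J.trans hs
    have hft : ¬ (false = true) := by decide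
    refine ⟨J', hJ', hJ'm, ?_, c', ?_, ?_, ?_⟩
    · calc μ J ≤ Fintype.card (Fin l × Fin l) * μ (J ∩ B (k, h)) := hkh
        _ ≤ ((l * l : ℕ) : ℝ≥0∞) * (K0 * μ J') := by
          rw [Fintype.card_prod, Fintype.card_fin]
          gcongr
        _ = ((l * l : ℕ) : ℝ≥0∞) * K0 * μ J' := (mul_assoc _ _ _).symm
        _ ≤ (((l * l : ℕ) : ℝ≥0∞) * K0 + 1) * μ J' := by
          gcongr
          exact le_self_add
    · intro p hp w hw y
      have ea : ap (RG (toPC c)) (at' e p x) = del (RG (toPC c)) (wd e x.a p)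
          (wd e x.b p) := by
        have h0 : ¬ (at' e p x).kd = 0 := by
          change ¬ x.kd = 0
          rw [hkd]
          decide
        unfold ap
        rw [if_neg h0]
        exact if_pos hkd
      rw [ea, del_adj, hadj]
      have e2 : (∃ q ∈ J', (wd e w p = wd e x.a q ∧ y = wd e x.b q) ∨
          (wd e w p = wd e x.b q ∧ y = wd e x.a q)) ↔
          ((wd e w p = wd e x.a p ∧ y = wd e x.b p) ∨
          (wd e w p = wd e x.b p ∧ y = wd e x.a p)) := by
        constructor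
        · rintro ⟨q, hq, h4 | h4⟩
          · obtain rfl := huniq p (hJ' hp) q (hJ' hq) w hw _ hxa h4.1
            exact Or.inl h4
          · obtain rfl := huniq p (hJ' hp) q (hJ' hq) w hw _ hxb h4.1
            exact Or.inr h4
        · intro h4
          exact ⟨p, hp, h4⟩
      rw [e2]
      constructor
      · rintro ⟨h4 | ⟨h4, -⟩, h6⟩
        · exact ⟨h4, h6⟩
        · exact absurd h4 hft
      · rintro ⟨h4, h5⟩
        exact ⟨Or.inl h4, h5⟩
    · intro z hz y
      rw [hadj]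
      constructor
      · rintro ⟨h4 | ⟨h4, -⟩, -⟩
        · exact h4
        · exact absurd h4 hft
      · intro h4
        refine ⟨Or.inl h4, ?_⟩
        rintro ⟨q, hq, h5 | h5⟩
        · exact hz ⟨q, hq, _, hxa, h5.1.symm⟩
        · exact hz ⟨q, hq, _, hxb, h5.1.symm⟩
    · intro z k' hz
      rcases hchg z k' hz with h4 | h4
      · exact Or.inl (Rgn_mono e W hs h4)
      · exact Or.inr (Tch_mono _ (Rgn_mono e W hs) h4)
  · -- kind 2
    have hJ0 : ∀ p ∈ J, G.Adj (wd e x.a p) (wd e x.v p) ∧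
        ¬ (RG (toPC c)).Adj (wd e x.a p) (wd e x.v p) :=
      fun p hp => ⟨((hLeg p hp).2.2.1 hkd).1, ((hLeg p hp).2.2.1 hkd).2.1⟩
    obtain ⟨c', hadj, hchg⟩ := main2 e c x.a x.v W J hxa hxv hJm hJ0
    refine ⟨J, Subset.rfl, hJm, ?_, c', ?_, ?_, fun z k hz => Or.inl (hchg z k hz)⟩
    · calc μ J = 1 * μ J := (one_mul _).symm
        _ ≤ (((l * l : ℕ) : ℝ≥0∞) * K0 + 1) * μ J := by
          gcongr
          exact le_add_self
    · intro p hp w hw y
      have ea : ap (RG (toPC c)) (at' e p x) = ins (RG (toPC c)) (wd e x.a p)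
          (wd e x.v p) := by
        have h0 : ¬ (at' e p x).kd = 0 := by
          change ¬ x.kd = 0
          rw [hkd]
          decide
        have h1 : ¬ (at' e p x).kd = 1 := by
          change ¬ x.kd = 1
          rw [hkd]
          decide
        unfold ap
        rw [if_neg h0]
        exact if_neg h1
      rw [ea, ins_adj, hadj]
      refine or_congr_right ?_
      constructor
      · rintro ⟨h3, q, hq, h4 | h4⟩
        · obtain rfl := huniq p hp q hq w hw _ hxa h4.1
          exact ⟨h3.symm, Or.inl h4⟩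
        · obtain rfl := huniq p hp q hq w hw _ hxv h4.1
          exact ⟨h3.symm, Or.inr h4⟩
      · rintro ⟨h3, h4⟩
        exact ⟨h3.symm, p, hp, h4⟩
    · intro z hz y
      rw [hadj]
      constructor
      · rintro (h4 | ⟨-, q, hq, h5 | h5⟩)
        · exact h4
        · exact absurd ⟨q, hq, _, hxa, h5.1.symm⟩ hz
        · exact absurd ⟨q, hq, _, hxv, h5.1.symm⟩ hz
      · intro h4
        exact Or.inl h4

end Pool.Agent.MEQ
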