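import Pool.Agent.MEQ.Targets
import Pool.Agent.MEQ.Base

set_option autoImplicit false

/-! Target `tRNS` of the project MEQ: all steps of a code, in rounds. -/

namespace Pool.Agent.MEQ

open MeasureTheory Set Filter
open scoped ENNReal
open Pool.Agent.MEC
open Pool.Agent.MEP
open Pool.Agent.MEO

universe u

namespace RNS_

section plain

variable {V : Type u} {G : SimpleGraph V} {l r : ℕ}

/-- legality of a step depends only on the stars of its three points -/
lemma leg_congr {R R' : SimpleGraph V} {x : Ex V} (ha : SA R R' x.a) (hv : SA R R' x.v)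
    (hb : SA R R' x.b) (h : Leg G l r ∅ ∅ R x) : Leg G l r ∅ ∅ R' x := by
  have da := ha.dg
  have dv := hv.dg
  have db := hb.dg
  obtain ⟨h0, h1, h2, -⟩ := h
  refine ⟨fun hk => ?_, fun hk => ?_, fun hk => ?_, fun _ h' => absurd h' (notMem_empty _)⟩
  · obtain ⟨p1, p2, p3, p4, p5⟩ := h0 hk
    refine ⟨(ha _).1 p1, p2, fun h' => p3 ((ha _).2 h'), ?_, ?_⟩
    · rw [← dv]; exact p4
    · rw [← db]; exact p5
  · obtain ⟨p1, p2, p3⟩ := h1 hk
    refine ⟨(ha _).1 p1, ?_, ?_⟩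
    · rw [← da]; exact p2
    · rw [← db]; exact p3
  · obtain ⟨p1, p2, p3, p4⟩ := h2 hk
    refine ⟨p1, fun h' => p2 ((ha _).2 h'), ?_, ?_⟩
    · rw [← da]; exact p3
    · rw [← dv]; exact p4

lemma kd_cases (k : Fin 3) : k = 0 ∨ k = 1 ∨ k = 2 := by
  fin_cases k <;> simp

lemma ap0 {R : SimpleGraph V} {x : Ex V} (h : x.kd = 0) :
    ap R x = ins (del R x.a x.b) x.a x.v := by
  unfold ap
  rw [if_pos h]

lemma ap1 {R : SimpleGraph V} {x : Ex V} (h : x.kd = 1) : ap R x = del R x.a x.b := by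
  unfold ap
  rw [if_neg (by rw [h]; decide), if_pos h]

lemma ap2 {R : SimpleGraph V} {x : Ex V} (h : x.kd = 2) : ap R x = ins R x.a x.v := by
  unfold ap
  rw [if_neg (by rw [h]; decide), if_neg (by rw [h]; decide)]

/-- a legal step stays inside `G` -/
lemma ap_le {X P : Set V} {R : SimpleGraph V} {x : Ex V} (h : Leg G l r X P R x)
    (hR : R ≤ G) : ap R x ≤ G := by
  intro y z hyz
  rcases kd_cases x.kd with hk | hk | hk
  · rw [ap0 hk, ins_adj, del_adj] at hyz
    rcases hyz with hyz | ⟨-, (⟨rfl, rfl⟩ | ⟨rfl, rfl⟩)⟩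
    · exact hR hyz.1
    · exact (h.1 hk).2.1
    · exact (h.1 hk).2.1.symm
  · rw [ap1 hk, del_adj] at hyz
    exact hR hyz.1
  · rw [ap2 hk, ins_adj] at hyz
    rcases hyz with hyz | ⟨-, (⟨rfl, rfl⟩ | ⟨rfl, rfl⟩)⟩
    · exact hR hyz
    · exact (h.2.2.1 hk).1
    · exact (h.2.2.1 hk).1.symm

lemma dg_del_le {R : SimpleGraph V} {a b y : V} (hf : (R.neighborSet y).Finite) :
    dg (del R a b) y ≤ dg R y :=
  dg_mono (fun z hz => (del_adj.1 hz).1) hf

/-- a legal step keeps the degrees bounded by `r` -/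
lemma dg_ap_le (hG : ∀ y, (G.neighborSet y).Finite) {X P : Set V} {R : SimpleGraph V}
    {x : Ex V} (h : Leg G l r X P R x) (hR : R ≤ G) {y : V} (hy : dg R y ≤ r) :
    dg (ap R x) y ≤ r := by
  have hf : ∀ y, (R.neighborSet y).Finite := fun y => fin_of_le hR (hG y)
  have hfd : ∀ y, ((del R x.a x.b).neighborSet y).Finite := fun y =>
    (hf y).subset fun _ hz => (del_adj.1 hz).1
  rcases kd_cases x.kd with hk | hk | hk
  · obtain ⟨p1, p2, p3, p4, -⟩ := h.1 hk
    have hne : x.a ≠ x.v := p2.ne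
    have hn : ¬ (del R x.a x.b).Adj x.a x.v := fun h' => p3 (del_adj.1 h').1
    rw [ap0 hk]
    by_cases hya : y = x.a
    · subst hya
      rw [dg_ins_left hn hne (hfd _), dg_del_left p1 (hf _)]
      exact hy
    · by_cases hyv : y = x.v
      · subst hyv
        rw [dg_ins_right hn hne (hfd _)]
        have := dg_del_le (a := x.a) (b := x.b) (hf x.v)
        omega
      · rw [dg_ins_other hya hyv]
        exact (dg_del_le (hf y)).trans hy
  · rw [ap1 hk]
    exact (dg_del_le (hf y)).trans hy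
  · obtain ⟨p1, p2, p3, p4⟩ := h.2.2.1 hk
    have hne : x.a ≠ x.v := p1.ne
    rw [ap2 hk]
    by_cases hya : y = x.a
    · subst hya
      rw [dg_ins_left p2 hne (hf _)]
      omega
    · by_cases hyv : y = x.v
      · subst hyv
        rw [dg_ins_right p2 hne (hf _)]
        omega
      · rw [dg_ins_other hya hyv]
        exact hy

lemma dg_apL_le (hG : ∀ y, (G.neighborSet y).Finite) {X P : Set V} {R : SimpleGraph V}
    {σ : List (Ex V)} (h : LegL G l r X P R σ) (hR : R ≤ G) {y : V} (hy : dg R y ≤ r) :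
    dg (apL R σ) y ≤ r := by
  induction σ generalizing R with
  | nil => exact hy
  | cons x σ ih => exact ih h.2 (ap_le h.1 hR) (dg_ap_le hG h.1 hR hy)

lemma legL_concat {X P : Set V} {R : SimpleGraph V} {σ : List (Ex V)} {x : Ex V}
    (h : LegL G l r X P R (σ ++ [x])) : LegL G l r X P R σ ∧ Leg G l r X P (apL R σ) x := by
  induction σ generalizing R with
  | nil => exact ⟨trivial, h.1⟩
  | cons y σ ih =>
    obtain ⟨h1, h2⟩ := h
    obtain ⟨h3, h4⟩ := ih h2
    exact ⟨⟨h1, h3⟩, h4⟩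

end plain

section main

variable {V : Type u} [MeasurableSpace V] {G : SimpleGraph V} {l m : ℕ}

lemma spr_mono {e : PCol G m} {W : Finset (List (Fin m))} {J J' : Set V} (h : Spr e W J)
    (hs : J' ⊆ J) : Spr e W J' :=
  fun p hp q hq w hw w' hw' hpq => h p (hs hp) q (hs hq) w hw w' hw' hpq

lemma rgn_mono {e : PCol G m} {W : Finset (List (Fin m))} {J J' : Set V} (hs : J' ⊆ J) :
    Rgn e W J' ⊆ Rgn e W J := by
  rintro z ⟨p, hp, w, hw, rfl⟩
  exact ⟨p, hs hp, w, hw, rfl⟩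

/-- one more round -/
lemma exd_step {e : PCol G m} {c c1 c2 : PCol G l} {τ : List (Ex (List (Fin m)))}
    {x : Ex (List (Fin m))} {W : Finset (List (Fin m))} {J J1 J2 : Set V}
    (hS : Spr e W J) (h : Exd e c c1 τ W J J1) (hs : J2 ⊆ J1)
    (h1 : ∀ p ∈ J2, ∀ w ∈ W, SA (RG (toPC c2)) (ap (RG (toPC c1)) (at' e p x)) (wd e w p))
    (h2 : ∀ z, z ∉ Rgn e W J2 → SA (RG (toPC c2)) (RG (toPC c1)) z) :
    Exd e c c2 (τ ++ [x]) W J J2 := by
  have hfull : ∀ p ∈ J2, ∀ w ∈ W, SA (RG (toPC c2))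
      (apL (RG (toPC c)) ((τ ++ [x]).map (at' e p))) (wd e w p) := by
    intro p hp w hw
    rw [List.map_append, apL_append]
    exact (h1 p hp w hw).trans (ap_congr (h.full p (hs hp) w hw))
  refine ⟨hs.trans h.sub, hfull, ?_, ?_⟩
  · intro p hp
    by_cases hp2 : p ∈ J2
    · refine ⟨(τ ++ [x]).length, le_rfl, fun w hw => ?_⟩
      rw [List.take_length]
      exact hfull p hp2 w hw
    · obtain ⟨i, hi, hpi⟩ := h.part p hp
      refine ⟨i, hi.trans (by simp), fun w hw => ?_⟩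
      rw [List.take_append_of_le_length hi]
      refine (h2 _ ?_).trans (hpi w hw)
      rintro ⟨q, hq, w', hw', hqw⟩
      exact hp2 (hS p hp q (h.sub (hs hq)) w hw w' hw' hqw.symm ▸ hq)
  · intro z hz
    exact (h2 z fun h' => hz (rgn_mono (hs.trans h.sub) h')).trans (h.off z hz)

/-- the degrees stay bounded -/
lemma exd_dg {e : PCol G m} {c c1 : PCol G l} {τ : List (Ex (List (Fin m)))}
    {W : Finset (List (Fin m))} {J J1 : Set V} {r : ℕ} (hG : ∀ y, (G.neighborSet y).Finite)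
    (h : Exd e c c1 τ W J J1)
    (hL : ∀ p ∈ J, LegL G l r ∅ ∅ (RG (toPC c)) (τ.map (at' e p))) {z : V}
    (hz : dg (RG (toPC c)) z ≤ r) : dg (RG (toPC c1)) z ≤ r := by
  by_cases hzR : z ∈ Rgn e W J
  · obtain ⟨p, hp, w, hw, rfl⟩ := hzR
    obtain ⟨i, -, hpi⟩ := h.part p hp
    rw [(hpi w hw).dg]
    refine dg_apL_le (G := G) (l := l) (X := ∅) (P := ∅) hG ?_ (RG_le _) hz
    have := (hL p hp).take i
    rwa [← List.map_take] at this
  · rw [(h.off z hzR).dg]
    exact hz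

end main

/-- the statement for codes of length exactly `n` -/
theorem exact_len (h_RND : tRND.{u}) (h_CST : tCST.{u}) (l N : ℕ) :
    ∃ K : ℝ≥0∞, K ≠ ⊤ ∧ ∀ n : ℕ, ∀ (V : Type u) [MeasurableSpace V]
    [StandardBorelSpace V] (G : SimpleGraph V) (m Δ r : ℕ) (e : PCol G m) (ν : Measure V)
    [IsFiniteMeasure ν] (C : ℝ≥0∞) (c : PCol G l) (W : Finset (List (Fin m)))
    (σ : List (Ex (List (Fin m)))), Lab e → QInv G ν C → C ≠ ⊤ → PX G Δ univ →
  GS ν Δ r c → W.card ≤ N → σ.length = n → Inw W σ →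
  ∀ ε : ℝ, 0 < ε → ∃ δ : ℝ, 0 < δ ∧ ∀ J : Set V, MeasurableSet J → ν.real J < δ → Spr e W J →
  (∀ p ∈ J, LegL G l r ∅ ∅ (RG (toPC c)) (σ.map (at' e p))) →
  ∀ (μ : Measure V) [IsFiniteMeasure μ], ∃ (J' : Set V) (c' : PCol G l), MeasurableSet J' ∧
    μ J ≤ K ^ n * μ J' ∧ Exd e c c' σ W J J' ∧ (∀ᵐ x ∂ν, dg (RG (toPC c')) x ≤ r) ∧
    PCol.dst ν c c' < ε := by
  obtain ⟨K, hK, hRND⟩ := h_RND l N
  refine ⟨K, hK, fun n => ?_⟩
  induction n with
  | zero =>
    intro V _ _ G m Δ r e ν _ C c W σ hlab hq hC hPX hGS hW hσ hin ε hε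
    obtain rfl : σ = [] := List.length_eq_zero_iff.1 hσ
    refine ⟨1, one_pos, fun J hJ _ _ _ μ _ => ⟨J, c, hJ, by simp, ?_, hGS.sat, ?_⟩⟩
    · refine ⟨subset_rfl, fun p _ w _ y => Iff.rfl, fun p _ => ⟨0, le_rfl, fun w _ y => Iff.rfl⟩,
        fun z _ y => Iff.rfl⟩
    · rw [PCol.dst_self]
      exact hε
  | succ n ih =>
    intro V _ _ G m Δ r e ν _ C c W σ hlab hq hC hPX hGS hW hσ hin ε hε
    obtain ⟨τ, x, rfl⟩ : ∃ τ x, σ = τ ++ [x] := by
      have hne : σ ≠ [] := by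
        rintro rfl
        simp at hσ
      exact ⟨σ.dropLast, σ.getLast hne, (List.dropLast_append_getLast hne).symm⟩
    have hτ : τ.length = n := by
      simpa using hσ
    have hinτ : Inw W τ := fun y hy => hin y (List.mem_append_left _ hy)
    have hinx := hin x (by simp)
    have hfin : ∀ y, (G.neighborSet y).Finite := hlab.fin
    -- the constants
    set A : ℝ := ∑ w ∈ W, (C ^ w.length).toReal with hA
    have hA0 : 0 ≤ A := Finset.sum_nonneg fun _ _ => ENNReal.toReal_nonneg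
    set η : ℝ := ε / (4 * (l + 1)) with hη
    have hl1 : (0 : ℝ) < l + 1 := by positivity
    have hη0 : 0 < η := by positivity
    obtain ⟨δ1, hδ1, hcst⟩ := h_CST V G m l e ν C (QR G r) c hlab hq hC hGS.bad hGS.inf η hη0
    obtain ⟨δ2, hδ2, hih⟩ := ih V G m Δ r e ν C c W τ hlab hq hC hPX hGS hW hτ hinτ
      (min (ε / 2) δ1) (lt_min (half_pos hε) hδ1)
    refine ⟨min δ2 (min δ1 η / (A + 1)), lt_min hδ2 (by positivity), ?_⟩
    intro J hJ hνJ hS hL μ _
    have hL' : ∀ p ∈ J, LegL G l r ∅ ∅ (RG (toPC c)) (τ.map (at' e p)) ∧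
        Leg G l r ∅ ∅ (apL (RG (toPC c)) (τ.map (at' e p))) (at' e p x) := by
      intro p hp
      have := hL p hp
      rw [List.map_append] at this
      exact legL_concat this
    obtain ⟨J1, c1, hJ1, hμ1, hE1, hsat1, hd1⟩ := hih J hJ (hνJ.trans_le (min_le_left _ _)) hS
      (fun p hp => (hL' p hp).1) μ
    have hS1 : Spr e W J1 := spr_mono hS hE1.sub
    have hleg : ∀ p ∈ J1, Leg G l r ∅ ∅ (RG (toPC c1)) (at' e p x) := by
      intro p hp
      exact leg_congr (hE1.full p hp _ hinx.1).symm (hE1.full p hp _ hinx.2.1).symm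
        (hE1.full p hp _ hinx.2.2).symm (hL' p (hE1.sub hp)).2
    obtain ⟨J2, hJ21, hJ2, hμ2, c2, hf2, ho2, hch⟩ := hRND V G m Δ r e c1 x W J1 μ hlab hPX hW
      hinx.1 hinx.2.1 hinx.2.2 hJ1 hS1 hleg
    have hE2 : Exd e c c2 (τ ++ [x]) W J J2 := exd_step hS hE1 hJ21 hf2 ho2
    refine ⟨J2, c2, hJ2, ?_, hE2, ?_, ?_⟩
    · calc μ J ≤ K ^ n * μ J1 := hμ1
        _ ≤ K ^ n * (K * μ J2) := by gcongr
        _ = K ^ (n + 1) * μ J2 := by rw [pow_succ, mul_assoc]
    · filter_upwards [hGS.sat] with z hz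
      exact exd_dg hfin hE2 hL hz
    · -- the distance
      have hE0 : ν.real J1 ≤ ν.real J := measureReal_mono hE1.sub
      have hmeasE : MeasurableSet (Rgn e W J1) := measurableSet_Rgn e W hJ1
      have hRg : ν.real (Rgn e W J1) < min δ1 η := by
        have h1 : ν.real (Rgn e W J1) ≤ A * ν.real J1 := real_Rgn_le hq hC e W J1
        have h2 : ν.real J1 < min δ1 η / (A + 1) :=
          hE0.trans_lt (hνJ.trans_le (min_le_right _ _))
        have h3 : ν.real J1 * (A + 1) < min δ1 η := by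
          rwa [lt_div_iff₀ (by positivity)] at h2
        have h4 : 0 ≤ ν.real J1 := measureReal_nonneg
        nlinarith
      have hT : ν.real (Tch (toPC c1) (Rgn e W J1)) < η :=
        hcst c1 hsat1 (hd1.trans_le (min_le_right _ _)) _ hmeasE
          (hRg.trans_le (min_le_left _ _))
      have hd2 : PCol.dst ν c1 c2 ≤
          l * ν.real (Rgn e W J1 ∪ Tch (toPC c1) (Rgn e W J1)) := by
        refine dst_le_off fun z hz k => ?_
        by_contra hne
        exact hz (hch z k hne)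
      have hd3 : ν.real (Rgn e W J1 ∪ Tch (toPC c1) (Rgn e W J1)) ≤ η + η :=
        (measureReal_union_le _ _).trans
          (add_le_add (hRg.trans_le (min_le_right _ _)).le hT.le)
      have hd4 : PCol.dst ν c1 c2 ≤ l * (η + η) :=
        hd2.trans (mul_le_mul_of_nonneg_left hd3 (Nat.cast_nonneg l))
      have hd5 : (l : ℝ) * (η + η) < ε / 2 := by
        have h6 : η * (4 * (l + 1)) = ε := by
          rw [hη]
          field_simp
        have h7 : (0 : ℝ) ≤ l := Nat.cast_nonneg l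
        nlinarith
      have hd6 : PCol.dst ν c c1 < ε / 2 := hd1.trans_le (min_le_left _ _)
      have hd7 := PCol.dst_triangle (ν := ν) c c1 c2
      linarith

end RNS_

open RNS_ in
theorem allRNS (h_RND : tRND.{u}) (h_CST : tCST.{u}) : tRNS.{u} := by
  intro l N n
  obtain ⟨K, hK, h⟩ := exact_len h_RND h_CST l N
  refine ⟨(max 1 K) ^ n, ENNReal.pow_ne_top (by simp [hK]), ?_⟩
  intro V _ _ G m Δ r e ν _ C c W σ hlab hq hC hPX hGS hW hσ hin ε hε
  obtain ⟨δ, hδ, h'⟩ := h σ.length V G m Δ r e ν C c W σ hlab hq hC hPX hGS hW rfl hin ε hε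
  refine ⟨δ, hδ, fun J hJ hνJ hS hL μ _ => ?_⟩
  obtain ⟨J', c', hJ', hμ, hE, hsat, hd⟩ := h' J hJ hνJ hS hL μ
  have h2 : K ^ σ.length ≤ (max 1 K) ^ n :=
    (pow_le_pow_left' (le_max_right 1 K) σ.length).trans
      (pow_le_pow_right₀ (le_max_left 1 K) hσ)
  exact ⟨J', c', hJ', hμ.trans (mul_le_mul' h2 le_rfl), hE, hsat, hd⟩

end Pool.Agent.MEQ
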