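import Pool.Agent.MEQ.Targets
import Pool.Agent.MEQ.Base

set_option autoImplicit false

/-! tSEL: measurable selection by compactness, lexicographically least choice. -/

namespace Pool.Agent.MEQ

open MeasureTheory Set Filter
open scoped ENNReal

universe u

namespace SEL_

section

variable {B : Type u} {q : ℕ} (A : ℕ → B → (ℕ → Fin q) → Prop)

/-- the first `n` values of `w` can be continued arbitrarily far -/
def E (n : ℕ) (b : B) (w : ℕ → Fin q) : Prop :=
  ∀ N, ∃ ω : ℕ → Fin q, (∀ i < n, ω i = w i) ∧ ∀ k ≤ N, A k b ω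

variable {A}

lemma E_congr {n : ℕ} {b : B} {w w' : ℕ → Fin q} (h : ∀ i < n, w i = w' i) :
    E A n b w ↔ E A n b w' := by
  constructor
  · intro hE N
    obtain ⟨ω, h1, h2⟩ := hE N
    exact ⟨ω, fun i hi => (h1 i hi).trans (h i hi), h2⟩
  · intro hE N
    obtain ⟨ω, h1, h2⟩ := hE N
    exact ⟨ω, fun i hi => (h1 i hi).trans (h i hi).symm, h2⟩

lemma E_step {n : ℕ} {b : B} {w : ℕ → Fin q} (hE : E A n b w) :
    ∃ j, E A (n + 1) b (Function.update w n j) := by
  by_contra hc
  have h1 : ∀ j : Fin q, ∃ N, ¬ ∃ ω : ℕ → Fin q,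
      (∀ i < n + 1, ω i = Function.update w n j i) ∧ ∀ k ≤ N, A k b ω := by
    intro j
    by_contra hj
    push Not at hj
    exact hc ⟨j, fun N => hj N⟩
  choose N hN using h1
  obtain ⟨ω, h2, h3⟩ := hE (Finset.univ.sup N)
  refine hN (ω n) ⟨ω, ?_, ?_⟩
  · intro i hi
    rcases Nat.lt_succ_iff_lt_or_eq.1 hi with h | h
    · rw [Function.update_of_ne (Nat.ne_of_lt h)]
      exact h2 i h
    · subst h
      rw [Function.update_self]
  · intro k hk
    exact h3 k (hk.trans (Finset.le_sup (Finset.mem_univ (ω n))))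

/-- continue a finite word by zeros -/
def ext (hq : 0 < q) {M : ℕ} (v : Fin M → Fin q) : ℕ → Fin q :=
  fun i => if h : i < M then v ⟨i, h⟩ else ⟨0, hq⟩

lemma ext_apply (hq : 0 < q) {M : ℕ} (ω : ℕ → Fin q) {i : ℕ} (h : i < M) :
    ext hq (fun k : Fin M => ω k) i = ω i := by
  unfold ext
  rw [dif_pos h]

lemma measurable_E [MeasurableSpace B] (hq : 0 < q)
    (hA : ∀ n b ω ω', (∀ i < n, ω i = ω' i) → (A n b ω ↔ A n b ω'))
    (hm : ∀ n ω, MeasurableSet {b | A n b ω}) (n : ℕ) (w : ℕ → Fin q) :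
    MeasurableSet {b | E A n b w} := by
  have h1 : {b | E A n b w} = ⋂ N, {b | ∃ v : Fin (max n N) → Fin q,
      (∀ i < n, ext hq v i = w i) ∧ ∀ k ≤ N, A k b (ext hq v)} := by
    ext b
    rw [mem_iInter]
    constructor
    · intro hE N
      obtain ⟨ω, h2, h3⟩ := hE N
      refine ⟨fun k => ω k, ?_, ?_⟩
      · intro i hi
        rw [ext_apply hq ω (lt_of_lt_of_le hi (le_max_left _ _))]
        exact h2 i hi
      · intro k hk
        refine (hA k b _ ω ?_).2 (h3 k hk)
        intro i hi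
        exact ext_apply hq ω (lt_of_lt_of_le hi (hk.trans (le_max_right _ _)))
    · intro h N
      obtain ⟨v, h2, h3⟩ := h N
      exact ⟨ext hq v, h2, h3⟩
  rw [h1]
  refine MeasurableSet.iInter fun N => ?_
  have h2 : {b | ∃ v : Fin (max n N) → Fin q,
      (∀ i < n, ext hq v i = w i) ∧ ∀ k ≤ N, A k b (ext hq v)} =
      ⋃ v : Fin (max n N) → Fin q, {b | (∀ i < n, ext hq v i = w i) ∧
        ∀ k ≤ N, A k b (ext hq v)} := by
    ext b
    simp only [mem_iUnion, mem_ofPred_eq]
  rw [h2]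
  refine MeasurableSet.iUnion fun v => ?_
  have h3 : {b : B | (∀ i < n, ext hq v i = w i) ∧ ∀ k ≤ N, A k b (ext hq v)} =
      {_b : B | ∀ i < n, ext hq v i = w i} ∩ ⋂ k, ⋂ (_ : k ≤ N), {b | A k b (ext hq v)} := by
    ext b
    simp only [mem_inter_iff, mem_iInter, mem_ofPred_eq]
  rw [h3]
  exact (MeasurableSet.const _).inter
    (MeasurableSet.iInter fun k => MeasurableSet.iInter fun _ => hm k _)

/-- measurable choice of an index -/
lemma choice [MeasurableSpace B] (hq : 0 < q) (S : Fin q → Set B)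
    (hS : ∀ j, MeasurableSet (S j)) :
    ∃ J : B → Fin q, Measurable J ∧ ∀ b, (∃ j, b ∈ S j) → b ∈ S (J b) := by
  classical
  have hp : ∀ b : B, ∃ k : ℕ, (∃ h : k < q, b ∈ S ⟨k, h⟩) ∨ k = q := fun b => ⟨q, Or.inr rfl⟩
  refine ⟨fun b => if h : Nat.find (hp b) < q then ⟨Nat.find (hp b), h⟩ else ⟨0, hq⟩, ?_, ?_⟩
  · have h1 : Measurable fun b => Nat.find (hp b) := by
      refine measurable_find hp fun k => ?_
      have h2 : {b : B | (∃ h : k < q, b ∈ S ⟨k, h⟩) ∨ k = q} =
          (⋃ h : k < q, S ⟨k, h⟩) ∪ {_b : B | k = q} := by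
        ext b
        simp only [mem_union, mem_iUnion, mem_ofPred_eq]
      rw [h2]
      exact (MeasurableSet.iUnion fun h => hS _).union (MeasurableSet.const _)
    exact (measurable_from_nat (f := fun k => if h : k < q then (⟨k, h⟩ : Fin q) else
      ⟨0, hq⟩)).comp h1
  · rintro b ⟨j, hj⟩
    have h3 : Nat.find (hp b) ≤ j := Nat.find_min' _ (Or.inl ⟨j.2, hj⟩)
    have h4 : Nat.find (hp b) < q := lt_of_le_of_lt h3 j.2
    have h5 := Nat.find_spec (hp b)
    rcases h5 with ⟨h6, h7⟩ | h6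
    · show b ∈ S (if h : Nat.find (hp b) < q then ⟨Nat.find (hp b), h⟩ else ⟨0, hq⟩)
      rw [dif_pos h4]
      exact h7
    · exact absurd h6 (Nat.ne_of_lt h4)

/-- one more value -/
lemma step [MeasurableSpace B] (hq : 0 < q)
    (hA : ∀ n b ω ω', (∀ i < n, ω i = ω' i) → (A n b ω ↔ A n b ω'))
    (hm : ∀ n ω, MeasurableSet {b | A n b ω}) (n : ℕ) (W : B → ℕ → Fin q)
    (hW : ∀ i, Measurable fun b => W b i) (hE : ∀ b, E A n b (W b)) :
    ∃ W' : B → ℕ → Fin q, ((∀ i, Measurable fun b => W' b i) ∧ ∀ b, E A (n + 1) b (W' b)) ∧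
      ∀ b, ∀ i < n, W' b i = W b i := by
  have h1 : ∀ j : Fin q, MeasurableSet {b | E A (n + 1) b (Function.update (W b) n j)} := by
    intro j
    have h2 : {b | E A (n + 1) b (Function.update (W b) n j)} =
        ⋃ v : Fin n → Fin q, (⋂ i : Fin n, {b | W b i = v i}) ∩
          {b | E A (n + 1) b (Function.update (ext hq v) n j)} := by
      ext b
      simp only [mem_iUnion, mem_inter_iff, mem_iInter, mem_ofPred_eq]
      have h3 : ∀ v : Fin n → Fin q, (∀ i : Fin n, W b i = v i) → ∀ i < n + 1,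
          Function.update (W b) n j i = Function.update (ext hq v) n j i := by
        intro v hv i hi
        rcases Nat.lt_succ_iff_lt_or_eq.1 hi with h | h
        · rw [Function.update_of_ne (Nat.ne_of_lt h), Function.update_of_ne (Nat.ne_of_lt h)]
          unfold ext
          rw [dif_pos h]
          exact hv ⟨i, h⟩
        · subst h
          rw [Function.update_self, Function.update_self]
      constructor
      · intro h
        exact ⟨fun i => W b i, fun i => rfl, (E_congr (h3 _ fun i => rfl)).1 h⟩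
      · rintro ⟨v, hv, h⟩
        exact (E_congr (h3 v hv)).2 h
    rw [h2]
    refine MeasurableSet.iUnion fun v => MeasurableSet.inter ?_ (measurable_E hq hA hm _ _)
    exact MeasurableSet.iInter fun i => hW i (measurableSet_singleton (v i))
  obtain ⟨J, hJ, hJ2⟩ := choice hq _ h1
  refine ⟨fun b => Function.update (W b) n (J b), ⟨?_, ?_⟩, ?_⟩
  · intro i
    by_cases hi : i = n
    · subst hi
      simpa only [Function.update_self] using hJ
    · simpa only [Function.update_of_ne hi] using hW i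
  · intro b
    exact hJ2 b (E_step (hE b))
  · intro b i hi
    exact Function.update_of_ne (Nat.ne_of_lt hi) _ _

end

end SEL_

open SEL_ in
theorem allSEL : tSEL.{u} := by
  intro B _ q A hA hm hex
  by_cases hB : IsEmpty B
  · exact ⟨fun b => (hB.false b).elim, fun i => measurable_of_empty _,
      fun b => (hB.false b).elim⟩
  rw [not_isEmpty_iff] at hB
  obtain ⟨b0⟩ := hB
  obtain ⟨ω0, -⟩ := hex b0
  have hq : 0 < q := (ω0 0).pos
  have hstep := step hq hA hm
  choose F hF hF2 using hstep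
  let P : ℕ → Type u := fun n => {W : B → ℕ → Fin q //
    (∀ i, Measurable fun b => W b i) ∧ ∀ b, E A n b (W b)}
  have hE0 : ∀ b, E A 0 b (fun _ => (⟨0, hq⟩ : Fin q)) := by
    intro b N
    obtain ⟨ω, h1⟩ := hex b
    exact ⟨ω, fun i hi => absurd hi (Nat.not_lt_zero i), fun k _ => h1 k⟩
  let W : ∀ n, P n := fun n => Nat.rec (motive := P)
    ⟨fun _ _ => ⟨0, hq⟩, fun _ => measurable_const, hE0⟩
    (fun n W => ⟨F n W.1 W.2.1 W.2.2, hF n W.1 W.2.1 W.2.2⟩) n
  have hW : ∀ n b, ∀ i < n, (W (n + 1)).1 b i = (W n).1 b i := fun n b i hi =>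
    hF2 n (W n).1 (W n).2.1 (W n).2.2 b i hi
  have hW2 : ∀ n b, ∀ i < n, (W n).1 b i = (W (i + 1)).1 b i := by
    intro n b i hi
    induction n with
    | zero => exact absurd hi (Nat.not_lt_zero i)
    | succ n ih =>
      rcases Nat.lt_succ_iff_lt_or_eq.1 hi with h | h
      · rw [hW n b i h, ih h]
      · subst h
        rfl
  refine ⟨fun b i => (W (i + 1)).1 b i, fun i => (W (i + 1)).2.1 i, ?_⟩
  intro b n
  obtain ⟨ω, h1, h2⟩ := (W n).2.2 b n
  refine (hA n b _ ω ?_).2 (h2 n le_rfl)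
  intro i hi
  rw [h1 i hi]
  exact (hW2 n b i hi).symm

end Pool.Agent.MEQ
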