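import Pool.Agent.MEQ.Targets
import Pool.Agent.MEQ.Base
import Pool.Agent.MEO.MES

set_option autoImplicit false
set_option linter.unusedSectionVars false

/-! B10: measurable matchings on the components which meet a given transversal. -/

namespace Pool.Agent.MEQ

open MeasureTheory Set Filter
open scoped ENNReal
open Pool.Agent.MEC
open Pool.Agent.MEP
open Pool.Agent.MEO

universe u

namespace SMC_

open Encodable (encode encodek)

variable {V : Type u} [MeasurableSpace V] {G R : SimpleGraph V} {m : ℕ}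

open Classical in
/-- the labels of the edges of the subgraph `R` -/
noncomputable def eR (e : PCol G m) (R : SimpleGraph V)
    (hm : MeasurableSet {p : V × V | R.Adj p.1 p.2}) : PCol R m where
  S := fun k x => if R.Adj x (e.S k x) then e.S k x else x
  meas := fun k => by
    refine Measurable.ite ?_ (e.meas k) measurable_id
    exact (measurable_id.prodMk (e.meas k)) hm
  invol := fun k x => by
    by_cases h : R.Adj x (e.S k x)
    · have h2 : R.Adj (e.S k x) (e.S k (e.S k x)) := by rw [e.invol]; exact h.symm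
      rw [if_pos h, if_pos h2, e.invol]
    · rw [if_neg h, if_neg h]
  adj := fun k x h => by
    by_cases h' : R.Adj x (e.S k x)
    · rw [if_pos h']; exact h'
    · rw [if_neg h'] at h; exact absurd rfl h
  disj := fun k k' x h h' => by
    by_cases h1 : R.Adj x (e.S k x)
    · rw [if_pos h1] at h h'
      by_cases h2 : R.Adj x (e.S k' x)
      · rw [if_pos h2] at h
        exact e.disj k k' x h h'
      · rw [if_neg h2] at h
        exact absurd h h'
    · rw [if_neg h1] at h'
      exact absurd rfl h'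

lemma lab_eR {e : PCol G m} (hl : Lab e) (hR : R ≤ G)
    (hm : MeasurableSet {p : V × V | R.Adj p.1 p.2}) : Lab (eR e R hm) := by
  intro x y hxy
  obtain ⟨k, rfl⟩ := hl x y (hR hxy)
  exact ⟨k, if_pos hxy⟩

/-- the constraints on the first `n` labels; label `0` means unmatched -/
def Cn (e : PCol R m) (r n : ℕ) (b : V) (ω : ℕ → Fin (m + 1)) : Prop :=
  (∀ w w' : List (Fin m), encode w < n → encode w' < n → wd e w b = wd e w' b →
    ω (encode w) = ω (encode w')) ∧
  (∀ (w : List (Fin m)) (k : Fin m), encode w < n → encode (w ++ [k]) < n →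
    ω (encode w) = k.succ → e.S k (wd e w b) ≠ wd e w b ∧ ω (encode (w ++ [k])) = k.succ) ∧
  ∀ w : List (Fin m), encode w < n → (∀ w', dg R (wd e w' b) ≤ r) → dg R (wd e w b) = r →
    ω (encode w) ≠ 0

lemma Cn_congr (e : PCol R m) (r n : ℕ) (b : V) (ω ω' : ℕ → Fin (m + 1))
    (h : ∀ i < n, ω i = ω' i) : Cn e r n b ω ↔ Cn e r n b ω' := by
  have key : ∀ ω ω' : ℕ → Fin (m + 1), (∀ i < n, ω i = ω' i) → Cn e r n b ω → Cn e r n b ω' := by
    intro ω ω' h hC
    refine ⟨fun w w' hw hw' heq => ?_, fun w k hw hk hwk => ?_, fun w hw h1 h2 => ?_⟩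
    · rw [← h _ hw, ← h _ hw']
      exact hC.1 w w' hw hw' heq
    · rw [← h _ hk]
      rw [← h _ hw] at hwk
      exact hC.2.1 w k hw hk hwk
    · rw [← h _ hw]
      exact hC.2.2 w hw h1 h2
  exact ⟨key ω ω' h, key ω' ω fun i hi => (h i hi).symm⟩

lemma Cn_meas [StandardBorelSpace V] {e : PCol R m} (hl : Lab e) (r n : ℕ)
    (ω : ℕ → Fin (m + 1)) : MeasurableSet {b | Cn e r n b ω} := by
  have hRm : MeasurableSet {p : V × V | R.Adj p.1 p.2} := MES_.meas_G hl
  have hdg : ∀ N : Set ℕ, MeasurableSet {x | dg R x ∈ N} := by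
    intro N
    have h : {x | dg R x ∈ N} = {x | {k | R.Adj x (e.S k x)}.ncard ∈ N} := by
      ext x
      simp only [mem_ofPred_eq]
      rw [dg_eq_card hl le_rfl]
    rw [h]
    exact MES_.meas_card (fun k x => R.Adj x (e.S k x))
      (fun k => (measurable_id.prodMk (e.meas k)) hRm) N
  have hw : ∀ w, Measurable (wd e w) := fun w => (wd e w).measurable
  refine measurableSet_setOfPred.2 (Measurable.and ?_ (Measurable.and ?_ ?_))
  · refine Measurable.forall fun w => Measurable.forall fun w' => ?_
    refine measurable_const.imp (measurable_const.imp (Measurable.imp ?_ measurable_const))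
    exact measurableSet_setOfPred.1 (measurableSet_eq_fun (hw w) (hw w'))
  · refine Measurable.forall fun w => Measurable.forall fun k => ?_
    refine measurable_const.imp (measurable_const.imp (measurable_const.imp ?_))
    refine Measurable.and ?_ measurable_const
    exact measurableSet_setOfPred.1
      (measurableSet_eq_fun ((e.meas k).comp (hw w)) (hw w)).compl
  · refine Measurable.forall fun w => measurable_const.imp (Measurable.imp ?_ ?_)
    · refine Measurable.forall fun w' => ?_
      exact measurableSet_setOfPred.1 (hw w' (hdg (Iic r)))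
    · refine Measurable.imp ?_ measurable_const
      exact measurableSet_setOfPred.1 (hw w (hdg {r}))

/-- existence of labels at every point -/
lemma Cn_exists (h_MPT : tMPT.{u}) {e : PCol R m} (hl : Lab e) {r : ℕ} (hr : 1 ≤ r)
    {χ : V → Bool} (hχ : ∀ x y, R.Adj x y → χ x ≠ χ y) (b : V) : ∃ ω, ∀ n, Cn e r n b ω := by
  classical
  by_cases hb : ∀ w', dg R (wd e w' b) ≤ r
  · -- the component of `b`
    let R' : SimpleGraph V :=
      { Adj := fun x y => R.Adj x y ∧ x ∈ Cm e b
        symm := ⟨fun x y h => ⟨h.1.symm, Cm_adj hl h.2 h.1⟩⟩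
        loopless := ⟨fun x h => h.1.ne rfl⟩ }
    have hle : R' ≤ R := fun x y h => h.1
    have hin : ∀ x ∈ Cm e b, dg R' x = dg R x := fun x hx =>
      dg_congr fun y => ⟨fun h => h.1, fun h => ⟨h, hx⟩⟩
    have hout : ∀ x, x ∉ Cm e b → dg R' x = 0 := by
      intro x hx
      unfold dg
      have : R'.neighborSet x = ∅ := by
        ext y
        simp only [SimpleGraph.mem_neighborSet, mem_empty_iff_false, iff_false]
        exact fun h => hx h.2
      rw [this, ncard_empty]
    obtain ⟨s, hs1, hs2, hs3⟩ := h_MPT V R' r χ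
      (fun x => fin_of_le hle (Lab.fin hl x))
      (fun x => by
        by_cases hx : x ∈ Cm e b
        · obtain ⟨w, rfl⟩ := hx
          rw [hin _ ⟨w, rfl⟩]
          exact hb w
        · rw [hout x hx]
          exact Nat.zero_le _)
      hr (fun x y h => hχ x y h.1)
    -- the labels of the matched edges
    let lb : V → Fin (m + 1) := fun x =>
      if h : ∃ k, e.S k x = s x ∧ s x ≠ x then (Classical.choose h).succ else 0
    have lb1 : ∀ x k, lb x = k.succ → e.S k x = s x ∧ s x ≠ x := by
      intro x k hk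
      by_cases h : ∃ k, e.S k x = s x ∧ s x ≠ x
      · have h1 : lb x = (Classical.choose h).succ := dif_pos h
        rw [h1] at hk
        rw [← Fin.succ_injective m hk]
        exact Classical.choose_spec h
      · have h1 : lb x = 0 := dif_neg h
        rw [h1] at hk
        exact absurd hk (Fin.succ_ne_zero k).symm
    have lb2 : ∀ x k, e.S k x = s x → s x ≠ x → lb x = k.succ := by
      intro x k hk hx
      have h : ∃ k, e.S k x = s x ∧ s x ≠ x := ⟨k, hk, hx⟩
      have h1 : lb x = (Classical.choose h).succ := dif_pos h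
      have h2 := Classical.choose_spec h
      rw [h1]
      congr 1
      exact e.disj _ _ x (h2.1.trans hk.symm) (by rw [h2.1]; exact hx)
    let ω : ℕ → Fin (m + 1) := fun i =>
      match (Encodable.decode i : Option (List (Fin m))) with
      | some w => lb (wd e w b)
      | none => 0
    have hω : ∀ w : List (Fin m), ω (encode w) = lb (wd e w b) := by
      intro w
      show (match (Encodable.decode (encode w) : Option (List (Fin m))) with
        | some w => lb (wd e w b)
        | none => 0) = _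
      rw [encodek]
    refine ⟨ω, fun n => ⟨fun w w' _ _ h => ?_, fun w k _ _ h => ?_, fun w _ _ h => ?_⟩⟩
    · rw [hω, hω, h]
    · rw [hω] at h
      obtain ⟨h1, h2⟩ := lb1 _ _ h
      refine ⟨by rw [h1]; exact h2, ?_⟩
      rw [hω, wd_snoc]
      refine lb2 _ _ ?_ ?_
      · rw [e.invol, h1, hs1]
      · rw [h1, hs1]
        exact h2.symm
    · rw [hω]
      have h1 := hs3 (wd e w b) (by rw [hin _ ⟨w, rfl⟩]; exact h)
      obtain ⟨k, hk⟩ := hl _ _ (hs2 _ h1).1
      rw [lb2 _ k hk h1]
      exact Fin.succ_ne_zero k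
  · refine ⟨fun _ => 0, fun n => ⟨fun _ _ _ _ _ => rfl, fun w k _ _ h => ?_,
      fun w _ h _ => absurd h hb⟩⟩
    exact absurd h (Fin.succ_ne_zero k).symm

/-- follow the label `j` -/
def go (e : PCol R m) (j : Fin (m + 1)) (x : V) : V := Fin.cases x (fun k => e.S k x) j

@[simp] lemma go_zero (e : PCol R m) (x : V) : go e 0 x = x := rfl

@[simp] lemma go_succ (e : PCol R m) (k : Fin m) (x : V) : go e k.succ x = e.S k x := rfl

lemma go_meas (e : PCol R m) {f : V → Fin (m + 1)} (hf : Measurable f) :
    Measurable fun x => go e (f x) x := by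
  intro B hB
  have h : (fun x => go e (f x) x) ⁻¹' B = ⋃ j, (f ⁻¹' {j} ∩ go e j ⁻¹' B) := by
    ext x
    simp
  rw [h]
  refine MeasurableSet.iUnion fun j => (hf (measurableSet_singleton j)).inter ?_
  induction j using Fin.cases with
  | zero => exact hB
  | succ k => exact e.meas k hB

/-- the statement for `G = R` -/
theorem main (h_SEL : tSEL.{u}) (h_MPT : tMPT.{u}) [StandardBorelSpace V] {e : PCol R m}
    (hl : Lab e) {r : ℕ} (hr : 1 ≤ r) {χ : V → Bool} (hχ : ∀ x y, R.Adj x y → χ x ≠ χ y)
    {T : Set V} (hT : MeasurableSet T) (hPT : PT R T) :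
    ∃ s : V → V, Measurable s ∧ (∀ x, s (s x) = x) ∧ (∀ x, s x ≠ x → R.Adj x (s x)) ∧
      (∀ x, s x ≠ x → x ∈ sn R T) ∧
      ∀ x ∈ sn R T, (∀ y, R.Reachable x y → dg R y ≤ r) → dg R x = r → s x ≠ x := by
  classical
  obtain ⟨ω, hω1, hω2⟩ := h_SEL V (m + 1) (fun n b ω => Cn e r n b ω)
    (fun n b ω ω' h => Cn_congr e r n b ω ω' h) (fun n ω => Cn_meas hl r n ω)
    (Cn_exists h_MPT hl hr hχ)
  -- the constraints without bounds
  have c1 : ∀ b (w w' : List (Fin m)), wd e w b = wd e w' b →
      ω b (encode w) = ω b (encode w') := fun b w w' h =>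
    (hω2 b (max (encode w) (encode w') + 1)).1 w w' (by omega) (by omega) h
  have c2 : ∀ b (w : List (Fin m)) (k : Fin m), ω b (encode w) = k.succ →
      e.S k (wd e w b) ≠ wd e w b ∧ ω b (encode (w ++ [k])) = k.succ := fun b w k h =>
    (hω2 b (max (encode w) (encode (w ++ [k])) + 1)).2.1 w k (by omega) (by omega) h
  have c3 : ∀ b (w : List (Fin m)), (∀ w', dg R (wd e w' b) ≤ r) → dg R (wd e w b) = r →
      ω b (encode w) ≠ 0 := fun b w h1 h2 =>
    (hω2 b (encode w + 1)).2.2 w (by omega) h1 h2
  -- the value along the word `w`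
  let f : List (Fin m) → V → V := fun w x => go e (ω (wd e w x) (encode w.reverse)) x
  have hf : ∀ w, Measurable (f w) := fun w =>
    go_meas e ((hω1 _).comp (wd e w).measurable)
  have hff : ∀ x w w', wd e w x ∈ T → wd e w' x ∈ T → f w x = f w' x := by
    intro x w w' h h'
    have h1 : wd e w x = wd e w' x := by
      refine hPT _ h _ h' ?_
      exact ((Cm_iff_reachable hl).1 ⟨w, rfl⟩).symm.trans ((Cm_iff_reachable hl).1 ⟨w', rfl⟩)
    show go e (ω (wd e w x) (encode w.reverse)) x = go e (ω (wd e w' x) (encode w'.reverse)) x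
    rw [h1, c1 (wd e w' x) w.reverse w'.reverse ?_]
    rw [wd_reverse, ← h1, wd_reverse]
  let s : V → V := fun x => if h : ∃ w, wd e w x ∈ T then f (Classical.choose h) x else x
  have hs : ∀ x w, wd e w x ∈ T → s x = f w x := by
    intro x w hw
    have h : ∃ w, wd e w x ∈ T := ⟨w, hw⟩
    have h1 : s x = f (Classical.choose h) x := dif_pos h
    rw [h1]
    exact hff x _ w (Classical.choose_spec h) hw
  have hs0 : ∀ x, (¬ ∃ w, wd e w x ∈ T) → s x = x := fun x h => dif_neg h
  refine ⟨s, ?_, ?_, ?_, ?_, ?_⟩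
  · intro B hB
    have h : s ⁻¹' B = (⋃ w, (wd e w ⁻¹' T ∩ f w ⁻¹' B)) ∪ ((⋃ w, wd e w ⁻¹' T)ᶜ ∩ B) := by
      ext x
      simp only [mem_preimage, mem_union, mem_iUnion, mem_inter_iff, mem_compl_iff]
      by_cases hx : ∃ w, wd e w x ∈ T
      · obtain ⟨w, hw⟩ := hx
        constructor
        · intro h
          exact Or.inl ⟨w, hw, by rwa [← hs x w hw]⟩
        · rintro (⟨w', hw', h⟩ | ⟨h, -⟩)
          · rwa [hs x w' hw']
          · exact absurd ⟨w, hw⟩ h
      · rw [hs0 x hx]
        constructor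
        · intro h
          exact Or.inr ⟨hx, h⟩
        · rintro (⟨w', hw', -⟩ | ⟨-, h⟩)
          · exact absurd ⟨w', hw'⟩ hx
          · exact h
    rw [h]
    refine MeasurableSet.union (MeasurableSet.iUnion fun w => ?_) ?_
    · exact ((wd e w).measurable hT).inter (hf w hB)
    · exact (MeasurableSet.iUnion fun w => (wd e w).measurable hT).compl.inter hB
  · intro x
    by_cases hx : ∃ w, wd e w x ∈ T
    · obtain ⟨w, hw⟩ := hx
      have h1 : s x = go e (ω (wd e w x) (encode w.reverse)) x := hs x w hw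
      rcases Fin.eq_zero_or_eq_succ (ω (wd e w x) (encode w.reverse)) with h2 | ⟨k, h2⟩
      · rw [h2, go_zero] at h1
        rw [h1, h1]
      · rw [h2, go_succ] at h1
        obtain ⟨-, h3⟩ := c2 _ _ _ h2
        have h4 : wd e (k :: w) (s x) = wd e w x := by
          rw [wd_cons, h1, e.invol]
        rw [hs (s x) (k :: w) (by rw [h4]; exact hw)]
        show go e (ω (wd e (k :: w) (s x)) (encode (k :: w).reverse)) (s x) = x
        rw [h4, List.reverse_cons, h3, go_succ, h1, e.invol]
    · rw [hs0 x hx, hs0 x hx]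
  · intro x hsx
    by_cases hx : ∃ w, wd e w x ∈ T
    · obtain ⟨w, hw⟩ := hx
      have h1 : s x = go e (ω (wd e w x) (encode w.reverse)) x := hs x w hw
      rcases Fin.eq_zero_or_eq_succ (ω (wd e w x) (encode w.reverse)) with h2 | ⟨k, h2⟩
      · rw [h2, go_zero] at h1
        exact absurd h1 hsx
      · rw [h2, go_succ] at h1
        rw [h1] at hsx ⊢
        exact e.adj k x hsx
    · exact absurd (hs0 x hx) hsx
  · intro x hsx
    by_cases hx : ∃ w, wd e w x ∈ T
    · obtain ⟨w, hw⟩ := hx
      exact ⟨wd e w x, hw, (Cm_iff_reachable hl).1 ⟨w, rfl⟩⟩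
    · exact absurd (hs0 x hx) hsx
  · rintro x ⟨t, ht, hxt⟩ hdeg hx
    obtain ⟨w, rfl⟩ := (Cm_iff_reachable hl).2 hxt
    have h1 : s x = go e (ω (wd e w x) (encode w.reverse)) x := hs x w ht
    have h2 := c3 (wd e w x) w.reverse
      (fun w' => hdeg _ (hxt.trans ((Cm_iff_reachable hl).1 ⟨w', rfl⟩)))
      (by rw [wd_reverse]; exact hx)
    rcases Fin.eq_zero_or_eq_succ (ω (wd e w x) (encode w.reverse)) with h3 | ⟨k, h3⟩
    · exact absurd h3 h2
    · obtain ⟨h4, -⟩ := c2 _ _ _ h3
      rw [wd_reverse] at h4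
      rw [h1, h3, go_succ]
      exact h4

end SMC_

theorem allSMC (h_SEL : tSEL.{u}) (h_MPT : tMPT.{u}) : tSMC.{u} := by
  intro V _ _ G m e r χ R T hl hr hR hRm hχ hT hPT
  exact SMC_.main h_SEL h_MPT (SMC_.lab_eR hl hR hRm) hr hχ hT hPT

end Pool.Agent.MEQ
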