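import Pool.Agent.MEQ.Targets
import Pool.Agent.MEQ.Base

set_option autoImplicit false

/-! MP_fff3e1_lc: sparse subsets of positive measure. -/

namespace Pool.Agent.MEQ

open MeasureTheory Set Filter
open scoped ENNReal
open Pool.Agent.MEC
open Pool.Agent.MEP
open Pool.Agent.MEO

universe u

theorem allSPR (h_VCL : tVCL.{u}) : tSPR.{u} := by
  classical
  intro V _ _ G m e ν _ W Z hZ hpos
  obtain ⟨N, col, hcol, hsep⟩ := h_VCL V G m e
    ((W ×ˢ W).image fun p => p.1 ++ p.2.reverse)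
  have h1 : ∃ i, ν (Z ∩ col ⁻¹' {i}) ≠ 0 := by
    by_contra h
    push Not at h
    apply hpos
    have h2 : Z ⊆ ⋃ i, Z ∩ col ⁻¹' {i} := fun x hx => mem_iUnion.2 ⟨col x, hx, rfl⟩
    exact measure_mono_null h2 (measure_iUnion_null h)
  obtain ⟨i, hi⟩ := h1
  refine ⟨Z ∩ col ⁻¹' {i}, inter_subset_left, hZ.inter (hcol (measurableSet_singleton i)),
    hi, ?_⟩
  rintro p ⟨_, hp⟩ q ⟨_, hq⟩ w hw w' hw' heq
  by_contra hne
  have h2 : wd e (w ++ w'.reverse) p = q := by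
    rw [wd_append, heq, wd_reverse]
  have h3 : (w ++ w'.reverse) ∈ (W ×ˢ W).image fun p => p.1 ++ p.2.reverse :=
    Finset.mem_image.2 ⟨(w, w'), Finset.mem_product.2 ⟨hw, hw'⟩, rfl⟩
  have h4 := hsep p _ h3 (by rw [h2]; exact fun h => hne h.symm)
  rw [h2] at h4
  have hp' : col p = i := hp
  have hq' : col q = i := hq
  exact h4 (by rw [hp', hq'])

end Pool.Agent.MEQ
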