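import Pool.Agent.MEQ.Defs

set_option autoImplicit false

/-! MP_fff3e1_lc, every Borel probability measure, no odd cycles, every `Δ`: exact targets.
Proofs: Blueprint.lean.txt.  Prove `theorem allXXX : tXXX.{u}` in Pool/Agent/MEQ/XXX.lean; other
targets are hypotheses. -/

namespace Pool.Agent.MEQ

open MeasureTheory Set Filter
open scoped ENNReal
open Pool.Agent.MEC
open Pool.Agent.MEP
open Pool.Agent.MEO

universe u

/-! ### A. General tools -/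

/-- A1 finite measurable vertex colourings -/
def tVCL : Prop := ∀ (V : Type u) [MeasurableSpace V] [StandardBorelSpace V]
    (G : SimpleGraph V) (m : ℕ) (e : PCol G m) (W : Finset (List (Fin m))),
  ∃ (N : ℕ) (col : V → Fin N), Measurable col ∧
    ∀ x, ∀ w ∈ W, wd e w x ≠ x → col (wd e w x) ≠ col x

/-- A2 sparse subsets -/
def tSPR : Prop := ∀ (V : Type u) [MeasurableSpace V] [StandardBorelSpace V]
    (G : SimpleGraph V) (m : ℕ) (e : PCol G m) (ν : Measure V) [IsFiniteMeasure ν]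
    (W : Finset (List (Fin m))) (Z : Set V), MeasurableSet Z → ν Z ≠ 0 →
  ∃ J ⊆ Z, MeasurableSet J ∧ ν J ≠ 0 ∧ Spr e W J

/-- A3 local functionals are upper semicontinuous -/
def tUSC : Prop := ∀ (V : Type u) [MeasurableSpace V] [StandardBorelSpace V]
    (G K : SimpleGraph V) (m l : ℕ) (e : PCol G m) (ν : Measure V) [IsFiniteMeasure ν]
    (C : ℝ≥0∞), QInv G ν C → C ≠ ⊤ → ∀ B : PCol K l → Set V, Loc e B →
  ∀ (c : PCol K l) (ε : ℝ), 0 < ε → ∃ δ : ℝ, 0 < δ ∧ ∀ c' : PCol K l,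
    PCol.dst ν c c' < δ → ν.real (B c' \ B c) < ε

/-- A4 common continuity points -/
def tGEQ : Prop := ∀ (V : Type u) [MeasurableSpace V] [StandardBorelSpace V]
    (G K : SimpleGraph V) (m l : ℕ) (e : PCol G m) (ν : Measure V) [IsFiniteMeasure ν]
    (C : ℝ≥0∞), QInv G ν C → C ≠ ⊤ → ∀ (ι : Type) [Fintype ι] (B : ι → PCol K l → Set V),
  (∀ i, Loc e (B i)) → ∀ Q : V → (Fin l → V) → Prop,
  (∃ c : PCol K l, ∀ᵐ x ∂ν, Q x fun k => c.S k x) →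
  ∃ c : PCol K l, (∀ᵐ x ∂ν, Q x fun k => c.S k x) ∧ ∀ i, Stb ν Q (B i) c

/-- A5 the functionals are local -/
def tLOC : Prop := ∀ (V : Type u) [MeasurableSpace V] [StandardBorelSpace V]
    (G : SimpleGraph V) (m l : ℕ) (e : PCol G m), Lab e →
  (∀ g h : Fin l, Loc e (fun c : PCol G l => Bad (c.S g) (c.S h))) ∧
  (∀ g h : Fin l, Loc e (fun c : PCol G l => Inf (c.S g) (c.S h))) ∧
  (∀ r : ℕ, Loc e (fun c : PCol G l => XX (RG (toPC c)) r)) ∧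
  ∀ Δ r : ℕ, Loc e (fun c : PCol G l => X1 G (RG (toPC c)) Δ l r)

/-- A5' the functionals for matchings are local -/
def tLO2 : Prop := ∀ (U : Type u) [MeasurableSpace U] [StandardBorelSpace U]
    (P K : SimpleGraph U) (m : ℕ) (e : PCol P m) (L : Set U) (t : U → U), Lab e → K ≤ P →
  MeasurableSet {p : U × U | K.Adj p.1 p.2} → MeasurableSet L → Measurable t →
  (∀ x, t (t x) = x) → (∀ x, t x ≠ x → P.Adj x (t x)) →
  Loc e (fun M : PCol K 1 => NF K L (M.S 0)) ∧ Loc e (fun M : PCol K 1 => Bad (M.S 0) t)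

/-- A6 a maximal partial transversal -/
def tSMO : Prop := ∀ (V : Type u) [MeasurableSpace V] [StandardBorelSpace V]
    (G : SimpleGraph V) (m : ℕ) (e : PCol G m) (ν : Measure V) [IsFiniteMeasure ν], Lab e →
  ∀ R : SimpleGraph V, R ≤ G → MeasurableSet {p : V × V | R.Adj p.1 p.2} →
  ∃ T, MeasurableSet T ∧ PT R T ∧ MeasurableSet (sn R T) ∧ NSm ν R (sn R T)ᶜ

/-- A7 vanishing sets of places meeting every component -/
def tVAQ : Prop := ∀ (V : Type u) [MeasurableSpace V] [StandardBorelSpace V]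
    (G : SimpleGraph V) (m : ℕ) (e : PCol G m) (ν : Measure V) [IsFiniteMeasure ν], Lab e →
  ∀ R : SimpleGraph V, R ≤ G → MeasurableSet {p : V × V | R.Adj p.1 p.2} →
  ∀ X, NSm ν R X → ∀ Z ⊆ X, MeasurableSet Z → ∀ ε : ℝ, 0 < ε →
  ∃ J ⊆ Z, MeasurableSet J ∧ ν.real J < ε ∧ ∀ x ∈ Z, ∃ y ∈ J, R.Reachable x y

/-- A8 independent subsets in graphs of bounded in-degree, with respect to any finite measure -/
def tTHN : Prop := ∀ D : ℕ, ∃ K : ℝ≥0∞, K ≠ ⊤ ∧ ∀ (V : Type u) [MeasurableSpace V]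
    [StandardBorelSpace V] (μ : Measure V) [IsFiniteMeasure μ] (J : Set V) (θ : ℕ → V → V),
  MeasurableSet J → (∀ i, Measurable (θ i)) →
  (∀ x ∈ J, {y | y ∈ J ∧ y ≠ x ∧ ∃ i, θ i x = y}.encard ≤ D) →
  ∃ J' ⊆ J, MeasurableSet J' ∧ (∀ x ∈ J', ∀ i, θ i x ∈ J' → θ i x = x) ∧ μ J ≤ K * μ J'

/-- A9 measurable selection by compactness; `A n` depends on the first `n` values only -/
def tSEL : Prop := ∀ (B : Type u) [MeasurableSpace B] (q : ℕ)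
    (A : ℕ → B → (ℕ → Fin q) → Prop),
  (∀ n b ω ω', (∀ i < n, ω i = ω' i) → (A n b ω ↔ A n b ω')) →
  (∀ n ω, MeasurableSet {b | A n b ω}) → (∀ b, ∃ ω, ∀ n, A n b ω) →
  ∃ ω : B → ℕ → Fin q, (∀ i, Measurable fun b => ω b i) ∧ ∀ b n, A n b (ω b)

/-- A10 quasi-invariance of the doubled measure -/
def tQDB : Prop := ∀ (V : Type u) [MeasurableSpace V] [StandardBorelSpace V]
    (G : SimpleGraph V) (m : ℕ) (e : PCol G m) (ν : Measure V) [IsFiniteMeasure ν]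
    (C : ℝ≥0∞), Lab e → QInv G ν C → C ≠ ⊤ → ∃ C' : ℝ≥0∞, C' ≠ ⊤ ∧
  ∀ K : SimpleGraph (V × Bool), (∀ p q, K.Adj p q → p.1 = q.1 ∨ G.Adj p.1 q.1) →
    QInv K (dbl ν) C'

/-! ### B. Matchings -/

/-- B1 densities -/
def tDEN : Prop := ∀ (U : Type u) [MeasurableSpace U] [StandardBorelSpace U]
    (K : SimpleGraph U) (m : ℕ) (e : PCol K m) (ν : Measure U) [IsFiniteMeasure ν]
    (C : ℝ≥0∞), QInv K ν C → C ≠ ⊤ → ∃ δ : Fin m → U → ℝ≥0∞, Den e ν C δ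

/-- B2 one round of bids -/
def tBID : Prop := ∀ (U : Type u) [MeasurableSpace U] [StandardBorelSpace U]
    (K : SimpleGraph U) (m : ℕ) (e : PCol K m) (ν : Measure U) [IsFiniteMeasure ν]
    (C : ℝ≥0∞) (L O : Set U) (δ : Fin m → U → ℝ≥0∞) (c : ℝ≥0∞), Lab e → Den e ν C δ →
  MeasurableSet L → MeasurableSet O → O ⊆ L → (∀ x y, K.Adj x y → (x ∈ L ↔ y ∉ L)) →
  ∀ B : Set U, MeasurableSet B → B ⊆ L →
  (∀ x ∈ B, ∀ x' ∈ B, ∀ y, K.Adj x y → K.Adj x' y → x = x') →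
  ∀ (s : U → U) (k : U → ℕ), Auc e ν L O δ c s k → ∃ (s' : U → U) (k' : U → ℕ),
    Auc e ν L O δ c s' k' ∧ (∀ y, k y ≤ k' y ∧ k' y ≤ k y + 1) ∧
    (∀ y, y ∉ L → s' y ≠ s y → k' y = k y + 1) ∧
    ∀ x ∈ B, s x = x → (∃ y, K.Adj x y) →
      (x ∈ O → ∃ κ, e.S κ x ≠ x ∧ k (e.S κ x) * δ κ x ≤ c) → ∃ y, K.Adj x y ∧ k' y = k y + 1

open Classical in
/-- average price of the neighbours -/
noncomputable def Av {U : Type u} [MeasurableSpace U] {K : SimpleGraph U} {m : ℕ}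
    (e : PCol K m) (δ : Fin m → U → ℝ≥0∞) (k : U → ℕ) (x : U) : ℝ≥0∞ :=
  (∑ κ : Fin m, if e.S κ x = x then 0 else k (e.S κ x) * δ κ x) / (dg K x : ℝ≥0∞)

open Classical in
/-- smallest price of a neighbour -/
noncomputable def Mn {U : Type u} [MeasurableSpace U] {K : SimpleGraph U} {m : ℕ}
    (e : PCol K m) (δ : Fin m → U → ℝ≥0∞) (k : U → ℕ) (x : U) : ℝ≥0∞ :=
  ⨅ κ : Fin m, if e.S κ x = x then ⊤ else k (e.S κ x) * δ κ x

/-- B3 bounds which do not depend on the number of rounds -/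
def tBND : Prop := ∀ (U : Type u) [MeasurableSpace U] [StandardBorelSpace U]
    (K : SimpleGraph U) (m : ℕ) (e : PCol K m) (ν : Measure U) [IsFiniteMeasure ν]
    (C : ℝ≥0∞) (L O : Set U) (δ : Fin m → U → ℝ≥0∞) (c θ : ℝ≥0∞), Lab e → Den e ν C δ →
  C ≠ ⊤ → MeasurableSet L → MeasurableSet O → O ⊆ L → (∀ x y, K.Adj x y → (x ∈ L ↔ y ∉ L)) →
  c ≠ ⊤ → θ ≤ 1 → (∀ᵐ y ∂ν, y ∉ L → ld K O θ y ≤ 1) →
  ∀ (s : U → U) (k : U → ℕ), Auc e ν L O δ c s k → (∃ n : ℕ, ∀ y, k y ≤ n) →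
    ∫⁻ y in Lᶜ, (1 - ld K O θ y) * k y ∂ν ≤ ν univ + c * ν univ ∧
    ∫⁻ x in L \ O, (Av e δ k x - Mn e δ k x) ∂ν ≤ ν univ + c * ν univ ∧
    θ * ∫⁻ x in O, Av e δ k x ∂ν ≤ ν univ + c * ν {x | x ∈ O ∧ s x ≠ x}

/-- B4 Hall's theorem with optional left vertices -/
def tHALL : Prop := ∀ (U : Type u) [MeasurableSpace U] [StandardBorelSpace U]
    (K : SimpleGraph U) (m : ℕ) (e : PCol K m) (ν : Measure U) [IsFiniteMeasure ν]
    (C : ℝ≥0∞) (L O : Set U) (θ : ℝ≥0∞), Lab e → QInv K ν C → C ≠ ⊤ →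
  MeasurableSet L → MeasurableSet O → O ⊆ L → (∀ x y, K.Adj x y → (x ∈ L ↔ y ∉ L)) →
  θ ≠ 0 → θ ≤ 1 → (∀ᵐ y ∂ν, y ∉ L → ld K O θ y ≤ 1) →
  (∀ᵐ x ∂ν, x ∈ O → ∃ y, K.Adj x y ∧ ld K O θ y < 1) →
  ∃ M : PCol K 1, (∀ᵐ x ∂ν, x ∈ L → x ∉ O →
      (∃ y, y ∉ L ∧ K.Reachable x y ∧ ld K O θ y < 1) → M.S 0 x ≠ x) ∧
    (ν O ≠ 0 → ν {x | x ∈ O ∧ M.S 0 x ≠ x} ≠ 0)

/-- matchings which cover `L` -/
def QL {U : Type u} (L : Set U) (x : U) (s : Fin 1 → U) : Prop := x ∈ L → s 0 ≠ x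

/-- B5 at a continuity point every right vertex has a finite alternating path to a free one -/
def tNSN : Prop := ∀ (U : Type u) [MeasurableSpace U] [StandardBorelSpace U]
    (P K : SimpleGraph U) (m r : ℕ) (e : PCol P m) (ν : Measure U) [IsFiniteMeasure ν]
    (C : ℝ≥0∞) (L : Set U) (M : PCol K 1), Lab e → QInv P ν C → C ≠ ⊤ → K ≤ P →
  MeasurableSet {p : U × U | K.Adj p.1 p.2} → MeasurableSet L →
  (∀ x y, K.Adj x y → (x ∈ L ↔ y ∉ L)) → 1 ≤ r → (∀ᵐ x ∂ν, x ∈ L → dg K x = r) →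
  (∀ᵐ y ∂ν, y ∉ L → dg K y ≤ r) →
  (∀ᵐ x ∂ν, x ∈ L → ∃ y, y ∉ L ∧ K.Reachable x y ∧ dg K y < r) →
  (∀ᵐ x ∂ν, QL L x fun k => M.S k x) →
  Stb ν (QL L) (fun M : PCol K 1 => NF K L (M.S 0)) M → ν (NF K L (M.S 0)) = 0

/-- the flip of the double cover -/
def flp {V : Type u} (p : V × Bool) : V × Bool := (p.1, !p.2)

/-- B6 at a continuity point the bi-infinite strands are null or have a transversal -/
def tBDN : Prop := ∀ (V : Type u) [MeasurableSpace V] [StandardBorelSpace V]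
    (G : SimpleGraph V) (m : ℕ) (e : PCol G m) (ν : Measure V) [IsFiniteMeasure ν]
    (C : ℝ≥0∞) (r n : ℕ) (R : SimpleGraph V), Lab e → QInv G ν C → C ≠ ⊤ → 1 ≤ r → R ≤ G →
  MeasurableSet {p : V × V | R.Adj p.1 p.2} → (∀ᵐ x ∂ν, dg R x ≤ r) →
  ∀ (eP : PCol (DP R {x | dg R x = r}) n) (M : PCol (DK R {x | dg R x = r}) 1), Lab eP →
  (∀ᵐ x ∂(dbl ν), QL {p | p.2 = false ∧ dg R p.1 = r} x fun k => M.S k x) →
  Stb (dbl ν) (QL {p | p.2 = false ∧ dg R p.1 = r})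
    (fun M : PCol (DK R {x | dg R x = r}) 1 => Bad (M.S 0) flp) M →
  dbl ν (NF (DK R {x | dg R x = r}) {p | p.2 = false ∧ dg R p.1 = r} (M.S 0)) = 0 →
  ∀ X ⊆ Bad (M.S 0) flp, MeasurableSet X → Cld (SG (M.S 0) flp) X →
    NSm (dbl ν) (SG (M.S 0) flp) X → dbl ν X = 0

/-- the orbits of an injection as a graph -/
def FG {V : Type u} (f : V → V) : SimpleGraph V where
  Adj x y := x ≠ y ∧ (y = f x ∨ x = f y)
  symm := ⟨fun _ _ h => ⟨h.1.symm, h.2.symm⟩⟩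
  loopless := ⟨fun _ h => h.1 rfl⟩

/-- B6' a vertex of degree less than `r` gives one in the double cover -/
def tBDQ : Prop := ∀ (V : Type u) (R : SimpleGraph V) (r : ℕ),
  (∀ x, (R.neighborSet x).Finite) → 1 ≤ r → ∀ x, dg R x = r →
  (∀ y, R.Reachable x y → dg R y ≤ r) → (∃ y, R.Reachable x y ∧ dg R y < r) →
  ∃ y, (DK R {x | dg R x = r}).Reachable (x, false) (y, true) ∧
    dg (DK R {x | dg R x = r}) (y, true) < r

/-- B7 an injection with good orbits -/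
def tORQ : Prop := ∀ (V : Type u) [MeasurableSpace V] [StandardBorelSpace V]
    (G : SimpleGraph V) (m : ℕ) (e : PCol G m) (ν : Measure V) [IsFiniteMeasure ν]
    (C : ℝ≥0∞) (r : ℕ) (R : SimpleGraph V), Lab e → QInv G ν C → C ≠ ⊤ → 1 ≤ r → R ≤ G →
  MeasurableSet {p : V × V | R.Adj p.1 p.2} → (∀ᵐ x ∂ν, dg R x ≤ r) →
  (∀ᵐ x ∂ν, dg R x = r → ∃ y, R.Reachable x y ∧ dg R y < r) →
  ∃ f g : V → V, Measurable f ∧ Measurable g ∧ (∀ x, f x ≠ x → R.Adj x (f x) ∧ g (f x) = x) ∧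
    (∀ y, g y ≠ y → R.Adj (g y) y ∧ f (g y) = y) ∧ (∀ᵐ x ∂ν, dg R x = r → f x ≠ x) ∧
    ∃ T, MeasurableSet T ∧ PT (FG f) T ∧ ∀ᵐ x ∂ν, (∃ n, g (g^[n] x) = g^[n] x) ∨
      (∃ n, f (f^[n] x) = f^[n] x) ∨ (∃ p, 1 ≤ p ∧ g^[p] x = x) ∨ x ∈ sn (FG f) T

/-- B8 from the injection to a matching -/
def tMTQ : Prop := ∀ (V : Type u) [MeasurableSpace V] [StandardBorelSpace V]
    (R : SimpleGraph V) (χ : V → Bool) (f g : V → V) (T : Set V),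
  (∀ x y, R.Adj x y → χ x ≠ χ y) →
  Measurable f → Measurable g → (∀ x, f x ≠ x → R.Adj x (f x) ∧ g (f x) = x) →
  (∀ y, g y ≠ y → R.Adj (g y) y ∧ f (g y) = y) → MeasurableSet T → PT (FG f) T →
  ∃ s : V → V, Measurable s ∧ (∀ x, s (s x) = x) ∧ (∀ x, s x ≠ x → R.Adj x (s x)) ∧
    ∀ x, ((∃ n, g (g^[n] x) = g^[n] x) ∨ (∃ n, f (f^[n] x) = f^[n] x) ∨
      (∃ p, 1 ≤ p ∧ g^[p] x = x) ∨ x ∈ sn (FG f) T) → f x ≠ x → s x ≠ x

/-- B9 matchings covering the vertices of degree `r`, without measurability -/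
def tMPT : Prop := ∀ (V : Type u) (R : SimpleGraph V) (r : ℕ) (χ : V → Bool),
  (∀ x, (R.neighborSet x).Finite) → (∀ x, dg R x ≤ r) → 1 ≤ r →
  (∀ x y, R.Adj x y → χ x ≠ χ y) →
  ∃ s : V → V, (∀ x, s (s x) = x) ∧ (∀ x, s x ≠ x → R.Adj x (s x)) ∧
    ∀ x, dg R x = r → s x ≠ x

/-- B10 matchings on components with a transversal -/
def tSMC : Prop := ∀ (V : Type u) [MeasurableSpace V] [StandardBorelSpace V]
    (G : SimpleGraph V) (m : ℕ) (e : PCol G m) (r : ℕ) (χ : V → Bool) (R : SimpleGraph V)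
    (T : Set V), Lab e → 1 ≤ r → R ≤ G → MeasurableSet {p : V × V | R.Adj p.1 p.2} →
  (∀ x y, R.Adj x y → χ x ≠ χ y) → MeasurableSet T → PT R T →
  ∃ s : V → V, Measurable s ∧ (∀ x, s (s x) = x) ∧ (∀ x, s x ≠ x → R.Adj x (s x)) ∧
    (∀ x, s x ≠ x → x ∈ sn R T) ∧
    ∀ x ∈ sn R T, (∀ y, R.Reachable x y → dg R y ≤ r) → dg R x = r → s x ≠ x

/-- B11 one more colour -/
def tCMQ : Prop := ∀ (V : Type u) [MeasurableSpace V] [StandardBorelSpace V]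
    (G : SimpleGraph V) (m : ℕ) (e : PCol G m) (ν : Measure V) [IsFiniteMeasure ν]
    (C : ℝ≥0∞) (Δ l r : ℕ), Lab e → QInv G ν C → C ≠ ⊤ → PX G Δ univ → 1 ≤ r →
  ∀ c : PCol G l, (∀ᵐ x ∂ν, dg (RG (toPC c)) x ≤ r) → Cln ν r c →
  ∃ c' : PCol G (l + 1), ∀ᵐ x ∂ν, dg (RG (toPC c')) x ≤ r - 1

/-! ### C. Infinite walks -/

/-- C1 disjoint infinite alternating walks -/
def tKGW : Prop := ∀ (V : Type u) [MeasurableSpace V] [StandardBorelSpace V]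
    (G : SimpleGraph V) (m : ℕ) (e : PCol G m) (ν : Measure V) [IsFiniteMeasure ν]
    (C : ℝ≥0∞) (Δ l r : ℕ), Lab e → QInv G ν C → C ≠ ⊤ → PX G Δ univ → l + r = Δ → 1 ≤ r →
  ∀ (c : PCol G l) (g : Fin l) (Y0 : Set V), (∀ᵐ x ∂ν, dg (RG (toPC c)) x ≤ r) →
  MeasurableSet Y0 → (∀ u ∈ Y0, dg G u < Δ ∧ c.S g u = u ∧ dg (RG (toPC c)) u = r ∧
    ∀ n, u ∉ TS G (RG (toPC c)) Δ l r ∅ n true) → ν Y0 ≠ 0 →
  ∃ Y ⊆ Y0, MeasurableSet Y ∧ ν Y ≠ 0 ∧ ∃ f h : V → V, Measurable f ∧ Measurable h ∧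
    (∀ x, f x ≠ x → h (f x) = x) ∧ (∀ y, h y ≠ y → f (h y) = y) ∧
    ∀ u ∈ Y, ∀ n, (RG (toPC c)).Adj ((fun x => c.S g (f x))^[n] u)
        (f ((fun x => c.S g (f x))^[n] u)) ∧
      (∀ j, (fun x => c.S g (f x))^[n] u ∉ TS G (RG (toPC c)) Δ l r ∅ j true) ∧
      (∀ j, f ((fun x => c.S g (f x))^[n] u) ∉ TS G (RG (toPC c)) Δ l r ∅ j false) ∧
      c.S g (f ((fun x => c.S g (f x))^[n] u)) ≠ f ((fun x => c.S g (f x))^[n] u)

/-- C2 flipping such walks -/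
def tFLP : Prop := ∀ (V : Type u) [MeasurableSpace V] [StandardBorelSpace V]
    (G : SimpleGraph V) (m : ℕ) (e : PCol G m) (ν : Measure V) [IsFiniteMeasure ν]
    (C : ℝ≥0∞) (Δ l r : ℕ), Lab e → QInv G ν C → C ≠ ⊤ → PX G Δ univ → l + r = Δ → 1 ≤ r →
  ∀ (c : PCol G l) (g : Fin l) (Y : Set V) (f h : V → V),
  MeasurableSet Y → Measurable f → Measurable h →
  (∀ u ∈ Y, dg G u < Δ ∧ c.S g u = u ∧ dg (RG (toPC c)) u = r) →
  (∀ x, f x ≠ x → h (f x) = x) → (∀ y, h y ≠ y → f (h y) = y) →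
  (∀ u ∈ Y, ∀ n, (RG (toPC c)).Adj ((fun x => c.S g (f x))^[n] u)
        (f ((fun x => c.S g (f x))^[n] u)) ∧
      (∀ j, (fun x => c.S g (f x))^[n] u ∉ TS G (RG (toPC c)) Δ l r ∅ j true) ∧
      (∀ j, f ((fun x => c.S g (f x))^[n] u) ∉ TS G (RG (toPC c)) Δ l r ∅ j false) ∧
      c.S g (f ((fun x => c.S g (f x))^[n] u)) ≠ f ((fun x => c.S g (f x))^[n] u)) →
  ∀ ε : ℝ, 0 < ε → ∃ δ : ℝ, 0 < δ ∧ ∀ J ⊆ Y, MeasurableSet J → ν.real J < δ →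
    ∃ c' : PCol G l, (∀ x, dg (RG (toPC c')) x ≤ dg (RG (toPC c)) x) ∧
      PCol.dst ν c c' < ε ∧
      ∀ p, (∃ u ∈ J, (RG (toPC c)).Reachable p u) → p ∉ X1 G (RG (toPC c')) Δ l r

/-- C3 at a continuity point exchanges can be completed in finitely many steps -/
def tCLS : Prop := ∀ (V : Type u) [MeasurableSpace V] [StandardBorelSpace V]
    (G : SimpleGraph V) (m : ℕ) (e : PCol G m) (ν : Measure V) [IsFiniteMeasure ν]
    (C : ℝ≥0∞) (Δ l r : ℕ), Lab e → QInv G ν C → C ≠ ⊤ → PX G Δ univ → l + r = Δ → 1 ≤ r →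
  ∀ c : PCol G l, GS ν Δ r c →
  ∀ X ⊆ XX (RG (toPC c)) r, MeasurableSet X → Cld (RG (toPC c)) X → NSm ν (RG (toPC c)) X →
    ν (X1 G (RG (toPC c)) Δ l r ∩ X) = 0

/-! ### D. Cleaning -/

/-- D1 the exchange paths, as lists of steps -/
def tPRK : Prop := ∀ (V : Type u) (G : SimpleGraph V) (Δ l r : ℕ) (C : Set V), PX G Δ C →
  l + r = Δ → 1 ≤ l → 1 ≤ r → ∀ (R : SimpleGraph V) (X : Set V), R ≤ G →
  (∀ x ∈ C, dg R x ≤ r ∧ dg G x ≤ dg R x + l) → (∀ x ∈ X, dg R x = r) → Cld R X →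
  (∀ x ∈ X, ∀ y ∈ X, x ∈ C → R.Adj x y → dg G x = Δ ∨ dg G y = Δ) →
  ∀ b ∈ X, b ∈ C → dg G b = Δ → (∃ n, b ∈ TS G R Δ l r X n false) →
  ∃ p ∈ X, ∃ q ∈ X, p ∈ C ∧ q ∈ C ∧ ∀ f : V → V, R.Adj p (f p) → R.Adj q (f q) →
    ∃ σ : List (Ex V), (∀ x ∈ σ, x.a ∈ C ∧ x.v ∈ C ∧ x.b ∈ C) ∧
      LegL G l r X {p, q} R σ ∧ dg (apL R σ) (f p) < r ∧ dg (apL R σ) (f q) < r

/-- D2 one round: a step is carried out at a large subset of the places -/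
def tRND : Prop := ∀ l N : ℕ, ∃ K : ℝ≥0∞, K ≠ ⊤ ∧ ∀ (V : Type u) [MeasurableSpace V]
    [StandardBorelSpace V] (G : SimpleGraph V) (m Δ r : ℕ) (e : PCol G m) (c : PCol G l)
    (x : Ex (List (Fin m))) (W : Finset (List (Fin m))) (J : Set V)
    (μ : Measure V) [IsFiniteMeasure μ], Lab e → PX G Δ univ → W.card ≤ N →
  x.a ∈ W → x.v ∈ W → x.b ∈ W → MeasurableSet J → Spr e W J →
  (∀ p ∈ J, Leg G l r ∅ ∅ (RG (toPC c)) (at' e p x)) →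
  ∃ J' ⊆ J, MeasurableSet J' ∧ μ J ≤ K * μ J' ∧ ∃ c' : PCol G l,
    (∀ p ∈ J', ∀ w ∈ W, SA (RG (toPC c')) (ap (RG (toPC c)) (at' e p x)) (wd e w p)) ∧
    (∀ z, z ∉ Rgn e W J' → SA (RG (toPC c')) (RG (toPC c)) z) ∧
    ∀ z k, c'.S k z ≠ c.S k z → z ∈ Rgn e W J ∨ z ∈ Tch (toPC c) (Rgn e W J)

/-- D3 the strands which end near a small set are small, for all states near a generic one -/
def tCST : Prop := ∀ (V : Type u) [MeasurableSpace V] [StandardBorelSpace V]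
    (G : SimpleGraph V) (m l : ℕ) (e : PCol G m) (ν : Measure V) [IsFiniteMeasure ν]
    (C : ℝ≥0∞) (Q : V → (Fin l → V) → Prop) (c : PCol G l), Lab e → QInv G ν C → C ≠ ⊤ →
  (∀ g h : Fin l, g ≠ h → Stb ν Q (fun c : PCol G l => Bad (c.S g) (c.S h)) c) →
  (∀ g h : Fin l, g ≠ h → Stb ν Q (fun c : PCol G l => Inf (c.S g) (c.S h)) c) →
  ∀ ε : ℝ, 0 < ε → ∃ δ : ℝ, 0 < δ ∧ ∀ c' : PCol G l, (∀ᵐ x ∂ν, Q x fun k => c'.S k x) →
    PCol.dst ν c c' < δ → ∀ E : Set V, MeasurableSet E → ν.real E < δ →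
    ν.real (Tch (toPC c') E) < ε

/-- D4 all steps of a code, in rounds -/
def tRNS : Prop := ∀ l N n : ℕ, ∃ K : ℝ≥0∞, K ≠ ⊤ ∧ ∀ (V : Type u) [MeasurableSpace V]
    [StandardBorelSpace V] (G : SimpleGraph V) (m Δ r : ℕ) (e : PCol G m) (ν : Measure V)
    [IsFiniteMeasure ν] (C : ℝ≥0∞) (c : PCol G l) (W : Finset (List (Fin m)))
    (σ : List (Ex (List (Fin m)))), Lab e → QInv G ν C → C ≠ ⊤ → PX G Δ univ →
  GS ν Δ r c → W.card ≤ N → σ.length ≤ n → Inw W σ →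
  ∀ ε : ℝ, 0 < ε → ∃ δ : ℝ, 0 < δ ∧ ∀ J : Set V, MeasurableSet J → ν.real J < δ → Spr e W J →
  (∀ p ∈ J, LegL G l r ∅ ∅ (RG (toPC c)) (σ.map (at' e p))) →
  ∀ (μ : Measure V) [IsFiniteMeasure μ], ∃ (J' : Set V) (c' : PCol G l), MeasurableSet J' ∧
    μ J ≤ K * μ J' ∧ Exd e c c' σ W J J' ∧ (∀ᵐ x ∂ν, dg (RG (toPC c')) x ≤ r) ∧
    PCol.dst ν c c' < ε

/-- D5 at a generic state there is no place at which every option is available -/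
def tSRQ : Prop := ∀ (V : Type u) [MeasurableSpace V] [StandardBorelSpace V]
    (G : SimpleGraph V) (m Δ l r : ℕ) (e : PCol G m) (ν : Measure V) [IsFiniteMeasure ν]
    (C : ℝ≥0∞), Lab e → QInv G ν C → C ≠ ⊤ → PX G Δ univ → ∀ c : PCol G l, GS ν Δ r c →
  ∀ X ⊆ XX (RG (toPC c)) r, MeasurableSet X →
  Cld (RG (toPC c)) X → NSm ν (RG (toPC c)) X →
  ∀ᵐ p ∂ν, p ∈ X → ¬ ∃ q ∈ X, q ∈ Cm e p ∧ ∀ κ : Fin m, ∃ σ : List (Ex V),
    (∀ x ∈ σ, x.a ∈ Cm e p ∧ x.v ∈ Cm e p ∧ x.b ∈ Cm e p) ∧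
    LegL G l r X {p, q} (RG (toPC c)) σ ∧
    ∀ x, (x = p ∨ x = q) → (RG (toPC c)).Adj x (e.S κ x) →
      ∃ z, (z = e.S κ x ∨ (apL (RG (toPC c)) σ).Adj (e.S κ x) z) ∧
        dg (apL (RG (toPC c)) σ) z < r

/-- D6 clean states exist -/
def tCLQ : Prop := ∀ (V : Type u) [MeasurableSpace V] [StandardBorelSpace V]
    (G : SimpleGraph V) (m : ℕ) (e : PCol G m) (ν : Measure V) [IsFiniteMeasure ν]
    (C : ℝ≥0∞) (Δ l r : ℕ), Lab e → QInv G ν C → C ≠ ⊤ → PX G Δ univ → l + r = Δ → 1 ≤ l →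
  1 ≤ r → (∃ c : PCol G l, ∀ᵐ x ∂ν, dg (RG (toPC c)) x ≤ r) →
  ∃ c : PCol G l, (∀ᵐ x ∂ν, dg (RG (toPC c)) x ≤ r) ∧ Cln ν r c

/-! ### E. The theorem -/

/-- E1 -/
def tMNQ : Prop := ∀ (V : Type u) [MeasurableSpace V] [StandardBorelSpace V]
    (G : SimpleGraph V) (Δ : ℕ) (μ : Measure V) [IsFiniteMeasure μ],
  MeasurableSet {p : V × V | G.Adj p.1 p.2} → (∀ x, (G.neighborSet x).encard ≤ Δ) →
  (∀ x y, G.Adj x y → (G.neighborSet x).encard < Δ ∨ (G.neighborSet y).encard < Δ) →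
  (∃ χ : V → Bool, ∀ x y, G.Adj x y → χ x ≠ χ y) →
  ∃ c : PCol G Δ, ∀ᵐ x ∂μ, ∀ y, G.Adj x y → ∃ k, c.S k x = y

end Pool.Agent.MEQ
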