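import Pool.Agent.MEQ.Base
import Pool.Agent.MEQ.Targets
import Pool.Agent.MEO.MES

set_option autoImplicit false

/-! D5: at a generic state there is no place at which every option is available. -/

namespace Pool.Agent.MEQ

open MeasureTheory Set Filter
open scoped ENNReal
open Pool.Agent.MEC
open Pool.Agent.MEP
open Pool.Agent.MEO

universe u

namespace SRQ_

/-! ### Push forward -/

/-- the image of a measure under maps defined on pieces -/
lemma push {V : Type u} [MeasurableSpace V] (ν : Measure V) [IsFiniteMeasure ν] {ι : Type}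
    [Encodable ι] (A : ι → Set V) (hA : ∀ i, MeasurableSet (A i)) (f : ι → V → V)
    (hf : ∀ i, Measurable (f i)) : ∃ μ : Measure V, IsFiniteMeasure μ ∧
      (∀ J, MeasurableSet J → (∀ i, ∀ y ∈ A i, f i y ∈ J) → ν (⋃ i, A i) ≤ μ J) ∧
      ∀ J, MeasurableSet J → ∀ D, (∀ i, ∀ y ∈ A i, f i y ∈ J → y ∈ D) → μ J ≤ ν D := by
  classical
  set B : ι → Set V := fun i =>
    A i \ ⋃ j ∈ {j : ι | Encodable.encode j < Encodable.encode i}, A j with hB
  have mB : ∀ i, MeasurableSet (B i) := fun i =>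
    (hA i).diff (MeasurableSet.biUnion (to_countable _) fun j _ => hA j)
  have hBA : ∀ i, B i ⊆ A i := fun i => sdiff_subset
  have hdis : Pairwise (Function.onFun Disjoint B) := by
    intro i j hij
    rw [Function.onFun, Set.disjoint_left]
    intro x hxi hxj
    rcases lt_trichotomy (Encodable.encode i) (Encodable.encode j) with h | h | h
    · exact hxj.2 (mem_biUnion (show i ∈ {j' : ι | _} from h) hxi.1)
    · exact hij (Encodable.encode_injective h)
    · exact hxi.2 (mem_biUnion (show j ∈ {j' : ι | _} from h) hxj.1)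
  have hun : ⋃ i, A i ⊆ ⋃ i, B i := by
    intro x hx
    obtain ⟨i, hi⟩ := mem_iUnion.1 hx
    have hex : ∃ n, ∃ i, Encodable.encode i = n ∧ x ∈ A i := ⟨_, i, rfl, hi⟩
    obtain ⟨j, hj1, hj2⟩ := Nat.find_spec hex
    refine mem_iUnion.2 ⟨j, hj2, fun hcon => ?_⟩
    simp only [mem_iUnion, mem_ofPred_eq, exists_prop] at hcon
    obtain ⟨j', h1, h2⟩ := hcon
    rw [hj1] at h1
    exact Nat.find_min hex h1 ⟨j', rfl, h2⟩
  have happ : ∀ J, MeasurableSet J → (Measure.sum fun i => (ν.restrict (B i)).map (f i)) J =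
      ∑' i, ν (f i ⁻¹' J ∩ B i) := by
    intro J hJ
    rw [Measure.sum_apply _ hJ]
    refine tsum_congr fun i => ?_
    rw [Measure.map_apply (hf i) hJ, Measure.restrict_apply (hf i hJ)]
  refine ⟨Measure.sum fun i => (ν.restrict (B i)).map (f i), ⟨?_⟩, ?_, ?_⟩
  · rw [happ _ MeasurableSet.univ]
    have h1 : ∑' i, ν (f i ⁻¹' univ ∩ B i) = ν (⋃ i, B i) := by
      rw [measure_iUnion hdis mB]
      refine tsum_congr fun i => ?_
      rw [preimage_univ, univ_inter]
    rw [h1]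
    exact measure_lt_top _ _
  · intro J hJ h
    rw [happ _ hJ]
    have h1 : ∀ i, f i ⁻¹' J ∩ B i = B i := fun i =>
      inter_eq_right.2 fun y hy => h i y (hBA i hy)
    simp only [h1]
    exact (measure_mono hun).trans (measure_iUnion_le _)
  · intro J hJ D h
    rw [happ _ hJ, ← measure_iUnion _ fun i => (hf i hJ).inter (mB i)]
    · refine measure_mono (iUnion_subset fun i => ?_)
      rintro y ⟨h1, h2⟩
      exact h i y (hBA i h2) h1
    · intro i j hij
      exact (hdis hij).mono inter_subset_right inter_subset_right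

section plain

variable {V : Type u} {G : SimpleGraph V} {l : ℕ}

lemma ap_le {r : ℕ} {X P : Set V} {R : SimpleGraph V} {x : Ex V} (h : Leg G l r X P R x)
    (hR : R ≤ G) : ap R x ≤ G := by
  intro y z hyz
  unfold ap at hyz
  split_ifs at hyz with h0 h1
  · rw [ins_adj, del_adj] at hyz
    have h2 := (h.1 h0).2.1
    rcases hyz with hyz | ⟨-, ⟨rfl, rfl⟩ | ⟨rfl, rfl⟩⟩
    · exact hR hyz.1
    · exact h2
    · exact h2.symm
  · rw [del_adj] at hyz
    exact hR hyz.1
  · rw [ins_adj] at hyz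
    have h3 : x.kd = 2 := by
      have := x.kd
      omega
    have h2 := (h.2.2.1 h3).1
    rcases hyz with hyz | ⟨-, ⟨rfl, rfl⟩ | ⟨rfl, rfl⟩⟩
    · exact hR hyz
    · exact h2
    · exact h2.symm

lemma apL_le {r : ℕ} {X P : Set V} {R : SimpleGraph V} {σ : List (Ex V)}
    (h : LegL G l r X P R σ) (hR : R ≤ G) : apL R σ ≤ G := by
  induction σ generalizing R with
  | nil => exact hR
  | cons x σ ih => exact ih h.2 (ap_le h.1 hR)

lemma XX_reach {R : SimpleGraph V} {r : ℕ} {x y : V} (hx : x ∈ XX R r)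
    (h : R.Reachable x y) : y ∈ XX R r := by
  refine ⟨?_, fun z hz => hx.2 z (h.trans hz)⟩
  have h1 : {z | R.Reachable y z} = {z | R.Reachable x z} := by
    ext z
    exact ⟨fun hz => h.trans hz, fun hz => h.symm.trans hz⟩
  rw [h1]
  exact hx.1

end plain

instance {A : Type*} [Countable A] : Countable (Ex A) := by
  have : Function.Injective fun x : Ex A => (x.kd, x.a, x.v, x.b) := by
    rintro ⟨a, b, c, d⟩ ⟨a', b', c', d'⟩ h
    simp only [Prod.mk.injEq] at h
    obtain ⟨rfl, rfl, rfl, rfl⟩ := h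
    rfl
  exact this.countable

section meas

variable {V : Type u} [MeasurableSpace V] {G : SimpleGraph V} {l m : ℕ} {e : PCol G m}

/-- measurable families of graphs -/
def MG (e : PCol G m) (Q : V → SimpleGraph V) : Prop :=
  ∀ v v' : List (Fin m), Measurable fun p => (Q p).Adj (wd e v p) (wd e v' p)

variable [StandardBorelSpace V]

lemma meq (e : PCol G m) (v v' : List (Fin m)) : Measurable fun p => wd e v p = wd e v' p :=
  measurableSet_setOfPred.1 (measurableSet_eq_fun (wd e v).measurable (wd e v').measurable)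

lemma MG.ap {Q : V → SimpleGraph V} (h : MG e Q) (x : Ex (List (Fin m))) :
    MG e fun p => Pool.Agent.MEQ.ap (Q p) (at' e p x) := by
  intro v v'
  have hd : Measurable fun p => (del (Q p) (wd e x.a p) (wd e x.b p)).Adj (wd e v p)
      (wd e v' p) := by
    refine (h v v').and (Measurable.not ?_)
    exact ((meq e v x.a).and (meq e v' x.b)).or ((meq e v x.b).and (meq e v' x.a))
  have hi : Measurable fun p => wd e v p ≠ wd e v' p ∧
      ((wd e v p = wd e x.a p ∧ wd e v' p = wd e x.v p) ∨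
        (wd e v p = wd e x.v p ∧ wd e v' p = wd e x.a p)) :=
    (meq e v v').not.and
      (((meq e v x.a).and (meq e v' x.v)).or ((meq e v x.v).and (meq e v' x.a)))
  by_cases h0 : x.kd = 0
  · have h1 : (fun p => (Pool.Agent.MEQ.ap (Q p) (at' e p x)).Adj (wd e v p) (wd e v' p)) =
        fun p => (del (Q p) (wd e x.a p) (wd e x.b p)).Adj (wd e v p) (wd e v' p) ∨
          (wd e v p ≠ wd e v' p ∧ ((wd e v p = wd e x.a p ∧ wd e v' p = wd e x.v p) ∨
        (wd e v p = wd e x.v p ∧ wd e v' p = wd e x.a p))) := by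
      funext p
      have h2 : (at' e p x).kd = 0 := h0
      unfold Pool.Agent.MEQ.ap
      rw [if_pos h2]
      rfl
    rw [h1]
    exact hd.or hi
  · by_cases h1 : x.kd = 1
    · have h3 : (fun p => (Pool.Agent.MEQ.ap (Q p) (at' e p x)).Adj (wd e v p) (wd e v' p)) =
          fun p => (del (Q p) (wd e x.a p) (wd e x.b p)).Adj (wd e v p) (wd e v' p) := by
        funext p
        have h2 : (at' e p x).kd ≠ 0 := h0
        have h4 : (at' e p x).kd = 1 := h1
        unfold Pool.Agent.MEQ.ap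
        rw [if_neg h2, if_pos h4]
        rfl
      rw [h3]
      exact hd
    · have h3 : (fun p => (Pool.Agent.MEQ.ap (Q p) (at' e p x)).Adj (wd e v p) (wd e v' p)) =
          fun p => (Q p).Adj (wd e v p) (wd e v' p) ∨
          (wd e v p ≠ wd e v' p ∧ ((wd e v p = wd e x.a p ∧ wd e v' p = wd e x.v p) ∨
        (wd e v p = wd e x.v p ∧ wd e v' p = wd e x.a p))) := by
        funext p
        have h2 : (at' e p x).kd ≠ 0 := h0
        have h4 : (at' e p x).kd ≠ 1 := h1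
        unfold Pool.Agent.MEQ.ap
        rw [if_neg h2, if_neg h4]
        rfl
      rw [h3]
      exact (h v v').or hi

lemma MG.apL {Q : V → SimpleGraph V} (h : MG e Q) (σ : List (Ex (List (Fin m)))) :
    MG e fun p => Pool.Agent.MEQ.apL (Q p) (σ.map (at' e p)) := by
  induction σ generalizing Q with
  | nil => exact h
  | cons x σ ih => exact ih (h.ap x)

/-- the degree counted by labels -/
noncomputable def D (e : PCol G m) (Q : V → SimpleGraph V) (v : List (Fin m)) (p : V) : ℕ :=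
  {k | (Q p).Adj (wd e v p) (wd e (v ++ [k]) p)}.ncard

omit [StandardBorelSpace V] in
lemma D_eq (hl : Lab e) {Q : V → SimpleGraph V} {p : V} (h : Q p ≤ G) (v : List (Fin m)) :
    dg (Q p) (wd e v p) = D e Q v p := by
  rw [dg_eq_card hl h]
  unfold D
  simp only [wd_snoc]

omit [StandardBorelSpace V] in
lemma D_meas {Q : V → SimpleGraph V} (h : MG e Q) (v : List (Fin m)) :
    Measurable (D e Q v) := by
  refine measurable_to_countable' fun j => ?_
  exact MES_.meas_card (fun k p => (Q p).Adj (wd e v p) (wd e (v ++ [k]) p))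
    (fun k => measurableSet_setOfPred.2 (h v _)) {j}

omit [StandardBorelSpace V] in
lemma D_lt {Q Q' : V → SimpleGraph V} (h : MG e Q) (h' : MG e Q') (v v' : List (Fin m))
    (n : ℕ) : Measurable fun p => D e Q v p < D e Q' v' p + n :=
  measurableSet_setOfPred.1 (measurableSet_lt (D_meas h v) ((D_meas h' v').add_const n))

omit [StandardBorelSpace V] in
lemma D_lt' {Q : V → SimpleGraph V} (h : MG e Q) (v : List (Fin m))
    (n : ℕ) : Measurable fun p => D e Q v p < n :=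
  measurableSet_setOfPred.1 (measurableSet_lt (D_meas h v) measurable_const)

/-- the conditions of a step in terms of labels -/
def LegD (l r : ℕ) (e : PCol G m) (X : Set V) (w : List (Fin m)) (Q : V → SimpleGraph V)
    (x : Ex (List (Fin m))) (p : V) : Prop :=
  (x.kd = 0 → (Q p).Adj (wd e x.a p) (wd e x.b p) ∧ G.Adj (wd e x.a p) (wd e x.v p) ∧
    ¬ (Q p).Adj (wd e x.a p) (wd e x.v p) ∧ D e Q x.v p < r ∧
    D e (fun _ => G) x.b p < D e Q x.b p + l) ∧
  (x.kd = 1 → (Q p).Adj (wd e x.a p) (wd e x.b p) ∧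
    D e (fun _ => G) x.a p < D e Q x.a p + l ∧ D e (fun _ => G) x.b p < D e Q x.b p + l) ∧
  (x.kd = 2 → G.Adj (wd e x.a p) (wd e x.v p) ∧ ¬ (Q p).Adj (wd e x.a p) (wd e x.v p) ∧
    D e Q x.a p < r ∧ D e Q x.v p < r) ∧
  (x.kd ≠ 2 → wd e x.a p ∈ X → wd e x.b p ∈ X →
    (wd e x.a p = wd e [] p ∨ wd e x.a p = wd e w p) ∨
      (wd e x.b p = wd e [] p ∨ wd e x.b p = wd e w p))

omit [StandardBorelSpace V] in
lemma LegD_iff (hl : Lab e) {r : ℕ} (X : Set V) (w : List (Fin m)) {Q : V → SimpleGraph V}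
    (x : Ex (List (Fin m))) {p : V} (h : Q p ≤ G) :
    Leg G l r X {p, wd e w p} (Q p) (at' e p x) ↔ LegD l r e X w Q x p := by
  have h1 : ∀ v, dg (Q p) (wd e v p) = D e Q v p := fun v => D_eq hl h v
  have h2 : ∀ v, dg G (wd e v p) = D e (fun _ => G) v p := fun v =>
    D_eq (Q := fun _ => G) hl le_rfl v
  unfold Leg LegD
  simp only [← h1, ← h2]
  rfl

lemma LegD_meas {r : ℕ} {X : Set V} (hX : MeasurableSet X) (w : List (Fin m))
    {Q : V → SimpleGraph V} (hG : MG e fun _ => G) (h : MG e Q) (x : Ex (List (Fin m))) :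
    Measurable fun p => LegD l r e X w Q x p := by
  have hX' : ∀ v, Measurable fun p => wd e v p ∈ X := fun v =>
    measurableSet_setOfPred.1 ((wd e v).measurable hX)
  refine Measurable.and (Measurable.imp measurable_const ?_)
    (Measurable.and (Measurable.imp measurable_const ?_)
    (Measurable.and (Measurable.imp measurable_const ?_) (Measurable.imp measurable_const ?_)))
  · exact (h _ _).and ((hG _ _).and ((h _ _).not.and ((D_lt' h _ _).and (D_lt hG h _ _ _))))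
  · exact (h _ _).and ((D_lt hG h _ _ _).and (D_lt hG h _ _ _))
  · exact (hG _ _).and ((h _ _).not.and ((D_lt' h _ _).and (D_lt' h _ _)))
  · exact (hX' _).imp ((hX' _).imp (((meq e _ _).or (meq e _ _)).or
      ((meq e _ _).or (meq e _ _))))

/-- legal codes -/
lemma LegL_meas (hl : Lab e) {r : ℕ} {X : Set V} (hX : MeasurableSet X) (w : List (Fin m))
    (hG : MG e fun _ => G) (σ : List (Ex (List (Fin m)))) {Q : V → SimpleGraph V}
    (h : MG e Q) {A : Set V} (hA : MeasurableSet A) (hQ : ∀ p ∈ A, Q p ≤ G) :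
    MeasurableSet {p | p ∈ A ∧ LegL G l r X {p, wd e w p} (Q p) (σ.map (at' e p))} := by
  induction σ generalizing Q A with
  | nil =>
    have h1 : {p | p ∈ A ∧ LegL G l r X {p, wd e w p} (Q p) (([] : List (Ex _)).map
        (at' e p))} = A := by
      ext p
      exact ⟨fun h => h.1, fun h => ⟨h, trivial⟩⟩
    rw [h1]
    exact hA
  | cons x σ ih =>
    have hA' : MeasurableSet {p | p ∈ A ∧ LegD l r e X w Q x p} :=
      hA.inter (measurableSet_setOfPred.2 (LegD_meas hX w hG h x))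
    have h1 := ih (h.ap x) hA' (fun p hp => ap_le ((LegD_iff hl X w x (hQ p hp.1)).2 hp.2)
      (hQ p hp.1))
    have h2 : {p | p ∈ A ∧ LegL G l r X {p, wd e w p} (Q p) ((x :: σ).map (at' e p))} =
        {p | p ∈ {p | p ∈ A ∧ LegD l r e X w Q x p} ∧ LegL G l r X {p, wd e w p}
          (Pool.Agent.MEQ.ap (Q p) (at' e p x)) (σ.map (at' e p))} := by
      ext p
      constructor
      · rintro ⟨h3, h4⟩
        exact ⟨⟨h3, (LegD_iff hl X w x (hQ p h3)).1 h4.1⟩, h4.2⟩
      · rintro ⟨⟨h3, h4⟩, h5⟩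
        exact ⟨h3, (LegD_iff hl X w x (hQ p h3)).2 h4, h5⟩
    rw [h2]
    exact h1

/-! ### Places -/

/-- the room condition for the neighbour number `κ` of `wd e v p` -/
def Rm (e : PCol G m) (c : PCol G l) (r : ℕ) (σ : List (Ex (List (Fin m)))) (κ : Fin m)
    (v : List (Fin m)) (p : V) : Prop :=
  (RG (toPC c)).Adj (wd e v p) (wd e (v ++ [κ]) p) →
    dg (apL (RG (toPC c)) (σ.map (at' e p))) (wd e (v ++ [κ]) p) < r ∨
    ∃ k : Fin m, (apL (RG (toPC c)) (σ.map (at' e p))).Adj (wd e (v ++ [κ]) p)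
        (wd e (v ++ [κ, k]) p) ∧
      dg (apL (RG (toPC c)) (σ.map (at' e p))) (wd e (v ++ [κ, k]) p) < r

/-- the conditions at a place with parameters `w, σ` -/
def Pl (e : PCol G m) (c : PCol G l) (r : ℕ) (X : Set V) (w : List (Fin m))
    (σ : Fin m → List (Ex (List (Fin m)))) (p : V) : Prop :=
  p ∈ X ∧ wd e w p ∈ X ∧ ∀ κ,
    LegL G l r X {p, wd e w p} (RG (toPC c)) ((σ κ).map (at' e p)) ∧
    Rm e c r (σ κ) κ [] p ∧ Rm e c r (σ κ) κ w p

lemma Pl_meas (hl : Lab e) (c : PCol G l) {r : ℕ} {X : Set V} (hX : MeasurableSet X)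
    (w : List (Fin m)) (σ : Fin m → List (Ex (List (Fin m)))) :
    MeasurableSet {p | Pl e c r X w σ p} := by
  obtain ⟨hG, -, hR, -, -⟩ := allMES V G m l e c hl
  have hG' : MG e fun _ => G := fun v v' =>
    measurableSet_setOfPred.1 (((wd e v).measurable.prodMk (wd e v').measurable) hG)
  have hR' : MG e fun _ => RG (toPC c) := fun v v' =>
    measurableSet_setOfPred.1 (((wd e v).measurable.prodMk (wd e v').measurable) hR)
  have hL : ∀ κ, MeasurableSet {p | p ∈ univ ∧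
      LegL G l r X {p, wd e w p} (RG (toPC c)) ((σ κ).map (at' e p))} := fun κ =>
    LegL_meas hl hX w hG' (σ κ) hR' MeasurableSet.univ fun _ _ => RG_le _
  have hRm : ∀ κ v, MeasurableSet {p | p ∈ {p | p ∈ univ ∧
      LegL G l r X {p, wd e w p} (RG (toPC c)) ((σ κ).map (at' e p))} ∧
      Rm e c r (σ κ) κ v p} := by
    intro κ v
    have h1 := hR'.apL (σ κ)
    have h2 : {p | p ∈ {p | p ∈ univ ∧
        LegL G l r X {p, wd e w p} (RG (toPC c)) ((σ κ).map (at' e p))} ∧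
        Rm e c r (σ κ) κ v p} = {p | p ∈ {p | p ∈ univ ∧
        LegL G l r X {p, wd e w p} (RG (toPC c)) ((σ κ).map (at' e p))} ∧
        ((RG (toPC c)).Adj (wd e v p) (wd e (v ++ [κ]) p) →
        D e (fun p => apL (RG (toPC c)) ((σ κ).map (at' e p))) (v ++ [κ]) p < r ∨
        ∃ k : Fin m, (apL (RG (toPC c)) ((σ κ).map (at' e p))).Adj (wd e (v ++ [κ]) p)
        (wd e (v ++ [κ, k]) p) ∧
        D e (fun p => apL (RG (toPC c)) ((σ κ).map (at' e p))) (v ++ [κ, k]) p < r)} := by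
      ext p
      refine and_congr_right fun hp => ?_
      have h3 : apL (RG (toPC c)) ((σ κ).map (at' e p)) ≤ G := apL_le hp.2 (RG_le _)
      have h4 : ∀ v', dg (apL (RG (toPC c)) ((σ κ).map (at' e p))) (wd e v' p) =
          D e (fun p => apL (RG (toPC c)) ((σ κ).map (at' e p))) v' p := fun v' =>
        D_eq (Q := fun p => apL (RG (toPC c)) ((σ κ).map (at' e p))) hl h3 v'
      unfold Rm
      simp only [h4]
    rw [h2]
    refine (hL κ).inter (measurableSet_setOfPred.2 ?_)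
    exact (hR' _ _).imp ((D_lt' h1 _ _).or (Measurable.exists fun k =>
      (h1 _ _).and (D_lt' h1 _ _)))
  have h5 : {p | Pl e c r X w σ p} = (X ∩ wd e w ⁻¹' X) ∩ ⋂ κ, ({p | p ∈ {p | p ∈ univ ∧
      LegL G l r X {p, wd e w p} (RG (toPC c)) ((σ κ).map (at' e p))} ∧
      Rm e c r (σ κ) κ [] p} ∩ {p | p ∈ {p | p ∈ univ ∧
      LegL G l r X {p, wd e w p} (RG (toPC c)) ((σ κ).map (at' e p))} ∧
      Rm e c r (σ κ) κ w p}) := by
    ext p
    simp only [Pl, mem_ofPred_eq, mem_inter_iff, mem_iInter, mem_preimage, mem_univ, true_and]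
    constructor
    · rintro ⟨h1, h2, h3⟩
      exact ⟨⟨h1, h2⟩, fun κ => ⟨⟨(h3 κ).1, (h3 κ).2.1⟩, (h3 κ).1, (h3 κ).2.2⟩⟩
    · rintro ⟨⟨h1, h2⟩, h3⟩
      exact ⟨h1, h2, fun κ => ⟨(h3 κ).1.1, (h3 κ).1.2, (h3 κ).2.2⟩⟩
  rw [h5]
  exact (hX.inter ((wd e w).measurable hX)).inter
    (MeasurableSet.iInter fun κ => (hRm κ _).inter (hRm κ _))

omit [StandardBorelSpace V] in
/-- codes of lists of steps -/
lemma exists_code {p : V} {σ : List (Ex V)}
    (h : ∀ x ∈ σ, x.a ∈ Cm e p ∧ x.v ∈ Cm e p ∧ x.b ∈ Cm e p) :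
    ∃ τ : List (Ex (List (Fin m))), τ.map (at' e p) = σ := by
  induction σ with
  | nil => exact ⟨[], rfl⟩
  | cons x σ ih =>
    obtain ⟨τ, hτ⟩ := ih fun y hy => h y (List.mem_cons_of_mem _ hy)
    obtain ⟨⟨wa, ha⟩, ⟨wv, hv⟩, ⟨wb, hb⟩⟩ := h x List.mem_cons_self
    refine ⟨⟨x.kd, wa, wv, wb⟩ :: τ, ?_⟩
    rw [List.map_cons, hτ]
    congr 1
    unfold at' Ex.mp
    obtain ⟨kd, a, v, b⟩ := x
    simp only at ha hv hb ⊢
    rw [ha, hv, hb]

omit [StandardBorelSpace V] in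
/-- every bad place has parameters -/
lemma exists_Pl (hl : Lab e) (c : PCol G l) {r : ℕ} {X : Set V} {p q : V} (hp : p ∈ X)
    (hq : q ∈ X) (hqC : q ∈ Cm e p) (h : ∀ κ : Fin m, ∃ σ : List (Ex V),
      (∀ x ∈ σ, x.a ∈ Cm e p ∧ x.v ∈ Cm e p ∧ x.b ∈ Cm e p) ∧
      LegL G l r X {p, q} (RG (toPC c)) σ ∧
      ∀ x, (x = p ∨ x = q) → (RG (toPC c)).Adj x (e.S κ x) →
        ∃ z, (z = e.S κ x ∨ (apL (RG (toPC c)) σ).Adj (e.S κ x) z) ∧
          dg (apL (RG (toPC c)) σ) z < r) :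
    ∃ z : List (Fin m) × (Fin m → List (Ex (List (Fin m)))), Pl e c r X z.1 z.2 p := by
  obtain ⟨w, rfl⟩ := hqC
  have h1 : ∀ κ : Fin m, ∃ τ : List (Ex (List (Fin m))),
      LegL G l r X {p, wd e w p} (RG (toPC c)) (τ.map (at' e p)) ∧
      Rm e c r τ κ [] p ∧ Rm e c r τ κ w p := by
    intro κ
    obtain ⟨σ, hσ1, hσ2, hσ3⟩ := h κ
    obtain ⟨τ, rfl⟩ := exists_code hσ1
    have hle : apL (RG (toPC c)) (τ.map (at' e p)) ≤ G := apL_le hσ2 (RG_le _)
    have key : ∀ v, (wd e v p = p ∨ wd e v p = wd e w p) → Rm e c r τ κ v p := by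
      intro v hv hadj
      have h3 : wd e (v ++ [κ]) p = e.S κ (wd e v p) := wd_snoc e v κ p
      rw [h3] at hadj
      obtain ⟨y, hy, hy'⟩ := hσ3 _ hv hadj
      rcases hy with rfl | hy
      · left
        rw [h3]
        exact hy'
      · right
        obtain ⟨k, rfl⟩ := hl _ _ (hle hy)
        have h4 : wd e (v ++ [κ, k]) p = e.S k (e.S κ (wd e v p)) := by
          rw [wd_append]
          rfl
        refine ⟨k, ?_, ?_⟩
        · rw [h3, h4]
          exact hy
        · rw [h4]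
          exact hy'
    exact ⟨τ, hσ2, key [] (Or.inl rfl), key w (Or.inr rfl)⟩
  choose τ hτ using h1
  exact ⟨(w, τ), hp, hq, hτ⟩

/-! ### Walks -/

/-- the walk of `y` along `ω` uses edges of `R` and avoids `P` -/
def RWk (e : PCol G m) (R : SimpleGraph V) (P : Set V) : List (Fin m) → V → Prop
  | [], y => y ∉ P
  | k :: ω, y => y ∉ P ∧ R.Adj y (e.S k y) ∧ RWk e R P ω (e.S k y)

omit [StandardBorelSpace V] in
lemma RWk_meas {R : SimpleGraph V} {P : Set V} (hR : MeasurableSet {p : V × V | R.Adj p.1 p.2})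
    (hP : MeasurableSet P) (ω : List (Fin m)) : MeasurableSet {y | RWk e R P ω y} := by
  induction ω with
  | nil => exact hP.compl
  | cons k ω ih =>
    have h1 : {y | RWk e R P (k :: ω) y} = Pᶜ ∩ ({y | R.Adj y (e.S k y)} ∩
        e.S k ⁻¹' {y | RWk e R P ω y}) := rfl
    rw [h1]
    exact hP.compl.inter (((measurable_id.prodMk (e.meas k)) hR).inter (e.meas k ih))

omit [StandardBorelSpace V] in
/-- the first point of `P` on a walk -/
lemma first_entry (hl : Lab e) {R : SimpleGraph V} (hR : R ≤ G) {P : Set V} {y y' : V}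
    (p : R.Walk y y') (h : y ∉ P) (h' : y' ∈ P) :
    ∃ ω x, RWk e R P ω y ∧ R.Adj (wd e ω y) x ∧ x ∈ P := by
  induction p with
  | nil => exact absurd h' h
  | @cons a b d hab p ih =>
    by_cases hb : b ∈ P
    · exact ⟨[], b, h, hab, hb⟩
    · obtain ⟨ω, x, h1, h2, h3⟩ := ih hb h'
      obtain ⟨k, rfl⟩ := hl _ _ (hR hab)
      exact ⟨k :: ω, x, ⟨h, hab, h1⟩, h2, h3⟩

omit [StandardBorelSpace V] in
/-- such walks survive if all edges off `P` inside `X` survive -/
lemma RWk_reach {R R' : SimpleGraph V} {P X : Set V} (hX : Cld R X)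
    (hk : ∀ s t, s ∈ X → t ∈ X → s ∉ P → t ∉ P → R.Adj s t → R'.Adj s t)
    (ω : List (Fin m)) (y : V) (hy : y ∈ X) (h : RWk e R P ω y) :
    R'.Reachable y (wd e ω y) ∧ wd e ω y ∈ X ∧ wd e ω y ∉ P := by
  induction ω generalizing y with
  | nil => exact ⟨SimpleGraph.Reachable.rfl, hy, h⟩
  | cons k ω ih =>
    obtain ⟨h1, h2, h3⟩ := h
    have hy' := hX _ hy _ h2
    have h4 : e.S k y ∉ P := by
      cases ω with
      | nil => exact h3
      | cons k' ω => exact h3.1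
    obtain ⟨h5, h6, h7⟩ := ih _ hy' h3
    exact ⟨(hk _ _ hy hy' h1 h4 h2).reachable.trans h5, h6, h7⟩

omit [StandardBorelSpace V] in
/-- the pointwise part of the main step -/
lemma serve (c c' : PCol G l) {r : ℕ} {X : Set V} (hX : Cld (RG (toPC c)) X)
    (w : List (Fin m)) (σ : Fin m → List (Ex (List (Fin m))))
    (W : Finset (List (Fin m))) (κ : Fin m) (hW1 : ∀ v, (v = [] ∨ v = w) → v ++ [κ] ∈ W)
    (hW2 : ∀ v, (v = [] ∨ v = w) → ∀ k, v ++ [κ, k] ∈ W) (J J' : Set V)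
    (hJ : ∀ b ∈ J, Pl e c r X w σ b) (hE : Exd e c c' (σ κ) W J J') (y : V) (hy : y ∈ X)
    (ω : List (Fin m)) (hω : RWk e (RG (toPC c)) (J ∪ wd e w '' J) ω y) (v : List (Fin m))
    (hv : v = [] ∨ v = w) (p : V) (hp : p ∈ J') (hvp : wd e v p = e.S κ (wd e ω y))
    (hadj : (RG (toPC c)).Adj (wd e ω y) (e.S κ (wd e ω y))) :
    y ∉ XX (RG (toPC c')) r := by
  intro hyX
  have hkeep : ∀ s t, s ∈ X → t ∈ X → s ∉ J ∪ wd e w '' J → t ∉ J ∪ wd e w '' J →
      (RG (toPC c)).Adj s t → (RG (toPC c')).Adj s t := by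
    intro s t hs ht hsP htP hst
    by_cases hsR : s ∈ Rgn e W J
    · obtain ⟨b, hb, v', hv', rfl⟩ := hsR
      obtain ⟨n, -, hn⟩ := hE.part b hb
      have h1 := ((hJ b hb).2.2 κ).1.take n
      rw [← List.map_take] at h1
      have h2 : ∀ {z}, z ∉ J ∪ wd e w '' J → z ∉ ({b, wd e w b} : Set V) := by
        rintro z hz (rfl | rfl)
        · exact hz (Or.inl hb)
        · exact hz (Or.inr ⟨b, hb, rfl⟩)
      exact (hn v' hv' _).2 (h1.keep hs ht (h2 hsP) (h2 htP) hst)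
    · exact (hE.off s hsR t).2 hst
  obtain ⟨h1, h2, h3⟩ := RWk_reach hX hkeep ω y hy hω
  have hu : wd e (v ++ [κ]) p = wd e ω y := by
    rw [wd_snoc, hvp, e.invol]
  have hpJ := hE.sub hp
  have hrm : Rm e c r (σ κ) κ v p := by
    rcases hv with rfl | rfl
    · exact ((hJ p hpJ).2.2 κ).2.1
    · exact ((hJ p hpJ).2.2 κ).2.2
  have h4 := hrm (by rw [hu, hvp]; exact hadj.symm)
  have h5 := hE.full p hp _ (hW1 v hv)
  rcases h4 with h4 | ⟨k, h6, h7⟩
  · have h6 := hyX.2 _ h1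
    rw [← hu, h5.dg] at h6
    omega
  · have h8 : (RG (toPC c')).Adj (wd e ω y) (wd e (v ++ [κ, k]) p) := by
      rw [← hu]
      exact (h5 _).2 h6
    have h9 := hyX.2 _ (h1.trans h8.reachable)
    rw [(hE.full p hp _ (hW2 v hv k)).dg] at h9
    omega

omit [MeasurableSpace V] [StandardBorelSpace V] in
/-- the words which occur -/
lemma exists_W (w : List (Fin m)) (σ : Fin m → List (Ex (List (Fin m)))) :
    ∃ W : Finset (List (Fin m)), [] ∈ W ∧ w ∈ W ∧
      (∀ κ v, (v = [] ∨ v = w) → v ++ [κ] ∈ W) ∧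
      (∀ κ v, (v = [] ∨ v = w) → ∀ k, v ++ [κ, k] ∈ W) ∧ ∀ κ, Inw W (σ κ) := by
  classical
  have h1 : (({[], w} : Set (List (Fin m))) ∪
      (⋃ v ∈ ({[], w} : Set (List (Fin m))), range fun κ : Fin m => v ++ [κ]) ∪
      (⋃ v ∈ ({[], w} : Set (List (Fin m))),
        range fun κ : Fin m × Fin m => v ++ [κ.1, κ.2]) ∪
      ⋃ κ, ⋃ x ∈ {x | x ∈ σ κ}, ({x.a, x.v, x.b} : Set (List (Fin m)))).Finite := by
    refine (((toFinite _).union (Set.Finite.biUnion (toFinite _) fun v _ =>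
      finite_range _)).union (Set.Finite.biUnion (toFinite _) fun v _ =>
      finite_range _)).union (finite_iUnion fun κ => Set.Finite.biUnion
      (List.finite_toSet _) fun x _ => toFinite _)
  have h2 : ∀ v : List (Fin m), (v = [] ∨ v = w) → v ∈ ({[], w} : Set (List (Fin m))) :=
    fun v hv => hv
  refine ⟨h1.toFinset, ?_, ?_, ?_, ?_, ?_⟩
  · rw [Finite.mem_toFinset]
    exact Or.inl (Or.inl (Or.inl (Or.inl rfl)))
  · rw [Finite.mem_toFinset]
    exact Or.inl (Or.inl (Or.inl (Or.inr rfl)))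
  · intro κ v hv
    rw [Finite.mem_toFinset]
    exact Or.inl (Or.inl (Or.inr (mem_biUnion (h2 v hv) ⟨κ, rfl⟩)))
  · intro κ v hv k
    rw [Finite.mem_toFinset]
    exact Or.inl (Or.inr (mem_biUnion (h2 v hv) ⟨(κ, k), rfl⟩))
  · intro κ x hx
    have h3 : ∀ v ∈ ({x.a, x.v, x.b} : Set (List (Fin m))), v ∈ h1.toFinset := by
      intro v hv
      rw [Finite.mem_toFinset]
      exact Or.inr (mem_iUnion.2 ⟨κ, mem_biUnion (show x ∈ {x | x ∈ σ κ} from hx) hv⟩)
    exact ⟨h3 _ (by simp), h3 _ (by simp), h3 _ (by simp)⟩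

/-- the two words of a place -/
def vb (w : List (Fin m)) : Bool → List (Fin m)
  | true => w
  | false => []

lemma vb_or (w : List (Fin m)) (b : Bool) : vb w b = [] ∨ vb w b = w := by
  cases b
  · exact Or.inl rfl
  · exact Or.inr rfl

lemma exists_low (δ : Fin m → ℝ) (h : ∀ κ, 0 < δ κ) : ∃ δ0 : ℝ, 0 < δ0 ∧ ∀ κ, δ0 ≤ δ κ := by
  rcases isEmpty_or_nonempty (Fin m) with h0 | h0
  · exact ⟨1, one_pos, fun κ => (h0.false κ).elim⟩
  · obtain ⟨κ, hκ⟩ := Finite.exists_min δ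
    exact ⟨δ κ, h κ, hκ⟩

/-- the final inequality -/
lemma arith (a p s J C' k : ℝ) (m : ℕ) (h1 : a ≤ p + s) (h2 : p ≤ (1 + C') * J)
    (h3 : J < a / (4 * (1 + C'))) (h4 : s ≤ m * (k * (a / (4 * (m + 1) * (k + 1)))))
    (ha : 0 < a) (hC : 0 ≤ C') (hk : 0 ≤ k) : False := by
  have h5 : (1 + C') * J < a / 4 := by
    rw [lt_div_iff₀ (by positivity)] at h3
    linarith
  have h6 : (m : ℝ) * (k * (a / (4 * (m + 1) * (k + 1)))) ≤ a / 4 := by
    rw [← mul_assoc, mul_div_assoc', div_le_div_iff₀ (by positivity) (by positivity)]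
    have h7 : (m : ℝ) * k ≤ (m + 1) * (k + 1) := by
      have : (0 : ℝ) ≤ m := Nat.cast_nonneg m
      nlinarith
    nlinarith [mul_le_mul_of_nonneg_right h7 ha.le]
  linarith

/-- the main step -/
lemma piece_null (h_RNS : tRNS.{u}) (h_SPR : tSPR.{u}) (h_VAQ : tVAQ.{u}) (hl : Lab e)
    (ν : Measure V) [IsFiniteMeasure ν] {C : ℝ≥0∞} (hq : QInv G ν C) (hC : C ≠ ⊤) {Δ r : ℕ}
    (hPX : PX G Δ univ) (c : PCol G l) (hg : GS ν Δ r c) {X : Set V}
    (hXX : X ⊆ XX (RG (toPC c)) r) (hXm : MeasurableSet X) (hX : Cld (RG (toPC c)) X)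
    (hns : NSm ν (RG (toPC c)) X) (w : List (Fin m))
    (σ : Fin m → List (Ex (List (Fin m)))) : ν {p | Pl e c r X w σ p} = 0 := by
  classical
  by_contra hμ
  have hRm := (allMES V G m l e c hl).2.2.1
  obtain ⟨W, hW0, hWw, hW1, hW2, hWσ⟩ := exists_W w σ
  obtain ⟨Z, hZ, mZ, hZ0, hsp⟩ := h_SPR V G m e ν W _ (Pl_meas hl c hXm w σ) hμ
  have hZX : Z ⊆ X := fun p hp => (hZ hp).1
  obtain ⟨n, hn⟩ : ∃ n : ℕ, ∀ κ, (σ κ).length ≤ n :=
    ⟨∑ κ, (σ κ).length, fun κ => Finset.single_le_sum (f := fun κ => (σ κ).length)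
      (fun _ _ => Nat.zero_le _) (Finset.mem_univ κ)⟩
  obtain ⟨K, hK, hR⟩ := h_RNS l W.card n
  obtain ⟨a, ha⟩ : ∃ a, a = ν.real Z := ⟨_, rfl⟩
  have ha0 : 0 < a := by
    rw [ha]
    exact ENNReal.toReal_pos hZ0 (measure_ne_top _ _)
  obtain ⟨C', hC'⟩ : ∃ C' : ℝ, C' = (C ^ w.length).toReal := ⟨_, rfl⟩
  have hC'0 : 0 ≤ C' := by
    rw [hC']
    exact ENNReal.toReal_nonneg
  obtain ⟨k, hk⟩ : ∃ k : ℝ, k = K.toReal := ⟨_, rfl⟩
  have hk0 : 0 ≤ k := by
    rw [hk]
    exact ENNReal.toReal_nonneg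
  obtain ⟨δ, hδ, hxx⟩ := hg.xx (a / (4 * (m + 1) * (k + 1))) (by positivity)
  have hrns := fun κ => hR V G m Δ r e ν C c W (σ κ) hl hq hC hPX hg le_rfl (hn κ) (hWσ κ)
    δ hδ
  choose δ' hδ' hrns' using hrns
  obtain ⟨δ0, hδ0, hδ0'⟩ := exists_low δ' hδ'
  obtain ⟨J, hJZ, mJ, hJm, hJr⟩ := h_VAQ V G m e ν hl (RG (toPC c)) (RG_le _) hRm X hns Z hZX
    mZ (min δ0 (a / (4 * (1 + C')))) (lt_min hδ0 (by positivity))
  have hJP : ∀ b ∈ J, Pl e c r X w σ b := fun b hb => hZ (hJZ hb)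
  have hJsp : Spr e W J := fun p hp q hq => hsp p (hJZ hp) q (hJZ hq)
  obtain ⟨P, hP⟩ : ∃ P : Set V, P = J ∪ wd e w '' J := ⟨_, rfl⟩
  have mP : MeasurableSet P := by
    rw [hP]
    exact mJ.union ((wd e w).measurableSet_image.2 mJ)
  -- the points which are served by the option `κ`
  let f : Fin m → List (Fin m) × Bool → V → V := fun κ i y =>
    wd e (vb w i.2).reverse (e.S κ (wd e i.1 y))
  let A : Fin m → List (Fin m) × Bool → Set V := fun κ i =>
    {y | y ∈ Z ∧ RWk e (RG (toPC c)) P i.1 y ∧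
      (RG (toPC c)).Adj (wd e i.1 y) (e.S κ (wd e i.1 y)) ∧ f κ i y ∈ J}
  have mf : ∀ κ i, Measurable (f κ i) := fun κ i =>
    (wd e _).measurable.comp ((e.meas κ).comp (wd e _).measurable)
  have mA : ∀ κ i, MeasurableSet (A κ i) := by
    intro κ i
    refine mZ.inter ((RWk_meas hRm mP i.1).inter (MeasurableSet.inter ?_ (mf κ i mJ)))
    exact ((wd e i.1).measurable.prodMk ((e.meas κ).comp (wd e i.1).measurable)) hRm
  have hsmall : ∀ κ, ν.real (⋃ i, A κ i) ≤ k * (a / (4 * (m + 1) * (k + 1))) := by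
    intro κ
    obtain ⟨μ, hμ1, hμ2, hμ3⟩ := push ν (A κ) (mA κ) (f κ) (mf κ)
    obtain ⟨J', c', mJ', hKJ, hE, hsat, hdst⟩ := hrns' κ J mJ
      (hJm.trans_le ((min_le_left _ _).trans (hδ0' κ))) hJsp
      (fun p hp => ((hJP p hp).2.2 κ).1.mono) μ
    have h1 := hxx c' hsat hdst
    have h2 : ν (⋃ i, A κ i) ≤ K * ν (XX (RG (toPC c)) r \ XX (RG (toPC c')) r) := by
      refine (hμ2 J mJ fun i y hy => hy.2.2.2).trans (hKJ.trans ?_)
      refine mul_le_mul' le_rfl (hμ3 J' mJ' _ fun i y hy hyJ => ⟨hXX (hZX hy.1), ?_⟩)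
      have h3 : wd e (vb w i.2) (f κ i y) = e.S κ (wd e i.1 y) := by
        have := wd_reverse e (vb w i.2).reverse (e.S κ (wd e i.1 y))
        rwa [List.reverse_reverse] at this
      exact serve c c' hX w σ W κ (hW1 κ) (hW2 κ) J J' hJP hE y (hZX hy.1) i.1
        (by rw [← hP]; exact hy.2.1) (vb w i.2) (vb_or w i.2) (f κ i y) hyJ h3 hy.2.2.1
    have h4 := real_le_of hK h2
    rw [← hk] at h4
    exact h4.trans (mul_le_mul_of_nonneg_left h1.le hk0)
  have hcover : Z ⊆ P ∪ ⋃ κ ∈ (Finset.univ : Finset (Fin m)), ⋃ i, A κ i := by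
    intro y hy
    by_cases hyP : y ∈ P
    · exact Or.inl hyP
    · right
      obtain ⟨y', hy', ⟨q⟩⟩ := hJr y hy
      obtain ⟨ω, x, h1, h2, h3⟩ := first_entry hl (RG_le _) q hyP (by rw [hP]; exact Or.inl hy')
      obtain ⟨κ, rfl⟩ := hl _ _ h2.1
      refine mem_biUnion (Finset.mem_univ κ) (mem_iUnion.2 ?_)
      rw [hP] at h3
      rcases h3 with h3 | ⟨b, hb, h3⟩
      · exact ⟨(ω, false), hy, h1, h2, h3⟩
      · refine ⟨(ω, true), hy, h1, h2, ?_⟩
        change wd e w.reverse (e.S κ (wd e ω y)) ∈ J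
        rw [← h3, wd_reverse]
        exact hb
  have hfin : ν.real Z ≤ ν.real P + ∑ κ, ν.real (⋃ i, A κ i) := by
    refine (measureReal_mono hcover (measure_ne_top _ _)).trans ?_
    refine (measureReal_union_le _ _).trans ?_
    gcongr
    exact measureReal_biUnion_finset_le _ _
  have hPm : ν.real P ≤ (1 + C') * ν.real J := by
    rw [hP, add_mul, one_mul]
    refine (measureReal_union_le _ _).trans ?_
    gcongr
    rw [hC']
    exact real_le_of (ENNReal.pow_ne_top hC) (qi_img hq e w J)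
  have hsum : ∑ κ, ν.real (⋃ i, A κ i) ≤ m * (k * (a / (4 * (m + 1) * (k + 1)))) := by
    refine (Finset.sum_le_sum fun κ _ => hsmall κ).trans ?_
    rw [Finset.sum_const, Finset.card_univ, Fintype.card_fin, nsmul_eq_mul]
  rw [← ha] at hfin
  exact arith _ _ _ _ C' k m hfin hPm (hJm.trans_le (min_le_right _ _)) hsum ha0 hC'0 hk0

end meas

end SRQ_

theorem allSRQ (h_RNS : tRNS.{u}) (h_SPR : tSPR.{u}) (h_VAQ : tVAQ.{u}) : tSRQ.{u} := by
  intro V _ _ G m Δ l r e ν _ C hl hq hC hPX c hg X hXX hXm hX hns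
  have h1 : ν (⋃ z : List (Fin m) × (Fin m → List (Ex (List (Fin m)))),
      {p | SRQ_.Pl e c r X z.1 z.2 p}) = 0 := measure_iUnion_null fun z =>
    SRQ_.piece_null h_RNS h_SPR h_VAQ hl ν hq hC hPX c hg hXX hXm hX hns z.1 z.2
  filter_upwards [measure_eq_zero_iff_ae_notMem.1 h1] with p hp hpX
  rintro ⟨q, hq, hqC, hopt⟩
  obtain ⟨z, hz⟩ := SRQ_.exists_Pl hl c hpX hq hqC hopt
  exact hp (mem_iUnion.2 ⟨z, hz⟩)

end Pool.Agent.MEQ
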