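import Pool.Agent.MEQ.Targets
import Pool.Agent.MEQ.Base

set_option autoImplicit false

/-! Independent subsets in graphs of bounded in-degree, with respect to any finite measure. -/

namespace Pool.Agent.MEQ

open MeasureTheory Set Filter
open scoped ENNReal
open Pool.Agent.MEC
open Pool.Agent.MEP
open Pool.Agent.MEO

universe u

namespace THN_

/-- a fixed fraction of all subsets contains `a` and avoids `B` -/
lemma cnt {D : ℕ} (T B : Finset ℕ) (a : ℕ) (ha : a ∈ T) (haB : a ∉ B)
    (hD : B.card ≤ D) :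
    2 ^ T.card ≤ 2 ^ (D + 1) * (T.powerset.filter fun S => a ∈ S ∧ Disjoint S B).card := by
  classical
  have h1 : T.powerset.card ≤
      ((insert a B).powerset ×ˢ (T.powerset.filter fun S => a ∈ S ∧ Disjoint S B)).card := by
    refine Finset.card_le_card_of_injOn (fun S => (S ∩ insert a B, insert a (S \ B))) ?_ ?_
    · intro S hS
      have hS' : S ⊆ T := Finset.mem_powerset.1 (Finset.mem_coe.1 hS)
      rw [Finset.mem_coe, Finset.mem_product]
      refine ⟨Finset.mem_powerset.2 Finset.inter_subset_right, ?_⟩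
      rw [Finset.mem_filter]
      refine ⟨Finset.mem_powerset.2 ?_, Finset.mem_insert_self _ _, ?_⟩
      · intro y hy
        rcases Finset.mem_insert.1 hy with rfl | hy
        · exact ha
        · exact hS' (Finset.mem_sdiff.1 hy).1
      · rw [Finset.disjoint_left]
        intro y hy hyB
        rcases Finset.mem_insert.1 hy with rfl | hy
        · exact haB hyB
        · exact (Finset.mem_sdiff.1 hy).2 hyB
    · intro S _ S' _ h
      have e1 : S ∩ insert a B = S' ∩ insert a B := congrArg Prod.fst h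
      have e2 : insert a (S \ B) = insert a (S' \ B) := congrArg Prod.snd h
      ext y
      by_cases hy : y ∈ insert a B
      · have := Finset.ext_iff.1 e1 y
        simp only [Finset.mem_inter, hy, and_true] at this
        exact this
      · have := Finset.ext_iff.1 e2 y
        rw [Finset.mem_insert, not_or] at hy
        simp only [Finset.mem_insert, Finset.mem_sdiff, hy.1, hy.2, false_or,
          not_false_iff, and_true] at this
        exact this
  rw [Finset.card_product, Finset.card_powerset, Finset.card_powerset,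
    Finset.card_insert_of_notMem haB] at h1
  refine h1.trans (Nat.mul_le_mul_right _ ?_)
  exact Nat.pow_le_pow_right (by norm_num) (by omega)

/-- a point and finitely many other points are separated by a member of a countable family -/
lemma sep (V : Type u) [MeasurableSpace V] [StandardBorelSpace V] :
    ∃ U : ℕ → Set V, (∀ j, MeasurableSet (U j)) ∧
      ∀ (x : V) (F : Set V), F.Finite → x ∉ F → ∃ j, x ∈ U j ∧ ∀ y ∈ F, y ∉ U j := by
  have hf := MeasureTheory.measurableEmbedding_embeddingReal V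
  set f := MeasureTheory.embeddingReal V with hf0
  obtain ⟨enc, henc⟩ := exists_surjective_nat (ℚ × ℚ)
  refine ⟨fun j => f ⁻¹' Ioo ((enc j).1 : ℝ) ((enc j).2 : ℝ), fun j =>
    hf.measurable measurableSet_Ioo, ?_⟩
  intro x F hF hx
  have h1 : (f '' F)ᶜ ∈ nhds (f x) := by
    refine (hF.image f).isClosed.isOpen_compl.mem_nhds ?_
    rintro ⟨y, hy, hyx⟩
    rw [hf.injective hyx] at hy
    exact hx hy
  obtain ⟨l, u', hlu, hsub⟩ := mem_nhds_iff_exists_Ioo_subset.1 h1
  obtain ⟨q1, hq1⟩ := exists_rat_btwn hlu.1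
  obtain ⟨q2, hq2⟩ := exists_rat_btwn hlu.2
  obtain ⟨j, hj⟩ := henc (q1, q2)
  refine ⟨j, ?_, ?_⟩
  · show f x ∈ Ioo ((enc j).1 : ℝ) ((enc j).2 : ℝ)
    rw [hj]
    exact ⟨hq1.2, hq2.1⟩
  · intro y hy hyU
    have h2 : f y ∈ Ioo ((enc j).1 : ℝ) ((enc j).2 : ℝ) := hyU
    rw [hj] at h2
    exact hsub ⟨hq1.1.trans h2.1, h2.2.trans hq2.2⟩ ⟨y, hy, rfl⟩

end THN_

open THN_

theorem allTHN : tTHN.{u} := by
  classical
  intro D
  refine ⟨2 * 2 ^ (D + 1), ENNReal.mul_ne_top (by norm_num) (ENNReal.pow_ne_top (by norm_num)),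
    ?_⟩
  intro V _ _ μ _ J θ hJ hθ hD
  obtain ⟨U, hUm, hU⟩ := sep V
  -- the points which are separated from their in-neighbours by `U j`
  let P : ℕ → Set V := fun j => {x | x ∈ J ∧ x ∈ U j ∧ ∀ i, θ i x ∈ J → θ i x ∈ U j → θ i x = x}
  have hPm : ∀ j, MeasurableSet (P j) := by
    intro j
    have h1 : P j = J ∩ (U j ∩ ⋂ i, ((θ i ⁻¹' J)ᶜ ∪ ((θ i ⁻¹' U j)ᶜ ∪ {x | θ i x = x}))) := by
      ext x
      simp only [P, mem_ofPred_eq, mem_inter_iff, mem_iInter, mem_union, mem_compl_iff,
        mem_preimage]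
      constructor
      · rintro ⟨h1, h2, h3⟩
        refine ⟨h1, h2, fun i => ?_⟩
        have := h3 i
        tauto
      · rintro ⟨h1, h2, h3⟩
        refine ⟨h1, h2, fun i => ?_⟩
        have := h3 i
        tauto
    rw [h1]
    refine hJ.inter ((hUm j).inter (MeasurableSet.iInter fun i => ?_))
    exact (hθ i hJ).compl.union
      ((hθ i (hUm j)).compl.union (measurableSet_eq_fun (hθ i) measurable_id))
  have hPJ : ∀ j, P j ⊆ J := fun j x hx => hx.1
  have hPcov : ∀ x ∈ J, ∃ j, x ∈ P j := by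
    intro x hx
    have hfin : {y | y ∈ J ∧ y ≠ x ∧ ∃ i, θ i x = y}.Finite :=
      Set.finite_of_encard_le_coe (hD x hx)
    obtain ⟨j, hj1, hj2⟩ := hU x _ hfin (fun h => h.2.1 rfl)
    refine ⟨j, hx, hj1, fun i hi hiU => ?_⟩
    by_contra hne
    exact hj2 _ ⟨hi, hne, i, rfl⟩ hiU
  -- the classes
  let A : ℕ → Set V := disjointed P
  have hAm : ∀ j, MeasurableSet (A j) := fun j => MeasurableSet.disjointed hPm j
  have hAP : ∀ j, A j ⊆ P j := fun j => disjointed_subset P j
  have hAd : ∀ {i j : ℕ} {x : V}, x ∈ A i → x ∈ A j → i = j := by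
    intro i j x hi hj
    by_contra hne
    exact Set.disjoint_left.1 (disjoint_disjointed P hne) hi hj
  have hAcov : ⋃ j, A j = J := by
    rw [iUnion_disjointed]
    refine subset_antisymm (iUnion_subset hPJ) fun x hx => ?_
    obtain ⟨j, hj⟩ := hPcov x hx
    exact mem_iUnion.2 ⟨j, hj⟩
  have hAsep : ∀ j, ∀ x ∈ A j, ∀ i, θ i x ∈ A j → θ i x = x := by
    intro j x hx i hi
    exact (hAP j hx).2.2 i (hAP j hi).1 (hAP j hi).2.1
  -- unions of classes
  let Cl : Finset ℕ → Set V := fun S => ⋃ j ∈ S, A j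
  have hClm : ∀ S, MeasurableSet (Cl S) := fun S =>
    Finset.measurableSet_biUnion S fun j _ => hAm j
  let J' : Finset ℕ → Set V := fun S => {x | x ∈ Cl S ∧ ∀ i, θ i x ∈ Cl S → θ i x = x}
  have hJ'm : ∀ S, MeasurableSet (J' S) := by
    intro S
    have h1 : J' S = Cl S ∩ ⋂ i, ((θ i ⁻¹' Cl S)ᶜ ∪ {x | θ i x = x}) := by
      ext x
      simp only [J', mem_ofPred_eq, mem_inter_iff, mem_iInter, mem_union, mem_compl_iff,
        mem_preimage]
      constructor
      · rintro ⟨h1, h2⟩
        refine ⟨h1, fun i => ?_⟩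
        have := h2 i
        tauto
      · rintro ⟨h1, h2⟩
        refine ⟨h1, fun i => ?_⟩
        have := h2 i
        tauto
    rw [h1]
    refine (hClm S).inter (MeasurableSet.iInter fun i => ?_)
    exact (hθ i (hClm S)).compl.union (measurableSet_eq_fun (hθ i) measurable_id)
  have hClJ : ∀ S, Cl S ⊆ J := by
    intro S x hx
    obtain ⟨j, hj⟩ := mem_iUnion.1 hx
    obtain ⟨_, hj2⟩ := mem_iUnion.1 hj
    exact (hAP j hj2).1
  -- finitely many classes carry half of the measure
  obtain ⟨N, hN⟩ : ∃ N : ℕ, μ J ≤ 2 * μ (Cl (Finset.range N)) := by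
    by_cases h0 : μ J = 0
    · exact ⟨0, by simp [h0]⟩
    have hmono : Monotone fun n : ℕ => Cl (Finset.range n) := by
      intro a b hab x hx
      simp only [Cl, mem_iUnion] at hx ⊢
      obtain ⟨j, hj, hx⟩ := hx
      exact ⟨j, Finset.mem_range.2 ((Finset.mem_range.1 hj).trans_le hab), hx⟩
    have hU' : ⋃ n : ℕ, Cl (Finset.range n) = J := by
      rw [← hAcov]
      ext x
      simp only [Cl, mem_iUnion]
      constructor
      · rintro ⟨_, j, _, hx⟩
        exact ⟨j, hx⟩
      · rintro ⟨j, hx⟩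
        exact ⟨j + 1, j, Finset.mem_range.2 (Nat.lt_succ_self j), hx⟩
    have ht := tendsto_measure_iUnion_atTop (μ := μ) hmono
    rw [hU'] at ht
    have hlt : μ J / 2 < μ J := ENNReal.half_lt_self h0 (measure_ne_top μ J)
    obtain ⟨N, hN⟩ := ((ht.eventually (lt_mem_nhds hlt))).exists
    refine ⟨N, ?_⟩
    have h2 : μ J = 2 * (μ J / 2) := by
      rw [ENNReal.mul_div_cancel (by norm_num) (by norm_num)]
    rw [h2]
    gcongr
    exact hN.le
  -- averaging over all sets of classes
  set T := Finset.range N with hT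
  have hcount : ∀ x ∈ Cl T, (2 : ℝ≥0∞) ^ T.card ≤
      2 ^ (D + 1) * ∑ S ∈ T.powerset, (J' S).indicator (1 : V → ℝ≥0∞) x := by
    intro x hx
    obtain ⟨a, haT, hxa⟩ : ∃ a ∈ T, x ∈ A a := by
      simpa [Cl] using hx
    have hxJ : x ∈ J := (hAP a hxa).1
    set B : Finset ℕ := T.filter fun j => ∃ i, θ i x ∈ A j ∧ θ i x ≠ x with hB
    have haB : a ∉ B := by
      intro h
      obtain ⟨_, i, hi, hne⟩ := Finset.mem_filter.1 h
      exact hne (hAsep a x hxa i hi)
    have hBD : B.card ≤ D := by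
      have h1 : ((B : Set ℕ)).encard ≤ D := by
        have hch : ∀ j : ℕ, ∃ y : V, j ∈ B → y ∈ A j ∧ y ≠ x ∧ ∃ i, θ i x = y := by
          intro j
          by_cases hj : j ∈ B
          · obtain ⟨_, i, hi, hne⟩ := Finset.mem_filter.1 hj
            exact ⟨θ i x, fun _ => ⟨hi, hne, i, rfl⟩⟩
          · exact ⟨x, fun h => absurd h hj⟩
        choose y hy using hch
        refine le_trans (Set.encard_le_encard_of_injOn (f := y)
          (t := {y | y ∈ J ∧ y ≠ x ∧ ∃ i, θ i x = y}) ?_ ?_) (hD x hxJ)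
        · intro j hj
          obtain ⟨h1, h2, h3⟩ := hy j (Finset.mem_coe.1 hj)
          exact ⟨(hAP j h1).1, h2, h3⟩
        · intro j hj j' hj' h
          have h1 := (hy j (Finset.mem_coe.1 hj)).1
          have h2 := (hy j' (Finset.mem_coe.1 hj')).1
          rw [← h] at h2
          exact hAd h1 h2
      rw [Set.encard_coe_eq_coe_finsetCard] at h1
      exact_mod_cast h1
    have h1 := cnt (D := D) T B a haT haB hBD
    have h2 : (((T.powerset.filter fun S => a ∈ S ∧ Disjoint S B).card : ℕ) : ℝ≥0∞) ≤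
        ∑ S ∈ T.powerset, (J' S).indicator (1 : V → ℝ≥0∞) x := by
      rw [Finset.card_filter, Nat.cast_sum]
      refine Finset.sum_le_sum fun S _ => ?_
      split_ifs with h
      · have hxS : x ∈ J' S := by
          refine ⟨?_, ?_⟩
          · simp only [Cl, mem_iUnion]
            exact ⟨a, h.1, hxa⟩
          · intro i hi
            by_contra hne
            simp only [Cl, mem_iUnion] at hi
            obtain ⟨j, hj, hi⟩ := hi
            by_cases hjT : j ∈ T
            · exact Finset.disjoint_left.1 h.2 hj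
                (Finset.mem_filter.2 ⟨hjT, i, hi, hne⟩)
            · rename_i hST
              exact hjT (Finset.mem_powerset.1 hST hj)
        rw [indicator_of_mem hxS]
        simp
      · simp
    calc (2 : ℝ≥0∞) ^ T.card = ((2 ^ T.card : ℕ) : ℝ≥0∞) := by push_cast; rfl
      _ ≤ ((2 ^ (D + 1) * (T.powerset.filter fun S => a ∈ S ∧ Disjoint S B).card : ℕ) : ℝ≥0∞) :=
          by exact_mod_cast h1
      _ = 2 ^ (D + 1) * ((T.powerset.filter fun S => a ∈ S ∧ Disjoint S B).card : ℝ≥0∞) := by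
          push_cast; rfl
      _ ≤ _ := by gcongr
  have hint : (2 : ℝ≥0∞) ^ T.card * μ (Cl T) ≤ 2 ^ (D + 1) * ∑ S ∈ T.powerset, μ (J' S) := by
    calc (2 : ℝ≥0∞) ^ T.card * μ (Cl T) = ∫⁻ x in Cl T, (2 : ℝ≥0∞) ^ T.card ∂μ := by
          rw [setLIntegral_const]
      _ ≤ ∫⁻ x in Cl T, 2 ^ (D + 1) * ∑ S ∈ T.powerset,
            (J' S).indicator (1 : V → ℝ≥0∞) x ∂μ :=
          setLIntegral_mono' (hClm T) hcount
      _ ≤ ∫⁻ x, 2 ^ (D + 1) * ∑ S ∈ T.powerset,
            (J' S).indicator (1 : V → ℝ≥0∞) x ∂μ := setLIntegral_le_lintegral _ _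
      _ = 2 ^ (D + 1) * ∑ S ∈ T.powerset, μ (J' S) := by
          rw [lintegral_const_mul' _ _ (ENNReal.pow_ne_top (by norm_num)),
            lintegral_finsetSum _ (fun S _ => measurable_one.indicator (hJ'm S))]
          congr 1
          refine Finset.sum_congr rfl fun S _ => ?_
          rw [lintegral_indicator_one (hJ'm S)]
  obtain ⟨S, hS, hSmax⟩ := Finset.exists_max_image T.powerset (fun S => μ (J' S))
    ⟨∅, Finset.empty_mem_powerset T⟩
  refine ⟨J' S, fun x hx => hClJ S hx.1, hJ'm S, fun x hx i hi => hx.2 i hi.1, ?_⟩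
  have h3 : (2 : ℝ≥0∞) ^ T.card * μ (Cl T) ≤
      (2 : ℝ≥0∞) ^ T.card * (2 ^ (D + 1) * μ (J' S)) := by
    refine hint.trans ?_
    have h4 : ∑ S' ∈ T.powerset, μ (J' S') ≤ (2 : ℝ≥0∞) ^ T.card * μ (J' S) := by
      refine (Finset.sum_le_card_nsmul _ _ _ hSmax).trans ?_
      rw [Finset.card_powerset, nsmul_eq_mul]
      push_cast
      exact le_rfl
    calc (2 : ℝ≥0∞) ^ (D + 1) * ∑ S' ∈ T.powerset, μ (J' S') ≤
          2 ^ (D + 1) * ((2 : ℝ≥0∞) ^ T.card * μ (J' S)) := by gcongr
      _ = _ := by ring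
  have h5 : μ (Cl T) ≤ 2 ^ (D + 1) * μ (J' S) := by
    rwa [ENNReal.mul_le_mul_iff_right (pow_ne_zero _ (by norm_num))
      (ENNReal.pow_ne_top (by norm_num))] at h3
  calc μ J ≤ 2 * μ (Cl T) := hN
    _ ≤ 2 * (2 ^ (D + 1) * μ (J' S)) := by gcongr
    _ = 2 * 2 ^ (D + 1) * μ (J' S) := by ring

end Pool.Agent.MEQ
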