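import Pool.Agent.MEQ.Targets
import Pool.Agent.MEQ.Base

set_option autoImplicit false

/-! MP_fff3e1_lc: local functionals are upper semicontinuous. -/

namespace Pool.Agent.MEQ

open MeasureTheory Set Filter
open scoped ENNReal
open Pool.Agent.MEC
open Pool.Agent.MEP
open Pool.Agent.MEO

universe u

namespace USC_

variable {V : Type u} [MeasurableSpace V] {G K : SimpleGraph V} {l m : ℕ} {ν : Measure V}
  {C : ℝ≥0∞}

/-- the changed points near `x`, in measure -/
lemma near_le [IsFiniteMeasure ν] (hq : QInv G ν C) (hC : C ≠ ⊤) (e : PCol G m)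
    (F : Finset (List (Fin m))) (c c' : PCol K l) :
    ν.real (⋃ w ∈ F, wd e w ⁻¹' {x | ∃ k, c.S k x ≠ c'.S k x}) ≤
      (∑ w ∈ F, (C ^ w.length).toReal) * PCol.dst ν c c' := by
  refine (measureReal_biUnion_finset_le F _).trans ?_
  rw [Finset.sum_mul]
  refine Finset.sum_le_sum fun w _ => ?_
  refine (real_le_of (ENNReal.pow_ne_top hC) (qi_wd hq e w _)).trans ?_
  exact mul_le_mul_of_nonneg_left real_changed_le ENNReal.toReal_nonneg

/-- continuity from above -/
lemma above [IsFiniteMeasure ν] {D : ℕ → Set V} (hm : ∀ n, MeasurableSet (D n))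
    {ε : ℝ} (hε : 0 < ε) :
    ∃ n, ν.real ((⋂ i ∈ Finset.range (n + 1), D i) \ ⋂ i, D i) < ε := by
  let E : ℕ → Set V := fun n => ⋂ i ∈ Finset.range (n + 1), D i
  have hEm : ∀ n, MeasurableSet (E n) := fun n =>
    Finset.measurableSet_biInter _ fun i _ => hm i
  have hanti : Antitone E := by
    intro a b hab x hx
    simp only [E, mem_iInter, Finset.mem_range] at hx ⊢
    exact fun i hi => hx i (by omega)
  have hI : ⋂ n, E n = ⋂ i, D i := by
    ext x
    simp only [E, mem_iInter, Finset.mem_range]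
    exact ⟨fun h i => h i i (by omega), fun h n i _ => h i⟩
  have hIm : MeasurableSet (⋂ i, D i) := MeasurableSet.iInter hm
  have h1 : Tendsto (fun n => ν (E n)) atTop (nhds (ν (⋂ n, E n))) :=
    tendsto_measure_iInter_atTop (fun n => (hEm n).nullMeasurableSet) hanti
      ⟨0, measure_ne_top ν _⟩
  rw [hI] at h1
  have h2 : Tendsto (fun n => ν.real (E n)) atTop (nhds (ν.real (⋂ i, D i))) :=
    (ENNReal.tendsto_toReal (measure_ne_top ν _)).comp h1
  have h5 : ν.real (⋂ i, D i) < ν.real (⋂ i, D i) + ε := by linarith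
  obtain ⟨n, hn⟩ := (h2.eventually (gt_mem_nhds h5)).exists
  refine ⟨n, ?_⟩
  have hsub : ⋂ i, D i ⊆ E n := by
    intro x hx
    simp only [E, mem_iInter] at hx ⊢
    exact fun i _ => hx i
  have h3 : ν.real (E n \ ⋂ i, D i) = ν.real (E n) - ν.real (⋂ i, D i) :=
    measureReal_sdiff hsub hIm
  have h4 : ν.real ((⋂ i ∈ Finset.range (n + 1), D i) \ ⋂ i, D i) =
    ν.real (E n) - ν.real (⋂ i, D i) := h3
  rw [h4]
  linarith

end USC_

theorem allUSC : tUSC.{u} := by
  intro V _ _ G K m l e ν _ C hq hC B hB c ε hε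
  obtain ⟨BN, hm, hB, hL⟩ := hB
  obtain ⟨n, hn⟩ := USC_.above (ν := ν) (fun i => hm i c) (half_pos hε)
  choose L hL using hL
  let M : ℕ := ∑ i ∈ Finset.range (n + 1), L i
  have hLM : ∀ i ∈ Finset.range (n + 1), L i ≤ M := fun i hi =>
    Finset.single_le_sum (f := L) (fun _ _ => Nat.zero_le _) hi
  let F : Finset (List (Fin m)) := (List.finite_length_le (Fin m) M).toFinset
  have hF : ∀ w : List (Fin m), w.length ≤ M → w ∈ F := fun w hw => by
    simp only [F, Set.Finite.mem_toFinset, mem_ofPred_eq]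
    exact hw
  let A : ℝ := ∑ w ∈ F, (C ^ w.length).toReal
  have hA : 0 ≤ A := Finset.sum_nonneg fun _ _ => ENNReal.toReal_nonneg
  refine ⟨ε / 2 / (A + 1), by positivity, fun c' hc' => ?_⟩
  have hsub : B c' \ B c ⊆
      ((⋂ i ∈ Finset.range (n + 1), BN i c) \ ⋂ i, BN i c) ∪
        ⋃ w ∈ F, wd e w ⁻¹' {x | ∃ k, c.S k x ≠ c'.S k x} := by
    rintro x ⟨hx, hx'⟩
    rw [hB c'] at hx
    rw [hB c] at hx'
    by_cases h : x ∈ ⋂ i ∈ Finset.range (n + 1), BN i c
    · exact Or.inl ⟨h, hx'⟩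
    · right
      by_contra h2
      apply h
      simp only [mem_iInter]
      intro i hi
      refine (hL i c c' x ?_).2 (mem_iInter.1 hx i)
      intro w hw k
      by_contra h3
      apply h2
      simp only [mem_iUnion, mem_preimage, mem_ofPred_eq]
      exact ⟨w, hF w (hw.trans (hLM i hi)), k, h3⟩
  have h1 : ν.real (B c' \ B c) ≤ ν.real ((⋂ i ∈ Finset.range (n + 1), BN i c) \ ⋂ i, BN i c) +
      A * PCol.dst ν c c' :=
    ((measureReal_mono hsub (measure_ne_top _ _)).trans (measureReal_union_le _ _)).trans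
      (add_le_add le_rfl (USC_.near_le hq hC e F c c'))
  have h2 : A * PCol.dst ν c c' ≤ ε / 2 := by
    have h3 : A * PCol.dst ν c c' ≤ A * (ε / 2 / (A + 1)) :=
      mul_le_mul_of_nonneg_left hc'.le hA
    refine h3.trans ?_
    rw [mul_div_assoc']
    rw [div_le_iff₀ (by linarith)]
    nlinarith
  linarith

end Pool.Agent.MEQ
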