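import Pool.Agent.MEQ.Targets
import Pool.Agent.MEQ.Base
import Pool.Agent.MEO.VAN
import Pool.Agent.MEO.MES

set_option autoImplicit false

/-! Target `tVAQ`: vanishing sets of places which meet every component. -/

namespace Pool.Agent.MEQ

open MeasureTheory Set Filter
open scoped ENNReal
open Pool.Agent.MEC
open Pool.Agent.MEP
open Pool.Agent.MEO

universe u

open VAN_ in
theorem allVAQ : tVAQ.{u} := by
  intro V _ _ G m e ν _ hl R hR hRm X hX Z hZX hZ ε hε
  obtain ⟨-, hres, -⟩ := allMES V G m m e e hl
  obtain ⟨-, hreach, -⟩ := hres R hR hRm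
  have hemb := measurableEmbedding_embeddingReal V
  set f : V → ℝ := fun x => Real.arctan (embeddingReal V x) + Real.pi / 2 with hf
  have hfm : Measurable f := (Real.measurable_arctan.comp hemb.measurable).add_const _
  have hf0 : ∀ x, 0 ≤ f x := fun x => by
    have := Real.neg_pi_div_two_lt_arctan (embeddingReal V x)
    simp only [hf]
    linarith
  have hfi : Function.Injective f := by
    intro x y hxy
    simp only [hf, add_left_inj] at hxy
    exact hemb.injective (Real.arctan_injective hxy)
  set J : ℕ → Set V := fun n => JJ e R Z f (1 / ((n : ℝ) + 1)) with hJ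
  have hJm : ∀ n, MeasurableSet (J n) := fun n => meas_JJ hfm hreach hZ _
  have hJa : Antitone J := by
    intro n k hnk
    refine JJ_mono ?_
    apply one_div_le_one_div_of_le (by positivity)
    have : (n : ℝ) ≤ k := by exact_mod_cast hnk
    linarith
  set N := ⋂ n, J n with hN
  have hN0 : ν N = 0 := by
    refine hX N (fun x hx => hZX (mem_iInter.1 hx 0).1) (MeasurableSet.iInter hJm) ?_
    intro x hx y hy hxy
    exact JJ_unique hl hR hfi (fun n => mem_iInter.1 hx n) (fun n => mem_iInter.1 hy n) hxy
  have htend : Tendsto (fun n => ν (J n)) atTop (nhds 0) := by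
    have := tendsto_measure_iInter_atTop (μ := ν) (s := J)
      (fun n => (hJm n).nullMeasurableSet) hJa ⟨0, measure_ne_top _ _⟩
    rwa [← hN, hN0] at this
  have htend' : Tendsto (fun n => ν.real (J n)) atTop (nhds 0) := by
    have := (ENNReal.tendsto_toReal ENNReal.zero_ne_top).comp htend
    simpa [Measure.real, Function.comp_def] using this
  obtain ⟨n, hn⟩ := ((tendsto_order.1 htend').2 ε hε).exists
  refine ⟨J n, fun x hx => hx.1, hJm n, hn, fun x hx => ?_⟩
  exact JJ_meets hf0 (by positivity) hx

end Pool.Agent.MEQ
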