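import Pool.Agent.MEQ.Targets
import Pool.Agent.MEQ.Base

set_option autoImplicit false

/-! MP_fff3e1_lc: finite measurable vertex colourings for finitely many words. -/

namespace Pool.Agent.MEQ

open MeasureTheory Set Filter
open scoped ENNReal
open Pool.Agent.MEC
open Pool.Agent.MEP
open Pool.Agent.MEO

universe u

namespace VCL_

/-- a countable family which separates points from finite sets -/
lemma exists_sep (V : Type u) [MeasurableSpace V] [StandardBorelSpace V] :
    ∃ U : ℕ → Set V, (∀ j, MeasurableSet (U j)) ∧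
      ∀ (x : V) (F : Finset V), x ∉ F → ∃ j, x ∈ U j ∧ ∀ y ∈ F, y ∉ U j := by
  classical
  obtain ⟨en, hen⟩ := exists_surjective_nat (ℚ × ℚ)
  have hf := measurableEmbedding_embeddingReal V
  refine ⟨fun j => embeddingReal V ⁻¹' Ioo ((en j).1 : ℝ) ((en j).2 : ℝ),
    fun j => hf.measurable measurableSet_Ioo, ?_⟩
  intro x F hx
  have h1 : ∀ F : Finset V, x ∉ F → ∃ p q : ℚ, (p : ℝ) < embeddingReal V x ∧
      embeddingReal V x < (q : ℝ) ∧
      ∀ y ∈ F, embeddingReal V y ∉ Ioo (p : ℝ) (q : ℝ) := by
    intro F
    induction F using Finset.induction_on with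
    | empty =>
      intro _
      obtain ⟨p, hp⟩ := exists_rat_lt (embeddingReal V x)
      obtain ⟨q, hq⟩ := exists_rat_gt (embeddingReal V x)
      exact ⟨p, q, hp, hq, by simp⟩
    | insert y F _ ih =>
      intro hx
      rw [Finset.mem_insert, not_or] at hx
      obtain ⟨p, q, hp, hq, h⟩ := ih hx.2
      have hne : embeddingReal V x ≠ embeddingReal V y := fun h' => hx.1 (hf.injective h')
      rcases lt_or_gt_of_ne hne with hlt | hgt
      · obtain ⟨q', h1, h2⟩ := exists_rat_btwn hlt
        refine ⟨p, min q q', hp, ?_, ?_⟩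
        · rw [Rat.cast_min]
          exact lt_min hq h1
        · intro z hz hz'
          rw [Rat.cast_min] at hz'
          rcases Finset.mem_insert.1 hz with rfl | hz
          · exact absurd (hz'.2.trans_le (min_le_right _ _)) (not_lt.2 h2.le)
          · exact h z hz ⟨hz'.1, hz'.2.trans_le (min_le_left _ _)⟩
      · obtain ⟨p', h1, h2⟩ := exists_rat_btwn hgt
        refine ⟨max p p', q, ?_, hq, ?_⟩
        · rw [Rat.cast_max]
          exact max_lt hp h2
        · intro z hz hz'
          rw [Rat.cast_max] at hz'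
          rcases Finset.mem_insert.1 hz with rfl | hz
          · exact absurd ((le_max_right _ _).trans_lt hz'.1) (not_lt.2 h1.le)
          · exact h z hz ⟨(le_max_left _ _).trans_lt hz'.1, hz'.2⟩
  obtain ⟨p, q, hp, hq, h⟩ := h1 F hx
  obtain ⟨j, hj⟩ := hen (p, q)
  refine ⟨j, ?_, ?_⟩
  · simp only [mem_preimage, hj]
    exact ⟨hp, hq⟩
  · intro y hy
    simp only [mem_preimage, hj]
    exact h y hy

/-- smallest value which is not used -/
noncomputable def mx {ι : Type*} (a : ι → ℕ) : ℕ := sInf {i | ∀ w, a w ≠ i + 1}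

lemma mx_spec {ι : Type*} [Fintype ι] (a : ι → ℕ) :
    (∀ w, a w ≠ mx a + 1) ∧ mx a ≤ Fintype.card ι := by
  classical
  have h1 : ∃ i ∈ Finset.range (Fintype.card ι + 1), ∀ w, a w ≠ i + 1 := by
    by_contra h
    push Not at h
    have h2 : Finset.range (Fintype.card ι + 1) ⊆
        Finset.image (fun w => a w - 1) (Finset.univ : Finset ι) := by
      intro i hi
      obtain ⟨w, hw⟩ := h i hi
      exact Finset.mem_image.2 ⟨w, Finset.mem_univ _, by rw [hw]; rfl⟩
    have h3 := Finset.card_le_card h2
    rw [Finset.card_range] at h3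
    have h4 : (Finset.image (fun w => a w - 1) (Finset.univ : Finset ι)).card ≤
        Fintype.card ι := Finset.card_image_le
    omega
  obtain ⟨i, hi, h2⟩ := h1
  have hne : {i | ∀ w, a w ≠ i + 1}.Nonempty := ⟨i, h2⟩
  refine ⟨Nat.sInf_mem hne, ?_⟩
  have h3 : mx a ≤ i := Nat.sInf_le h2
  rw [Finset.mem_range] at hi
  omega

section red

variable {V : Type u} [MeasurableSpace V] {G : SimpleGraph V} {m : ℕ} (e : PCol G m)
  (W : Finset (List (Fin m))) (g : V → ℕ)

open Classical in
/-- the colours of the points with `g x < n` -/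
noncomputable def F : ℕ → V → ℕ
  | 0, _ => 0
  | n + 1, x => if g x = n then
      mx (fun w : W => if g (wd e w x) < n then F n (wd e w x) + 1 else 0) else F n x

lemma F_le (n : ℕ) (x : V) : F e W g n x ≤ W.card := by
  induction n generalizing x with
  | zero => exact Nat.zero_le _
  | succ n ih =>
    unfold F
    split_ifs with h
    · exact (mx_spec _).2.trans_eq (Fintype.card_coe W)
    · exact ih x

lemma F_stable {x : V} {n : ℕ} (h : g x < n) : F e W g n x = F e W g (g x + 1) x := by
  induction n with
  | zero => omega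
  | succ n ih =>
    by_cases h1 : g x = n
    · rw [h1]
    · rw [← ih (by omega)]
      conv_lhs => unfold F
      rw [if_neg h1]

lemma measurable_F (hg : Measurable g) (n : ℕ) : Measurable (F e W g n) := by
  classical
  induction n with
  | zero => exact measurable_const
  | succ n ih =>
    have h1 : F e W g (n + 1) = fun x => if g x = n then
      mx (fun w : W => if g (wd e w x) < n then F e W g n (wd e w x) + 1 else 0)
        else F e W g n x := by
      funext x
      conv_lhs => unfold F
    rw [h1]
    refine Measurable.ite (hg (measurableSet_singleton n)) ?_ ih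
    have h2 : Measurable fun x : V => fun w : W =>
        if g (wd e w x) < n then F e W g n (wd e w x) + 1 else 0 := by
      rw [measurable_pi_iff]
      intro w
      refine Measurable.ite ?_ ?_ measurable_const
      · exact (hg.comp (wd e w).measurable) (measurableSet_Iio (a := n))
      · exact (ih.comp (wd e w).measurable).add_const 1
    exact (measurable_of_countable (fun a : W → ℕ => mx a)).comp h2

/-- the final colour -/
noncomputable def f (x : V) : ℕ := F e W g (g x + 1) x

lemma f_lt (x : V) : f e W g x < W.card + 1 := Nat.lt_succ_of_le (F_le e W g _ x)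

lemma measurable_f (hg : Measurable g) : Measurable (f e W g) := by
  have h1 : ∀ E : Set ℕ, MeasurableSet (f e W g ⁻¹' E) := by
    intro E
    have h2 : f e W g ⁻¹' E = ⋃ n, {x | g x = n} ∩ F e W g (n + 1) ⁻¹' E := by
      ext x
      simp only [mem_preimage, mem_iUnion, mem_inter_iff, mem_setOf_eq]
      constructor
      · intro hx
        exact ⟨g x, rfl, hx⟩
      · rintro ⟨n, rfl, hx⟩
        exact hx
    rw [h2]
    exact MeasurableSet.iUnion fun n => (hg (measurableSet_singleton n)).inter
      (measurable_F e W g hg (n + 1) (MeasurableSet.of_discrete))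
  exact fun E _ => h1 E

lemma f_ne {x : V} {w : List (Fin m)} (hw : w ∈ W) (h : g (wd e w x) < g x) :
    f e W g (wd e w x) ≠ f e W g x := by
  classical
  intro heq
  have h1 : f e W g x = mx (fun w : W => if g (wd e w x) < g x then
      F e W g (g x) (wd e w x) + 1 else 0) := by
    unfold f
    conv_lhs => unfold F
    rw [if_pos rfl]
  have h2 := (mx_spec (fun w : W => if g (wd e w x) < g x then
      F e W g (g x) (wd e w x) + 1 else 0)).1 ⟨w, hw⟩
  rw [← h1] at h2
  simp only [if_pos h] at h2
  rw [F_stable e W g h] at h2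
  exact h2 (by rw [← heq]; rfl)

end red

end VCL_

open VCL_

theorem allVCL : tVCL.{u} := by
  classical
  intro V _ _ G m e W
  obtain ⟨U, hU, hs⟩ := exists_sep V
  set W' : Finset (List (Fin m)) := W ∪ W.image List.reverse with hW'
  have hrev : ∀ w ∈ W, w ∈ W' ∧ w.reverse ∈ W' := fun w hw =>
    ⟨Finset.mem_union_left _ hw, Finset.mem_union_right _ (Finset.mem_image_of_mem _ hw)⟩
  have hex : ∀ x : V, ∃ j, x ∈ U j ∧ ∀ w ∈ W', wd e w x ≠ x → wd e w x ∉ U j := by
    intro x
    obtain ⟨j, h1, h2⟩ := hs x ((W'.image fun w => wd e w x).erase x)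
      (Finset.notMem_erase _ _)
    refine ⟨j, h1, fun w hw hne => h2 _ ?_⟩
    exact Finset.mem_erase.2 ⟨hne, Finset.mem_image_of_mem _ hw⟩
  have hmP : ∀ j, MeasurableSet {x | x ∈ U j ∧ ∀ w ∈ W', wd e w x ≠ x → wd e w x ∉ U j} := by
    intro j
    have h1 : {x | x ∈ U j ∧ ∀ w ∈ W', wd e w x ≠ x → wd e w x ∉ U j} =
        U j ∩ ⋂ w ∈ W', ({x | wd e w x = x} ∪ (wd e w ⁻¹' (U j))ᶜ) := by
      ext x
      simp only [mem_setOf_eq, mem_inter_iff, mem_iInter, mem_union, mem_compl_iff, mem_preimage]
      refine and_congr_right fun _ => forall₂_congr fun w _ => ?_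
      tauto
    rw [h1]
    exact (hU j).inter (Finset.measurableSet_biInter _ fun w _ =>
      (measurableSet_eq_fun (wd e w).measurable measurable_id).union
        ((wd e w).measurable (hU j)).compl)
  set g : V → ℕ := fun x => Nat.find (hex x) with hgdef
  have hg : Measurable g := measurable_find hex hmP
  have hgs : ∀ x, ∀ w ∈ W', wd e w x ≠ x → g (wd e w x) ≠ g x := by
    intro x w hw hne heq
    have h1 := (Nat.find_spec (hex x)).2 w hw hne
    have h2 := (Nat.find_spec (hex (wd e w x))).1
    have h3 : Nat.find (hex (wd e w x)) = Nat.find (hex x) := heq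
    rw [h3] at h2
    exact h1 h2
  refine ⟨W'.card + 1, fun x => ⟨f e W' g x, f_lt e W' g x⟩, ?_, ?_⟩
  · have h1 : Measurable fun x => (⟨f e W' g x, f_lt e W' g x⟩ : {i // i < W'.card + 1}) :=
      (measurable_f e W' g hg).subtype_mk
    have h2 : ∀ E : Set (Fin (W'.card + 1)), MeasurableSet
        ((fun x => (⟨f e W' g x, f_lt e W' g x⟩ : Fin (W'.card + 1))) ⁻¹' E) := by
      intro E
      have h3 : (fun x => (⟨f e W' g x, f_lt e W' g x⟩ : Fin (W'.card + 1))) ⁻¹' E =
          f e W' g ⁻¹' {n | ∃ h : n < W'.card + 1, (⟨n, h⟩ : Fin _) ∈ E} := by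
        ext x
        simp only [mem_preimage, mem_setOf_eq]
        exact ⟨fun h => ⟨f_lt e W' g x, h⟩, fun ⟨_, h⟩ => h⟩
      rw [h3]
      exact measurable_f e W' g hg MeasurableSet.of_discrete
    exact fun E _ => h2 E
  · intro x w hw hne heq
    have heq' : f e W' g (wd e w x) = f e W' g x := congrArg Fin.val heq
    rcases lt_or_gt_of_ne (hgs x w (hrev w hw).1 hne) with hlt | hgt
    · exact f_ne e W' g (hrev w hw).1 hlt heq'
    · have hx : wd e w.reverse (wd e w x) = x := wd_reverse e w x
      refine f_ne e W' g (x := wd e w x) (hrev w hw).2 ?_ ?_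
      · rw [hx]; exact hgt
      · rw [hx]; exact heq'.symm

end Pool.Agent.MEQ
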