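import Pool.Agent.MEO.LAB
import Pool.Agent.MEO.MES
import Pool.Agent.MEO.AUG
import Pool.Agent.MEO.CYC
import Pool.Agent.MEO.BAI
import Pool.Agent.MEO.CMP
import Pool.Agent.MEQ.BDN
import Pool.Agent.MEQ.BDQ
import Pool.Agent.MEQ.BID
import Pool.Agent.MEQ.BND
import Pool.Agent.MEQ.CLQ
import Pool.Agent.MEQ.CLS
import Pool.Agent.MEQ.CMQ
import Pool.Agent.MEQ.CST
import Pool.Agent.MEQ.DEN
import Pool.Agent.MEQ.FLP
import Pool.Agent.MEQ.FNI
import Pool.Agent.MEQ.GEQ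
import Pool.Agent.MEQ.GRE
import Pool.Agent.MEQ.HALL
import Pool.Agent.MEQ.KGW
import Pool.Agent.MEQ.LO2A
import Pool.Agent.MEQ.LOCA
import Pool.Agent.MEQ.LOCB
import Pool.Agent.MEQ.MNQ
import Pool.Agent.MEQ.MPT
import Pool.Agent.MEQ.MTQ
import Pool.Agent.MEQ.NSN
import Pool.Agent.MEQ.ORQ
import Pool.Agent.MEQ.PRK
import Pool.Agent.MEQ.QDB
import Pool.Agent.MEQ.RND
import Pool.Agent.MEQ.RNS
import Pool.Agent.MEQ.SEL
import Pool.Agent.MEQ.SMC
import Pool.Agent.MEQ.SMO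
import Pool.Agent.MEQ.SPR
import Pool.Agent.MEQ.SRQ
import Pool.Agent.MEQ.THN
import Pool.Agent.MEQ.USC
import Pool.Agent.MEQ.VAQ
import Pool.Agent.MEQ.VCL

set_option autoImplicit false

/-! MP_fff3e1_lc, every Borel probability measure: assembly of all targets. -/

namespace Pool.Agent.MEQ

open MeasureTheory
open Pool.Agent.MEO

universe u

theorem fin_MES : tMES.{u} := allMES
theorem fin_GEQ : tGEQ.{u} := allGEQ allUSC allBAI allCMP
theorem fin_LOC : tLOC.{u} := fun V _ _ G m l e h =>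
  ⟨(allLOCA V G m l e h).1, (allLOCA V G m l e h).2, (allLOCB V G m l e h).1,
    (allLOCB V G m l e h).2⟩
theorem fin_LO2 : tLO2.{u} := fun U _ _ P K m e L t he hK h1 h2 h3 h4 h5 =>
  ⟨allLO2A U P K m e L he hK h1 h2, allLO2B U P K m e L t he hK h1 h2 h3 h4 h5⟩
theorem fin_SPR : tSPR.{u} := allSPR allVCL
theorem fin_HALL : tHALL.{u} := allHALL allVCL allDEN allBID allBND
theorem fin_NSN : tNSN.{u} := allNSN fin_HALL allQDB allLAB fin_MES
theorem fin_BDN : tBDN.{u} := allBDN allAUG fin_MES fin_SPR allVAQ allQDB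
theorem fin_ORQ : tORQ.{u} :=
  allORQ allQDB fin_HALL allBDQ fin_LO2 fin_GEQ fin_NSN fin_BDN allSMO fin_MES
theorem fin_SMC : tSMC.{u} := allSMC allSEL allMPT
theorem fin_CMQ : tCMQ.{u} := allCMQ allSMO fin_SMC fin_ORQ allMTQ fin_MES
theorem fin_KGW : tKGW.{u} := allKGW fin_HALL allQDB fin_MES
theorem fin_CLS : tCLS.{u} := allCLS fin_KGW allFLP allVAQ fin_LOC fin_MES
theorem fin_RND : tRND.{u} := allRND allTHN
theorem fin_RNS : tRNS.{u} := allRNS fin_RND allCST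
theorem fin_SRQ : tSRQ.{u} := allSRQ fin_RNS fin_SPR allVAQ
theorem fin_CLQ : tCLQ.{u} := allCLQ fin_GEQ fin_LOC fin_CLS fin_SRQ allPRK
/-- the theorem for bipartite graphs -/
theorem fin_MNQ : tMNQ.{u} := allMNQ allLAB fin_CLQ fin_CMQ
/-- the theorem for graphs which have no odd cycles after `n` removals of light edges -/
theorem fin_FNI (V : Type u) [MeasurableSpace V] [StandardBorelSpace V] (Δ : ℕ)
    (μ : Measure V) [IsFiniteMeasure μ] (n : ℕ) : ∀ (G : SimpleGraph V),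
    MeasurableSet {p : V × V | G.Adj p.1 p.2} → (∀ x, (G.neighborSet x).encard ≤ Δ) →
    (∀ x y, G.Adj x y → (G.neighborSet x).encard < Δ ∨ (G.neighborSet y).encard < Δ) →
    (∀ (v : V) (p : ((noLight Δ)^[n] G).Walk v v), p.IsCycle → Even p.length) →
    ∃ c : Pool.Agent.MEC.PCol G Δ, ∀ᵐ x ∂μ, ∀ y, G.Adj x y → ∃ k, c.S k x = y :=
  allFNI allLAB fin_MES allCYC fin_MNQ allGRE V Δ μ n

end Pool.Agent.MEQ
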