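import Pool.Agent.MEO.Base
import Pool.Agent.MEC.QInv

set_option autoImplicit false

/-! MP_fff3e1_lc: every Borel probability measure, graphs without odd cycles, every `Δ`.
Definitions.  Proofs: Blueprint.lean.txt.  `QInv` is in MEC/QInv, `PCol`, `dst`, `lim` in MEC,
`PC`, `toPC`, `al`, `NS`, `Long`, `Clean` in MEP/Defs, `RG`, `dg`, `XX`, `Bad`, `TS`, `EL`, `Lab`,
`wd`, `Cm`, `PX`, `DK`, `DP`, `dbl` in MEO/Defs, small lemmas in MEO/Base. -/

namespace Pool.Agent.MEQ

open MeasureTheory Set Filter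
open scoped ENNReal
open Pool.Agent.MEC
open Pool.Agent.MEP
open Pool.Agent.MEO

universe u

section plain

variable {V : Type u} {G : SimpleGraph V} {l : ℕ}

/-- points on infinite strands of `s` and `t` -/
def Inf (s t : V → V) : Set V := {x | ∀ N, (NS s t N x ∨ NS t s N x) ∧ x ∈ Long s t N}

/-- the bad components which contain no vertex of degree less than `Δ` from which an exchange
can be completed in finitely many steps -/
def X1 (G R : SimpleGraph V) (Δ l r : ℕ) : Set V :=
  {x | x ∈ XX R r ∧ ∀ y, R.Reachable x y → dg G y < Δ → ∀ n, y ∉ TS G R Δ l r ∅ n true}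

/-- no two points of `T` are in the same component -/
def PT (R : SimpleGraph V) (T : Set V) : Prop := ∀ x ∈ T, ∀ y ∈ T, R.Reachable x y → x = y

/-- the union of the components which meet `T` -/
def sn (R : SimpleGraph V) (T : Set V) : Set V := {x | ∃ y ∈ T, R.Reachable x y}

/-- `X` is a union of components -/
def Cld (R : SimpleGraph V) (X : Set V) : Prop := ∀ x ∈ X, ∀ y, R.Adj x y → y ∈ X

/-- the strands of two involutions as a graph -/
def SG (s t : V → V) : SimpleGraph V where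
  Adj x y := x ≠ y ∧ ((y = s x ∧ x = s y) ∨ (y = t x ∧ x = t y))
  symm := ⟨fun _ _ h => ⟨h.1.symm, h.2.imp And.symm And.symm⟩⟩
  loopless := ⟨fun _ h => h.1 rfl⟩

/-- right vertices without a finite alternating path to a free right vertex -/
def NF (K : SimpleGraph V) (L : Set V) (s : V → V) : Set V := {y | y ∉ L ∧ ∀ j, y ∉ EL K L s j}

/-! ### Exchange steps -/

/-- an exchange step; kind 0: the edge `a v` replaces the edge `a b` in `R`; kind 1: the edge
`a b` leaves `R`; kind 2: the edge `a v` enters `R` -/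
structure Ex (A : Type*) where
  kd : Fin 3
  a : A
  v : A
  b : A

/-- the same step for the images of the points -/
def Ex.mp {A B : Type*} (f : A → B) (x : Ex A) : Ex B := ⟨x.kd, f x.a, f x.v, f x.b⟩

/-- perform a step -/
def ap (R : SimpleGraph V) (x : Ex V) : SimpleGraph V :=
  if x.kd = 0 then ins (del R x.a x.b) x.a x.v else
    if x.kd = 1 then del R x.a x.b else ins R x.a x.v

/-- perform the steps of a list -/
def apL (R : SimpleGraph V) (σ : List (Ex V)) : SimpleGraph V := σ.foldl ap R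

/-- the step is possible, and does not remove an edge of `R` inside `X` off `P` -/
def Leg (G : SimpleGraph V) (l r : ℕ) (X P : Set V) (R : SimpleGraph V) (x : Ex V) : Prop :=
  (x.kd = 0 → R.Adj x.a x.b ∧ G.Adj x.a x.v ∧ ¬ R.Adj x.a x.v ∧ dg R x.v < r ∧
    dg G x.b < dg R x.b + l) ∧
  (x.kd = 1 → R.Adj x.a x.b ∧ dg G x.a < dg R x.a + l ∧ dg G x.b < dg R x.b + l) ∧
  (x.kd = 2 → G.Adj x.a x.v ∧ ¬ R.Adj x.a x.v ∧ dg R x.a < r ∧ dg R x.v < r) ∧
  (x.kd ≠ 2 → x.a ∈ X → x.b ∈ X → x.a ∈ P ∨ x.b ∈ P)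

/-- all steps of the list are possible one after the other -/
def LegL (G : SimpleGraph V) (l r : ℕ) (X P : Set V) : SimpleGraph V → List (Ex V) → Prop
  | _, [] => True
  | R, x :: σ => Leg G l r X P R x ∧ LegL G l r X P (ap R x) σ

/-- the stars of `x` in `R` and `R'` agree -/
def SA (R R' : SimpleGraph V) (x : V) : Prop := ∀ y, R.Adj x y ↔ R'.Adj x y

/-- points on a strand of two different colours with an end in `E` -/
def Tch (c : PC G l) (E : Set V) : Set V :=
  {z | ∃ g h : Fin l, g ≠ h ∧ ∃ n, al (c.S g) (c.S h) n z ∈ E ∧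
    (c.S g (al (c.S g) (c.S h) n z) = al (c.S g) (c.S h) n z ∨
      c.S h (al (c.S g) (c.S h) n z) = al (c.S g) (c.S h) n z)}

/-! ### The load in Hall's condition -/

open Classical in
/-- every left vertex distributes the weight one (`θ` for the optional vertices in `O`) evenly
over its neighbours; `ld K O θ y` is the weight received by `y` -/
noncomputable def ld (K : SimpleGraph V) (O : Set V) (θ : ℝ≥0∞) (y : V) : ℝ≥0∞ :=
  ∑' x : K.neighborSet y, (if (x : V) ∈ O then θ else 1) / (dg K (x : V) : ℝ≥0∞)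

end plain

section measurable

variable {V : Type u} [MeasurableSpace V] {G K : SimpleGraph V} {l m : ℕ}

/-- `X` contains no measurable transversal of positive measure -/
def NSm (ν : Measure V) (R : SimpleGraph V) (X : Set V) : Prop :=
  ∀ T ⊆ X, MeasurableSet T → PT R T → ν T = 0

/-- `B c` is the intersection of measurable sets which depend only on the state near the point -/
def Loc (e : PCol G m) (B : PCol K l → Set V) : Prop :=
  ∃ BN : ℕ → PCol K l → Set V, (∀ n c, MeasurableSet (BN n c)) ∧ (∀ c, B c = ⋂ n, BN n c) ∧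
    ∀ n, ∃ L : ℕ, ∀ (c c' : PCol K l) (x : V),
      (∀ w : List (Fin m), w.length ≤ L → ∀ k, c.S k (wd e w x) = c'.S k (wd e w x)) →
      (x ∈ BN n c ↔ x ∈ BN n c')

/-- small changes of the state `c` do not remove a substantial part of `B c` -/
def Stb (ν : Measure V) (Q : V → (Fin l → V) → Prop) (B : PCol K l → Set V) (c : PCol K l) :
    Prop :=
  ∀ ε : ℝ, 0 < ε → ∃ δ : ℝ, 0 < δ ∧ ∀ c' : PCol K l, (∀ᵐ x ∂ν, Q x fun k => c'.S k x) →
    PCol.dst ν c c' < δ → ν.real (B c \ B c') < ε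

/-- generic states of the cleaning step -/
structure GS (ν : Measure V) (Δ r : ℕ) (c : PCol G l) : Prop where
  sat : ∀ᵐ x ∂ν, dg (RG (toPC c)) x ≤ r
  bad : ∀ g h : Fin l, g ≠ h → Stb ν (QR G r) (fun c : PCol G l => Bad (c.S g) (c.S h)) c
  inf : ∀ g h : Fin l, g ≠ h → Stb ν (QR G r) (fun c : PCol G l => Inf (c.S g) (c.S h)) c
  xx : Stb ν (QR G r) (fun c : PCol G l => XX (RG (toPC c)) r) c
  x1 : Stb ν (QR G r) (fun c : PCol G l => X1 G (RG (toPC c)) Δ l r) c

/-- every bad part without transversals is null -/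
def Cln (ν : Measure V) (r : ℕ) (c : PCol G l) : Prop :=
  ∀ X ⊆ XX (RG (toPC c)) r, MeasurableSet X → Cld (RG (toPC c)) X → NSm ν (RG (toPC c)) X →
    ν X = 0

/-- the points near `J` -/
def Rgn (e : PCol G m) (W : Finset (List (Fin m))) (J : Set V) : Set V :=
  {z | ∃ p ∈ J, ∃ w ∈ W, wd e w p = z}

/-- the regions of different points of `J` are disjoint -/
def Spr (e : PCol G m) (W : Finset (List (Fin m))) (J : Set V) : Prop :=
  ∀ p ∈ J, ∀ q ∈ J, ∀ w ∈ W, ∀ w' ∈ W, wd e w p = wd e w' q → p = q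

/-- the step coded by words, at the point `p` -/
noncomputable def at' (e : PCol G m) (p : V) (x : Ex (List (Fin m))) : Ex V :=
  x.mp fun w => wd e w p

/-- all words of the code are in `W` -/
def Inw (W : Finset (List (Fin m))) (σ : List (Ex (List (Fin m)))) : Prop :=
  ∀ x ∈ σ, x.a ∈ W ∧ x.v ∈ W ∧ x.b ∈ W

/-- the code `σ` has been carried out at all points of `J'`, and partly at the other points
of `J` -/
structure Exd (e : PCol G m) (c c' : PCol G l) (σ : List (Ex (List (Fin m))))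
    (W : Finset (List (Fin m))) (J J' : Set V) : Prop where
  sub : J' ⊆ J
  full : ∀ p ∈ J', ∀ w ∈ W, SA (RG (toPC c')) (apL (RG (toPC c)) (σ.map (at' e p))) (wd e w p)
  part : ∀ p ∈ J, ∃ n ≤ σ.length, ∀ w ∈ W,
    SA (RG (toPC c')) (apL (RG (toPC c)) ((σ.take n).map (at' e p))) (wd e w p)
  off : ∀ z ∉ Rgn e W J, SA (RG (toPC c')) (RG (toPC c)) z

/-- a state of the auction: `s` is the matching, `k y` the number of bids for `y`, `δ κ x` the
density of the measure at `e.S κ x` relative to `x` -/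
structure Auc (e : PCol G m) (ν : Measure V) (L O : Set V) (δ : Fin m → V → ℝ≥0∞) (c : ℝ≥0∞)
    (s : V → V) (k : V → ℕ) : Prop where
  ms : Measurable s
  mk' : Measurable k
  inv : ∀ x, s (s x) = x
  adj : ∀ x, s x ≠ x → G.Adj x (s x)
  zero : ∀ y, y ∉ L → s y = y → k y = 0
  cs : ∀ᵐ x ∂ν, x ∈ L → ∀ κ κ', e.S κ x = s x → s x ≠ x → e.S κ' x ≠ x →
    k (e.S κ x) * δ κ x ≤ k (e.S κ' x) * δ κ' x + δ κ x
  cap : ∀ᵐ x ∂ν, x ∈ O → ∀ κ, e.S κ x = s x → s x ≠ x → k (e.S κ x) * δ κ x ≤ c + δ κ x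

/-- densities: `δ κ` is the density for the involution `e.S κ` -/
structure Den (e : PCol G m) (ν : Measure V) (C : ℝ≥0∞) (δ : Fin m → V → ℝ≥0∞) : Prop where
  meas : ∀ κ, Measurable (δ κ)
  cov : ∀ κ (f : V → ℝ≥0∞), Measurable f → ∫⁻ x, f (e.S κ x) * δ κ x ∂ν = ∫⁻ x, f x ∂ν
  up : ∀ κ, ∀ᵐ x ∂ν, δ κ x ≤ C
  lo : ∀ κ, ∀ᵐ x ∂ν, C⁻¹ ≤ δ κ x

end measurable

end Pool.Agent.MEQ
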