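import Pool.Agent.MEQ.Targets
import Pool.Agent.MEO.GEN

set_option autoImplicit false

/-! MP_fff3e1_lc: common continuity points of finitely many local functionals. -/

namespace Pool.Agent.MEQ

open MeasureTheory Set Filter
open scoped ENNReal
open Pool.Agent.MEC
open Pool.Agent.MEP
open Pool.Agent.MEO

universe u

theorem allGEQ (h_USC : tUSC.{u}) (h_BAI : tBAI.{u}) (h_CMP : tCMP.{u}) : tGEQ.{u} := by
  intro V _ _ G K m l e ν _ C hq hC ι _ B hB Q ⟨c0, hc0⟩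
  let X : Type u := {c : PCol K l // ∀ᵐ x ∂ν, Q x fun k => c.S k x}
  have hF : ∀ (i : ι) (x : X), MeasurableSet (B i x.1) := by
    intro i x
    obtain ⟨BN, hm, hB, -⟩ := hB i
    rw [hB]
    exact MeasurableSet.iInter fun n => hm n x.1
  have hu : ∀ (i : ι) (x : X), ∀ ε : ℝ, 0 < ε → ∃ δ : ℝ, 0 < δ ∧ ∀ y : X,
      PCol.dst ν x.1 y.1 < δ → ν.real (B i y.1 \ B i x.1) < ε := by
    intro i x ε hε
    obtain ⟨δ, hδ, hP⟩ := h_USC V G K m l e ν C hq hC (B i) (hB i) x.1 ε hε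
    exact ⟨δ, hδ, fun y hy => hP y.1 hy⟩
  obtain ⟨x, hx⟩ := GEN_.abstract h_BAI ν X (fun a b => PCol.dst ν a.1 b.1)
    (fun a b => PCol.dst_nonneg a.1 b.1) (fun a => PCol.dst_self a.1)
    (fun a b => PCol.dst_comm a.1 b.1) (fun a b c => PCol.dst_triangle a.1 b.1 c.1)
    (by
      intro c hc
      obtain ⟨t, ht, h1⟩ := h_CMP V K l ν Q (fun n => (c n).1) (fun n => (c n).2) hc
      exact ⟨⟨t, ht⟩, h1⟩)
    ι (fun i c => B i c.1) hF hu ⟨c0, hc0⟩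
  refine ⟨x.1, x.2, fun i ε hε => ?_⟩
  obtain ⟨δ, hδ, hP⟩ := hx i ε hε
  exact ⟨δ, hδ, fun c' hc' hd => hP ⟨c', hc'⟩ hd⟩

end Pool.Agent.MEQ
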