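import Pool.Agent.MEQ.Targets
import Pool.Agent.MEQ.Base
import Pool.Agent.MEO.BB
import Pool.Agent.MEO.MES

set_option autoImplicit false

/-! Target `tSMO`: a maximal set which meets every component at most once. -/

namespace Pool.Agent.MEQ

open MeasureTheory Set Filter
open scoped ENNReal
open Pool.Agent.MEC
open Pool.Agent.MEP
open Pool.Agent.MEO

universe u

namespace SMO_

variable {V : Type u} [MeasurableSpace V] {G : SimpleGraph V} {m : ℕ} {e : PCol G m}
  {R : SimpleGraph V}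

lemma meas_sn (hl : Lab e) (hR : R ≤ G)
    (hm : MeasurableSet {p : V × V | R.Reachable p.1 p.2}) {T : Set V} (hT : MeasurableSet T) :
    MeasurableSet (sn R T) := by
  have h1 : sn R T = ⋃ w : List (Fin m), {x | wd e w x ∈ T ∧ R.Reachable x (wd e w x)} := by
    ext x
    simp only [sn, mem_iUnion, mem_ofPred_eq]
    constructor
    · rintro ⟨y, hy, hxy⟩
      obtain ⟨w, rfl⟩ := Cm_of_reachable hl hR hxy
      exact ⟨w, hy, hxy⟩
    · rintro ⟨w, hw, hxw⟩
      exact ⟨_, hw, hxw⟩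
  rw [h1]
  refine MeasurableSet.iUnion fun w => ?_
  have hw : Measurable (wd e w) := (wd e w).measurable
  have h2 : MeasurableSet {x | wd e w x ∈ T} := hw hT
  have h3 : MeasurableSet {x | R.Reachable x (wd e w x)} := (measurable_id.prodMk hw) hm
  exact h2.inter h3

/-- increasing unions of such sets -/
lemma PT_iUnion {c : ℕ → Set V} (hc : ∀ n, c n ⊆ c (n + 1)) (h : ∀ n, PT R (c n)) :
    PT R (⋃ n, c n) := by
  have hmono : Monotone c := monotone_nat_of_le_succ hc
  intro x hx y hy hxy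
  obtain ⟨a, ha⟩ := mem_iUnion.1 hx
  obtain ⟨b, hb⟩ := mem_iUnion.1 hy
  exact h (max a b) x (hmono (le_max_left a b) ha) y (hmono (le_max_right a b) hb) hxy

lemma PT_union {T T' : Set V} (h : PT R T) (h' : PT R T') (hd : T' ⊆ (sn R T)ᶜ) :
    PT R (T ∪ T') := by
  rintro x (hx | hx) y (hy | hy) hxy
  · exact h x hx y hy hxy
  · exact absurd ⟨x, hx, hxy.symm⟩ (hd hy)
  · exact absurd ⟨y, hy, hxy⟩ (hd hx)
  · exact h' x hx y hy hxy

end SMO_

open SMO_ in
theorem allSMO : tSMO.{u} := by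
  intro V _ _ G m e ν _ hl R hR hRm
  obtain ⟨-, hres, -⟩ := allMES V G m m e e hl
  obtain ⟨-, hreach, -⟩ := hres R hR hRm
  obtain ⟨⟨T, hTm, hT⟩, -, hmax⟩ := allBB {T : Set V // MeasurableSet T ∧ PT R T}
    (fun T T' => T.1 ⊆ T'.1) (fun T => ν.real T.1) (ν.real univ) (fun _ => Subset.rfl)
    (fun _ _ _ h h' => h.trans h')
    (fun _ T' h => measureReal_mono h (measure_ne_top _ _))
    (fun T => measureReal_mono (subset_univ _) (measure_ne_top _ _))
    (fun c hc => ⟨⟨⋃ n, (c n).1, MeasurableSet.iUnion fun n => (c n).2.1,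
      PT_iUnion hc fun n => (c n).2.2⟩, fun n => subset_iUnion (fun n => (c n).1) n⟩)
    ⟨∅, MeasurableSet.empty, fun x hx => absurd hx (notMem_empty x)⟩
  refine ⟨T, hTm, hT, meas_sn hl hR hreach hTm, fun T' hT' hT'm hPT => ?_⟩
  have h1 := hmax ⟨T ∪ T', hTm.union hT'm, PT_union hT hPT hT'⟩ subset_union_left
  have hd : Disjoint T T' := by
    rw [Set.disjoint_left]
    intro x hx hx'
    exact hT' hx' ⟨x, hx, SimpleGraph.Reachable.rfl⟩
  have h2 : ν.real (T ∪ T') = ν.real T + ν.real T' :=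
    measureReal_union hd hT'm (measure_ne_top _ _) (measure_ne_top _ _)
  have h3 : ν.real T' = 0 := by
    have h4 : ν.real (T ∪ T') = ν.real T := h1
    linarith
  exact (measureReal_eq_zero_iff (measure_ne_top _ _)).1 h3

end Pool.Agent.MEQ
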