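import Pool.Agent.MEQ.Targets

set_option autoImplicit false

/-! MP_fff3e1_lc, every Borel probability measure: light edges (degree sum at most `Δ + 1`) are
coloured greedily at the end, so only odd cycles without light edges have to be excluded. -/

namespace Pool.Agent.MEQ

open MeasureTheory Set Filter
open scoped ENNReal
open Pool.Agent.MEC
open Pool.Agent.MEP
open Pool.Agent.MEO

universe u

/-- E2 greedy colouring of the light edges -/
def tGRE : Prop := ∀ (V : Type u) [MeasurableSpace V] [StandardBorelSpace V]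
    (G : SimpleGraph V) (Δ m : ℕ) (e : PCol G m), Lab e → ∀ c : PCol G Δ, ∃ c' : PCol G Δ,
  (∀ k x, c.S k x ≠ x → c'.S k x = c.S k x) ∧
  ∀ x y, G.Adj x y → dg G x + dg G y ≤ Δ + 1 → ∃ k, c'.S k x = y

/-- E3 the theorem with light edges -/
def tFNQ : Prop := ∀ (V : Type u) [MeasurableSpace V] [StandardBorelSpace V]
    (G : SimpleGraph V) (Δ : ℕ) (μ : Measure V) [IsFiniteMeasure μ],
  MeasurableSet {p : V × V | G.Adj p.1 p.2} → (∀ x, (G.neighborSet x).encard ≤ Δ) →
  (∀ x y, G.Adj x y → (G.neighborSet x).encard < Δ ∨ (G.neighborSet y).encard < Δ) →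
  (∀ (v : V) (p : G.Walk v v), p.IsCycle → Odd p.length →
    ∃ x y, s(x, y) ∈ p.edges ∧
      (G.neighborSet x).encard + (G.neighborSet y).encard ≤ (Δ + 1 : ℕ)) →
  ∃ c : PCol G Δ, ∀ᵐ x ∂μ, ∀ y, G.Adj x y → ∃ k, c.S k x = y

end Pool.Agent.MEQ
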